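import Pool.Agent.Lib_helper84.Cub.Val

/-!
# Data attached to a point
-/

namespace Pool.Agent.Lib_helper84.Cub

open Pool.Agent.Lib_helper18 Pool.Agent.Lib_helper18.Eis

/-- the product of the prime powers in cell `k` -/
def cell {m : ℕ} (p e : Fin m → ℕ) (pos : Fin m → Fin 3) (k : Fin 3) : ℤ :=
  ∏ j, if pos j = k then (p j : ℤ) ^ e j else 1

/-- a solution of `a_0 x_0^3 + a_1 x_1^3 + a_2 x_2^3 = 0` with pairwise coprime terms -/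
structure IsPt {m : ℕ} (p e : Fin m → ℕ) (pos : Fin m → Fin 3) (x : Fin 3 → ℤ) : Prop where
  ne : ∀ k, x k ≠ 0
  sum : ∑ k, cell p e pos k * x k ^ 3 = 0
  cop : ∀ i j, i ≠ j → IsCoprime (cell p e pos i * x i) (cell p e pos j * x j)

/-- the statement of the first descent (Step 0) -/
def Step0Stmt : Prop := ∀ {m : ℕ} {p e : Fin m → ℕ}, 2 ≤ m → (∀ i, (p i).Prime) →
  (∀ i, p i % 9 = 2 ∨ p i % 9 = 5) → Function.Injective p → (∀ i, e i = 1 ∨ e i = 2) →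
  (∃ X Y : ℚ, X ^ 3 + Y ^ 3 = ∏ i, (p i : ℚ) ^ e i) →
  ∃ (pos : Fin m → Fin 3) (x : Fin 3 → ℤ), (∀ k, ∃ j, pos j ≠ k) ∧ IsPt p e pos x ∧
    ((∏ i, (p i : ℤ) ^ e i) % 9 = 1 ∨ (∏ i, (p i : ℤ) ^ e i) % 9 = 8 →
      ∀ k k', wq (cell p e pos k) = wq (cell p e pos k'))

end Pool.Agent.Lib_helper84.Cub
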