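import Pool.Agent.Lib_helper84.Cub.CaseThree
import Pool.Agent.Lib_helper84.Cub.Defs

/-!
# From the cells to the three cases
-/

namespace Pool.Agent.Lib_helper84.Cub

open Pool.Agent.Lib_helper18 Pool.Agent.Lib_helper18.Eis

variable {m : ℕ} {p e e' : Fin m → ℕ} {pos pos' : Fin m → Fin 3} {x y : Fin 3 → ℤ}

theorem cell_perm (p e : Fin m → ℕ) (pos : Fin m → Fin 3) (σ : Equiv.Perm (Fin 3)) (k : Fin 3) :
    cell p e (σ ∘ pos) (σ k) = cell p e pos k := by
  simp [cell]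

theorem IsPt.perm (h : IsPt p e pos x) (σ : Equiv.Perm (Fin 3)) :
    IsPt p e (σ ∘ pos) (x ∘ σ.symm) := by
  have hc : ∀ k, cell p e (σ ∘ pos) k = cell p e pos (σ.symm k) := by
    intro k
    have := cell_perm p e pos σ (σ.symm k)
    rwa [σ.apply_symm_apply] at this
  refine ⟨fun k => h.ne _, ?_, ?_⟩
  · have := Equiv.sum_comp σ.symm (fun k => cell p e pos k * x k ^ 3)
    rw [← h.sum, ← this]
    refine Finset.sum_congr rfl (fun k _ => ?_)
    rw [hc]; rfl
  · intro i j hij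
    rw [hc, hc]
    exact h.cop _ _ (fun h' => hij (σ.symm.injective h'))

/-- the set of the two special indices -/
abbrev Sp (i0 i1 j : Fin m) : Prop := j = i0 ∨ j = i1

/-- the relation between the exponents -/
def Rel (i0 i1 : Fin m) (e e' : Fin m → ℕ) : Prop :=
  ∀ j, if Sp i0 i1 j then e j + e' j = 3 else e j = e' j

theorem Rel.symm {i0 i1 : Fin m} (h : Rel i0 i1 e e') : Rel i0 i1 e' e := by
  intro j
  have := h j
  split_ifs at this ⊢ with hj
  · omega
  · exact this.symm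

theorem prod_Sp {i0 i1 : Fin m} (h01 : i0 ≠ i1) (f : Fin m → ℤ) :
    ∏ j, (if Sp i0 i1 j then f j else 1) = f i0 * f i1 := by
  have e : ∀ j, (if Sp i0 i1 j then f j else 1) =
      (if j = i0 then f j else 1) * (if j = i1 then f j else 1) := by
    intro j
    by_cases h0 : j = i0
    · have h1 : j ≠ i1 := fun h => h01 (h0.symm.trans h)
      simp [h0, h01]
    · by_cases h1 : j = i1
      · simp [h1, h01.symm]
      · simp [Sp, h0, h1]
  rw [Finset.prod_congr rfl (fun j _ => e j), Finset.prod_mul_distrib]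
  simp

/-- all primes of `Z[ω]` dividing `n` divide some `p j` -/
def SPr (p : Fin m → ℕ) (n : ℤ) : Prop :=
  ∀ l : Eis, Prime l → l ∣ (n : Eis) → ∃ j, l ∣ (p j : Eis)

theorem SPr.mul {a b : ℤ} (ha : SPr p a) (hb : SPr p b) : SPr p (a * b) := by
  intro l hl h
  push_cast at h
  rcases hl.dvd_or_dvd h with h | h
  · exact ha l hl h
  · exact hb l hl h

theorem SPr.prod (p : Fin m → ℕ) (c : Fin m → Prop) [DecidablePred c] (n : Fin m → ℕ) :
    SPr p (∏ j, if c j then (p j : ℤ) ^ n j else 1) := by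
  intro l hl h
  push_cast at h
  rw [Prime.dvd_finsetProd_iff hl] at h
  obtain ⟨j, -, hj⟩ := h
  split_ifs at hj with hc
  · exact ⟨j, hl.dvd_of_dvd_pow hj⟩
  · exact absurd (isUnit_of_dvd_one hj) hl.not_isUnit

theorem dvd_prod_if {p : Fin m → ℕ} (c : Fin m → Prop) [DecidablePred c] {n : Fin m → ℕ} {i : Fin m}
    (hc : c i) (hn : n i ≠ 0) : (p i : ℤ) ∣ ∏ j, if c j then (p j : ℤ) ^ n j else 1 := by
  refine dvd_trans ?_ (Finset.dvd_prod_of_mem _ (Finset.mem_univ i))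
  rw [if_pos hc]
  exact dvd_pow_self _ hn

theorem not_dvd_prod_if (hp : ∀ i, (p i).Prime) (hinj : Function.Injective p) (c : Fin m → Prop)
    [DecidablePred c] {n : Fin m → ℕ} {i : Fin m} (hc : ¬ c i) :
    ¬ (p i : ℤ) ∣ ∏ j, if c j then (p j : ℤ) ^ n j else 1 := by
  have hP := Nat.prime_iff_prime_int.mp (hp i)
  intro h
  rw [Prime.dvd_finsetProd_iff hP] at h
  obtain ⟨j, -, hj⟩ := h
  split_ifs at hj with hcj
  · have h1 := hP.dvd_of_dvd_pow hj
    have h2 : p i ∣ p j := by exact_mod_cast h1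
    have h3 := (Nat.prime_dvd_prime_iff_eq (hp i) (hp j)).mp h2
    rw [hinj h3] at hc
    exact hc hcj
  · exact hP.not_isUnit (isUnit_of_dvd_one hj)

theorem sum3 {f : Fin 3 → ℤ} (h : ∑ k, f k = 0) : f 0 + f 1 + f 2 = 0 := by
  rwa [Fin.sum_univ_three] at h

/-- data used in all cases -/
structure Base (p e e' : Fin m → ℕ) (i0 i1 : Fin m) : Prop where
  hp : ∀ i, (p i).Prime
  h3 : ∀ i, p i % 3 = 2
  inj : Function.Injective p
  he : ∀ i, e i = 1 ∨ e i = 2
  he' : ∀ i, e' i = 1 ∨ e' i = 2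
  h01 : i0 ≠ i1
  hw : ∀ i, sym (p i : Eis) w ≠ 0
  hab : (e i0 : ZMod 3) * sym (p i0 : Eis) w + (e i1 : ZMod 3) * sym (p i1 : Eis) w = 0
  rel : Rel i0 i1 e e'

theorem Base.symm {i0 i1 : Fin m} (b : Base p e e' i0 i1) : Base p e' e i0 i1 where
  hp := b.hp
  h3 := b.h3
  inj := b.inj
  he := b.he'
  he' := b.he
  h01 := b.h01
  hw := b.hw
  hab := by
    have h0 := b.rel i0
    have h1 := b.rel i1
    rw [if_pos (Or.inl rfl)] at h0
    rw [if_pos (Or.inr rfl)] at h1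
    have h0' : (e i0 : ZMod 3) + e' i0 = 0 := by
      have := congrArg (fun n : ℕ => (n : ZMod 3)) h0
      push_cast at this
      rw [this, three_zmod]
    have h1' : (e i1 : ZMod 3) + e' i1 = 0 := by
      have := congrArg (fun n : ℕ => (n : ZMod 3)) h1
      push_cast at this
      rw [this, three_zmod]
    linear_combination sym (p i0 : Eis) w * h0' + sym (p i1 : Eis) w * h1' - b.hab
  rel := b.rel.symm

theorem zmod_ne {n : ℕ} (h : n = 1 ∨ n = 2) : (n : ZMod 3) ≠ 0 := by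
  rcases h with rfl | rfl <;> decide

theorem Base.good {i0 i1 : Fin m} (b : Base p e e' i0 i1) {l : Eis} (hl : Prime l)
    (hq : ¬ l ∣ (p i0 : Eis)) (hr : ¬ l ∣ (p i1 : Eis)) {j : Fin m} (hj : l ∣ (p j : Eis)) :
    (e i0 : ZMod 3) * sym l (p i0 : Eis) + (e i1 : ZMod 3) * sym l (p i1 : Eis) = 0 := by
  have hass := hl.associated_of_dvd (prime_inert (b.hp j) (b.h3 j)) hj
  have h1 : ¬ p j ∣ p i0 := fun h => hq (hass.dvd.trans (Nat.cast_dvd_cast h))
  have h2 : ¬ p j ∣ p i1 := fun h => hr (hass.dvd.trans (Nat.cast_dvd_cast h))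
  rw [sym_associated hass, sym_associated hass, sym_nat (b.hp j) (b.h3 j) h1,
    sym_nat (b.hp j) (b.h3 j) h2]
  ring

/-- swap 0 and 1 -/
def tau : Fin 3 → Fin 3 := ![1, 0, 2]

def fpos : Fin 3 → ZMod 3 := ![1, 0, 2]

theorem fpos_inj : ∀ a b : Fin 3, fpos a = fpos b → a = b := by decide

theorem concl_eq {a b u v f g : ZMod 3} (h : a * u + b * v = 0) (ha : a ≠ 0) (hu : u ≠ 0)
    (h' : a * (f * u) + b * (g * v) = 0) : f = g := by
  revert a b u v f g; decide

/-- **Case II** in terms of cells -/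
theorem caseII_gen {i0 i1 : Fin m} (b : Base p e e' i0 i1) (hP : IsPt p e pos x)
    (hP' : IsPt p e' pos' y) (hne : pos i0 ≠ pos i1)
    (hpos : ∀ j, pos' j = if Sp i0 i1 j then tau (pos j) else pos j) : False := by
  apply hne
  apply fpos_inj
  refine concl_eq (a := (e i0 : ZMod 3)) (b := (e i1 : ZMod 3)) b.hab (zmod_ne (b.he i0))
    (b.hw i0) ?_
  have key : ∀ i : Fin m, Sp i0 i1 i →
      ((p i : ℤ) ∣ cell p e pos 2 ∧ (p i : ℤ) ∣ cell p e' pos' 2 ∧
        ¬ (p i : ℤ) ∣ (∏ j, if Sp i0 i1 j ∧ pos j = 1 then (p j : ℤ) ^ 1 else 1) ∧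
        fpos (pos i) = 2 ∨
      (p i : ℤ) ∣ cell p e pos 0 ∧ (p i : ℤ) ∣ cell p e' pos' 1 ∧
        (p i : ℤ) ∣ (∏ j, if Sp i0 i1 j ∧ pos j = 0 then (p j : ℤ) ^ 1 else 1) ∧
        ¬ (p i : ℤ) ∣ (∏ j, if Sp i0 i1 j ∧ pos j = 1 then (p j : ℤ) ^ 1 else 1) ∧
        fpos (pos i) = 1 ∨
      (p i : ℤ) ∣ cell p e pos 1 ∧ (p i : ℤ) ∣ cell p e' pos' 0 ∧
        (p i : ℤ) ∣ (∏ j, if Sp i0 i1 j ∧ pos j = 1 then (p j : ℤ) ^ 1 else 1) ∧
        ¬ (p i : ℤ) ∣ (∏ j, if Sp i0 i1 j ∧ pos j = 0 then (p j : ℤ) ^ 1 else 1) ∧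
        fpos (pos i) = 0) := by
    intro i hi
    have he0 : e i ≠ 0 := by have := b.he i; omega
    have he0' : e' i ≠ 0 := by have := b.he' i; omega
    have hp' := hpos i
    rw [if_pos hi] at hp'
    have h3 : pos i = 0 ∨ pos i = 1 ∨ pos i = 2 := by
      generalize pos i = k; revert k; decide
    rcases h3 with h3 | h3 | h3
    · right; left
      rw [h3] at hp' ⊢
      exact ⟨dvd_prod_if (fun j => pos j = 0) h3 he0,
        dvd_prod_if (fun j => pos' j = 1) hp' he0',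
        dvd_prod_if (fun j => Sp i0 i1 j ∧ pos j = 0) ⟨hi, h3⟩ one_ne_zero,
        not_dvd_prod_if b.hp b.inj (fun j => Sp i0 i1 j ∧ pos j = 1)
          (fun h => by have := h.2; rw [h3] at this; exact absurd this (by decide)), rfl⟩
    · right; right
      rw [h3] at hp' ⊢
      exact ⟨dvd_prod_if (fun j => pos j = 1) h3 he0,
        dvd_prod_if (fun j => pos' j = 0) hp' he0',
        dvd_prod_if (fun j => Sp i0 i1 j ∧ pos j = 1) ⟨hi, h3⟩ one_ne_zero,
        not_dvd_prod_if b.hp b.inj (fun j => Sp i0 i1 j ∧ pos j = 0)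
          (fun h => by have := h.2; rw [h3] at this; exact absurd this (by decide)), rfl⟩
    · left
      rw [h3] at hp' ⊢
      exact ⟨dvd_prod_if (fun j => pos j = 2) h3 he0,
        dvd_prod_if (fun j => pos' j = 2) hp' he0',
        not_dvd_prod_if b.hp b.inj (fun j => Sp i0 i1 j ∧ pos j = 1)
          (fun h => by have := h.2; rw [h3] at this; exact absurd this (by decide)), rfl⟩
  have hx := sum3 hP.sum
  have hy := sum3 hP'.sum
  refine caseII (b.hp i0) (b.h3 i0) (b.hp i1) (b.h3 i1) b.hab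
    (B := (p i0 : ℤ) ^ e i0 * (p i1 : ℤ) ^ e i1)
    (k := ∏ j, if Sp i0 i1 j ∧ (pos j = 1 ∨ pos j = 2 ∧ e j = 2) then (p j : ℤ) ^ 1 else 1)
    (m := ∏ j, if Sp i0 i1 j ∧ (pos j = 0 ∨ pos j = 2 ∧ e j = 2) then (p j : ℤ) ^ 1 else 1)
    rfl hx (hP.cop 0 1 (by decide)) (hP.cop 1 2 (by decide)) hy (hP'.cop 0 1 (by decide))
    (hP'.cop 0 2 (by decide)) (hP'.cop 1 2 (by decide)) ?_ ?_ ?_ ?_ (key i0 (Or.inl rfl))
    (key i1 (Or.inr rfl)) ⟨hP.ne 0, hP'.ne 2⟩
  · -- h1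
    simp only [cell, ← Finset.prod_mul_distrib, ← Finset.prod_pow]
    refine Finset.prod_congr rfl (fun j _ => ?_)
    have hj := hpos j
    have hr := b.rel j
    have hej := b.he j
    have h3 : pos j = 0 ∨ pos j = 1 ∨ pos j = 2 := by
      generalize pos j = k; revert k; decide
    split_ifs at hj hr with hS
    · have hee : (e j = 1 ∧ e' j = 2) ∨ (e j = 2 ∧ e' j = 1) := by omega
      rcases h3 with h3 | h3 | h3 <;> rcases hee with ⟨he, h9⟩ | ⟨he, h9⟩ <;> rw [h3] at hj <;>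
        simp [hj, h3, hS, he, h9, tau] <;> ring
    · rcases h3 with h3 | h3 | h3 <;> rw [h3] at hj <;> simp [hj, h3, hS, hr]
  · -- h2
    rw [← prod_Sp b.h01 (fun j => (p j : ℤ) ^ e j)]
    simp only [cell, ← Finset.prod_mul_distrib, ← Finset.prod_pow]
    refine Finset.prod_congr rfl (fun j _ => ?_)
    have hj := hpos j
    have hr := b.rel j
    have hej := b.he j
    have h3 : pos j = 0 ∨ pos j = 1 ∨ pos j = 2 := by
      generalize pos j = k; revert k; decide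
    split_ifs at hj hr with hS
    · have hee : (e j = 1 ∧ e' j = 2) ∨ (e j = 2 ∧ e' j = 1) := by omega
      rcases h3 with h3 | h3 | h3 <;> rcases hee with ⟨he, h9⟩ | ⟨he, h9⟩ <;> rw [h3] at hj <;>
        simp [hj, h3, hS, he, h9, tau] <;> ring
    · rcases h3 with h3 | h3 | h3 <;> rw [h3] at hj <;> simp [hj, h3, hS, hr]
  · -- h3
    rw [← prod_Sp b.h01 (fun j => (p j : ℤ) ^ e j)]
    simp only [cell, ← Finset.prod_mul_distrib, ← Finset.prod_pow]
    refine Finset.prod_congr rfl (fun j _ => ?_)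
    have hj := hpos j
    have hr := b.rel j
    have hej := b.he j
    have h3 : pos j = 0 ∨ pos j = 1 ∨ pos j = 2 := by
      generalize pos j = k; revert k; decide
    split_ifs at hj hr with hS
    · have hee : (e j = 1 ∧ e' j = 2) ∨ (e j = 2 ∧ e' j = 1) := by omega
      rcases h3 with h3 | h3 | h3 <;> rcases hee with ⟨he, h9⟩ | ⟨he, h9⟩ <;> rw [h3] at hj <;>
        simp [hj, h3, hS, he, h9, tau] <;> ring
    · rcases h3 with h3 | h3 | h3 <;> rw [h3] at hj <;> simp [hj, h3, hS, hr]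
  · -- units
    intro l hl hl3 hlq hlr hbad hdvd
    apply hbad
    have hS : SPr p (cell p e' pos' 0 * cell p e' pos' 1 * cell p e pos 1 * cell p e pos 2 *
      (∏ j, if Sp i0 i1 j ∧ pos j = 1 then (p j : ℤ) ^ 1 else 1) *
      (∏ j, if Sp i0 i1 j ∧ pos j = 0 then (p j : ℤ) ^ 1 else 1) *
      (∏ j, if Sp i0 i1 j ∧ (pos j = 1 ∨ pos j = 2 ∧ e j = 2) then (p j : ℤ) ^ 1 else 1) *
      (∏ j, if Sp i0 i1 j ∧ (pos j = 0 ∨ pos j = 2 ∧ e j = 2) then (p j : ℤ) ^ 1 else 1)) := by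
      refine SPr.mul (SPr.mul (SPr.mul (SPr.mul (SPr.mul (SPr.mul (SPr.mul ?_ ?_) ?_) ?_)
        ?_) ?_) ?_) ?_
      · exact SPr.prod p (fun j => pos' j = 0) e'
      · exact SPr.prod p (fun j => pos' j = 1) e'
      · exact SPr.prod p (fun j => pos j = 1) e
      · exact SPr.prod p (fun j => pos j = 2) e
      · exact SPr.prod p (fun j => Sp i0 i1 j ∧ pos j = 1) (fun _ => 1)
      · exact SPr.prod p (fun j => Sp i0 i1 j ∧ pos j = 0) (fun _ => 1)
      · exact SPr.prod p (fun j => Sp i0 i1 j ∧ (pos j = 1 ∨ pos j = 2 ∧ e j = 2)) (fun _ => 1)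
      · exact SPr.prod p (fun j => Sp i0 i1 j ∧ (pos j = 0 ∨ pos j = 2 ∧ e j = 2)) (fun _ => 1)
    obtain ⟨j, hj⟩ := hS l hl hdvd
    exact b.good hl hlq hlr hj

end Pool.Agent.Lib_helper84.Cub
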