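import Pool.Agent.Lib_helper84.Cub.Info

/-!
# Classes at the prime above 3, when 3 divides `A` exactly once
-/

namespace Pool.Agent.Lib_helper84.Cub

open Pool.Agent.Lib_helper18 Pool.Agent.Lib_helper18.Eis

/-- residues modulo 3 -/
theorem z3_ne {n : ℤ} : (n : ZMod 3) ≠ 0 ↔ ¬ (3 : ℤ) ∣ n := by
  rw [Ne, ZMod.intCast_zmod_eq_zero_iff_dvd]; rfl

theorem z3_eq {n : ℤ} : (n : ZMod 3) = 0 ↔ (3 : ℤ) ∣ n := by
  rw [ZMod.intCast_zmod_eq_zero_iff_dvd]; rfl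

theorem z3_mod {n : ℤ} : (n : ZMod 3) = ((n % 3 : ℤ) : ZMod 3) := by
  rw [ZMod.intCast_eq_intCast_iff']; simp

/-- the basic relation modulo 9 -/
theorem wq_diff {U V D : ℤ} (hU : ¬ (3 : ℤ) ∣ U) (hV : ¬ (3 : ℤ) ∣ V) (h : U + V + 3 * D = 0) :
    (D : ZMod 3) = (U : ZMod 3) * (wq V - wq U) := by
  have h1 : U % 9 = 1 ∨ U % 9 = 2 ∨ U % 9 = 4 ∨ U % 9 = 5 ∨ U % 9 = 7 ∨ U % 9 = 8 := by omega
  have h2 : V % 9 = 1 ∨ V % 9 = 2 ∨ V % 9 = 4 ∨ V % 9 = 5 ∨ V % 9 = 7 ∨ V % 9 = 8 := by omega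
  have h3 : D % 3 = (-((U % 9 + V % 9) / 3)) % 3 := by omega
  have h4 : (U % 9 + V % 9) % 3 = 0 := by omega
  have h5 : U % 3 = (U % 9) % 3 := by omega
  rw [z3_mod (n := D), z3_mod (n := U), h3, h5]
  unfold wq
  rcases h1 with h1 | h1 | h1 | h1 | h1 | h1 <;> rcases h2 with h2 | h2 | h2 | h2 | h2 | h2 <;>
    rw [h1, h2] at h4 ⊢ <;> revert h4 <;> decide

theorem wq_neg (n : ℤ) : wq (-n) = wq n := wq_of_add (by simp)

theorem z3_cube (a : ZMod 3) : a ^ 3 = a := by revert a; decide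

section caseTwo

variable {N0 N1 N2 N0' N1' N2' X Y : ℤ}

/-- 3 in the last cell -/
theorem clsII_2 (h0 : ¬ (3 : ℤ) ∣ N0) (h1 : ¬ (3 : ℤ) ∣ N1) (h0' : ¬ (3 : ℤ) ∣ N0')
    (h1' : ¬ (3 : ℤ) ∣ N1') (hX : ¬ (3 : ℤ) ∣ X)
    (h2 : (3 : ℤ) ∣ N2 → (9 : ℤ) ∣ N2) (h2' : (3 : ℤ) ∣ N2' → (9 : ℤ) ∣ N2')
    (hs : N0 + N1 + 3 * N2 = 0) (hs' : N0' + N1' + 3 * N2' = 0)
    (hd : wq N0 - wq N1 = wq N0' - wq N1')
    (rel : X ^ 3 * (N0 * N1') = Y ^ 3 * (N1 * N0')) {s : ℤ}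
    (hss : (s : ZMod 3) = -(wq N0 - wq N1) * (wq N2 - wq N2' + wq N0' - wq N0)) :
    Cls (w * X + (-Y : ℤ)) (-1 - (s : ZMod 3)) := by
  -- D Y0 - X0 D' = 3 r with r = s X0 Y0 modulo 3
  have hD := wq_diff h0 h1 hs
  have hD' := wq_diff h0' h1' hs'
  have hN0 := z3_ne.mpr h0
  have hN0' := z3_ne.mpr h0'
  obtain ⟨r, hr, hr3⟩ : ∃ r : ℤ, N2 * N0' - N0 * N2' = 3 * r ∧
      (r : ZMod 3) = (s : ZMod 3) * (N0 * N0') := by
    by_cases hz : wq N0 - wq N1 = 0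
    · have e1 : (3 : ℤ) ∣ N2 := by
        rw [← z3_eq, hD]; linear_combination (-(N0 : ZMod 3)) * hz
      have e2 : (3 : ℤ) ∣ N2' := by
        rw [← z3_eq, hD']
        linear_combination (-(N0' : ZMod 3)) * hz + (N0' : ZMod 3) * hd
      obtain ⟨u, hu⟩ := h2 e1
      obtain ⟨v, hv⟩ := h2' e2
      refine ⟨3 * (u * N0' - N0 * v), by rw [hu, hv]; ring, ?_⟩
      rw [hss, hz]; push_cast; rw [three_zmod]; ring
    · have n2 : ¬ (3 : ℤ) ∣ N2 := by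
        rw [← z3_ne, hD]
        refine mul_ne_zero hN0 ?_
        rw [← neg_ne_zero, neg_sub]; exact hz
      have n2' : ¬ (3 : ℤ) ∣ N2' := by
        rw [← z3_ne, hD']
        refine mul_ne_zero hN0' ?_
        rw [← neg_ne_zero, neg_sub, ← hd]; exact hz
      have e3 : (3 : ℤ) ∣ N2 * N0' - N0 * N2' := by
        rw [← z3_eq]; push_cast; rw [hD, hD']
        linear_combination (-(N0 : ZMod 3) * N0') * hd
      obtain ⟨r, hr⟩ := e3
      refine ⟨r, hr, ?_⟩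
      have n3 : ¬ (3 : ℤ) ∣ -(N0 * N2') := by rw [dvd_neg]; exact ndvd_mul h0 n2'
      have h4 := wq_diff (U := N2 * N0') (V := -(N0 * N2')) (D := -r) (ndvd_mul n2 h0') n3
        (by linarith)
      rw [wq_neg, wq_mul h0 n2', wq_mul n2 h0'] at h4
      push_cast at h4
      rw [hD] at h4
      rw [hss]
      linear_combination (-1 : ZMod 3) * h4
  -- X = Y modulo 3
  have hkey : (X ^ 3 - Y ^ 3) * (N0 * N0') = 3 * (Y ^ 3 * N2 * N0' - X ^ 3 * N0 * N2') := by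
    have e1 : N1 = -N0 - 3 * N2 := by linarith
    have e2 : N1' = -N0' - 3 * N2' := by linarith
    rw [e1, e2] at rel
    linear_combination -rel
  have h3XY : (3 : ℤ) ∣ X - Y := by
    have h5 : (3 : ℤ) ∣ (X ^ 3 - Y ^ 3) * (N0 * N0') := by rw [hkey]; exact dvd_mul_right _ _
    have h6 := (Int.prime_three.dvd_or_dvd h5).resolve_right (ndvd_mul h0 h0')
    have h7 : (3 : ℤ) ∣ (X - Y) ^ 3 := by
      have e : (X - Y) ^ 3 = X ^ 3 - Y ^ 3 + 3 * (X * Y * (Y - X)) := by ring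
      rw [e]; exact dvd_add h6 (dvd_mul_right _ _)
    exact Int.prime_three.dvd_of_dvd_pow h7
  obtain ⟨ρ, hρ⟩ := h3XY
  have hY : Y = X - 3 * ρ := by linarith
  have h8 : (ρ * X ^ 2 - 3 * ρ ^ 2 * X + 3 * ρ ^ 3) * (N0 * N0') =
      Y ^ 3 * r - 3 * ((ρ * X ^ 2 - 3 * ρ ^ 2 * X + 3 * ρ ^ 3) * N0 * N2') := by
    have e1 : X ^ 3 - Y ^ 3 = 9 * (ρ * X ^ 2 - 3 * ρ ^ 2 * X + 3 * ρ ^ 3) := by rw [hY]; ring
    have e2 : Y ^ 3 * N2 * N0' - X ^ 3 * N0 * N2' =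
      Y ^ 3 * (3 * r) - (X ^ 3 - Y ^ 3) * (N0 * N2') := by rw [← hr]; ring
    rw [e2, e1] at hkey
    have h9 : (9 : ℤ) ≠ 0 := by norm_num
    apply mul_left_cancel₀ h9
    linear_combination hkey
  have h9 := congrArg (fun n : ℤ => (n : ZMod 3)) h8
  push_cast at h9
  simp only [three_zmod, zero_mul, sub_zero, add_zero, z3_cube] at h9
  have hYX : (Y : ZMod 3) = X := by
    rw [hY]; push_cast; rw [three_zmod]; ring
  rw [hYX, hr3] at h9
  have hXn := z3_ne.mpr hX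
  refine clsTwo_fine hX ?_
  have h10 : (3 : ℤ) ∣ ρ - s * X := by
    rw [← z3_eq]; push_cast
    have h11 : (ρ : ZMod 3) * X ^ 2 = X * s :=
      mul_right_cancel₀ (mul_ne_zero hN0 hN0') (by linear_combination h9)
    revert h11 hXn
    clear * -
    generalize (ρ : ZMod 3) = a
    generalize (X : ZMod 3) = b
    generalize (s : ZMod 3) = e
    revert a b e
    decide
  obtain ⟨v, hv⟩ := h10
  exact ⟨v, by linear_combination hρ + 3 * hv⟩

theorem two_key : ∀ a b c d e : ZMod 3, a ≠ 0 → c ≠ 0 → d ≠ 0 → e ≠ 0 →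
    a * (c * -e * d) = b * (c * (d * e)) → a + b = 0 := by decide

/-- 3 in the first cell -/
theorem clsII_0 (h1 : ¬ (3 : ℤ) ∣ N1) (h2 : ¬ (3 : ℤ) ∣ N2) (h1' : ¬ (3 : ℤ) ∣ N1')
    (h2' : ¬ (3 : ℤ) ∣ N2') (hs : 3 * N0 + N1 + N2 = 0) (hs' : 3 * N0' + N1' + N2' = 0)
    (rel : X ^ 3 * (N0 * N1') = Y ^ 3 * (N1 * N0'))
    (hX : ¬ (3 : ℤ) ∣ X) (hd : wq N1 - wq N2 ≠ 0) (hd' : wq N1' - wq N2' = -(wq N1 - wq N2)) :
    Cls (w * X + (-Y : ℤ)) 2 := by
  have hD := wq_diff (D := N0) h1 h2 (by linarith)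
  have hD' := wq_diff (D := N0') h1' h2' (by linarith)
  have h3 := congrArg (fun n : ℤ => (n : ZMod 3)) rel
  push_cast at h3
  rw [z3_cube, z3_cube, hD, hD'] at h3
  refine clsTwo_two hX ?_
  rw [← z3_eq]; push_cast
  refine two_key _ _ (N1 : ZMod 3) (N1' : ZMod 3) (wq N1 - wq N2) (z3_ne.mpr hX) (z3_ne.mpr h1)
    (z3_ne.mpr h1') hd ?_
  have e2 : wq N2' - wq N1' = wq N1 - wq N2 := by linear_combination -hd'
  rw [e2] at h3
  linear_combination h3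

/-- 3 in the middle cell -/
theorem clsII_1 (h0 : ¬ (3 : ℤ) ∣ N0) (h2 : ¬ (3 : ℤ) ∣ N2) (h0' : ¬ (3 : ℤ) ∣ N0')
    (h2' : ¬ (3 : ℤ) ∣ N2') (hs : N0 + 3 * N1 + N2 = 0) (hs' : N0' + 3 * N1' + N2' = 0)
    (rel : X ^ 3 * (N0 * N1') = Y ^ 3 * (N1 * N0'))
    (hX : ¬ (3 : ℤ) ∣ X) (hd : wq N0 - wq N2 ≠ 0) (hd' : wq N0' - wq N2' = -(wq N0 - wq N2)) :
    Cls (w * X + (-Y : ℤ)) 2 := by
  have hD := wq_diff (D := N1) h0 h2 (by linarith)
  have hD' := wq_diff (D := N1') h0' h2' (by linarith)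
  have h3 := congrArg (fun n : ℤ => (n : ZMod 3)) rel
  push_cast at h3
  rw [z3_cube, z3_cube, hD, hD'] at h3
  refine clsTwo_two hX ?_
  rw [← z3_eq]; push_cast
  refine two_key _ _ (N0 : ZMod 3) (N0' : ZMod 3) (wq N0 - wq N2) (z3_ne.mpr hX) (z3_ne.mpr h0)
    (z3_ne.mpr h0') hd ?_
  have e2 : wq N2' - wq N0' = wq N0 - wq N2 := by linear_combination -hd'
  rw [e2] at h3
  linear_combination -h3

end caseTwo

section caseOne

variable {X0 X1 X2 D N y : ℤ}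

theorem m_cases (m : ZMod 3) : m = 0 ∨ m = 1 ∨ m = 2 := by revert m; decide

theorem n_zero {N k : ℤ} (h : (N : ZMod 3) = 0 * k) : ∃ n, N = 3 * n := by
  rw [zero_mul, z3_eq] at h; exact h

theorem n_one {N k : ℤ} (h : (N : ZMod 3) = 1 * k) : ∃ n, N = k + 3 * n := by
  obtain ⟨n, hn⟩ : (3 : ℤ) ∣ N - k := by rw [← z3_eq]; push_cast; rw [h]; ring
  exact ⟨n, by linarith⟩

theorem n_two {N k : ℤ} (h : (N : ZMod 3) = 2 * k) : ∃ n, N = -k + 3 * n := by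
  obtain ⟨n, hn⟩ : (3 : ℤ) ∣ N + k := by
    rw [← z3_eq]; push_cast; rw [h]; linear_combination (k : ZMod 3) * three_zmod
  exact ⟨n, by linarith⟩

/-- the fine class in case I: 3 in cell 0 -/
theorem clsI_0 (hX0 : X0 = 3 * D) (hu : ¬ (3 : ℤ) ∣ X1) (hy : ¬ (3 : ℤ) ∣ y)
    (hsum : X0 + X1 + X2 = 0) {m : ZMod 3} (hN : (N : ZMod 3) = m * ((X1 * y : ℤ) : ZMod 3)) :
    Cls (((3 * N : ℤ) : Eis) + res X0 X1 X2 * y) (0 + m) := by
  have hX2 : X2 = -(3 * D) - X1 := by linarith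
  have hr := w_rel
  rcases m_cases m with rfl | rfl | rfl
  · obtain ⟨n, hn⟩ := n_zero hN
    have := cls_mk (t := ((3 * N : ℤ) : Eis) + res X0 X1 X2 * y) (n := X1 * y)
      (r := (-1) * D * w * y + (-1) * n + (-2) * n * w) 1 1
      (by
        rw [hX0, hX2, hn, res, lam_eq]
        push_cast
        linear_combination ((-3) * D * w * y + (3) * D * y + (9) * n + (-6) * n * w) * hr)
      (ndvd_mul hu hy)
    have e : ((1 : ℕ) : ZMod 3) - ((1 : ℕ) : ZMod 3) = 0 + 0 := by decide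
    rwa [e] at this
  · obtain ⟨n, hn⟩ := n_one hN
    have := cls_mk (t := ((3 * N : ℤ) : Eis) + res X0 X1 X2 * y) (n := X1 * y)
      (r := (-1) * D * y + (-1) * X1 * y + (-1) * n + n * w) 1 2
      (by
        rw [hX0, hX2, hn, res, lam_eq]
        push_cast
        linear_combination ((-3) * D * w * y + (3) * D * y + (-2) * X1 * w * y + (3) * X1 * y + (9) * n + (-9) * n * w + (3) * n * w ^ 2) * hr)
      (ndvd_mul hu hy)
    have e : ((2 : ℕ) : ZMod 3) - ((1 : ℕ) : ZMod 3) = 0 + 1 := by decide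
    rwa [e] at this
  · obtain ⟨n, hn⟩ := n_two hN
    have := cls_mk (t := ((3 * N : ℤ) : Eis) + res X0 X1 X2 * y) (n := X1 * y)
      (r := D * w * y + D * y + (-1) * X1 * y + (2) * n + n * w) 1 0
      (by
        rw [hX0, hX2, hn, res, lam_eq]
        push_cast
        linear_combination ((-1) * X1 * y + (3) * n) * hr)
      (ndvd_mul hu hy)
    have e : ((0 : ℕ) : ZMod 3) - ((1 : ℕ) : ZMod 3) = 0 + 2 := by decide
    rwa [e] at this

/-- the fine class in case I: 3 in cell 1 -/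
theorem clsI_1 (hX1 : X1 = 3 * D) (hu : ¬ (3 : ℤ) ∣ X2) (hy : ¬ (3 : ℤ) ∣ y)
    (hsum : X0 + X1 + X2 = 0) {m : ZMod 3} (hN : (N : ZMod 3) = m * ((X2 * y : ℤ) : ZMod 3)) :
    Cls (((3 * N : ℤ) : Eis) + res X0 X1 X2 * y) (1 + m) := by
  have hX0 : X0 = -(3 * D) - X2 := by linarith
  have hr := w_rel
  rcases m_cases m with rfl | rfl | rfl
  · obtain ⟨n, hn⟩ := n_zero hN
    have := cls_mk (t := ((3 * N : ℤ) : Eis) + res X0 X1 X2 * y) (n := X2 * y)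
      (r := (-1) * D * w * y + (-1) * n + n * w) 1 2
      (by
        rw [hX1, hX0, hn, res, lam_eq]
        push_cast
        linear_combination ((6) * D * w * y + (-3) * D * w ^ 2 * y + (-3) * D * y + X2 * w * y + (-1) * X2 * y + (9) * n + (-9) * n * w + (3) * n * w ^ 2) * hr)
      (ndvd_mul hu hy)
    have e : ((2 : ℕ) : ZMod 3) - ((1 : ℕ) : ZMod 3) = 1 + 0 := by decide
    rwa [e] at this
  · obtain ⟨n, hn⟩ := n_one hN
    have := cls_mk (t := ((3 * N : ℤ) : Eis) + res X0 X1 X2 * y) (n := X2 * y)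
      (r := (-1) * D * y + (2) * n + n * w) 1 0
      (by
        rw [hX1, hX0, hn, res, lam_eq]
        push_cast
        linear_combination (X2 * y + (3) * n) * hr)
      (ndvd_mul hu hy)
    have e : ((0 : ℕ) : ZMod 3) - ((1 : ℕ) : ZMod 3) = 1 + 1 := by decide
    rwa [e] at this
  · obtain ⟨n, hn⟩ := n_two hN
    have := cls_mk (t := ((3 * N : ℤ) : Eis) + res X0 X1 X2 * y) (n := X2 * y)
      (r := D * w * y + D * y + X2 * w * y + (-1) * n + (-2) * n * w) 1 1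
      (by
        rw [hX1, hX0, hn, res, lam_eq]
        push_cast
        linear_combination ((3) * D * w * y + (-3) * D * y + (3) * X2 * w * y + (-4) * X2 * y + (9) * n + (-6) * n * w) * hr)
      (ndvd_mul hu hy)
    have e : ((1 : ℕ) : ZMod 3) - ((1 : ℕ) : ZMod 3) = 1 + 2 := by decide
    rwa [e] at this

/-- the fine class in case I: 3 in cell 2 -/
theorem clsI_2 (hX2 : X2 = 3 * D) (hu : ¬ (3 : ℤ) ∣ X0) (hy : ¬ (3 : ℤ) ∣ y)
    (hsum : X0 + X1 + X2 = 0) {m : ZMod 3} (hN : (N : ZMod 3) = m * ((X0 * y : ℤ) : ZMod 3)) :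
    Cls (((3 * N : ℤ) : Eis) + res X0 X1 X2 * y) (2 + m) := by
  have hX1 : X1 = -(3 * D) - X0 := by linarith
  have hr := w_rel
  rcases m_cases m with rfl | rfl | rfl
  · obtain ⟨n, hn⟩ := n_zero hN
    have := cls_mk (t := ((3 * N : ℤ) : Eis) + res X0 X1 X2 * y) (n := X0 * y)
      (r := (-1) * D * w * y + (2) * n + n * w) 1 0
      (by
        rw [hX2, hX1, hn, res, lam_eq]
        push_cast
        linear_combination ((3) * n) * hr)
      (ndvd_mul hu hy)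
    have e : ((0 : ℕ) : ZMod 3) - ((1 : ℕ) : ZMod 3) = 2 + 0 := by decide
    rwa [e] at this
  · obtain ⟨n, hn⟩ := n_one hN
    have := cls_mk (t := ((3 * N : ℤ) : Eis) + res X0 X1 X2 * y) (n := X0 * y)
      (r := (-1) * D * y + (-1) * X0 * w * y + (-1) * X0 * y + (-1) * n + (-2) * n * w) 1 1
      (by
        rw [hX2, hX1, hn, res, lam_eq]
        push_cast
        linear_combination ((-3) * X0 * w * y + (4) * X0 * y + (9) * n + (-6) * n * w) * hr)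
      (ndvd_mul hu hy)
    have e : ((1 : ℕ) : ZMod 3) - ((1 : ℕ) : ZMod 3) = 2 + 1 := by decide
    rwa [e] at this
  · obtain ⟨n, hn⟩ := n_two hN
    have := cls_mk (t := ((3 * N : ℤ) : Eis) + res X0 X1 X2 * y) (n := X0 * y)
      (r := D * w * y + D * y + (-1) * n + n * w) 1 2
      (by
        rw [hX2, hX1, hn, res, lam_eq]
        push_cast
        linear_combination ((-3) * D * w * y + (3) * D * w ^ 2 * y + X0 * w * y + (-2) * X0 * y + (9) * n + (-9) * n * w + (3) * n * w ^ 2) * hr)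
      (ndvd_mul hu hy)
    have e : ((2 : ℕ) : ZMod 3) - ((1 : ℕ) : ZMod 3) = 2 + 2 := by decide
    rwa [e] at this

end caseOne

end Pool.Agent.Lib_helper84.Cub
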