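import Pool.Agent.Lib_helper18.CubStep0

/-!
# The first descent when 3 divides `A`
-/

set_option linter.unusedSectionVars false

namespace Pool.Agent.Lib_helper84.Cub

open Finset Pool.Agent.Lib_helper18 Pool.Agent.Lib_helper18.Eis Pool.Agent.Lib_helper18.CubStep0

variable {m : ℕ} {p e : Fin m → ℕ}

/-- the conclusion of Step 0 -/
def Concl3 (p e : Fin m → ℕ) : Prop :=
  ∃ (pos : Fin m → Fin 3) (x : Fin 3 → ℤ), (∀ k, ∃ j, pos j ≠ k) ∧ IsPt p e pos x


theorem ndvd9' {q : ℕ} (hq : q.Prime) (hq3 : q % 3 = 2) : ¬ (q : ℤ) ∣ 9 := by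
  intro h9
  have hqZ := Nat.prime_iff_prime_int.mp hq
  have h9' : (q : ℤ) ∣ 3 ^ 2 := by norm_num; exact h9
  have h3' := hqZ.dvd_of_dvd_pow h9'
  have h3n : q ∣ 3 := by exact_mod_cast h3'
  have := (Nat.prime_dvd_prime_iff_eq hq Nat.prime_three).mp h3n
  omega

theorem wq_ne' {q : ℕ} (h9 : q % 9 = 2 ∨ q % 9 = 5) : wq (q : ℤ) ≠ 0 := by
  unfold wq
  have : (q : ℤ) % 9 = 2 ∨ (q : ℤ) % 9 = 5 := by omega
  rcases this with h | h <;> rw [h] <;> decide

/-- three coprime integers with sum `0` and product `A s^3` give the conclusion or a smaller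
solution. -/
theorem three_split' (hp : ∀ i, (p i).Prime)
    (he : ∀ i, e i = 1 ∨ e i = 2) (hnot : ¬ Concl3 p e) {u v t s : ℤ} (hs0 : s ≠ 0)
    (huv : IsCoprime u v) (hut : IsCoprime u t) (hvt : IsCoprime v t) (hsum : u + v + t = 0)
    (hprod : u * v * t = PP p e univ * s ^ 3) :
    ∃ a b c : ℤ, a ^ 3 + b ^ 3 = PP p e univ * c ^ 3 ∧
      s.natAbs = a.natAbs * b.natAbs * c.natAbs := by
  have he0 : ∀ i, e i ≠ 0 := fun i => by have := he i; omega
  obtain ⟨J, -, a, w, hu, hw, hs1⟩ := split_two p e hp he0 univ u (v * t) s (huv.mul_right hut)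
    (by rw [← mul_assoc]; exact hprod)
  obtain ⟨J', hJ', b, c, hv, ht, hs2⟩ := split_two p e hp he0 (univ \ J) v t w hvt hw
  change u = PP p e J * a ^ 3 at hu
  change v = PP p e J' * b ^ 3 at hv
  change t = PP p e ((univ \ J) \ J') * c ^ 3 at ht
  have hs : s = a * b * c := by rw [hs1, hs2]; ring
  have ha0 : a ≠ 0 := by rintro rfl; apply hs0; rw [hs]; ring
  have hb0 : b ≠ 0 := by rintro rfl; apply hs0; rw [hs]; ring
  have hc0 : c ≠ 0 := by rintro rfl; apply hs0; rw [hs]; ring
  have hPd : PP p e J * PP p e J' * PP p e ((univ \ J) \ J') = PP p e univ := by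
    rw [mul_assoc]
    unfold PP
    rw [mul_comm (∏ j ∈ J', _), prod_sdiff hJ', mul_comm, prod_sdiff (subset_univ J)]
  by_cases hcon : ∀ k, ∃ j, posOf J J' j ≠ k
  · exfalso
    apply hnot
    have c0 : cell p e (posOf J J') 0 = PP p e J := by rw [cell_eq, filter_pos_zero]
    have c1 : cell p e (posOf J J') 1 = PP p e J' := by rw [cell_eq, filter_pos_one hJ']
    have c2 : cell p e (posOf J J') 2 = PP p e ((univ \ J) \ J') := by
      rw [cell_eq, filter_pos_two]
    refine ⟨posOf J J', ![a, b, c], hcon, ?_, ?_, ?_⟩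
    · intro k
      fin_cases k
      · exact ha0
      · exact hb0
      · exact hc0
    · rw [Fin.sum_univ_three, c0, c1, c2]
      show PP p e J * a ^ 3 + PP p e J' * b ^ 3 + PP p e ((univ \ J) \ J') * c ^ 3 = 0
      rw [← hu, ← hv, ← ht]; exact hsum
    · have d0 : cell p e (posOf J J') 0 * a ∣ u := ⟨a ^ 2, by rw [c0, hu]; ring⟩
      have d1 : cell p e (posOf J J') 1 * b ∣ v := ⟨b ^ 2, by rw [c1, hv]; ring⟩
      have d2 : cell p e (posOf J J') 2 * c ∣ t := ⟨c ^ 2, by rw [c2, ht]; ring⟩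
      have h01 := huv.of_isCoprime_of_dvd_left d0 |>.of_isCoprime_of_dvd_right d1
      have h02 := hut.of_isCoprime_of_dvd_left d0 |>.of_isCoprime_of_dvd_right d2
      have h12 := hvt.of_isCoprime_of_dvd_left d1 |>.of_isCoprime_of_dvd_right d2
      intro i j hij
      fin_cases i <;> fin_cases j
      · exact absurd rfl hij
      · exact h01
      · exact h02
      · exact h01.symm
      · exact absurd rfl hij
      · exact h12
      · exact h02.symm
      · exact h12.symm
      · exact absurd rfl hij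
  · push Not at hcon
    obtain ⟨k, hk⟩ := hcon
    have hone : PP p e ∅ = 1 := prod_empty
    fin_cases k
    · have hJ : J = univ := by
        ext j
        have := hk j
        simp only [posOf] at this
        simp only [mem_univ, iff_true]
        by_contra hj
        rw [if_neg hj] at this
        split_ifs at this <;> exact absurd this (by decide)
      have hJ2 : J' = ∅ := by
        apply Finset.subset_empty.mp
        rw [hJ, Finset.sdiff_self] at hJ'
        exact hJ'
      rw [hJ] at hu ht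
      rw [hJ2, hone, one_mul] at hv
      rw [hJ2, Finset.sdiff_self, empty_sdiff, hone, one_mul] at ht
      refine ⟨b, c, -a, ?_, ?_⟩
      · rw [← hv, ← ht]; linear_combination hsum - hu
      · rw [Int.natAbs_neg, hs, Int.natAbs_mul, Int.natAbs_mul]; ring
    · have hJ : J = ∅ := by
        ext j
        have := hk j
        simp only [posOf] at this
        simp only [notMem_empty, iff_false]
        intro hj
        rw [if_pos hj] at this
        exact absurd this (by decide)
      have hJ2 : J' = univ := by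
        ext j
        have := hk j
        simp only [posOf] at this
        simp only [mem_univ, iff_true]
        by_contra hj
        rw [if_neg (by rw [hJ]; exact notMem_empty j), if_neg hj] at this
        exact absurd this (by decide)
      rw [hJ, hone, one_mul] at hu
      rw [hJ2] at hv
      rw [hJ2, hJ, sdiff_empty, Finset.sdiff_self, hone, one_mul] at ht
      refine ⟨a, c, -b, ?_, ?_⟩
      · rw [← hu, ← ht]; linear_combination hsum - hv
      · rw [Int.natAbs_neg, hs, Int.natAbs_mul, Int.natAbs_mul]; ring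
    · have hJ : J = ∅ := by
        ext j
        have := hk j
        simp only [posOf] at this
        simp only [notMem_empty, iff_false]
        intro hj
        rw [if_pos hj] at this
        exact absurd this (by decide)
      have hJ2 : J' = ∅ := by
        ext j
        have := hk j
        simp only [posOf] at this
        simp only [notMem_empty, iff_false]
        intro hj
        rw [if_neg (by rw [hJ]; exact notMem_empty j), if_pos hj] at this
        exact absurd this (by decide)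
      rw [hJ, hone, one_mul] at hu
      rw [hJ2, hone, one_mul] at hv
      rw [hJ2, hJ, sdiff_empty, sdiff_empty] at ht
      refine ⟨a, b, -c, ?_, ?_⟩
      · rw [← hu, ← hv]; linear_combination hsum - ht
      · rw [Int.natAbs_neg, hs, Int.natAbs_mul, Int.natAbs_mul]


/-- all the primes divide the rational side -/
theorem side3 (hp : ∀ i, (p i).Prime) (hp9 : ∀ i, p i % 3 = 2 ∨ p i = 3)
    (he : ∀ i, e i = 1 ∨ e i = 2) {η : Eis} {S z : ℤ} (hηprim : Prim η)
    (hηcop : IsCoprime η (conj η)) (hcoS : IsCoprime S η.norm)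
    (hηS : S * η.norm = PP p e univ * z ^ 3) :
    ∃ (γ : Eis) (s t : ℤ), η = γ ^ 3 ∧ ¬ lam ∣ γ ∧ S = PP p e univ * s ^ 3 ∧ z = t * s := by
  have he0 : ∀ i, e i ≠ 0 := fun i => by have := he i; omega
  obtain ⟨J, -, t, s, ht, hs, hz⟩ := split_two p e hp he0 univ η.norm S z hcoS.symm
    (by rw [mul_comm]; exact hηS)
  have hJ : J = ∅ := by
    ext j
    simp only [notMem_empty, iff_false]
    intro hj
    have hd : (p j : ℤ) ∣ η.norm := by
      rw [ht]
      apply Dvd.dvd.mul_right
      exact (dvd_pow_self _ (he0 j)).trans (dvd_prod_of_mem _ hj)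
    rcases hp9 j with h | h
    · exact inert_not_dvd_norm (hp j) h hηcop hd
    · rw [h] at hd
      exact hηprim.not_lam_dvd (lam_dvd_iff_norm.mpr (by exact_mod_cast hd))
  subst hJ
  rw [prod_empty, one_mul] at ht
  obtain ⟨γ, hγ, hγ3⟩ := extract (ρ := 1) prim_one (one_dvd _) hηprim hηcop (t := t)
    (by rw [norm_one, one_mul, ht])
  rw [one_mul] at hγ
  refine ⟨γ, s, t, hγ, hγ3, ?_, hz⟩
  rw [hs, sdiff_empty]; rfl

/-- **Step 0** when 3 divides `A` -/
theorem step0_three (hm : 2 ≤ m) (hp : ∀ i, (p i).Prime)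
    (hp9 : ∀ i, p i % 9 = 2 ∨ p i % 9 = 5 ∨ p i = 3) {i3 : Fin m} (hi3 : p i3 = 3)
    (hinj : Function.Injective p) (he : ∀ i, e i = 1 ∨ e i = 2)
    (hXY : ∃ X Y : ℚ, X ^ 3 + Y ^ 3 = ∏ i, (p i : ℚ) ^ e i) : Concl3 p e := by
  by_contra hnot
  obtain ⟨X, Y, hXY⟩ := hXY
  have hAcast : X ^ 3 + Y ^ 3 = ((PP p e univ : ℤ) : ℚ) := by
    rw [hXY]; unfold PP; push_cast; rfl
  obtain ⟨x, y, z, hz, hxyz⟩ := integral_solution hAcast
  have hprime : ∀ i, Prime (p i : ℤ) := fun i => Nat.prime_iff_prime_int.mp (hp i)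
  have hA0 : PP p e univ ≠ 0 :=
    prod_ne_zero_iff.mpr (fun j _ => pow_ne_zero _ (hprime j).ne_zero)
  have hcf := cube_not_dvd_prod p e hp hinj (fun i => by have := he i; omega) univ
  have hp3 : ∀ i, p i % 3 = 2 ∨ p i = 3 := fun i => by have := hp9 i; omega
  refine no_solution hA0 hcf ?_ z.natAbs x y z rfl hz hxyz
  clear hxyz hz x y z hAcast hXY X Y
  intro x y z hz hco hxyz
  -- the case where 3 divides z
  have main : (3 : ℤ) ∣ z → ∃ x' y' z' : ℤ, z' ≠ 0 ∧ x' ^ 3 + y' ^ 3 = PP p e univ * z' ^ 3 ∧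
      z'.natAbs < z.natAbs := by
    intro h3z
    obtain ⟨z1, S, η, hz1, hηprim, hηcop, hηim, hηdiff, hcoS, hηS⟩ := caseA_data hco h3z hxyz
    obtain ⟨γ, s, t, hγ, hγ3, hS, hzt⟩ := side3 hp hp3 he hηprim hηcop hcoS hηS
    obtain ⟨α, δ⟩ := γ
    have hcoad : IsCoprime α δ := coprime_coords rfl hγ3 (by rw [← hγ]; exact hηcop)
    have hprod : α * δ * (α - δ) = PP p e univ * s ^ 3 := by
      have h6 := congrArg Eis.im hγ
      simp only [pow_succ, pow_zero, one_mul, mul_im, mul_re] at h6
      rw [hηim] at h6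
      rw [← hS]
      linarith
    have hc1 : IsCoprime α (δ - α) := by
      obtain ⟨u, v, huv⟩ := hcoad
      exact ⟨u + v, v, by linear_combination huv⟩
    have hc2 : IsCoprime (-δ) (δ - α) := by
      obtain ⟨u, v, huv⟩ := hcoad
      exact ⟨-(u + v), -u, by linear_combination huv⟩
    have hs0 : s ≠ 0 := by
      rintro rfl
      apply hz
      rw [hz1, hzt]; ring
    obtain ⟨a, b, c, habc, hsabc⟩ := three_split' hp he hnot hs0 hcoad.neg_right hc1 hc2
      (by ring) (by rw [← hprod]; ring)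
    obtain ⟨h1, h2⟩ := natAbs_lt_of (z := z) (s := s) (t := t) (by rw [hz1, hzt]) hsabc hz
    exact ⟨a, b, c, h1, habc, h2⟩
  by_cases h3z : (3 : ℤ) ∣ z
  · exact main h3z
  · exfalso
    have h3A : (3 : ℤ) ∣ PP p e univ := by
      have he0 : e i3 ≠ 0 := by have := he i3; omega
      have h1 : (p i3 : ℤ) ∣ PP p e univ :=
        (dvd_pow_self _ he0).trans (dvd_prod_of_mem (fun j => (p j : ℤ) ^ e j) (mem_univ i3))
      rw [hi3] at h1
      exact_mod_cast h1
    have hno3 : ¬ ((3 : ℤ) ∣ x ∧ (3 : ℤ) ∣ y) := by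
      rintro ⟨h1, h2⟩
      exact Int.prime_three.not_isUnit (hco.isUnit_of_dvd' h1 h2)
    -- 9 divides A
    have h9 : (9 : ℤ) ∣ PP p e univ := by
      have h3s : (3 : ℤ) ∣ x ^ 3 + y ^ 3 := by rw [hxyz]; exact Dvd.dvd.mul_right h3A _
      have h3xy : (3 : ℤ) ∣ x + y := by
        have e1 : x ^ 3 + y ^ 3 = (x + y) ^ 3 - 3 * (x * y * (x + y)) := by ring
        rw [e1] at h3s
        have h4 := dvd_add h3s (dvd_mul_right (3 : ℤ) (x * y * (x + y)))
        rw [sub_add_cancel] at h4
        exact Int.prime_three.dvd_of_dvd_pow h4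
      obtain ⟨k, hk⟩ := h3xy
      have h9s : (9 : ℤ) ∣ PP p e univ * z ^ 3 := by
        rw [← hxyz]
        exact ⟨k * (3 * k ^ 2 - x * y), by
          have : x = 3 * k - y := by linarith
          rw [this]; ring⟩
      have h5 : (3 : ℤ) ^ 2 ∣ PP p e univ * z ^ 3 := by norm_num; exact h9s
      have h6 := Int.prime_three.pow_dvd_of_dvd_mul_right 2
        (fun h => h3z (Int.prime_three.dvd_of_dvd_pow h)) h5
      norm_num at h6
      exact h6
    obtain ⟨B, hB⟩ := h9
    have h3B : ¬ (3 : ℤ) ∣ B := by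
      rintro ⟨B', hB'⟩
      apply hcf 3 Int.prime_three
      refine ⟨B', ?_⟩
      change PP p e univ = _
      rw [hB, hB']; ring
    obtain ⟨S0, η, hnl, hηcop, hηim, hηdiff, hcoS, hηS⟩ := caseC_data hco (B := B)
      (by rw [← hB]; exact hxyz)
    have hS3 : ¬ (3 : ℤ) ∣ S0 := by
      intro h
      have h1 : (3 : ℤ) ∣ B * z ^ 3 := by rw [← hηS]; exact Dvd.dvd.mul_right h _
      rcases Int.prime_three.dvd_or_dvd h1 with h | h
      · exact h3B h
      · exact h3z (Int.prime_three.dvd_of_dvd_pow h)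
    -- an inert prime
    obtain ⟨i0, hi0⟩ : ∃ i0 : Fin m, p i0 ≠ 3 := by
      by_contra hcon
      push Not at hcon
      have h01 : (⟨0, by omega⟩ : Fin m) = ⟨1, by omega⟩ := by
        apply hinj
        rw [hcon, hcon]
      simp at h01
    have hr := hp i0
    have hr9 : p i0 % 9 = 2 ∨ p i0 % 9 = 5 := by have := hp9 i0; omega
    have hr3 : p i0 % 3 = 2 := by omega
    have hP := prime_inert hr hr3
    have hrn3 := FData.inert_n3 hr hr3
    have he0 : e i0 ≠ 0 := by have := he i0; omega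
    obtain ⟨i, hi⟩ := exists_prim hnl
    -- all primes divide `S0`
    have hηη : IsCoprime (η * w ^ i) (conj (η * w ^ i)) := by
      have hu1 : IsUnit (w ^ i) := isUnit_w.pow i
      have hu2 : IsUnit (conj (w ^ i)) := by
        rw [map_pow, conj_w]; exact (isUnit_w.pow 2).pow i
      rw [map_mul]
      rw [isCoprime_mul_unit_right_left hu1, isCoprime_mul_unit_right_right hu2]
      exact hηcop
    have hnorm : (η * w ^ i).norm = η.norm := by
      rw [norm_mul, Eis.norm_pow]
      have : w.norm = 1 := by decide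
      rw [this, one_pow, mul_one]
    have hcoS' : IsCoprime (9 * S0) (η * w ^ i).norm := by rw [hnorm]; exact hcoS
    obtain ⟨γ, s, t, hγ, hγ3, hS, -⟩ := side3 hp hp3 he hi hηη hcoS' (z := z) (by
      rw [hnorm, hB]; linear_combination 9 * hηS)
    have hdS : (p i0 : ℤ) ∣ S0 := by
      have h1 : (p i0 : ℤ) ∣ 9 * S0 := by
        rw [hS]
        apply Dvd.dvd.mul_right
        exact (dvd_pow_self _ he0).trans (dvd_prod_of_mem (fun j => (p j : ℤ) ^ e j) (mem_univ i0))
      exact ((hprime i0).dvd_or_dvd h1).resolve_left (ndvd9' hr hr3)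
    have hdvd : (p i0 : Eis) ∣ η - conj η := by
      rw [hηdiff]
      apply Dvd.dvd.mul_left
      have h2 := intCast_dvd_intCast.mpr hdS
      rwa [Int.cast_natCast] at h2
    have hnη : ∀ ξ : Eis, ξ.norm = η.norm → ¬ (p i0 : Eis) ∣ ξ := by
      have h0 := inert_not_dvd_norm hr hr3 hηcop
      intro ξ hξ hd
      apply h0
      obtain ⟨c, hc⟩ := hd
      rw [← hξ, hc, Eis.norm_mul, norm_natCast]
      exact ⟨p i0 * c.norm, by ring⟩
    have n1 := hnη η rfl
    have n2 := hnη (conj η) (norm_conj η)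
    have hwi : ¬ (p i0 : Eis) ∣ w ^ i := fun h => not_dvd_w hP (hP.dvd_of_dvd_pow h)
    have hγd : ¬ (p i0 : Eis) ∣ γ := fun h => by
      have h1 : (p i0 : Eis) ∣ η * w ^ i := by rw [hγ]; exact Dvd.dvd.pow h (by norm_num)
      exact (hP.dvd_or_dvd h1).elim n1 hwi
    have hs1 : sym (p i0 : Eis) η + (i : ZMod 3) * sym (p i0 : Eis) w = 0 := by
      have h1 : sym (p i0 : Eis) (η * w ^ i) = 0 := by rw [hγ]; exact sym_cube hP hrn3 hγd
      rwa [sym_mul hP hrn3 n1 hwi, FData.sym_w_pow hP hrn3] at h1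
    have hs2 := sym_congr hdvd
    have hs3 := sym_conj hP hrn3 n1
    rw [conj_natCast] at hs3
    have hwne : sym (p i0 : Eis) w ≠ 0 := by
      rw [FData.sym_w_r hr hr3]
      exact neg_ne_zero.mpr (wq_ne' hr9)
    have hi3 : (i : ZMod 3) = 0 := by
      have key : ∀ a b c d : ZMod 3, a + d * b = 0 → a = c → c = -a → b ≠ 0 → d = 0 := by decide
      exact key _ _ _ _ hs1 hs2 hs3 hwne
    have hi3' : 3 ∣ i := (ZMod.natCast_eq_zero_iff i 3).mp hi3
    obtain ⟨k, rfl⟩ := hi3'
    rw [pow_mul, w_cube, one_pow, mul_one] at hi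
    exact hS3 (by rw [← hηim]; exact hi.1)

end Pool.Agent.Lib_helper84.Cub
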