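import Pool.Agent.Lib_helper84.Cub.CaseOneB

/-!
# Classes at the prime above 3
-/

namespace Pool.Agent.Lib_helper84.Cub

open Pool.Agent.Lib_helper18 Pool.Agent.Lib_helper18.Eis

theorem prim_of {n : ℤ} (hn : ¬ (3 : ℤ) ∣ n) (r : Eis) : Prim ((n : Eis) + 3 * r) := by
  have h3 : (3 : Eis) = ⟨3, 0⟩ := by decide
  refine ⟨?_, ?_⟩
  · rw [h3]
    simp only [add_im, mul_im, intCast_im]
    omega
  · rw [h3]
    simp only [add_re, mul_re, intCast_re]
    omega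

theorem cls_mk {t r : Eis} {n : ℤ} (j i : ℕ) (h : t = lam ^ j * (w ^ i * ((n : Eis) + 3 * r)))
    (hn : ¬ (3 : ℤ) ∣ n) : Cls t ((i : ZMod 3) - j) := by
  refine ⟨j, 2 * i, w ^ i * ((n : Eis) + 3 * r), h, ?_, ?_⟩
  · have e : w ^ i * ((n : Eis) + 3 * r) * w ^ (2 * i) = (n : Eis) + 3 * r := by
      have h1 : w ^ i * w ^ (2 * i) = 1 := by
        rw [← pow_add, show i + 2 * i = 3 * i by ring, pow_mul, w_cube, one_pow]
      calc w ^ i * ((n : Eis) + 3 * r) * w ^ (2 * i) =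
          (w ^ i * w ^ (2 * i)) * ((n : Eis) + 3 * r) := by ring
        _ = _ := by rw [h1, one_mul]
    rw [e]
    exact prim_of hn r
  · push_cast
    linear_combination (i : ZMod 3) * three_zmod

theorem three_lam : (3 : Eis) = lam * (2 + w) := by decide
theorem lam_two : (3 : Eis) = lam ^ 2 * (-w ^ 2) := by decide

section two

variable {X Y : ℤ}

theorem clsTwo_zero (hX : (3 : ℤ) ∣ X) (hY : ¬ (3 : ℤ) ∣ Y) : Cls (w * X + (-Y : ℤ)) 0 := by
  obtain ⟨v, rfl⟩ := hX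
  have := cls_mk (t := w * ((3 * v : ℤ) : Eis) + (-Y : ℤ)) (r := w * v) (n := -Y) 0 0
    (by push_cast; ring) (by rwa [dvd_neg])
  simpa using this

theorem clsTwo_one (hY : (3 : ℤ) ∣ Y) (hX : ¬ (3 : ℤ) ∣ X) : Cls (w * X + (-Y : ℤ)) 1 := by
  obtain ⟨v, rfl⟩ := hY
  have := cls_mk (t := w * (X : Eis) + (-(3 * v) : ℤ)) (r := -w ^ 2 * v) (n := X) 0 1
    (by
      push_cast
      have h := w_cube
      linear_combination (3 * (v : Eis)) * h) hX
  simpa using this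

theorem clsTwo_two (hX : ¬ (3 : ℤ) ∣ X) (h : (3 : ℤ) ∣ X + Y) : Cls (w * X + (-Y : ℤ)) 2 := by
  obtain ⟨v, hv⟩ := h
  have hY : Y = -X + 3 * v := by linarith
  have := cls_mk (t := w * (X : Eis) + (-Y : ℤ)) (r := -w * v) (n := -X) 0 2
    (by
      rw [hY]
      push_cast
      have h := w_cube
      have h1 := w_rel
      linear_combination (3 * (v : Eis)) * h + (X : Eis) * h1) (by rwa [dvd_neg])
  simpa using this

theorem clsTwo_two' (hX : ¬ (3 : ℤ) ∣ X) (h : (9 : ℤ) ∣ X - Y) : Cls (w * X + (-Y : ℤ)) 2 := by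
  obtain ⟨v, hv⟩ := h
  have hY : Y = X - 9 * v := by linarith
  have := cls_mk (t := w * (X : Eis) + (-Y : ℤ)) (r := (2 + w) * v) (n := -X) 1 0
    (by
      rw [hY]
      push_cast
      have h := three_lam
      have h2 := lam_eq
      linear_combination (3 * (v : Eis)) * h + (X : Eis) * h2) (by rwa [dvd_neg])
  have e : ((0 : ℕ) : ZMod 3) - ((1 : ℕ) : ZMod 3) = 2 := by decide
  rwa [e] at this

/-- finer version -/
theorem clsTwo_fine {s : ℤ} (hX : ¬ (3 : ℤ) ∣ X) (h : (9 : ℤ) ∣ X - Y - 3 * s * X) :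
    Cls (w * X + (-Y : ℤ)) (-1 - (s : ZMod 3)) := by
  -- t = -lam X + (X - Y)
  have hs : s % 3 = 0 ∨ s % 3 = 1 ∨ s % 3 = 2 := by omega
  obtain ⟨v, hv⟩ := h
  have hY : Y = X - 3 * s * X - 9 * v := by linarith
  have h3 := three_lam
  have h2 := lam_eq
  have h1 := w_rel
  have hc := w_cube
  rcases hs with hs | hs | hs
  · obtain ⟨u, hu⟩ : ∃ u, s = 3 * u := ⟨s / 3, by omega⟩
    have := cls_mk (t := w * (X : Eis) + (-Y : ℤ)) (r := (2 + w) * (v + u * X)) (n := -X) 1 0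
      (by
        rw [hY, hu]
        push_cast
        linear_combination (3 * ((v : Eis) + u * X)) * h3 + (X : Eis) * h2) (by rwa [dvd_neg])
    have e : ((0 : ℕ) : ZMod 3) - ((1 : ℕ) : ZMod 3) = -1 - (s : ZMod 3) := by
      rw [hu]; push_cast; rw [three_zmod]; ring
    rwa [e] at this
  · -- s = 1 + 3u : t = -lam X + 3 X + 9 ... ; lam * (-X + (2+w) X) = lam X (1 + w) = -lam w² X
    obtain ⟨u, hu⟩ : ∃ u, s = 1 + 3 * u := ⟨s / 3, by omega⟩
    have := cls_mk (t := w * (X : Eis) + (-Y : ℤ)) (r := w * (2 + w) * (v + u * X)) (n := -X) 1 2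
      (by
        rw [hY, hu]
        push_cast
        linear_combination (3 * ((v : Eis) + u * X) + X) * h3 + (X : Eis) * h2 +
          (lam * X) * h1 - lam * (3 * (2 + w) * ((v : Eis) + u * X)) * hc) (by rwa [dvd_neg])
    have e : ((2 : ℕ) : ZMod 3) - ((1 : ℕ) : ZMod 3) = -1 - (s : ZMod 3) := by
      rw [hu]; push_cast; rw [three_zmod, zero_mul]; decide
    rwa [e] at this
  · -- s = -1 + 3u : lam * (-X - (2+w) X) = lam X (-3 - w)
    obtain ⟨u, hu⟩ : ∃ u, s = -1 + 3 * u := ⟨(s + 1) / 3, by omega⟩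
    have := cls_mk (t := w * (X : Eis) + (-Y : ℤ))
      (r := w ^ 2 * ((2 + w) * (v + u * X) - X)) (n := -X) 1 1
      (by
        rw [hY, hu]
        push_cast
        linear_combination (3 * ((v : Eis) + u * X) - X) * h3 + (X : Eis) * h2 -
          lam * (3 * ((2 + w) * ((v : Eis) + u * X) - X)) * hc) (by rwa [dvd_neg])
    have e : ((1 : ℕ) : ZMod 3) - ((1 : ℕ) : ZMod 3) = -1 - (s : ZMod 3) := by
      rw [hu]; push_cast; rw [three_zmod, zero_mul]; decide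
    rwa [e] at this

end two

theorem tTwo_eq (rd rn x0 x1 y0 y1 : ℤ) : tTwo rd rn x0 x1 y0 y1 =
    w * ((rd * x1 * y0 : ℤ) : Eis) + (-(rn * x0 * y1) : ℤ) := by
  rw [tTwo]; push_cast; ring

section one

variable {X0 X1 X2 T y : ℤ}

theorem ndvd_mul {a b : ℤ} (ha : ¬ (3 : ℤ) ∣ a) (hb : ¬ (3 : ℤ) ∣ b) : ¬ (3 : ℤ) ∣ a * b :=
  fun h => (Int.prime_three.dvd_or_dvd h).elim ha hb

theorem clsOne_div (hT : (9 : ℤ) ∣ T) (hy : ¬ (3 : ℤ) ∣ y) (hsum : X0 + X1 + X2 = 0) {c : ZMod 3}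
    (h : (9 : ℤ) ∣ X0 ∧ ¬ (3 : ℤ) ∣ X1 ∧ c = 0 ∨ (9 : ℤ) ∣ X1 ∧ ¬ (3 : ℤ) ∣ X0 ∧ c = 1 ∨
      (9 : ℤ) ∣ X2 ∧ ¬ (3 : ℤ) ∣ X0 ∧ c = 2) :
    Cls ((T : Eis) + res X0 X1 X2 * y) c := by
  obtain ⟨T', rfl⟩ := hT
  have h3 := three_lam
  have h2 := lam_eq
  have h1 := w_rel
  have hc := w_cube
  have h9 : (9 : Eis) = lam * (3 * (2 + w)) := by decide
  rcases h with ⟨⟨u, hu⟩, hX, rfl⟩ | ⟨⟨u, hu⟩, hX, rfl⟩ | ⟨⟨u, hu⟩, hX, rfl⟩
  · have hX2 : X2 = -X1 - 9 * u := by linarith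
    have := cls_mk (t := ((9 * T' : ℤ) : Eis) + res X0 X1 X2 * y)
      (r := w ^ 2 * (2 + w) * (T' + (1 - w ^ 2) * u * y)) (n := X1 * y) 1 1
      (by
        rw [hu, hX2, res]
        push_cast
        linear_combination ((T' : Eis) + (1 - w ^ 2) * u * y) * h9 -
          lam * (3 * (2 + w) * ((T' : Eis) + (1 - w ^ 2) * u * y)) * hc -
          (X1 * y * w : Eis) * h2) (ndvd_mul hX hy)
    simpa using this
  · have hX2 : X2 = -X0 - 9 * u := by linarith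
    have := cls_mk (t := ((9 * T' : ℤ) : Eis) + res X0 X1 X2 * y)
      (r := w * (2 + w) * (T' + (w - w ^ 2) * u * y)) (n := -(X0 * y)) 1 2
      (by
        rw [hu, hX2, res]
        push_cast
        linear_combination ((T' : Eis) + (w - w ^ 2) * u * y) * h9 -
          lam * (3 * (2 + w) * ((T' : Eis) + (w - w ^ 2) * u * y)) * hc +
          (X0 * y * w ^ 2 : Eis) * h2 + (- (X0 * y : Eis)) * hc) (by
          rw [dvd_neg]; exact ndvd_mul hX hy)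
    have e : ((2 : ℕ) : ZMod 3) - ((1 : ℕ) : ZMod 3) = 1 := by decide
    rwa [e] at this
  · have hX1 : X1 = -X0 - 9 * u := by linarith
    have := cls_mk (t := ((9 * T' : ℤ) : Eis) + res X0 X1 X2 * y)
      (r := (2 + w) * (T' + (w ^ 2 - w) * u * y)) (n := X0 * y) 1 0
      (by
        rw [hu, hX1, res]
        push_cast
        linear_combination ((T' : Eis) + (w ^ 2 - w) * u * y) * h9 -
          (X0 * y : Eis) * h2) (ndvd_mul hX hy)
    have e : ((0 : ℕ) : ZMod 3) - ((1 : ℕ) : ZMod 3) = 2 := by decide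
    rwa [e] at this

theorem clsOne_non (hT : (9 : ℤ) ∣ T) (hy : ¬ (3 : ℤ) ∣ y) (hsum : X0 + X1 + X2 = 0) {c : ZMod 3}
    (h : (9 : ℤ) ∣ X1 - X2 ∧ ¬ (3 : ℤ) ∣ X1 ∧ c = 0 ∨ (9 : ℤ) ∣ X0 - X2 ∧ ¬ (3 : ℤ) ∣ X0 ∧ c = 1 ∨
      (9 : ℤ) ∣ X0 - X1 ∧ ¬ (3 : ℤ) ∣ X0 ∧ c = 2) :
    Cls ((T : Eis) + res X0 X1 X2 * y) c := by
  obtain ⟨T', rfl⟩ := hT
  have h2 := lam_two
  have h1 := w_rel
  have hc := w_cube
  have h9 : (9 : Eis) = lam ^ 2 * (3 * (-w ^ 2)) := by decide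
  rcases h with ⟨⟨u, hu⟩, hX, rfl⟩ | ⟨⟨u, hu⟩, hX, rfl⟩ | ⟨⟨u, hu⟩, hX, rfl⟩
  · -- X2 = X1 - 9u, X0 = -2 X1 + 9 u ; res = -3 X1 + 9 u (1 - w²)
    have hX2 : X2 = X1 - 9 * u := by linarith
    have hX0 : X0 = -2 * X1 + 9 * u := by linarith
    have := cls_mk (t := ((9 * T' : ℤ) : Eis) + res X0 X1 X2 * y)
      (r := -(T' + (1 - w ^ 2) * u * y)) (n := X1 * y) 2 2
      (by
        rw [hX0, hX2, res]
        push_cast
        linear_combination ((T' : Eis) + (1 - w ^ 2) * u * y) * h9 -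
          (X1 * y : Eis) * h2 + (X1 * y : Eis) * h1) (ndvd_mul hX hy)
    have e : ((2 : ℕ) : ZMod 3) - ((2 : ℕ) : ZMod 3) = 0 := by decide
    rwa [e] at this
  · -- X2 = X0 - 9u, X1 = -2 X0 + 9u; res = X0 (1 + w²) - 2 w X0 + 9u (w - w²) = -3 w X0 + ..
    have hX2 : X2 = X0 - 9 * u := by linarith
    have hX1 : X1 = -2 * X0 + 9 * u := by linarith
    have := cls_mk (t := ((9 * T' : ℤ) : Eis) + res X0 X1 X2 * y)
      (r := -w ^ 2 * (T' + (w - w ^ 2) * u * y)) (n := X0 * y) 2 0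
      (by
        rw [hX1, hX2, res]
        push_cast
        linear_combination ((T' : Eis) + (w - w ^ 2) * u * y) * h9 -
          (X0 * y * w : Eis) * h2 + (X0 * y : Eis) * h1 +
          (lam ^ 2 * X0 * y : Eis) * hc) (ndvd_mul hX hy)
    have e : ((0 : ℕ) : ZMod 3) - ((2 : ℕ) : ZMod 3) = 1 := by decide
    rwa [e] at this
  · -- X1 = X0 - 9u, X2 = -2 X0 + 9u ; res = -3 w² X0 + 9 u (w² - w)
    have hX1 : X1 = X0 - 9 * u := by linarith
    have hX2 : X2 = -2 * X0 + 9 * u := by linarith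
    have := cls_mk (t := ((9 * T' : ℤ) : Eis) + res X0 X1 X2 * y)
      (r := -w * (T' + (w ^ 2 - w) * u * y)) (n := X0 * y) 2 1
      (by
        rw [hX1, hX2, res]
        push_cast
        linear_combination ((T' : Eis) + (w ^ 2 - w) * u * y) * h9 -
          (X0 * y * w ^ 2 : Eis) * h2 + (X0 * y : Eis) * h1 +
          (lam ^ 2 * w * X0 * y : Eis) * hc) (ndvd_mul hX hy)
    have e : ((1 : ℕ) : ZMod 3) - ((2 : ℕ) : ZMod 3) = 2 := by decide
    rwa [e] at this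

end one

end Pool.Agent.Lib_helper84.Cub
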