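import Pool.Agent.Lib_helper84.Cub.Comb

/-!
# The theorems on pairs of cubic twists
-/

namespace Pool.Agent.Lib_helper84.Cub

open Pool.Agent.Lib_helper18 Pool.Agent.Lib_helper18.Eis

/-- being a sum of two rational cubes -/
def IsSum (n : ℚ) : Prop := ∃ X Y : ℚ, X ^ 3 + Y ^ 3 = n

variable {m : ℕ} {p e e' : Fin m → ℕ}

theorem wq_prod (s : Finset (Fin m)) (f : Fin m → ℤ) (hf : ∀ j, ¬ (3 : ℤ) ∣ f j) :
    wq (∏ j ∈ s, f j) = ∑ j ∈ s, wq (f j) := by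
  classical
  induction s using Finset.induction_on with
  | empty => simp [wq_one]
  | insert a s ha ih =>
    rw [Finset.prod_insert ha, Finset.sum_insert ha, ← ih]
    refine wq_mul (hf a) ?_
    intro h
    rw [Prime.dvd_finsetProd_iff Int.prime_three] at h
    obtain ⟨j, -, hj⟩ := h
    exact hf j hj

theorem not_three_dvd {q : ℕ} (h9 : q % 9 = 2 ∨ q % 9 = 5) : ¬ (3 : ℤ) ∣ (q : ℤ) := by
  omega

theorem wq_cell (h9 : ∀ i, p i % 9 = 2 ∨ p i % 9 = 5) (pos : Fin m → Fin 3) (k : Fin 3) :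
    wq (cell p e pos k) = ∑ j, if pos j = k then (e j : ZMod 3) * wq (p j : ℤ) else 0 := by
  have h3 : ∀ j, ¬ (3 : ℤ) ∣ (p j : ℤ) ^ e j := fun j h =>
    not_three_dvd (h9 j) (Int.prime_three.dvd_of_dvd_pow h)
  rw [cell, wq_prod]
  · refine Finset.sum_congr rfl (fun j _ => ?_)
    split_ifs
    · rw [wq_pow (not_three_dvd (h9 j))]
    · exact wq_one
  · intro j
    split_ifs
    · exact h3 j
    · norm_num

theorem wq_all (h9 : ∀ i, p i % 9 = 2 ∨ p i % 9 = 5) :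
    wq (∏ j, (p j : ℤ) ^ e j) = ∑ j, (e j : ZMod 3) * wq (p j : ℤ) := by
  have h3 : ∀ j, ¬ (3 : ℤ) ∣ (p j : ℤ) ^ e j := fun j h =>
    not_three_dvd (h9 j) (Int.prime_three.dvd_of_dvd_pow h)
  rw [wq_prod _ _ h3]
  exact Finset.sum_congr rfl (fun j _ => wq_pow (not_three_dvd (h9 j)) _)

theorem wq_ne {q : ℕ} (h9 : q % 9 = 2 ∨ q % 9 = 5) : wq (q : ℤ) ≠ 0 := by
  unfold wq
  have : (q : ℤ) % 9 = 2 ∨ (q : ℤ) % 9 = 5 := by omega
  rcases this with h | h <;> rw [h] <;> decide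

theorem wq_zero_iff {n : ℤ} (h3 : ¬ (3 : ℤ) ∣ n) : wq n = 0 ↔ n % 9 = 1 ∨ n % 9 = 8 := by
  unfold wq
  have : n % 9 = 1 ∨ n % 9 = 2 ∨ n % 9 = 4 ∨ n % 9 = 5 ∨ n % 9 = 7 ∨ n % 9 = 8 := by omega
  rcases this with h | h | h | h | h | h <;> rw [h] <;> decide

theorem wq_eq_iff {n k : ℤ} (hn : ¬ (3 : ℤ) ∣ n) (hk : ¬ (3 : ℤ) ∣ k) :
    wq n = wq k ↔ n % 9 = k % 9 ∨ (n + k) % 9 = 0 := by
  have e1 : (n + k) % 9 = (n % 9 + k % 9) % 9 := by omega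
  rw [e1]
  unfold wq
  have h1 : n % 9 = 1 ∨ n % 9 = 2 ∨ n % 9 = 4 ∨ n % 9 = 5 ∨ n % 9 = 7 ∨ n % 9 = 8 := by omega
  have h2 : k % 9 = 1 ∨ k % 9 = 2 ∨ k % 9 = 4 ∨ k % 9 = 5 ∨ k % 9 = 7 ∨ k % 9 = 8 := by omega
  rcases h1 with h | h | h | h | h | h <;> rcases h2 with h' | h' | h' | h' | h' | h' <;>
    rw [h, h'] <;> decide

theorem mk_base (hp : ∀ i, (p i).Prime) (h9 : ∀ i, p i % 9 = 2 ∨ p i % 9 = 5)
    (hinj : Function.Injective p) (he : ∀ i, e i = 1 ∨ e i = 2) (he' : ∀ i, e' i = 1 ∨ e' i = 2)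
    {i0 i1 : Fin m} (h01 : i0 ≠ i1)
    (hab : (e i0 : ZMod 3) * wq (p i0 : ℤ) + (e i1 : ZMod 3) * wq (p i1 : ℤ) = 0)
    (rel : Rel i0 i1 e e') : Base p e e' i0 i1 where
  hp := hp
  h3 := fun i => by have := h9 i; omega
  inj := hinj
  he := he
  he' := he'
  h01 := h01
  hw := fun i => by
    rw [FData.sym_w_r (hp i) (by have := h9 i; omega)]
    exact neg_ne_zero.mpr (wq_ne (h9 i))
  hab := by
    rw [FData.sym_w_r (hp i0) (by have := h9 i0; omega),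
      FData.sym_w_r (hp i1) (by have := h9 i1; omega)]
    linear_combination (-1 : ZMod 3) * hab
  rel := rel

end Pool.Agent.Lib_helper84.Cub
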