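import Pool.Agent.Lib_helper84.Cub.GlueC
import Pool.Agent.Lib_helper84.Cub.Adic
import Pool.Agent.Lib_helper84.Cub.Final

/-!
# 3-adic information on points, `A` prime to 3
-/

namespace Pool.Agent.Lib_helper84.Cub

open Pool.Agent.Lib_helper18 Pool.Agent.Lib_helper18.Eis

theorem wq_mul_cube {a x : ℤ} (ha : ¬ (3 : ℤ) ∣ a) (hx : ¬ (3 : ℤ) ∣ x) :
    wq (a * x ^ 3) = wq a := by
  have hx3 : ¬ (3 : ℤ) ∣ x ^ 3 := fun h => hx (Int.prime_three.dvd_of_dvd_pow h)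
  rw [wq_mul ha hx3, wq_cube hx, add_zero]

/-- three units with sum zero modulo 9 -/
theorem units9 {X0 X1 X2 : ℤ} (h0 : ¬ (3 : ℤ) ∣ X0) (h1 : ¬ (3 : ℤ) ∣ X1) (h2 : ¬ (3 : ℤ) ∣ X2)
    (hs : X0 + X1 + X2 = 0) : ((9 : ℤ) ∣ X1 - X2 ∨ (9 : ℤ) ∣ X0 - X2 ∨ (9 : ℤ) ∣ X0 - X1) ∧
      wq X0 + wq X1 + wq X2 = 2 := by
  have h0' : X0 % 9 = 1 ∨ X0 % 9 = 2 ∨ X0 % 9 = 4 ∨ X0 % 9 = 5 ∨ X0 % 9 = 7 ∨ X0 % 9 = 8 := by omega
  have h1' : X1 % 9 = 1 ∨ X1 % 9 = 2 ∨ X1 % 9 = 4 ∨ X1 % 9 = 5 ∨ X1 % 9 = 7 ∨ X1 % 9 = 8 := by omega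
  have e2 : X2 % 9 = (-(X0 % 9) - (X1 % 9)) % 9 := by omega
  constructor
  · rcases h0' with h | h | h | h | h | h <;> rcases h1' with h' | h' | h' | h' | h' | h' <;>
      first
      | (exfalso; omega)
      | (left; omega)
      | (right; left; omega)
      | (right; right; omega)
  unfold wq
  rcases h0' with h | h | h | h | h | h <;> rcases h1' with h' | h' | h' | h' | h' | h' <;>
    first
    | (exfalso; omega)
    | (rw [e2, h, h']; decide)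

theorem dvd_add_of {X Y : ℤ} (hX : ¬ (3 : ℤ) ∣ X) (hY : ¬ (3 : ℤ) ∣ Y) (h : ¬ (3 : ℤ) ∣ X - Y) :
    (3 : ℤ) ∣ X + Y := by
  have h1 : X % 3 = 1 ∨ X % 3 = 2 := by omega
  have h2 : Y % 3 = 1 ∨ Y % 3 = 2 := by omega
  rcases h1 with h1 | h1 <;> rcases h2 with h2 | h2 <;> omega

theorem wq_congr {u v : ℤ} (h : (9 : ℤ) ∣ u - v) : wq u = wq v := by
  have : wq u = wq (-v) := by
    unfold wq
    have h1 : u % 9 = v % 9 := by omega
    have h2 : (-v) % 9 = (9 - v % 9) % 9 := by omega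
    rw [h1, h2]
    have h3 : 0 ≤ v % 9 := by omega
    have h4 : v % 9 < 9 := by omega
    generalize v % 9 = a at *
    interval_cases a <;> simp
  rw [this]
  exact wq_of_add (by simp)

/-- equality outside `o` -/
def OO (f : Fin 3 → ZMod 3) (o : Fin 3) : Prop := ∀ i j, i ≠ o → j ≠ o → f i = f j

instance (f : Fin 3 → ZMod 3) (o : Fin 3) : Decidable (OO f o) := by
  unfold OO; infer_instance

variable {m : ℕ} {p e e' : Fin m → ℕ} {pos pos' : Fin m → Fin 3} {x y : Fin 3 → ℤ} {i0 i1 : Fin m}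

/-- 3-adic information on a point -/
structure PInfo (p e : Fin m → ℕ) (pos : Fin m → Fin 3) (x : Fin 3 → ℤ) (o : Fin 3) : Prop where
  out : OO (fun k => wq (cell p e pos k)) o
  unit : ∀ k, k ≠ o → ¬ (3 : ℤ) ∣ x k
  alt : (3 : ℤ) ∣ x o ∨ (¬ (3 : ℤ) ∣ x o ∧ ∀ i j, i ≠ o → j ≠ o →
    (9 : ℤ) ∣ term p e pos x i - term p e pos x j)
  div : wq (∏ j, (p j : ℤ) ^ e j) = 1 → (3 : ℤ) ∣ x o

theorem OO_iff (f : Fin 3 → ZMod 3) : (OO f 0 ↔ f 1 = f 2) ∧ (OO f 1 ↔ f 0 = f 2) ∧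
    (OO f 2 ↔ f 0 = f 1) := by
  have key : ∀ a b c : ZMod 3, (OO ![a, b, c] 0 ↔ b = c) ∧ (OO ![a, b, c] 1 ↔ a = c) ∧
    (OO ![a, b, c] 2 ↔ a = b) := by decide
  have e : f = ![f 0, f 1, f 2] := by
    ext k; fin_cases k <;> rfl
  have := key (f 0) (f 1) (f 2)
  rw [← e] at this
  exact this

theorem forall3 {P : Fin 3 → Prop} (h0 : P 0) (h1 : P 1) (h2 : P 2) : ∀ k, P k := by
  intro k; fin_cases k
  · exact h0
  · exact h1
  · exact h2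

theorem pt_info (h3 : ∀ k, ¬ (3 : ℤ) ∣ cell p e pos k)
    (hP : IsPt p e pos x) : ∃ o, PInfo p e pos x o := by
  have hprod := cell_prod p e pos
  have hsum := sum3 hP.sum
  have c01 := hP.cop 0 1 (by decide)
  have c02 := hP.cop 0 2 (by decide)
  have c12 := hP.cop 1 2 (by decide)
  have hwA : wq (∏ j, (p j : ℤ) ^ e j) =
      wq (cell p e pos 0) + wq (cell p e pos 1) + wq (cell p e pos 2) := by
    rw [← hprod, wq_mul (ndvd_mul (h3 0) (h3 1)) (h3 2), wq_mul (h3 0) (h3 1)]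
  have nd : ∀ {a b c d : ℤ}, IsCoprime (a * b) (c * d) → (3 : ℤ) ∣ b → ¬ (3 : ℤ) ∣ d := by
    intro a b c d h hb hd
    exact Int.prime_three.not_isUnit (h.isUnit_of_dvd' (Dvd.dvd.mul_left hb _)
      (Dvd.dvd.mul_left hd _))
  have d27 : ∀ k, (3 : ℤ) ∣ x k → (9 : ℤ) ∣ term p e pos x k := by
    rintro k ⟨u, hu⟩
    refine ⟨cell p e pos k * (3 * u ^ 3), ?_⟩
    unfold term
    rw [hu]; ring
  have hsum' : term p e pos x 0 + term p e pos x 1 + term p e pos x 2 = 0 := hsum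
  have ht : ∀ k, ¬ (3 : ℤ) ∣ x k → wq (term p e pos x k) = wq (cell p e pos k) :=
    fun k hk => wq_mul_cube (h3 k) hk
  obtain ⟨O0, O1, O2⟩ := OO_iff (fun k => wq (cell p e pos k))
  by_cases d0 : (3 : ℤ) ∣ x 0
  · have n1 := nd c01 d0
    have n2 := nd c02 d0
    refine ⟨0, O0.mpr ?_, ?_, Or.inl d0, fun _ => d0⟩
    · have h9 := d27 0 d0
      rw [← ht 1 n1, ← ht 2 n2]
      exact wq_of_add (by omega)
    · exact forall3 (fun h => absurd rfl h) (fun _ => n1) (fun _ => n2)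
  by_cases d1 : (3 : ℤ) ∣ x 1
  · have n0 := nd c01.symm d1
    have n2 := nd c12 d1
    refine ⟨1, O1.mpr ?_, ?_, Or.inl d1, fun _ => d1⟩
    · have h9 := d27 1 d1
      rw [← ht 0 n0, ← ht 2 n2]
      exact wq_of_add (by omega)
    · exact forall3 (fun _ => n0) (fun h => absurd rfl h) (fun _ => n2)
  by_cases d2 : (3 : ℤ) ∣ x 2
  · have n0 := nd c02.symm d2
    have n1 := nd c12.symm d2
    refine ⟨2, O2.mpr ?_, ?_, Or.inl d2, fun _ => d2⟩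
    · have h9 := d27 2 d2
      rw [← ht 0 n0, ← ht 1 n1]
      exact wq_of_add (by omega)
    · exact forall3 (fun _ => n0) (fun _ => n1) (fun h => absurd rfl h)
  have hall : ∀ k, ¬ (3 : ℤ) ∣ x k := forall3 d0 d1 d2
  have hX : ∀ k, ¬ (3 : ℤ) ∣ term p e pos x k := fun k =>
    ndvd_mul (h3 k) (fun h => hall k (Int.prime_three.dvd_of_dvd_pow h))
  obtain ⟨h9, hw⟩ := units9 (hX 0) (hX 1) (hX 2) hsum'
  rw [ht 0 d0, ht 1 d1, ht 2 d2, ← hwA] at hw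
  have hne : wq (∏ j, (p j : ℤ) ^ e j) ≠ 1 := by rw [hw]; decide
  rcases h9 with h9 | h9 | h9
  · refine ⟨0, O0.mpr ?_, fun k _ => hall k, Or.inr ⟨d0, ?_⟩, fun h => absurd h hne⟩
    · rw [← ht 1 d1, ← ht 2 d2]; exact wq_congr h9
    · refine forall3 (fun j h => absurd rfl h) (fun j _ => ?_) (fun j _ => ?_) <;>
        revert j <;> refine forall3 (fun h => absurd rfl h) (fun _ => ?_) (fun _ => ?_)
      · simp
      · exact h9
      · rw [← dvd_neg, neg_sub]; exact h9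
      · simp
  · refine ⟨1, O1.mpr ?_, fun k _ => hall k, Or.inr ⟨d1, ?_⟩, fun h => absurd h hne⟩
    · rw [← ht 0 d0, ← ht 2 d2]; exact wq_congr h9
    · refine forall3 (fun j _ => ?_) (fun j h => absurd rfl h) (fun j _ => ?_) <;>
        revert j <;> refine forall3 (fun _ => ?_) (fun h => absurd rfl h) (fun _ => ?_)
      · simp
      · exact h9
      · rw [← dvd_neg, neg_sub]; exact h9
      · simp
  · refine ⟨2, O2.mpr ?_, fun k _ => hall k, Or.inr ⟨d2, ?_⟩, fun h => absurd h hne⟩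
    · rw [← ht 0 d0, ← ht 1 d1]; exact wq_congr h9
    · refine forall3 (fun j _ => ?_) (fun j _ => ?_) (fun j h => absurd rfl h) <;>
        revert j <;> refine forall3 (fun _ => ?_) (fun _ => ?_) (fun h => absurd rfl h)
      · simp
      · exact h9
      · rw [← dvd_neg, neg_sub]; exact h9
      · simp

/-- the class of the main element of case I -/
theorem cls_tI (h3 : ∀ k, ¬ (3 : ℤ) ∣ cell p e pos k) (hP : IsPt p e pos x) {o : Fin 3}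
    (hI : PInfo p e pos x o) (hT : (3 : ℤ) ∣ x 0 * x 1 * x 2 ∨ (3 : ℤ) ∣ y 2)
    (hy : ¬ (3 : ℤ) ∣ y 1) : Cls (tI p e i0 i1 pos x y) ((o : ℕ) : ZMod 3) := by
  have hsum : term p e pos x 0 + term p e pos x 1 + term p e pos x 2 = 0 := sum3 hP.sum
  have h9T : (9 : ℤ) ∣ 3 * (x 0 * x 1 * x 2) * (qS p i0 i1 * y 2) := by
    rcases hT with ⟨u, hu⟩ | ⟨u, hu⟩
    · rw [hu]; exact ⟨u * (qS p i0 i1 * y 2), by ring⟩
    · rw [hu]; exact ⟨x 0 * x 1 * x 2 * (qS p i0 i1 * u), by ring⟩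
  have d9 : ∀ k, (3 : ℤ) ∣ x k → (9 : ℤ) ∣ term p e pos x k := by
    rintro k ⟨u, hu⟩
    refine ⟨cell p e pos k * (3 * u ^ 3), ?_⟩
    unfold term
    rw [hu]; ring
  have hX : ∀ k, ¬ (3 : ℤ) ∣ x k → ¬ (3 : ℤ) ∣ term p e pos x k := fun k hk =>
    ndvd_mul (h3 k) (fun h => hk (Int.prime_three.dvd_of_dvd_pow h))
  have hu := hI.unit
  have ho : o = 0 ∨ o = 1 ∨ o = 2 := by clear * -; revert o; decide
  unfold tI tOne
  rcases hI.alt with h | ⟨-, h⟩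
  · apply clsOne_div h9T hy hsum
    rcases ho with rfl | rfl | rfl
    · exact Or.inl ⟨d9 0 h, hX 1 (hu 1 (by decide)), by decide⟩
    · exact Or.inr (Or.inl ⟨d9 1 h, hX 0 (hu 0 (by decide)), by decide⟩)
    · exact Or.inr (Or.inr ⟨d9 2 h, hX 0 (hu 0 (by decide)), by decide⟩)
  · apply clsOne_non h9T hy hsum
    rcases ho with rfl | rfl | rfl
    · exact Or.inl ⟨h 1 2 (by decide) (by decide), hX 1 (hu 1 (by decide)), by decide⟩
    · exact Or.inr (Or.inl ⟨h 0 2 (by decide) (by decide), hX 0 (hu 0 (by decide)), by decide⟩)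
    · exact Or.inr (Or.inr ⟨h 0 1 (by decide) (by decide), hX 0 (hu 0 (by decide)), by decide⟩)

theorem BaseG.rd3 (b : BaseG p e e' i0 i1) (k : Fin 3) : ¬ (3 : ℤ) ∣ rdP p i0 i1 pos k := by
  unfold rdP
  intro h
  rw [Prime.dvd_finsetProd_iff Int.prime_three] at h
  obtain ⟨j, -, hj⟩ := h
  split_ifs at hj with hc
  · have h1 := b.sp3 hc.1
    rw [pow_one] at hj
    omega
  · omega

theorem cube_congr {X Y : ℤ} (hX : ¬ (3 : ℤ) ∣ X) (h : (27 : ℤ) ∣ X ^ 3 - Y ^ 3) :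
    (9 : ℤ) ∣ X - Y := by
  have h3 : (3 : ℤ) ∣ X - Y := by
    have h1 : (3 : ℤ) ∣ X ^ 3 - Y ^ 3 := (by norm_num : (3 : ℤ) ∣ 27).trans h
    have h2 : (3 : ℤ) ∣ (X - Y) ^ 3 := by
      have e : (X - Y) ^ 3 = X ^ 3 - Y ^ 3 + 3 * (X * Y * (Y - X)) := by ring
      rw [e]; exact dvd_add h1 (dvd_mul_right _ _)
    exact Int.prime_three.dvd_of_dvd_pow h2
  obtain ⟨k, hk⟩ := h3
  obtain ⟨c, hc⟩ := h
  have hY : Y = X - 3 * k := by linarith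
  have h9 : (3 : ℤ) ∣ k * X ^ 2 := by
    refine ⟨c + k ^ 2 * X - k ^ 3, ?_⟩
    rw [hY] at hc
    have : (9 : ℤ) * (k * X ^ 2) = 9 * (3 * (c + k ^ 2 * X - k ^ 3)) := by linarith
    linarith
  have hk3 : (3 : ℤ) ∣ k := (Int.prime_three.dvd_or_dvd h9).resolve_right
    (fun h => hX (Int.prime_three.dvd_of_dvd_pow h))
  obtain ⟨u, hu⟩ := hk3
  exact ⟨u, by rw [hk, hu]; ring⟩

theorem tII_eq (p : Fin m → ℕ) (i0 i1 : Fin m) (pos : Fin m → Fin 3) (x y : Fin 3 → ℤ) :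
    tII p i0 i1 pos x y = w * ((rdP p i0 i1 pos 1 * x 1 * y 0 : ℤ) : Eis) +
      (-(rdP p i0 i1 pos 0 * x 0 * y 1) : ℤ) := tTwo_eq _ _ _ _ _ _

theorem cls_tII_zero (b : BaseG p e e' i0 i1) (h : (3 : ℤ) ∣ x 1 ∨ (3 : ℤ) ∣ y 0)
    (h0 : ¬ (3 : ℤ) ∣ x 0) (h1 : ¬ (3 : ℤ) ∣ y 1) : Cls (tII p i0 i1 pos x y) 0 := by
  rw [tII_eq]
  refine clsTwo_zero ?_ (ndvd_mul (ndvd_mul (b.rd3 0) h0) h1)
  rcases h with h | h
  · exact Dvd.dvd.mul_right (Dvd.dvd.mul_left h _) _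
  · exact Dvd.dvd.mul_left h _

theorem cls_tII_one (b : BaseG p e e' i0 i1) (h : (3 : ℤ) ∣ x 0 ∨ (3 : ℤ) ∣ y 1)
    (h0 : ¬ (3 : ℤ) ∣ x 1) (h1 : ¬ (3 : ℤ) ∣ y 0) : Cls (tII p i0 i1 pos x y) 1 := by
  rw [tII_eq]
  refine clsTwo_one ?_ (ndvd_mul (ndvd_mul (b.rd3 1) h0) h1)
  rcases h with h | h
  · exact Dvd.dvd.mul_right (Dvd.dvd.mul_left h _) _
  · exact Dvd.dvd.mul_left h _

theorem cls_tII_two (b : BaseG p e e' i0 i1) (hpos : Exch i0 i1 pos pos')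
    (hP : IsPt p e pos x) (hP' : IsPt p e' pos' y)
    (n0 : ¬ (3 : ℤ) ∣ cell p e' pos' 0) (n1 : ¬ (3 : ℤ) ∣ cell p e pos 1)
    (n2 : ¬ (3 : ℤ) ∣ cell p e pos 2)
    (hx0 : ¬ (3 : ℤ) ∣ x 0) (hx1 : ¬ (3 : ℤ) ∣ x 1) (hy0 : ¬ (3 : ℤ) ∣ y 0)
    (hy1 : ¬ (3 : ℤ) ∣ y 1) (hy2 : (3 : ℤ) ∣ y 2) : Cls (tII p i0 i1 pos x y) 2 := by
  have hx := sum3 hP.sum
  have hy := sum3 hP'.sum
  have h1 := exch_h1 b hpos
  set X := rdP p i0 i1 pos 1 * x 1 * y 0 with hX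
  set Y := rdP p i0 i1 pos 0 * x 0 * y 1 with hY
  have hXn : ¬ (3 : ℤ) ∣ X := ndvd_mul (ndvd_mul (b.rd3 1) hx1) hy0
  have hYn : ¬ (3 : ℤ) ∣ Y := ndvd_mul (ndvd_mul (b.rd3 0) hx0) hy1
  have hid : cell p e' pos' 0 * cell p e pos 1 * (X ^ 3 - Y ^ 3) =
      rdP p i0 i1 pos 1 ^ 3 * (cell p e pos 0 * cell p e' pos' 2 * (x 0 * y 2) ^ 3 -
        cell p e' pos' 0 * cell p e pos 2 * (x 2 * y 0) ^ 3) := by
    rw [hX, hY]
    linear_combination (x 0 * y 1) ^ 3 * h1 +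
      rdP p i0 i1 pos 1 ^ 3 * cell p e' pos' 0 * y 0 ^ 3 * hx -
      rdP p i0 i1 pos 1 ^ 3 * cell p e pos 0 * x 0 ^ 3 * hy
  obtain ⟨u, hu⟩ := hy2
  rw [tII_eq]
  by_cases hx2 : (3 : ℤ) ∣ x 2
  · refine clsTwo_two' hXn ?_
    apply cube_congr hXn
    obtain ⟨v, hv⟩ := hx2
    have h27 : (3 : ℤ) ^ 3 ∣ (cell p e' pos' 0 * cell p e pos 1) * (X ^ 3 - Y ^ 3) := by
      rw [hid, hu, hv]
      exact ⟨rdP p i0 i1 pos 1 ^ 3 * (cell p e pos 0 * cell p e' pos' 2 * (x 0 * u) ^ 3 -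
        cell p e' pos' 0 * cell p e pos 2 * (v * y 0) ^ 3), by ring⟩
    have := Int.prime_three.pow_dvd_of_dvd_mul_left 3 (ndvd_mul n0 n1) h27
    norm_num at this
    exact this
  · refine clsTwo_two hXn ?_
    have hne : ¬ (3 : ℤ) ∣ X - Y := by
      intro h
      have h4 : (3 : ℤ) ∣ cell p e' pos' 0 * cell p e pos 1 * (X ^ 3 - Y ^ 3) := by
        apply Dvd.dvd.mul_left
        exact h.trans (sub_dvd_pow_sub_pow X Y 3)
      rw [hid] at h4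
      rcases Int.prime_three.dvd_or_dvd h4 with h5 | h5
      · exact b.rd3 1 (Int.prime_three.dvd_of_dvd_pow h5)
      · have h6 : (3 : ℤ) ∣ cell p e pos 0 * cell p e' pos' 2 * (x 0 * y 2) ^ 3 := by
          rw [hu]; exact ⟨cell p e pos 0 * cell p e' pos' 2 * (x 0 * u) ^ 3 * 9, by ring⟩
        have h7 := dvd_sub h6 h5
        rw [sub_sub_cancel] at h7
        exact ndvd_mul (ndvd_mul n0 n2) (fun h => ndvd_mul hx2 hy0
          (Int.prime_three.dvd_of_dvd_pow h)) h7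
    exact dvd_add_of hXn hYn hne

end Pool.Agent.Lib_helper84.Cub
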