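import Pool.Agent.Lib_helper84.Cub.WFT
import Pool.Agent.WFT.Stmts

/-!
# MP_7dd379_ag: the statements PHI, CUBIC, KER, OMEGA3, FEDDER of `WFT/Stmts.lean`
-/

set_option autoImplicit false

namespace Pool.Agent.WFT

universe u

theorem stmtPhi : StmtPhi.{u} := by
  intro p _ d k _ _ hk e
  exact Pool.Agent.Cub.exists_cartierGen d hk e

theorem stmtCubic : StmtCubic.{u} := by
  intro d k T _ _ _ _ _ _ _ _ hM hrk
  exact Pool.Agent.Cub.exists_wftCubic hM hrk

theorem stmtKer : StmtKer.{u} := by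
  intro A T L _ _ _ _ _ _ _ _ _ _ _ _ _ S θ hθ
  exact Pool.Agent.Cub.ker_cubic S hθ

theorem stmtOmega3 : StmtOmega3.{u} := by
  intro A T L _ _ _ _ _ _ _ _ S θ hθ
  letI : Algebra A L := ((algebraMap T L).comp (algebraMap A T)).toAlgebra
  haveI : IsScalarTower A T L := IsScalarTower.of_algebraMap_eq fun _ => rfl
  exact Pool.Agent.Cub.isDual_theta S hθ

theorem stmtFedder : StmtFedder.{u} := by
  intro p _ d k T L _ _ _ _ _ _ _ _ _ _ _ _ _ _ _ _ hk hM S θ hθ _ _ _ _ e N hS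
  exact Pool.Agent.Cub.fedder hk hM S hθ hS

end Pool.Agent.WFT
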