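import Pool.Agent.Lib_helper84.Cub.Rep

/-!
# Cubic algebras: the recurrent sequence and the order inequality
-/

set_option autoImplicit false
set_option linter.unusedSectionVars false

open Polynomial Module

namespace Pool.Agent.Cub

/-- coefficients of a multiple of the cubic -/
lemma coeff_FF_mul {A : Type*} [CommRing A] (a b c e : A) (H : A[X]) (n : ℕ) :
    (FF a b c e * H).coeff (n + 3) =
      a * H.coeff n + b * H.coeff (n + 1) + c * H.coeff (n + 2) + e * H.coeff (n + 3) := by
  have h1 : FF a b c e * H = C a * (X ^ 3 * H) + C b * (X ^ 2 * H) + C c * (X * H) + C e * H := by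
    unfold FF; ring
  rw [h1]
  simp only [coeff_add, coeff_C_mul]
  rw [coeff_X_pow_mul, show n + 3 = (n + 1) + 2 by ring, coeff_X_pow_mul,
    show (n + 1) + 2 = (n + 2) + 1 by ring, coeff_X_mul]

lemma coeff_FF_mul_two {A : Type*} [CommRing A] (a b c e : A) (H : A[X]) :
    (FF a b c e * H).coeff 2 = b * H.coeff 0 + c * H.coeff 1 + e * H.coeff 2 := by
  have h1 : FF a b c e * H = C a * (X ^ 3 * H) + C b * (X ^ 2 * H) + C c * (X * H) + C e * H := by
    unfold FF; ring
  rw [h1]
  simp only [coeff_add, coeff_C_mul]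
  rw [coeff_X_pow_mul', if_neg (by norm_num), show (2 : ℕ) = 0 + 2 by ring, coeff_X_pow_mul,
    show (0 + 2 : ℕ) = 1 + 1 by ring, coeff_X_mul]
  ring

section

variable {A R L : Type*} [CommRing A] [IsDomain A] [CommRing R] [Algebra A R] [Field L]
  [Algebra A L] [Algebra R L] [IsScalarTower A R L] {a b c e : A} {B : Basis (Fin 3) A R}

lemma rt_coeff_zero (G : R →ₗ[A] A) : (rt a b B G).coeff 0 = G (B 2) := by
  unfold rt; simp

lemma rt_coeff_one (G : R →ₗ[A] A) :
    (rt a b B G).coeff 1 = b * G (B 0) + G (B 1) := by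
  unfold rt
  simp only [coeff_add, coeff_C_mul, coeff_X_pow, coeff_X, coeff_C]
  norm_num
  ring

lemma rt_coeff_two (G : R →ₗ[A] A) : (rt a b B G).coeff 2 = a * G (B 0) := by
  unfold rt
  simp only [coeff_add, coeff_C_mul, coeff_X_pow, coeff_X, coeff_C]
  norm_num
  ring

lemma rt_natDegree (G : R →ₗ[A] A) : (rt a b B G).natDegree ≤ 2 := by
  unfold rt
  compute_degree

lemma rt_coeff_ge (G : R →ₗ[A] A) {n : ℕ} (hn : 3 ≤ n) : (rt a b B G).coeff n = 0 :=
  coeff_eq_zero_of_natDegree_lt (lt_of_le_of_lt (rt_natDegree G) (by omega))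

/-- The recurrent sequence. -/
theorem exists_seq (ha : a ≠ 0) {q : ℕ} (hq : 2 ≤ q) {G G' : R →ₗ[A] A}
    (hdvd : FF a b c e ∣ X ^ q * rt a b B G - rt a b B G') :
    ∃ h : ℕ → A, (∀ j, 1 ≤ j → j ≤ q - 2 →
        e * h j + c * h (j + 1) + b * h (j + 2) + a * h (j + 3) = 0) ∧
      rt a b B G = C (h 1) * (C a * X ^ 2 + C b * X + C c) + C (h 2) * (C a * X + C b) +
        C (h 3) * C a := by
  obtain ⟨H, hH⟩ := hdvd
  -- coefficients of the left side
  have hlow : ∀ n, n < q → (X ^ q * rt a b B G - rt a b B G').coeff n =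
      -(rt a b B G').coeff n := by
    intro n hn
    rw [coeff_sub, coeff_X_pow_mul', if_neg (by omega), zero_sub]
  have hhigh : ∀ n, (X ^ q * rt a b B G - rt a b B G').coeff (n + q) =
      (rt a b B G).coeff n - (rt a b B G').coeff (n + q) := by
    intro n
    rw [coeff_sub, coeff_X_pow_mul]
  -- degree of `H`
  have hdeg : ∀ n, q ≤ n → H.coeff n = 0 := by
    have hHd : H.natDegree < q := by
      by_contra hcon
      push Not at hcon
      have hH0 : H ≠ 0 := by
        rintro rfl
        simp at hcon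
        omega
      have h1 := coeff_FF_mul a b c e H H.natDegree
      rw [coeff_eq_zero_of_natDegree_lt (p := H) (n := H.natDegree + 1) (by omega),
        coeff_eq_zero_of_natDegree_lt (p := H) (n := H.natDegree + 2) (by omega),
        coeff_eq_zero_of_natDegree_lt (p := H) (n := H.natDegree + 3) (by omega)] at h1
      simp only [mul_zero, add_zero] at h1
      obtain ⟨k, hk⟩ := Nat.exists_eq_add_of_le hcon
      rw [← hH, show H.natDegree + 3 = (k + 3) + q by omega, hhigh,
        rt_coeff_ge _ (by omega), rt_coeff_ge _ (by omega), sub_zero] at h1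
      have := (mul_eq_zero.1 h1.symm).resolve_left ha
      exact hH0 (leadingCoeff_eq_zero.1 this)
    exact fun n hn => coeff_eq_zero_of_natDegree_lt (by omega)
  let h : ℕ → A := fun i => if i ≤ q then H.coeff (q - i) else G' (B 0)
  have hle : ∀ i, i ≤ q → h i = H.coeff (q - i) := fun i hi => by simp only [h, if_pos hi]
  have hlast : h (q + 1) = G' (B 0) := by simp only [h]; rw [if_neg (by omega)]
  refine ⟨h, ?_, ?_⟩
  · intro j hj1 hj2
    rcases Nat.lt_or_ge j (q - 2) with hj | hj
    · -- `j ≤ q - 3`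
      rw [hle j (by omega), hle (j + 1) (by omega), hle (j + 2) (by omega),
        hle (j + 3) (by omega)]
      have h1 := coeff_FF_mul a b c e H (q - (j + 3))
      rw [← hH, hlow _ (by omega), rt_coeff_ge _ (by omega), neg_zero] at h1
      rw [show q - (j + 3) + 1 = q - (j + 2) by omega, show q - (j + 3) + 2 = q - (j + 1) by omega,
        show q - (j + 3) + 3 = q - j by omega] at h1
      linear_combination -h1
    · -- `j = q - 2`
      obtain ⟨k, rfl⟩ : ∃ k, q = k + 3 := ⟨q - 3, by omega⟩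
      have hjk : j = k + 1 := by omega
      subst hjk
      rw [show k + 1 + 3 = (k + 3) + 1 by ring, hlast, hle (k + 1) (by omega),
        hle (k + 1 + 1) (by omega), hle (k + 1 + 2) (by omega)]
      have h1 := coeff_FF_mul_two a b c e H
      rw [← hH, hlow _ (by omega), rt_coeff_two] at h1
      rw [show k + 3 - (k + 1) = 2 by omega, show k + 3 - (k + 1 + 1) = 1 by omega,
        show k + 3 - (k + 1 + 2) = 0 by omega]
      linear_combination -h1
  · -- the polynomial
    have c2 : G (B 0) = h 1 := by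
      have h1 := coeff_FF_mul a b c e H (q - 1)
      rw [hdeg (q - 1 + 1) (by omega), hdeg (q - 1 + 2) (by omega), hdeg (q - 1 + 3) (by omega),
        ← hH, show q - 1 + 3 = 2 + q by omega, hhigh, rt_coeff_two, rt_coeff_ge _ (by omega)] at h1
      rw [hle 1 (by omega)]
      apply mul_left_cancel₀ ha
      linear_combination h1
    have c1 : G (B 1) = a * h 2 := by
      have h1 := coeff_FF_mul a b c e H (q - 2)
      rw [hdeg (q - 2 + 2) (by omega), hdeg (q - 2 + 3) (by omega),
        ← hH, show q - 2 + 3 = 1 + q by omega, hhigh, rt_coeff_one, rt_coeff_ge _ (by omega),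
        show q - 2 + 1 = q - 1 by omega] at h1
      rw [hle 1 (by omega)] at c2
      rw [hle 2 (by omega)]
      linear_combination h1 - b * c2
    have c0 : G (B 2) = c * h 1 + b * h 2 + a * h 3 := by
      rcases Nat.lt_or_ge 2 q with h3 | h3
      · have h1 := coeff_FF_mul a b c e H (q - 3)
        rw [hdeg (q - 3 + 3) (by omega), ← hH, show q - 3 + 3 = 0 + q by omega, hhigh,
          rt_coeff_zero, rt_coeff_ge _ (by omega), show q - 3 + 1 = q - 2 by omega,
          show q - 3 + 2 = q - 1 by omega] at h1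
        rw [hle 1 (by omega), hle 2 (by omega), hle 3 (by omega)]
        linear_combination h1
      · have hq2 : q = 2 := by omega
        subst hq2
        have h1 := coeff_FF_mul_two a b c e H
        rw [← hH, show (2 : ℕ) = 0 + 2 by ring, hhigh, rt_coeff_zero, zero_add, rt_coeff_two,
          hdeg 2 le_rfl] at h1
        have h4 : h 3 = G' (B 0) := hlast
        rw [h4, hle 1 (by omega), hle 2 (by omega)]
        linear_combination h1
    unfold rt
    rw [c0, c1, c2]
    simp only [C_add, C_mul]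
    ring

/-- polynomials with coefficients in `I ^ n` -/
lemma mem_map_pow_iff {A : Type*} [CommRing A] (I : Ideal A) (n : ℕ) (P : A[X]) :
    P ∈ (I.map C) ^ n ↔ ∀ i, P.coeff i ∈ I ^ n := by
  rw [← Ideal.map_pow, Ideal.mem_map_C_iff]

lemma phiPoly_mem {q D : ℕ} (hq : 0 < q) {Φ : A →+ A} {I : Ideal A}
    (hI : ∀ x ∈ I ^ (D + 1), Φ x ∈ I) {P : A[X]} (hP : P ∈ (I.map C) ^ (D + 1)) :
    phiPoly q Φ P ∈ I.map C := by
  rw [Ideal.mem_map_C_iff]
  intro m
  rw [phiPoly_coeff hq]
  exact hI _ ((mem_map_pow_iff I _ P).1 hP _)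

lemma FF_mem {I : Ideal A} (hIa : a ∈ I) (hIb : b ∈ I) (hIc : c ∈ I) (hIe : e ∈ I) :
    FF a b c e ∈ I.map C := by
  unfold FF
  have hC : ∀ x ∈ I, C x ∈ I.map (C : A →+* A[X]) := fun x hx => Ideal.mem_map_of_mem _ hx
  exact add_mem (add_mem (add_mem (Ideal.mul_mem_right _ _ (hC a hIa))
    (Ideal.mul_mem_right _ _ (hC b hIb))) (Ideal.mul_mem_right _ _ (hC c hIc))) (hC e hIe)

/-- elements of `𝔫^N` lift to polynomials with coefficients in `𝔪^N` -/
lemma exists_lift_pow (hB : Cubic a b c e B) (hinj : Function.Injective (algebraMap R L))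
    (ha : a ≠ 0) {I : Ideal A} (hIa : a ∈ I) (hIb : b ∈ I) (hIc : c ∈ I) {N : ℕ} {z : R}
    (hz : z ∈ (I.map (algebraMap A R) ⊔ Ideal.span {B 1, B 2}) ^ N) :
    ∃ P ∈ (I.map (C : A →+* A[X])) ^ N, aeval (th L a B) P = algebraMap R L z := by
  let ρ : A[X] →+* L := (aeval (th L a B)).toRingHom
  have hmem : ∀ z : R, algebraMap R L z ∈ ρ.range := fun z =>
    ⟨lift a b c B z, aeval_lift hB hinj ha z⟩
  let j : R →+* ρ.range := (algebraMap R L).codRestrict ρ.range hmem
  let M : Ideal A[X] := I.map C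
  let J : Ideal ρ.range := M.map ρ.rangeRestrict
  have hsurj : Function.Surjective ρ.rangeRestrict := ρ.rangeRestrict_surjective
  have h1 : I.map (algebraMap A R) ⊔ Ideal.span {B 1, B 2} ≤ J.comap j := by
    rw [sup_le_iff]
    constructor
    · rw [Ideal.map_le_iff_le_comap]
      intro x hx
      have : j (algebraMap A R x) = ρ.rangeRestrict (C x) := by
        apply Subtype.ext
        change algebraMap R L (algebraMap A R x) = aeval (th L a B) (C x)
        rw [aeval_C]
        exact (algMap_eq (R := R) (L := L) x).symm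
      change j (algebraMap A R x) ∈ J
      rw [this]
      exact Ideal.mem_map_of_mem _ (Ideal.mem_map_of_mem _ hx)
    · rw [Ideal.span_le]
      have hC : ∀ x ∈ I, C x ∈ M := fun x hx => Ideal.mem_map_of_mem _ hx
      intro x hx
      rcases hx with rfl | hx
      · have : j (B 1) = ρ.rangeRestrict (C a * X) := by
          apply Subtype.ext
          change algebraMap R L (B 1) = aeval (th L a B) (C a * X)
          rw [map_mul, aeval_C, aeval_X, a_th hB hinj ha]
        change j (B 1) ∈ J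
        rw [this]
        exact Ideal.mem_map_of_mem _ (Ideal.mul_mem_right _ _ (hC a hIa))
      · rw [Set.mem_singleton_iff] at hx
        subst hx
        have : j (B 2) = ρ.rangeRestrict (C a * X ^ 2 + C b * X + C c) := by
          apply Subtype.ext
          change algebraMap R L (B 2) = aeval (th L a B) (C a * X ^ 2 + C b * X + C c)
          simp only [map_add, map_mul, map_pow, aeval_C, aeval_X]
          exact Y_eq hB hinj ha
        change j (B 2) ∈ J
        rw [this]
        exact Ideal.mem_map_of_mem _ (add_mem (add_mem (Ideal.mul_mem_right _ _ (hC a hIa))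
          (Ideal.mul_mem_right _ _ (hC b hIb))) (hC c hIc))
  have h2 : z ∈ (J ^ N).comap j := by
    have h3 : (I.map (algebraMap A R) ⊔ Ideal.span {B 1, B 2}) ^ N ≤ (J.comap j) ^ N :=
      Ideal.pow_right_mono h1 N
    exact Ideal.le_comap_pow j N (h3 hz)
  have h4 : j z ∈ (M ^ N).map ρ.rangeRestrict := by
    rw [Ideal.map_pow]; exact h2
  rw [Ideal.mem_map_iff_of_surjective _ hsurj] at h4
  obtain ⟨P, hP, hPz⟩ := h4
  exact ⟨P, hP, congrArg Subtype.val hPz⟩

/-- **The order inequality.** -/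
theorem order_bound (hB : Cubic a b c e B) (hinj : Function.Injective (algebraMap R L))
    (ha : a ≠ 0) {p : ℕ} [hp : Fact p.Prime] [CharP A p] {k q : ℕ} (hq : q = p ^ k)
    {Φ : A →+ A} (hΦ : FrobDual A q Φ) {φ : R →+ R} (hφ : ∀ x y, φ (x ^ q * y) = x * φ y)
    {G : R →ₗ[A] A} (hG : ∀ z, B.repr (φ z) 2 = Φ (G z)) (hF : ∀ P : A[X], aeval (th L a B) P = 0 → FF a b c e ∣ P)
    {I : Ideal A} (hIa : a ∈ I) (hIb : b ∈ I) (hIc : c ∈ I) (hIe : e ∈ I) {D : ℕ}
    (hI : ∀ x ∈ I ^ (D + 1), Φ x ∈ I) {N : ℕ} {f₀ : R}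
    (hf₀ : f₀ ∈ (I.map (algebraMap A R) ⊔ Ideal.span {B 1, B 2}) ^ N) (h1 : φ f₀ = 1)
    {u n : ℕ} (hu : FF a b c e ∈ (I.map C) ^ u) {s : A[X]} (hs : s ∉ I.map C)
    (hsn : s * rt a b B G ∈ (I.map C) ^ n ⊔ Ideal.span {FF a b c e}) :
    N + n + u * (q - 1) ≤ D := by
  by_contra hcon
  push Not at hcon
  have hq0 : 0 < q := by rw [hq]; exact pow_pos hp.1.pos _
  have hlin : ∀ Q P : A[X], phiPoly q Φ (Q ^ q * P) = Q * phiPoly q Φ P :=
    phiPoly_lin hq hΦ.lin
  have hF0 := aeval_FF (L := L) hB hinj ha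
  have hsplit : FF a b c e ^ q = FF a b c e ^ (q - 1) * FF a b c e := by
    rw [← pow_succ]; congr 1; omega
  have hsplit' : s ^ q = s ^ (q - 1) * s := by
    rw [← pow_succ]; congr 1; omega
  obtain ⟨P, hP, hPz⟩ := exists_lift_pow (L := L) hB hinj ha hIa hIb hIc hf₀
  obtain ⟨v, hv, w', hw', hvw⟩ := Submodule.mem_sup.1 hsn
  obtain ⟨w, rfl⟩ := Ideal.mem_span_singleton'.1 hw'
  have h2 := rep (L := L) hB hinj ha hq hΦ hφ hG hF f₀
  rw [h1, map_one] at h2
  have hdvd : FF a b c e ∣ lift a b c B f₀ - P := by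
    apply hF
    rw [map_sub, aeval_lift hB hinj ha, hPz, sub_self]
  obtain ⟨H, hH⟩ := hdvd
  set V : A[X] := FF a b c e ^ (q - 1) * s ^ (q - 1) * P * v with hV
  have h3 : s ^ q * (FF a b c e ^ (q - 1) * rt a b B G * lift a b c B f₀) =
      V + FF a b c e ^ q * (s ^ q * rt a b B G * H + s ^ (q - 1) * P * w) := by
    rw [hV, hsplit, hsplit']
    linear_combination (FF a b c e ^ (q - 1) * s ^ (q - 1) * s * rt a b B G) * hH -
      (FF a b c e ^ (q - 1) * s ^ (q - 1) * P) * hvw
  have h4 : s * phiPoly q Φ (FF a b c e ^ (q - 1) * rt a b B G * lift a b c B f₀) =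
      phiPoly q Φ V + FF a b c e * phiPoly q Φ (s ^ q * rt a b B G * H + s ^ (q - 1) * P * w) := by
    rw [← hlin, h3, phiPoly_add hq0, hlin]
  have h5 : aeval (th L a B) (s - phiPoly q Φ V) = 0 := by
    have := congrArg (aeval (th L a B)) h4
    simp only [map_mul, map_add, h2, hF0, mul_one, zero_mul, add_zero] at this
    rw [map_sub, this, sub_self]
  obtain ⟨H', hH'⟩ := hF _ h5
  have h6 : V ∈ (I.map (C : A →+* A[X])) ^ (D + 1) := by
    have e1 : FF a b c e ^ (q - 1) * (P * v) ∈ (I.map (C : A →+* A[X])) ^ (u * (q - 1) + (N + n)) := by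
      rw [pow_add, pow_add, pow_mul]
      exact Ideal.mul_mem_mul (Ideal.pow_mem_pow hu _) (Ideal.mul_mem_mul hP hv)
    have e2 : V = s ^ (q - 1) * (FF a b c e ^ (q - 1) * (P * v)) := by rw [hV]; ring
    rw [e2]
    exact Ideal.mul_mem_left _ _ (Ideal.pow_le_pow_right (by omega) e1)
  have h7 : phiPoly q Φ V ∈ I.map (C : A →+* A[X]) := phiPoly_mem hq0 hI h6
  apply hs
  have h8 : s = phiPoly q Φ V + FF a b c e * H' := by rw [← hH']; ring
  rw [h8]
  exact add_mem h7 (Ideal.mul_mem_right _ _ (FF_mem hIa hIb hIc hIe))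

end

end Pool.Agent.Cub
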