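import Pool.Agent.Lib_helper84.Cub.Val

/-!
# Case I
-/

namespace Pool.Agent.Lib_helper84.Cub

open Pool.Agent.Lib_helper18 Pool.Agent.Lib_helper18.Eis

theorem cast_dvd_cast {q : ℕ} {n : ℤ} : (q : Eis) ∣ (n : Eis) ↔ (q : ℤ) ∣ n := by
  have := intCast_dvd_intCast (m := (q : ℤ)) (n := n)
  rwa [Int.cast_natCast] at this

theorem not_dvd_of_coprime {q : ℕ} (hq : q.Prime) {x y : ℤ} (h : IsCoprime x y)
    (hx : (q : ℤ) ∣ x) : ¬ (q : ℤ) ∣ y := by
  intro hy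
  exact (Nat.prime_iff_prime_int.mp hq).not_isUnit (h.isUnit_of_dvd' hx hy)

theorem not_dvd_of_coprime' {l : Eis} (hl : Prime l) {x y : ℤ} (h : IsCoprime x y)
    (hx : l ∣ (x : Eis)) : ¬ l ∣ (y : Eis) := by
  intro hy
  have h2 : IsCoprime (x : Eis) (y : Eis) := by
    obtain ⟨a, b, hab⟩ := h
    refine ⟨a, b, ?_⟩
    have := congrArg (fun n : ℤ => (n : Eis)) hab
    push_cast at this
    exact this
  exact hl.not_isUnit (h2.isUnit_of_dvd' hx hy)

/-- the resolvent -/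
def res (X0 X1 X2 : ℤ) : Eis := (X0 : Eis) + w * X1 + w ^ 2 * X2

theorem conj_res (X0 X1 X2 : ℤ) : conj (res X0 X1 X2) = (X0 : Eis) + w ^ 2 * X1 + w * X2 := by
  rw [res, map_add, map_add, map_mul, map_mul, map_pow, conj_w, conj_intCast, conj_intCast,
    conj_intCast]
  have : (w ^ 2) ^ 2 = w := by decide
  rw [this]

theorem sym_res {q : ℕ} (hq : q.Prime) (hq3 : q % 3 = 2) {X0 X1 X2 : ℤ} (hsum : X0 + X1 + X2 = 0)
    (h01 : IsCoprime X0 X1) (h02 : IsCoprime X0 X2) {c : ZMod 3}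
    (hc : (q : ℤ) ∣ X0 ∧ c = 0 ∨ (q : ℤ) ∣ X1 ∧ c = 1 ∨ (q : ℤ) ∣ X2 ∧ c = 2) :
    ¬ (q : Eis) ∣ res X0 X1 X2 ∧ sym (q : Eis) (res X0 X1 X2) = c * sym (q : Eis) w := by
  have hP := prime_inert hq hq3
  have h3 := n3 hq hq3
  have hw := not_dvd_w hP
  have hl := not_dvd_lam h3
  have hsl := sym_inert_lam hq hq3
  have hcast : ((X0 : Eis) + X1 + X2) = 0 := by exact_mod_cast congrArg (fun n : ℤ => (n : Eis)) hsum
  have key : ∀ (Y : ℤ) (u : Eis), ¬ (q : ℤ) ∣ Y → ¬ (q : Eis) ∣ u →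
      (q : Eis) ∣ res X0 X1 X2 - Y * u →
      ¬ (q : Eis) ∣ res X0 X1 X2 ∧ sym (q : Eis) (res X0 X1 X2) = sym (q : Eis) u := by
    intro Y u hY hu h
    have hY' : ¬ (q : Eis) ∣ (Y : Eis) := fun h' => hY (cast_dvd_cast.mp h')
    constructor
    · intro h'
      have h4 := dvd_sub h' h
      have e4 : res X0 X1 X2 - (res X0 X1 X2 - Y * u) = Y * u := by ring
      rw [e4] at h4
      exact (hP.dvd_or_dvd h4).elim hY' hu
    · rw [sym_congr h, sym_mul hP h3 hY' hu, sym_int hq hq3 hY, zero_add]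
  rcases hc with ⟨h, rfl⟩ | ⟨h, rfl⟩ | ⟨h, rfl⟩
  · have hu : ¬ (q : Eis) ∣ w * lam := fun h' => (hP.dvd_or_dvd h').elim hw hl
    obtain ⟨k1, k2⟩ := key X1 (w * lam) (not_dvd_of_coprime hq h01 h) hu (by
      have e : res X0 X1 X2 - X1 * (w * lam) = (X0 : Eis) * (1 - w ^ 2) := by
        rw [res, lam_eq]
        linear_combination w ^ 2 * hcast
      rw [e]
      exact Dvd.dvd.mul_right (cast_dvd_cast.mpr h) _)
    refine ⟨k1, ?_⟩
    rw [k2, sym_mul hP h3 hw hl, hsl]; ring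
  · have hw2 : ¬ (q : Eis) ∣ w ^ 2 := fun h => hw (hP.dvd_of_dvd_pow h)
    have hw2' : ¬ (q : Eis) ∣ -w ^ 2 := by rwa [dvd_neg]
    have hu : ¬ (q : Eis) ∣ -w ^ 2 * lam := fun h' => (hP.dvd_or_dvd h').elim hw2' hl
    obtain ⟨k1, k2⟩ := key X0 (-w ^ 2 * lam) (not_dvd_of_coprime hq h01.symm h) hu (by
      have e : res X0 X1 X2 - X0 * (-w ^ 2 * lam) = (X1 : Eis) * (w - w ^ 2) := by
        rw [res, lam_eq]
        have h4 := w_cube
        linear_combination w ^ 2 * hcast - (X0 : Eis) * h4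
      rw [e]
      exact Dvd.dvd.mul_right (cast_dvd_cast.mpr h) _)
    refine ⟨k1, ?_⟩
    rw [k2, sym_mul hP h3 hw2' hl, sym_neg hP h3 hw2, sym_pow hP h3 hw, hsl]
    push_cast; ring
  · obtain ⟨k1, k2⟩ := key X0 lam (not_dvd_of_coprime hq h02.symm h) hl (by
      have e : res X0 X1 X2 - X0 * lam = (X2 : Eis) * (w ^ 2 - w) := by
        rw [res, lam_eq]
        linear_combination w * hcast
      rw [e]
      exact Dvd.dvd.mul_right (cast_dvd_cast.mpr h) _)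
    refine ⟨k1, ?_⟩
    rw [k2, hsl]
    linear_combination -(sym (q : Eis) w) * three_zmod

/-- for a bad prime `l`, `B` is a noncube modulo `l` -/
theorem bad_B {q r a b : ℕ} {l : Eis} (hl : Prime l) (hl3 : ¬ l ∣ 3) (hlq : ¬ l ∣ (q : Eis))
    (hlr : ¬ l ∣ (r : Eis))
    (hbad : ¬ ((a : ZMod 3) * sym l (q : Eis) + (b : ZMod 3) * sym l (r : Eis) = 0)) :
    ∀ u v : Eis, l ∣ u ^ 3 + ((q : Eis) ^ a * (r : Eis) ^ b) * v ^ 3 → l ∣ u ∧ l ∣ v := by
  intro u v h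
  have hqa : ¬ l ∣ (q : Eis) ^ a := fun h' => hlq (hl.dvd_of_dvd_pow h')
  have hrb : ¬ l ∣ (r : Eis) ^ b := fun h' => hlr (hl.dvd_of_dvd_pow h')
  have hB : ¬ l ∣ (q : Eis) ^ a * (r : Eis) ^ b := fun h' => (hl.dvd_or_dvd h').elim hqa hrb
  by_cases hv : l ∣ v
  · have h1 : l ∣ ((q : Eis) ^ a * (r : Eis) ^ b) * v ^ 3 :=
      Dvd.dvd.mul_left (Dvd.dvd.pow hv (by norm_num)) _
    exact ⟨hl.dvd_of_dvd_pow ((dvd_add_left h1).mp h), hv⟩
  · exfalso
    apply hbad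
    have hv3 : ¬ l ∣ v ^ 3 := fun h' => hv (hl.dvd_of_dvd_pow h')
    have hBv : ¬ l ∣ ((q : Eis) ^ a * (r : Eis) ^ b) * v ^ 3 := fun h' =>
      (hl.dvd_or_dvd h').elim hB hv3
    have hu : ¬ l ∣ u := by
      intro h'
      have h1 : l ∣ u ^ 3 := Dvd.dvd.pow h' (by norm_num)
      exact hBv ((dvd_add_right h1).mp h)
    have h5 : l ∣ ((q : Eis) ^ a * (r : Eis) ^ b) * v ^ 3 - (-u) ^ 3 := by
      have e : ((q : Eis) ^ a * (r : Eis) ^ b) * v ^ 3 - (-u) ^ 3 =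
        u ^ 3 + ((q : Eis) ^ a * (r : Eis) ^ b) * v ^ 3 := by ring
      rw [e]; exact h
    have h6 := sym_congr h5
    have hu' : ¬ l ∣ -u := by rwa [dvd_neg]
    rw [sym_cube hl hl3 hu', sym_mul hl hl3 hB hv3, sym_cube hl hl3 hv, sym_mul hl hl3 hqa hrb,
      sym_pow hl hl3 hlq, sym_pow hl hl3 hlr, add_zero] at h6
    exact h6

/-- **Case I** -/
theorem caseI {q r a b : ℕ} (hq : q.Prime) (hq3 : q % 3 = 2) (hr : r.Prime) (hr3 : r % 3 = 2)
    (hab : (a : ZMod 3) * sym (q : Eis) w + (b : ZMod 3) * sym (r : Eis) w = 0)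
    {B B' C : ℤ} (hB : B = (q : ℤ) ^ a * (r : ℤ) ^ b) (hBB : B * B' = (q * r : ℤ) ^ 3)
    (hqB' : (q : ℤ) ∣ B') (hrB' : (r : ℤ) ∣ B')
    {X0 X1 X2 w0 : ℤ} (hsum : X0 + X1 + X2 = 0) (hprod : X0 * X1 * X2 = B * C * w0 ^ 3)
    (h01 : IsCoprime X0 X1) (h02 : IsCoprime X0 X2)
    {x y z : ℤ} (hP : x ^ 3 + C * y ^ 3 + B' * z ^ 3 = 0)
    (cxy : IsCoprime x (C * y)) (cxz : IsCoprime x (B' * z)) (cyz : IsCoprime (C * y) (B' * z))
    {cq cr : ZMod 3}
    (hcq : (q : ℤ) ∣ X0 ∧ cq = 0 ∨ (q : ℤ) ∣ X1 ∧ cq = 1 ∨ (q : ℤ) ∣ X2 ∧ cq = 2)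
    (hcr : (r : ℤ) ∣ X0 ∧ cr = 0 ∨ (r : ℤ) ∣ X1 ∧ cr = 1 ∨ (r : ℤ) ∣ X2 ∧ cr = 2) :
    (a : ZMod 3) * (cq * sym (q : Eis) w) + (b : ZMod 3) * (cr * sym (r : Eis) w) = 0 := by
  have hQ := prime_inert hq hq3
  have hR := prime_inert hr hr3
  have hQ3 := n3 hq hq3
  have hR3 := n3 hr hr3
  obtain ⟨hqs, hsq⟩ := sym_res hq hq3 hsum h01 h02 hcq
  obtain ⟨hrs, hsr⟩ := sym_res hr hr3 hsum h01 h02 hcr
  set s := res X0 X1 X2 with hs
  have hqy : ¬ (q : ℤ) ∣ y := fun h => not_dvd_of_coprime hq cyz (Dvd.dvd.mul_left h _)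
    (Dvd.dvd.mul_right hqB' _)
  have hry : ¬ (r : ℤ) ∣ y := fun h => not_dvd_of_coprime hr cyz (Dvd.dvd.mul_left h _)
    (Dvd.dvd.mul_right hrB' _)
  have hqy' : ¬ (q : Eis) ∣ (y : Eis) := fun h' => hqy (cast_dvd_cast.mp h')
  have hry' : ¬ (r : Eis) ∣ (y : Eis) := fun h' => hry (cast_dvd_cast.mp h')
  set T : Eis := 3 * (w0 : Eis) * ((q : Eis) * (r : Eis) * (z : Eis)) with hT
  have hqT : (q : Eis) ∣ T := ⟨3 * w0 * (r * z), by rw [hT]; ring⟩
  have hrT : (r : Eis) ∣ T := ⟨3 * w0 * (q * z), by rw [hT]; ring⟩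
  have tq : ¬ (q : Eis) ∣ T + s * y := by
    intro h
    have := (dvd_add_right hqT).mp h
    exact (hQ.dvd_or_dvd this).elim hqs hqy'
  have tr : ¬ (r : Eis) ∣ T + s * y := by
    intro h
    have := (dvd_add_right hrT).mp h
    exact (hR.dvd_or_dvd this).elim hrs hry'
  have hcq' : sym (q : Eis) (T + s * y) = cq * sym (q : Eis) w := by
    have h1 : (q : Eis) ∣ (T + s * y) - s * y := by rw [add_sub_cancel_right]; exact hqT
    rw [sym_congr h1, sym_mul hQ hQ3 hqs hqy', hsq, sym_int hq hq3 hqy, add_zero]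
  have hcr' : sym (r : Eis) (T + s * y) = cr * sym (r : Eis) w := by
    have h1 : (r : Eis) ∣ (T + s * y) - s * y := by rw [add_sub_cancel_right]; exact hrT
    rw [sym_congr h1, sym_mul hR hR3 hrs hry', hsr, sym_int hr hr3 hry, add_zero]
  have ht0 : T + s * y ≠ 0 := by
    intro h; rw [h] at tq; exact tq (dvd_zero _)
  rw [← hcq', ← hcr']
  refine lemmaB hq hq3 hr hr3 _ _ hab _ _ rfl ht0 tq tr ?_
  intro l hl hl3 hlt
  by_cases hgood : (a : ZMod 3) * sym l (q : Eis) + (b : ZMod 3) * sym l (r : Eis) = 0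
  · exact Or.inl hgood
  right
  have hlq : ¬ l ∣ (q : Eis) := fun h => tq ((hl.associated_of_dvd hQ h).symm.dvd.trans hlt)
  have hlr : ¬ l ∣ (r : Eis) := fun h => tr ((hl.associated_of_dvd hR h).symm.dvd.trans hlt)
  have hbad := bad_B hl hl3 hlq hlr hgood
  have hBc : (B : Eis) = (q : Eis) ^ a * (r : Eis) ^ b := by rw [hB]; push_cast; rfl
  rw [← hBc] at hbad
  -- identities
  have hsumE : (X0 : Eis) + X1 + X2 = 0 := by exact_mod_cast congrArg (fun n : ℤ => (n : Eis)) hsum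
  have hprodE : (X0 : Eis) * X1 * X2 = B * C * w0 ^ 3 := by
    exact_mod_cast congrArg (fun n : ℤ => (n : Eis)) hprod
  have hBBE : (B : Eis) * B' = (q * r) ^ 3 := by
    exact_mod_cast congrArg (fun n : ℤ => (n : Eis)) hBB
  have hPE : (x : Eis) ^ 3 + C * y ^ 3 + B' * z ^ 3 = 0 := by
    exact_mod_cast congrArg (fun n : ℤ => (n : Eis)) hP
  have hss : s ^ 3 + (conj s) ^ 3 = B * C * (3 * w0) ^ 3 := by
    have hX2 : (X2 : Eis) = -X0 - X1 := by linear_combination hsumE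
    have h4 := w_rel
    have h5 : s ^ 3 + (conj s) ^ 3 = 27 * (X0 * X1 * X2) := by
      rw [hs, conj_res, res, hX2]
      have h6 : w ^ 2 = -1 - w := w_sq
      ring_nf
      have h7 : w ^ 3 = 1 := w_cube
      have h8 : w ^ 4 = w := by decide
      have h9 : w ^ 5 = w ^ 2 := by decide
      have h10 : w ^ 6 = 1 := by decide
      rw [h7, h8, h9, h10, h6]
      ring
    rw [h5, hprodE]; ring
  have hid : T ^ 3 + (s * y) ^ 3 = -((conj s * y) ^ 3 + B * (3 * w0 * x) ^ 3) := by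
    rw [hT]
    linear_combination (y : Eis) ^ 3 * hss - 27 * (w0 : Eis) ^ 3 * z ^ 3 * hBBE +
      27 * (w0 : Eis) ^ 3 * B * hPE
  have hxne : x ≠ 0 ∨ y ≠ 0 := by
    right; rintro rfl; exact hqy (dvd_zero _)
  have hy0 : y ≠ 0 := by rintro rfl; exact hqy (dvd_zero _)
  have hs0 : conj s ≠ 0 := by
    intro h
    have : s = 0 := by
      have := congrArg conj h
      rwa [conj_conj, map_zero] at this
    rw [this] at hqs
    exact hqs (dvd_zero _)
  have hy0' : (y : Eis) ≠ 0 := by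
    intro h
    rw [h] at hqy'
    exact hqy' (dvd_zero _)
  obtain ⟨n0, n1⟩ := three_dvd_V hl hbad _ (conj s * y) (3 * w0 * x) rfl (fun h =>
    (mul_ne_zero hs0 hy0') h.1)
  refine three_dvd_V_add hl hl3 ?_ ?_ ?_
  · -- not both divisible
    rintro ⟨hlT, hlsy⟩
    have hbadP : l ∣ (B : Eis) * (x : Eis) ^ 3 + (q * r * z) ^ 3 → l ∣ (q : Eis) * r * z ∧ l ∣ (x : Eis) := by
      intro h
      apply hbad
      rwa [add_comm]
    by_cases hly : l ∣ (y : Eis)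
    · -- then x³ ≡ - B' z³
      have h1 : l ∣ (B : Eis) * (x : Eis) ^ 3 + (q * r * z) ^ 3 := by
        have e : (B : Eis) * (x : Eis) ^ 3 + (q * r * z) ^ 3 = y * (-(B * C * y ^ 2)) := by
          linear_combination (B : Eis) * hPE - (z : Eis) ^ 3 * hBBE
        rw [e]; exact Dvd.dvd.mul_right hly _
      obtain ⟨-, h2⟩ := hbadP h1
      refine not_dvd_of_coprime' hl cxy h2 ?_
      push_cast
      exact Dvd.dvd.mul_left hly _
    · have hls : l ∣ s := (hl.dvd_or_dvd hlsy).resolve_right hly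
      have hlw : ¬ l ∣ (w0 : Eis) := by
        intro hlw
        have h1 : l ∣ (conj s) ^ 3 := by
          have e : (conj s) ^ 3 = w0 * (27 * B * C * w0 ^ 2) - s * s ^ 2 := by
            linear_combination hss
          rw [e]
          exact dvd_sub (Dvd.dvd.mul_right hlw _) (Dvd.dvd.mul_right hls _)
        have h2 : l ∣ conj s := hl.dvd_of_dvd_pow h1
        have h3 : l ∣ 3 * (X0 : Eis) := by
          have e : 3 * (X0 : Eis) = s + conj s := by
            rw [hs, conj_res, res]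
            have h4 := w_rel
            linear_combination hsumE - ((X1 : Eis) + X2) * h4
          rw [e]; exact dvd_add hls h2
        have h5 : l ∣ 3 * (X1 : Eis) := by
          have e : 3 * (X1 : Eis) = w ^ 2 * s + w * conj s := by
            rw [hs, conj_res, res]
            have h4 := w_rel
            have h6 := w_cube
            have h7 : w ^ 4 = w := by decide
            linear_combination hsumE - 2 * (X1 : Eis) * h6 - (X0 + X2) * h4 - (X2 : Eis) * h7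
          rw [e]; exact dvd_add (Dvd.dvd.mul_left hls _) (Dvd.dvd.mul_left h2 _)
        exact not_dvd_of_coprime' hl h01 ((hl.dvd_or_dvd h3).resolve_left hl3)
          ((hl.dvd_or_dvd h5).resolve_left hl3)
      have hlz : l ∣ (z : Eis) := by
        rw [hT] at hlT
        rcases hl.dvd_or_dvd hlT with h | h
        · exact absurd ((hl.dvd_or_dvd h).resolve_left hl3) hlw
        · rcases hl.dvd_or_dvd h with h | h
          · exact absurd h (fun h => (hl.dvd_or_dvd h).elim hlq hlr)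
          · exact h
      -- B C (3w0)³ ≡ s̄³, x³ ≡ -C y³
      have h1 : l ∣ (conj s * y) ^ 3 + (B : Eis) * (3 * w0 * x) ^ 3 := by
        have e : (conj s * y) ^ 3 + (B : Eis) * (3 * w0 * x) ^ 3 =
            z * (-(27 * w0 ^ 3 * B * B' * z ^ 2)) + s * (-(s ^ 2 * y ^ 3)) := by
          linear_combination (y : Eis) ^ 3 * hss + 27 * (w0 : Eis) ^ 3 * B * hPE
        rw [e]
        exact dvd_add (Dvd.dvd.mul_right hlz _) (Dvd.dvd.mul_right hls _)
      obtain ⟨-, h2⟩ := hbad _ _ h1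
      have h3 : l ∣ (x : Eis) := by
        rcases hl.dvd_or_dvd h2 with h | h
        · exact absurd ((hl.dvd_or_dvd h).resolve_left hl3) hlw
        · exact h
      refine not_dvd_of_coprime' hl cxz h3 ?_
      push_cast
      exact Dvd.dvd.mul_left hlz _
  · rw [hid]; exact neg_ne_zero.mpr n0
  · rw [hid, V_neg]; exact n1

end Pool.Agent.Lib_helper84.Cub
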