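import Pool.Agent.Lib_helper84.Cub.Val

/-!
# The product formula for one inert prime, with the term at the prime above 3
-/

namespace Pool.Agent.Lib_helper84.Cub

open Pool.Agent.Lib_helper18 Pool.Agent.Lib_helper18.Eis

theorem Prim.ndvd3 {t l : Eis} (hl : Prime l) (ht : Prim t) (hlt : l ∣ t) : ¬ l ∣ 3 := by
  intro h
  exact ht.not_lam_dvd (((dvd_three_iff hl).mp h).symm.dvd.trans hlt)

/-- the product formula for a primary element -/
theorem lemmaB1_prim {q : ℕ} (hq : q.Prime) (hq3 : q % 3 = 2) :
    ∀ (n : ℕ) (t : Eis), N t = n → Prim t → ¬ (q : Eis) ∣ t →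
    (∀ l : Eis, Prime l → ¬ l ∣ 3 → l ∣ t → sym l (q : Eis) = 0 ∨ 3 ∣ V l t) →
    sym (q : Eis) t = 0 := by
  have hQ := prime_inert hq hq3
  have hQ3 := n3 hq hq3
  intro n
  induction n using Nat.strong_induction_on with
  | _ n ih =>
    intro t hn hprim hqt H
    have ht : t ≠ 0 := by rintro rfl; exact hqt (dvd_zero _)
    by_cases hu : IsUnit t
    · have h1 := Prim.unit prim_one hu (by rwa [one_mul])
      rcases h1 with rfl | rfl
      · exact sym_one hQ hQ3
      · have h2 : ¬ (q : Eis) ∣ 1 := not_dvd_of_isUnit hQ isUnit_one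
        rw [sym_neg hQ hQ3 h2, sym_one hQ hQ3]
    · obtain ⟨l, hlirr, hlt⟩ := WfDvdMonoid.exists_irreducible_factor hu ht
      have hl : Prime l := hlirr.prime
      have hl3 : ¬ l ∣ 3 := Prim.ndvd3 hl hprim hlt
      rcases H l hl hl3 hlt with hgood | hval
      · -- a good prime; make it primary
        obtain ⟨i, hi⟩ := exists_prim (not_lam_dvd_of_prime hl hl3)
        have hass : Associated (l * w ^ i) l := ⟨(isUnit_w.pow i).unit⁻¹, by
          rw [mul_assoc]; simp⟩
        have hl' : Prime (l * w ^ i) := (hass.symm.prime hl)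
        have hl3' : ¬ (l * w ^ i) ∣ 3 := fun h => hl3 (hass.symm.dvd.trans h)
        obtain ⟨t', ht'e⟩ : l * w ^ i ∣ t := hass.dvd.trans hlt
        have ht'p : Prim t' := hi.of_mul (by rw [← ht'e]; exact hprim)
        have ht' : t' ≠ 0 := by
          rintro rfl
          rw [mul_zero] at ht'e
          exact ht ht'e
        have hqt' : ¬ (q : Eis) ∣ t' := fun h => hqt (by rw [ht'e]; exact Dvd.dvd.mul_left h _)
        have hql' : ¬ (q : Eis) ∣ l * w ^ i := fun h => hqt (by
          rw [ht'e]; exact Dvd.dvd.mul_right h _)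
        have hlt' : N t' < n := by
          rw [← hn, ht'e, N_mul]
          have h1 := N_prime hl'
          have h2 := N_pos ht'
          nlinarith
        have h1 := ih _ hlt' t' rfl ht'p hqt' (by
          intro m hm hm3 hmt
          by_cases hass' : Associated m (l * w ^ i)
          · left
            rw [sym_associated (hass'.trans hass)]; exact hgood
          · rcases H m hm hm3 (by rw [ht'e]; exact Dvd.dvd.mul_left hmt _) with h | h
            · exact Or.inl h
            · right
              have hml : ¬ m ∣ l * w ^ i := fun h' => hass' (hm.associated_of_dvd hl' h')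
              rwa [ht'e, V_mul_not_dvd hm hml ht'] at h)
        have r1 := recip_inert hq hq3 hl' hl3' hi hql'
        rw [ht'e, sym_mul hQ hQ3 hql' hqt', h1, add_zero, r1, sym_associated hass, hgood]
      · -- valuation divisible by 3
        obtain ⟨i, hi⟩ := exists_prim (not_lam_dvd_of_prime hl hl3)
        have hass : Associated (l * w ^ i) l := ⟨(isUnit_w.pow i).unit⁻¹, by
          rw [mul_assoc]; simp⟩
        have hl' : Prime (l * w ^ i) := (hass.symm.prime hl)
        have hVe : V (l * w ^ i) t = V l t := multiplicity_eq_of_associated_left hass.symm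
        obtain ⟨c, hc, hlc⟩ := V_split hl' ht
        obtain ⟨k, hk⟩ := hval
        have hk0 : k ≠ 0 := by
          rintro rfl
          exact V_eq_zero_iff.mp (by rw [hk]) hlt
        rw [hVe, hk] at hc
        have hc0 : c ≠ 0 := by rintro rfl; exact hlc (dvd_zero _)
        have hcp : Prim c := (hi.pow (3 * k)).of_mul (by rw [← hc]; exact hprim)
        have hpk : (l * w ^ i) ^ (3 * k) ≠ 0 := pow_ne_zero _ hl'.ne_zero
        have hlk : l * w ^ i ∣ (l * w ^ i) ^ (3 * k) := dvd_pow_self _ (by omega)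
        have hqc : ¬ (q : Eis) ∣ c := fun h => hqt (by rw [hc]; exact Dvd.dvd.mul_left h _)
        have hqk : ¬ (q : Eis) ∣ (l * w ^ i) ^ (3 * k) := fun h => hqt (by
          rw [hc]; exact Dvd.dvd.mul_right h _)
        have hql : ¬ (q : Eis) ∣ l * w ^ i := fun h => hqk (h.trans hlk)
        have hlt' : N c < n := by
          rw [← hn, hc, N_mul]
          have h1 : 1 < N ((l * w ^ i) ^ (3 * k)) := by
            have : N ((l * w ^ i) ^ (3 * k)) = (N (l * w ^ i)) ^ (3 * k) := by
              have h5 : ((N ((l * w ^ i) ^ (3 * k)) : ℕ) : ℤ) = ((N (l * w ^ i)) ^ (3 * k) : ℕ) := by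
                rw [N_cast, Eis.norm_pow]; push_cast; rw [N_cast]
              exact_mod_cast h5
            rw [this]
            exact Nat.one_lt_pow (by omega) (N_prime hl')
          have h2 := N_pos hc0
          nlinarith
        have h1 := ih _ hlt' c rfl hcp hqc (by
          intro m hm hm3 hmt
          have hml : ¬ m ∣ (l * w ^ i) ^ (3 * k) := by
            intro h'
            have h6 := hm.dvd_of_dvd_pow h'
            have := hm.associated_of_dvd hl' h6
            exact hlc (this.symm.dvd.trans hmt)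
          rcases H m hm hm3 (by rw [hc]; exact Dvd.dvd.mul_left hmt _) with h | h
          · exact Or.inl h
          · right
            rwa [hc, V_mul_not_dvd hm hml hc0] at h)
        rw [hc, sym_mul hQ hQ3 hqk hqc, sym_pow hQ hQ3 hql, h1]
        push_cast
        linear_combination ((k : ZMod 3) * sym (q : Eis) (l * w ^ i)) * three_zmod

/-- the class of `t` at the prime above 3: `t = lam^j s` with `s w^k` primary gives `-(j+k)` -/
def Cls (t : Eis) (c : ZMod 3) : Prop :=
  ∃ (j k : ℕ) (s : Eis), t = lam ^ j * s ∧ Prim (s * w ^ k) ∧ c = -((j : ZMod 3) + k)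

/-- **the product formula for one inert prime** -/
theorem lemmaB1 {q : ℕ} (hq : q.Prime) (hq3 : q % 3 = 2) {t : Eis} {c : ZMod 3}
    (hqt : ¬ (q : Eis) ∣ t) (hc : Cls t c)
    (H : ∀ l : Eis, Prime l → ¬ l ∣ 3 → l ∣ t → sym l (q : Eis) = 0 ∨ 3 ∣ V l t) :
    sym (q : Eis) t = c * sym (q : Eis) w := by
  have hQ := prime_inert hq hq3
  have hQ3 := n3 hq hq3
  obtain ⟨j, k, s, rfl, hp, rfl⟩ := hc
  have hw := not_dvd_w hQ
  have hl := not_dvd_lam hQ3
  have hlj : ¬ (q : Eis) ∣ lam ^ j := fun h => hl (hQ.dvd_of_dvd_pow h)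
  have hwk : ¬ (q : Eis) ∣ w ^ k := fun h => hw (hQ.dvd_of_dvd_pow h)
  have hqs : ¬ (q : Eis) ∣ s := fun h => hqt (Dvd.dvd.mul_left h _)
  have hs0 : s ≠ 0 := by rintro rfl; exact hqs (dvd_zero _)
  have h1 := lemmaB1_prim hq hq3 _ (s * w ^ k) rfl hp
    (fun h => (hQ.dvd_or_dvd h).elim hqs hwk) (by
      intro l hl hl3 hlt
      have hls : l ∣ s := (hl.dvd_or_dvd hlt).resolve_right (fun h =>
        not_dvd_w hl (hl.dvd_of_dvd_pow h))
      rcases H l hl hl3 (Dvd.dvd.mul_left hls _) with h | h
      · exact Or.inl h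
      · right
        have e1 : ¬ l ∣ lam ^ j := fun h => not_dvd_lam hl3 (hl.dvd_of_dvd_pow h)
        have e2 : ¬ l ∣ w ^ k := fun h => not_dvd_w hl (hl.dvd_of_dvd_pow h)
        rw [V_mul_not_dvd hl e1 hs0] at h
        rwa [mul_comm, V_mul_not_dvd hl e2 hs0])
  rw [sym_mul hQ hQ3 hqs hwk, sym_pow hQ hQ3 hw] at h1
  rw [sym_mul hQ hQ3 hlj hqs, sym_pow hQ hQ3 hl, sym_inert_lam hq hq3]
  linear_combination h1

end Pool.Agent.Lib_helper84.Cub
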