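import Pool.Agent.Lib_helper84.Cub.CaseTwo
import Pool.Agent.Lib_helper84.Cub.LemC

/-!
# Cases I and II, general forms
-/

namespace Pool.Agent.Lib_helper84.Cub

open Pool.Agent.Lib_helper18 Pool.Agent.Lib_helper18.Eis

/-- `B` is a noncube modulo `l` -/
def NonCube (l : Eis) (B : ℤ) : Prop := ∀ u v : Eis, l ∣ u ^ 3 + (B : Eis) * v ^ 3 → l ∣ u ∧ l ∣ v

theorem nonCube_pow {q a : ℕ} {l : Eis} (hl : Prime l) (hl3 : ¬ l ∣ 3) (hlq : ¬ l ∣ (q : Eis))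
    (ha : (a : ZMod 3) ≠ 0) (hs : sym l (q : Eis) ≠ 0) : NonCube l ((q : ℤ) ^ a) := by
  have h1 : ¬ l ∣ ((1 : ℕ) : Eis) := by
    rw [Nat.cast_one]; exact not_dvd_of_isUnit hl isUnit_one
  have := bad_B (r := 1) (b := 0) (a := a) hl hl3 hlq h1 (by
    push_cast
    rw [zero_mul, add_zero]
    exact mul_ne_zero ha hs)
  intro u v h
  apply this
  push_cast at h ⊢
  rwa [pow_zero, mul_one]

/-- the main element of case I -/
def tOne (Q X0 X1 X2 w0 y z : ℤ) : Eis := ((3 * w0 * (Q * z) : ℤ) : Eis) + res X0 X1 X2 * y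

/-- case I at a prime `q` -/
theorem caseI_at {q : ℕ} (hq : q.Prime) (hq3 : q % 3 = 2)
    {B' C Q X0 X1 X2 w0 y z : ℤ} (hqQ : (q : ℤ) ∣ Q) (hqB' : (q : ℤ) ∣ B')
    (hsum : X0 + X1 + X2 = 0) (h01 : IsCoprime X0 X1) (h02 : IsCoprime X0 X2)
    (cyz : IsCoprime (C * y) (B' * z)) {cq : ZMod 3}
    (hcq : (q : ℤ) ∣ X0 ∧ cq = 0 ∨ (q : ℤ) ∣ X1 ∧ cq = 1 ∨ (q : ℤ) ∣ X2 ∧ cq = 2) :
    ¬ (q : Eis) ∣ tOne Q X0 X1 X2 w0 y z ∧
      sym (q : Eis) (tOne Q X0 X1 X2 w0 y z) = cq * sym (q : Eis) w ∧ y ≠ 0 ∧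
        res X0 X1 X2 ≠ 0 := by
  have hP := prime_inert hq hq3
  have hP3 := n3 hq hq3
  obtain ⟨hqs, hsq⟩ := sym_res hq hq3 hsum h01 h02 hcq
  have hqy : ¬ (q : ℤ) ∣ y := fun h => not_dvd_of_coprime hq cyz (Dvd.dvd.mul_left h _)
    (Dvd.dvd.mul_right hqB' _)
  have hqy' : ¬ (q : Eis) ∣ (y : Eis) := fun h' => hqy (cast_dvd_cast.mp h')
  have hqT : (q : Eis) ∣ ((3 * w0 * (Q * z) : ℤ) : Eis) :=
    cast_dvd_cast.mpr (Dvd.dvd.mul_left (Dvd.dvd.mul_right hqQ _) _)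
  refine ⟨?_, ?_, ?_, ?_⟩
  · intro h
    have := (dvd_add_right hqT).mp h
    exact (hP.dvd_or_dvd this).elim hqs hqy'
  · have h1 : (q : Eis) ∣ tOne Q X0 X1 X2 w0 y z - res X0 X1 X2 * y := by
      rw [tOne, add_sub_cancel_right]; exact hqT
    rw [sym_congr h1, sym_mul hP hP3 hqs hqy', hsq, sym_int hq hq3 hqy, add_zero]
  · rintro rfl; exact hqy (dvd_zero _)
  · intro h; rw [h] at hqs; exact hqs (dvd_zero _)

/-- case I away from `3 Q` -/
theorem caseI_loc {B B' C Q X0 X1 X2 w0 x y z : ℤ} {l : Eis} (hl : Prime l) (hl3 : ¬ l ∣ 3)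
    (hlQ : ¬ l ∣ (Q : Eis)) (hbad : NonCube l B) (hBB : B * B' = Q ^ 3)
    (hsum : X0 + X1 + X2 = 0) (hprod : X0 * X1 * X2 = B * C * w0 ^ 3)
    (h01 : IsCoprime X0 X1)
    (hP : x ^ 3 + C * y ^ 3 + B' * z ^ 3 = 0)
    (cxy : IsCoprime x (C * y)) (cxz : IsCoprime x (B' * z))
    (hy0 : y ≠ 0) (hs0 : res X0 X1 X2 ≠ 0) :
    3 ∣ V l (tOne Q X0 X1 X2 w0 y z) := by
  set s := res X0 X1 X2 with hs
  set T : Eis := ((3 * w0 * (Q * z) : ℤ) : Eis) with hT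
  have hT' : T = 3 * (w0 : Eis) * ((Q : Eis) * (z : Eis)) := by rw [hT]; push_cast; ring
  have hy0' : (y : Eis) ≠ 0 := by
    intro h
    have := congrArg Eis.re h
    simp at this
    exact hy0 this
  -- identities
  have hsumE : (X0 : Eis) + X1 + X2 = 0 := by exact_mod_cast congrArg (fun n : ℤ => (n : Eis)) hsum
  have hprodE : (X0 : Eis) * X1 * X2 = B * C * w0 ^ 3 := by
    exact_mod_cast congrArg (fun n : ℤ => (n : Eis)) hprod
  have hBBE : (B : Eis) * B' = Q ^ 3 := by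
    exact_mod_cast congrArg (fun n : ℤ => (n : Eis)) hBB
  have hPE : (x : Eis) ^ 3 + C * y ^ 3 + B' * z ^ 3 = 0 := by
    exact_mod_cast congrArg (fun n : ℤ => (n : Eis)) hP
  have hss : s ^ 3 + (conj s) ^ 3 = B * C * (3 * w0) ^ 3 := by
    have hX2 : (X2 : Eis) = -X0 - X1 := by linear_combination hsumE
    have h4 := w_rel
    have h5 : s ^ 3 + (conj s) ^ 3 = 27 * (X0 * X1 * X2) := by
      rw [hs, conj_res, res, hX2]
      have h6 : w ^ 2 = -1 - w := w_sq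
      ring_nf
      have h7 : w ^ 3 = 1 := w_cube
      have h8 : w ^ 4 = w := by decide
      have h9 : w ^ 5 = w ^ 2 := by decide
      have h10 : w ^ 6 = 1 := by decide
      rw [h7, h8, h9, h10, h6]
      ring
    rw [h5, hprodE]; ring
  have hid : T ^ 3 + (s * y) ^ 3 = -((conj s * y) ^ 3 + B * (3 * w0 * x) ^ 3) := by
    rw [hT']
    linear_combination (y : Eis) ^ 3 * hss - 27 * (w0 : Eis) ^ 3 * z ^ 3 * hBBE +
      27 * (w0 : Eis) ^ 3 * B * hPE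
  have hs0' : conj s ≠ 0 := by
    intro h
    apply hs0
    have := congrArg conj h
    rwa [conj_conj, map_zero] at this
  obtain ⟨n0, n1⟩ := three_dvd_V hl hbad _ (conj s * y) (3 * w0 * x) rfl (fun h =>
    (mul_ne_zero hs0' hy0') h.1)
  change 3 ∣ V l (T + s * y)
  refine three_dvd_V_add hl hl3 ?_ ?_ ?_
  · -- not both divisible
    rintro ⟨hlT, hlsy⟩
    by_cases hly : l ∣ (y : Eis)
    · have h1 : l ∣ (B : Eis) * (x : Eis) ^ 3 + (Q * z) ^ 3 := by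
        have e : (B : Eis) * (x : Eis) ^ 3 + (Q * z) ^ 3 = y * (-(B * C * y ^ 2)) := by
          linear_combination (B : Eis) * hPE - (z : Eis) ^ 3 * hBBE
        rw [e]; exact Dvd.dvd.mul_right hly _
      obtain ⟨-, h2⟩ := hbad _ _ (by rwa [add_comm] at h1)
      refine not_dvd_of_coprime' hl cxy h2 ?_
      push_cast
      exact Dvd.dvd.mul_left hly _
    · have hls : l ∣ s := (hl.dvd_or_dvd hlsy).resolve_right hly
      have hlw : ¬ l ∣ (w0 : Eis) := by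
        intro hlw
        have h1 : l ∣ (conj s) ^ 3 := by
          have e : (conj s) ^ 3 = w0 * (27 * B * C * w0 ^ 2) - s * s ^ 2 := by
            linear_combination hss
          rw [e]
          exact dvd_sub (Dvd.dvd.mul_right hlw _) (Dvd.dvd.mul_right hls _)
        have h2 : l ∣ conj s := hl.dvd_of_dvd_pow h1
        have h3 : l ∣ 3 * (X0 : Eis) := by
          have e : 3 * (X0 : Eis) = s + conj s := by
            rw [hs, conj_res, res]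
            have h4 := w_rel
            linear_combination hsumE - ((X1 : Eis) + X2) * h4
          rw [e]; exact dvd_add hls h2
        have h5 : l ∣ 3 * (X1 : Eis) := by
          have e : 3 * (X1 : Eis) = w ^ 2 * s + w * conj s := by
            rw [hs, conj_res, res]
            have h4 := w_rel
            have h6 := w_cube
            have h7 : w ^ 4 = w := by decide
            linear_combination hsumE - 2 * (X1 : Eis) * h6 - (X0 + X2) * h4 - (X2 : Eis) * h7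
          rw [e]; exact dvd_add (Dvd.dvd.mul_left hls _) (Dvd.dvd.mul_left h2 _)
        exact not_dvd_of_coprime' hl h01 ((hl.dvd_or_dvd h3).resolve_left hl3)
          ((hl.dvd_or_dvd h5).resolve_left hl3)
      have hlz : l ∣ (z : Eis) := by
        rw [hT'] at hlT
        rcases hl.dvd_or_dvd hlT with h | h
        · exact absurd ((hl.dvd_or_dvd h).resolve_left hl3) hlw
        · exact (hl.dvd_or_dvd h).resolve_left hlQ
      have h1 : l ∣ (conj s * y) ^ 3 + (B : Eis) * (3 * w0 * x) ^ 3 := by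
        have e : (conj s * y) ^ 3 + (B : Eis) * (3 * w0 * x) ^ 3 =
            z * (-(27 * w0 ^ 3 * B * B' * z ^ 2)) + s * (-(s ^ 2 * y ^ 3)) := by
          linear_combination (y : Eis) ^ 3 * hss + 27 * (w0 : Eis) ^ 3 * B * hPE
        rw [e]
        exact dvd_add (Dvd.dvd.mul_right hlz _) (Dvd.dvd.mul_right hls _)
      obtain ⟨-, h2⟩ := hbad _ _ h1
      have h3 : l ∣ (x : Eis) := by
        rcases hl.dvd_or_dvd h2 with h | h
        · exact absurd ((hl.dvd_or_dvd h).resolve_left hl3) hlw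
        · exact h
      refine not_dvd_of_coprime' hl cxz h3 ?_
      push_cast
      exact Dvd.dvd.mul_left hlz _
  · rw [hid]; exact neg_ne_zero.mpr n0
  · rw [hid, V_neg]; exact n1

/-- **Case I**, one exchanged prime -/
theorem caseI_single {q a : ℕ} (hq : q.Prime) (hq3 : q % 3 = 2) (ha : (a : ZMod 3) ≠ 0)
    (hwq : sym (q : Eis) w ≠ 0)
    {B B' C : ℤ} (hB : B = (q : ℤ) ^ a) (hBB : B * B' = (q : ℤ) ^ 3) (hqB' : (q : ℤ) ∣ B')
    {X0 X1 X2 w0 x y z : ℤ} (hsum : X0 + X1 + X2 = 0) (hprod : X0 * X1 * X2 = B * C * w0 ^ 3)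
    (h01 : IsCoprime X0 X1) (h02 : IsCoprime X0 X2)
    (hP : x ^ 3 + C * y ^ 3 + B' * z ^ 3 = 0)
    (cxy : IsCoprime x (C * y)) (cxz : IsCoprime x (B' * z)) (cyz : IsCoprime (C * y) (B' * z))
    {cq c : ZMod 3}
    (hcq : (q : ℤ) ∣ X0 ∧ cq = 0 ∨ (q : ℤ) ∣ X1 ∧ cq = 1 ∨ (q : ℤ) ∣ X2 ∧ cq = 2)
    (hc : Cls (tOne q X0 X1 X2 w0 y z) c) : cq = c := by
  have hQ := prime_inert hq hq3
  obtain ⟨tq, sq, hy0, hs0⟩ := caseI_at (w0 := w0) hq hq3 dvd_rfl hqB' hsum h01 h02 cyz hcq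
  have h1 := lemmaB1 hq hq3 tq hc (by
    intro l hl hl3 hlt
    by_cases hgood : sym l (q : Eis) = 0
    · exact Or.inl hgood
    right
    have hlq : ¬ l ∣ (q : Eis) := fun h => tq ((hl.associated_of_dvd hQ h).symm.dvd.trans hlt)
    refine caseI_loc hl hl3 ?_ ?_ hBB hsum hprod h01 hP cxy cxz hy0 hs0
    · rw [Int.cast_natCast]; exact hlq
    · rw [hB]; exact nonCube_pow hl hl3 hlq ha hgood)
  rw [sq] at h1
  exact mul_right_cancel₀ hwq h1

/-- the main element of case II -/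
def tTwo (rd rn x0 x1 y0 y1 : ℤ) : Eis := w * rd * x1 * y0 + (-(rn * x0 * y1) : ℤ)

/-- case II away from `3 Q` -/
theorem caseII_loc {l : Eis} (hl : Prime l) (hl3 : ¬ l ∣ 3)
    {a0 a1 a2 a0' a1' a2' x0 x1 x2 y0 y1 y2 rd rn B k m : ℤ} (hbad : NonCube l B)
    (hx : a0 * x0 ^ 3 + a1 * x1 ^ 3 + a2 * x2 ^ 3 = 0)
    (cx01 : IsCoprime (a0 * x0) (a1 * x1))
    (hy : a0' * y0 ^ 3 + a1' * y1 ^ 3 + a2' * y2 ^ 3 = 0)
    (cy01 : IsCoprime (a0' * y0) (a1' * y1)) (cy02 : IsCoprime (a0' * y0) (a2' * y2))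
    (cy12 : IsCoprime (a1' * y1) (a2' * y2))
    (h1 : a0 * a1' * rd ^ 3 = a0' * a1 * rn ^ 3)
    (h2 : a0 * a2' * k ^ 3 = a0' * a2 * B) (h3 : a1 * a2' * m ^ 3 = a1' * a2 * B)
    (hun : ¬ l ∣ ((a0' * a1' * a1 * a2 * rd * rn * k * m : ℤ) : Eis))
    (hne : x0 ≠ 0 ∧ y2 ≠ 0) :
    3 ∣ V l (tTwo rd rn x0 x1 y0 y1) := by
  push_cast at hun
  have u0' : ¬ l ∣ (a0' : Eis) := fun h => hun
    (by repeat' first | exact h | apply Dvd.dvd.mul_right)
  have u1' : ¬ l ∣ (a1' : Eis) := fun h => hun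
    (by
      iterate 6 apply Dvd.dvd.mul_right
      exact Dvd.dvd.mul_left h _)
  have u1 : ¬ l ∣ (a1 : Eis) := fun h => hun
    (by
      iterate 5 apply Dvd.dvd.mul_right
      exact Dvd.dvd.mul_left h _)
  have u2 : ¬ l ∣ (a2 : Eis) := fun h => hun
    (by
      iterate 4 apply Dvd.dvd.mul_right
      exact Dvd.dvd.mul_left h _)
  have urd : ¬ l ∣ (rd : Eis) := fun h => hun
    (by
      iterate 3 apply Dvd.dvd.mul_right
      exact Dvd.dvd.mul_left h _)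
  have urn : ¬ l ∣ (rn : Eis) := fun h => hun
    (by
      iterate 2 apply Dvd.dvd.mul_right
      exact Dvd.dvd.mul_left h _)
  have uk : ¬ l ∣ (k : Eis) := fun h => hun
    (by
      iterate 1 apply Dvd.dvd.mul_right
      exact Dvd.dvd.mul_left h _)
  have um : ¬ l ∣ (m : Eis) := fun h => hun (Dvd.dvd.mul_left h _)
  -- casts
  have hxE := cast_eq hx
  have hyE := cast_eq hy
  have h1E := cast_eq h1
  have h2E := cast_eq h2
  have h3E := cast_eq h3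
  push_cast at hxE hyE h1E h2E h3E
  have ha0E : (a0' : Eis) ≠ 0 := by rintro h; rw [h] at u0'; exact u0' (dvd_zero _)
  have hcast0 : ∀ {n : ℤ}, n ≠ 0 → (n : Eis) ≠ 0 := by
    intro n hn h
    have := congrArg Eis.re h
    simp at this
    exact hn this
  -- the main identity
  have hmain : (a1 : Eis) * k ^ 3 * ((w * rd * x1 * y0) ^ 3 + ((-(rn * x0 * y1) : ℤ) : Eis) ^ 3) =
      rd ^ 3 * a2 * ((-(k * x2 * y0)) ^ 3 + B * (x0 * y2) ^ 3) := by
    apply mul_left_cancel₀ ha0E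
    push_cast
    have hw3 := w_cube
    linear_combination (a0' : Eis) * a1 * k ^ 3 * (rd * x1 * y0) ^ 3 * hw3 +
      (k : Eis) ^ 3 * (x0 * y1) ^ 3 * h1E + (rd : Eis) ^ 3 * (x0 * y2) ^ 3 * h2E +
      (k : Eis) ^ 3 * rd ^ 3 * a0' * y0 ^ 3 * hxE - (k : Eis) ^ 3 * rd ^ 3 * a0 * x0 ^ 3 * hyE
  obtain ⟨n0, n1⟩ := three_dvd_V hl hbad _ (-(k * x2 * y0)) (x0 * y2) rfl (fun h =>
    (mul_ne_zero (hcast0 hne.1) (hcast0 hne.2)) h.2)
  have hc1 : ¬ l ∣ (a1 : Eis) * k ^ 3 := fun h =>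
    (hl.dvd_or_dvd h).elim u1 (fun h => uk (hl.dvd_of_dvd_pow h))
  have hc2 : ¬ l ∣ (rd : Eis) ^ 3 * a2 := fun h =>
    (hl.dvd_or_dvd h).elim (fun h => urd (hl.dvd_of_dvd_pow h)) u2
  have hDne : (w * rd * x1 * y0) ^ 3 + ((-(rn * x0 * y1) : ℤ) : Eis) ^ 3 ≠ 0 := by
    intro h
    rw [h, mul_zero] at hmain
    refine mul_ne_zero ?_ n0 hmain.symm
    rintro h; rw [h] at hc2; exact hc2 (dvd_zero _)
  unfold tTwo
  refine three_dvd_V_add hl hl3 ?_ hDne ?_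
  · rintro ⟨g1, g2⟩
    have g1' : l ∣ (x1 : Eis) ∨ l ∣ (y0 : Eis) := by
      rcases hl.dvd_or_dvd g1 with h | h
      · rcases hl.dvd_or_dvd h with h | h
        · exact absurd h (fun h => (hl.dvd_or_dvd h).elim (not_dvd_w hl) urd)
        · exact Or.inl h
      · exact Or.inr h
    have g2' : l ∣ (x0 : Eis) ∨ l ∣ (y1 : Eis) := by
      push_cast at g2
      rw [dvd_neg] at g2
      rcases hl.dvd_or_dvd g2 with h | h
      · rcases hl.dvd_or_dvd h with h | h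
        · exact absurd h urn
        · exact Or.inl h
      · exact Or.inr h
    have ndc : ∀ {s t u v : ℤ}, IsCoprime (s * t) (u * v) → l ∣ (t : Eis) → ¬ l ∣ (v : Eis) := by
      intro s t u v h ht hv
      refine not_dvd_of_coprime' hl h ?_ ?_
      · push_cast; exact Dvd.dvd.mul_left ht _
      · push_cast; exact Dvd.dvd.mul_left hv _
    rcases g1' with g1 | g1 <;> rcases g2' with g2 | g2
    · exact ndc cx01 g2 g1
    · -- x1, y1
      have e1 : l ∣ (a0' : Eis) * a2 * ((-(k * x2 * y0)) ^ 3 + B * (x0 * y2) ^ 3) := by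
        have e : (a0' : Eis) * a2 * ((-(k * x2 * y0)) ^ 3 + B * (x0 * y2) ^ 3) =
          x1 * (a0' * a1 * k ^ 3 * x1 ^ 2 * y0 ^ 3) +
          y1 * (-(a0 * a1' * k ^ 3 * x0 ^ 3 * y1 ^ 2)) := by
          linear_combination (-((x0 * y2 : Eis)) ^ 3) * h2E - (k : Eis) ^ 3 * a0' * y0 ^ 3 * hxE +
            (k : Eis) ^ 3 * a0 * x0 ^ 3 * hyE
        rw [e]
        exact dvd_add (Dvd.dvd.mul_right g1 _) (Dvd.dvd.mul_right g2 _)
      have e2 := (hl.dvd_or_dvd e1).resolve_left (fun h => (hl.dvd_or_dvd h).elim u0' u2)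
      rcases hl.dvd_or_dvd (hbad _ _ e2).2 with h | h
      · exact ndc cx01 h g1
      · exact ndc cy12 g2 h
    · -- y0, x0
      have e1 : l ∣ (a1' : Eis) * a2 * ((-(m * x2 * y1)) ^ 3 + B * (x1 * y2) ^ 3) := by
        have e : (a1' : Eis) * a2 * ((-(m * x2 * y1)) ^ 3 + B * (x1 * y2) ^ 3) =
          x0 * (a1' * a0 * m ^ 3 * x0 ^ 2 * y1 ^ 3) +
          y0 * (-(a1 * a0' * m ^ 3 * x1 ^ 3 * y0 ^ 2)) := by
          linear_combination (-((x1 * y2 : Eis)) ^ 3) * h3E - (m : Eis) ^ 3 * a1' * y1 ^ 3 * hxE +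
            (m : Eis) ^ 3 * a1 * x1 ^ 3 * hyE
        rw [e]
        exact dvd_add (Dvd.dvd.mul_right g2 _) (Dvd.dvd.mul_right g1 _)
      have e2 := (hl.dvd_or_dvd e1).resolve_left (fun h => (hl.dvd_or_dvd h).elim u1' u2)
      rcases hl.dvd_or_dvd (hbad _ _ e2).2 with h | h
      · exact ndc cx01 g2 h
      · exact ndc cy02 g1 h
    · exact ndc cy01 g1 g2
  · have hV := congrArg (V l) hmain
    rw [V_mul_not_dvd hl hc1 hDne, V_mul_not_dvd hl hc2 n0] at hV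
    rw [hV]; exact n1

/-- **Case II**, one exchanged prime -/
theorem caseII_single {q a : ℕ} (hq : q.Prime) (hq3 : q % 3 = 2) (ha : (a : ZMod 3) ≠ 0)
    (hwq : sym (q : Eis) w ≠ 0)
    {a0 a1 a2 a0' a1' a2' x0 x1 x2 y0 y1 y2 rd rn B k m : ℤ}
    (hB : B = (q : ℤ) ^ a)
    (hx : a0 * x0 ^ 3 + a1 * x1 ^ 3 + a2 * x2 ^ 3 = 0)
    (cx01 : IsCoprime (a0 * x0) (a1 * x1))
    (cx12 : IsCoprime (a1 * x1) (a2 * x2))
    (hy : a0' * y0 ^ 3 + a1' * y1 ^ 3 + a2' * y2 ^ 3 = 0)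
    (cy01 : IsCoprime (a0' * y0) (a1' * y1)) (cy02 : IsCoprime (a0' * y0) (a2' * y2))
    (cy12 : IsCoprime (a1' * y1) (a2' * y2))
    (h1 : a0 * a1' * rd ^ 3 = a0' * a1 * rn ^ 3)
    (h2 : a0 * a2' * k ^ 3 = a0' * a2 * B) (h3 : a1 * a2' * m ^ 3 = a1' * a2 * B)
    (hunit : ∀ l : Eis, Prime l → ¬ l ∣ 3 → ¬ l ∣ (q : Eis) → sym l (q : Eis) ≠ 0 →
      ¬ l ∣ ((a0' * a1' * a1 * a2 * rd * rn * k * m : ℤ) : Eis))
    {f c : ZMod 3}
    (hf : (q : ℤ) ∣ a2 ∧ (q : ℤ) ∣ a2' ∧ ¬ (q : ℤ) ∣ rd ∧ f = 2 ∨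
      (q : ℤ) ∣ a0 ∧ (q : ℤ) ∣ a1' ∧ (q : ℤ) ∣ rn ∧ ¬ (q : ℤ) ∣ rd ∧ f = 1 ∨
      (q : ℤ) ∣ a1 ∧ (q : ℤ) ∣ a0' ∧ (q : ℤ) ∣ rd ∧ ¬ (q : ℤ) ∣ rn ∧ f = 0)
    (hc : Cls (tTwo rd rn x0 x1 y0 y1) c)
    (hne : x0 ≠ 0 ∧ y2 ≠ 0) : f = c := by
  have hQ := prime_inert hq hq3
  obtain ⟨tq, sq⟩ := caseII_one hq hq3 hx cx01 cx12 hy cy01 cy02 h1 hf
  have h1 := lemmaB1 (t := tTwo rd rn x0 x1 y0 y1) hq hq3 tq hc (by
    intro l hl hl3 hlt
    by_cases hgood : sym l (q : Eis) = 0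
    · exact Or.inl hgood
    right
    have hlq : ¬ l ∣ (q : Eis) := fun h => tq ((hl.associated_of_dvd hQ h).symm.dvd.trans hlt)
    refine caseII_loc hl hl3 ?_ hx cx01 hy cy01 cy02 cy12 h1 h2 h3
      (hunit l hl hl3 hlq hgood) hne
    rw [hB]; exact nonCube_pow hl hl3 hlq ha hgood)
  have h2 : f * sym (q : Eis) w = c * sym (q : Eis) w := by rw [← h1]; exact sq.symm
  exact mul_right_cancel₀ hwq h2

end Pool.Agent.Lib_helper84.Cub
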