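import Pool.Agent.Lib_helper84.Cub.CaseOne

/-!
# Case III, local part
-/

namespace Pool.Agent.Lib_helper84.Cub

open Pool.Agent.Lib_helper18 Pool.Agent.Lib_helper18.Eis

/-- norm form of `u + v θ + t θ²`, `θ³ = C` -/
def Nm (C u v t : Eis) : Eis := u ^ 3 + C * v ^ 3 + C ^ 2 * t ^ 3 - 3 * C * u * v * t
def Gf (al be ga t : Eis) : Eis := al + be * t + ga * t ^ 2
def Wf (n al be ga t : Eis) : Eis := n ^ 2 + n * Gf al be ga t + Gf al be ga t * Gf al be ga (w * t)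
def U0 (C n al be ga : Eis) : Eis := n ^ 2 + n * al + al ^ 2 - C * be * ga
def U1 (C n al be ga : Eis) : Eis := n * be + w ^ 2 * (C * ga ^ 2 - al * be)
def U2 (n al be ga : Eis) : Eis := n * ga + w * (be ^ 2 - al * ga)
/-- the main element -/
def Xi (C n al be ga : Eis) : Eis :=
  (n + al) ^ 3 + n ^ 3 + w ^ 2 * C * be ^ 3 + w * C ^ 2 * ga ^ 3 - 3 * C * be * ga * n

theorem Gf_prod (al be ga t : Eis) :
    Gf al be ga t * Gf al be ga (w * t) * Gf al be ga (w ^ 2 * t) = Nm (t ^ 3) al be ga := by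
  have h := w_rel
  simp only [Gf, Nm]
  linear_combination (al ^ 2 * be * t + al ^ 2 * ga * t ^ 2 * w ^ 2 + -(al ^ 2 * ga * t ^ 2 * w) + al ^ 2 * ga * t ^ 2 + al * be ^ 2 * t ^ 2 * w + al * be * ga * t ^ 3 * w ^ 3 + al * be * ga * t ^ 3 * w ^ 2 + (-2) * al * be * ga * t ^ 3 * w + (3) * al * be * ga * t ^ 3 + al * ga ^ 2 * t ^ 4 * w ^ 4 + -(al * ga ^ 2 * t ^ 4 * w ^ 3) + al * ga ^ 2 * t ^ 4 * w ^ 2 + be ^ 3 * t ^ 3 * w + -(be ^ 3 * t ^ 3) + be ^ 2 * ga * t ^ 4 * w ^ 3 + be * ga ^ 2 * t ^ 5 * w ^ 4 + ga ^ 3 * t ^ 6 * w ^ 4 + -(ga ^ 3 * t ^ 6 * w ^ 3) + ga ^ 3 * t ^ 6 * w + -(ga ^ 3 * t ^ 6)) * h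

theorem Wf_eq (n al be ga t : Eis) :
    Wf n al be ga t = Gf (U0 (t ^ 3) n al be ga) (U1 (t ^ 3) n al be ga) (U2 n al be ga) t := by
  have h := w_rel
  simp only [Gf, Wf, U0, U1, U2]
  linear_combination (al * be * t + al * ga * t ^ 2 + be * ga * t ^ 3) * h

theorem Wf_prod (n al be ga t : Eis) :
    Wf n al be ga t * Wf n al be ga (w * t) * Wf n al be ga (w ^ 2 * t) =
      Nm (t ^ 3) (U0 (t ^ 3) n al be ga) (U1 (t ^ 3) n al be ga) (U2 n al be ga) := by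
  have h1 : (w * t) ^ 3 = t ^ 3 := by rw [mul_pow, w_cube, one_mul]
  have h2 : (w ^ 2 * t) ^ 3 = t ^ 3 := by
    have : (w ^ 2 : Eis) ^ 3 = 1 := by decide
    rw [mul_pow, this, one_mul]
  rw [Wf_eq, Wf_eq n al be ga (w * t), Wf_eq n al be ga (w ^ 2 * t), h1, h2, Gf_prod]

theorem Wf_rel (n al be ga t : Eis) :
    Gf al be ga t * Wf n al be ga (w * t) =
      n * Wf n al be ga t + (Gf al be ga t * Gf al be ga (w * t) * Gf al be ga (w ^ 2 * t) - n ^ 3) := by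
  have h : w * (w * t) = w ^ 2 * t := by ring
  simp only [Wf, h]
  ring

theorem Nm_U (C n al be ga : Eis) :
    Nm C (U0 C n al be ga) (U1 C n al be ga) (U2 n al be ga) - 3 * n ^ 3 * Xi C n al be ga =
      (Nm C al be ga - n ^ 3) * (al ^ 3 + 3 * al ^ 2 * n - 3 * al * be * ga * C + 6 * al * n ^ 2 +
        be ^ 3 * C - 3 * be * ga * C * n + ga ^ 3 * C ^ 2 + 5 * n ^ 3) := by
  have h := w_rel
  simp only [Nm, U0, U1, U2, Xi]
  linear_combination ((-3) * al ^ 4 * be * ga * C * w + (3) * al ^ 4 * be * ga * C + -(al ^ 3 * be ^ 3 * C * w ^ 4) + al ^ 3 * be ^ 3 * C * w ^ 3 + (2) * al ^ 3 * be ^ 3 * C * w + (-2) * al ^ 3 * be ^ 3 * C + (-3) * al ^ 3 * be * ga * C * n * w + (6) * al ^ 3 * be * ga * C * n + (2) * al ^ 3 * ga ^ 3 * C ^ 2 * w + (-2) * al ^ 3 * ga ^ 3 * C ^ 2 + (3) * al ^ 2 * be ^ 3 * C * n * w ^ 2 + (-3) * al ^ 2 * be ^ 3 * C * n + (3) * al ^ 2 * be ^ 2 * ga ^ 2 * C ^ 2 * w ^ 4 + (-3)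 * al ^ 2 * be ^ 2 * ga ^ 2 * C ^ 2 * w ^ 3 + (6) * al ^ 2 * be ^ 2 * ga ^ 2 * C ^ 2 * w + (-6) * al ^ 2 * be ^ 2 * ga ^ 2 * C ^ 2 + (-3) * al ^ 2 * be * ga * C * n ^ 2 * w + (6) * al ^ 2 * be * ga * C * n ^ 2 + (3) * al ^ 2 * ga ^ 3 * C ^ 2 * n * w + (-3) * al ^ 2 * ga ^ 3 * C ^ 2 * n + (-6) * al * be ^ 4 * ga * C ^ 2 * w + (6) * al * be ^ 4 * ga * C ^ 2 + (3) * al * be ^ 3 * C * n ^ 2 * w + (-6) * al * be ^ 3 * C * n ^ 2 + (-6) * al * be ^ 2 * ga ^ 2 * C ^ 2 * n * w ^ 2 + (3) * al * be ^ 2 * ga ^ 2 * C ^ 2 * n * w + (-6) * al * be ^ 2 * ga ^ 2 * C ^ 2 * n + (-3) * al * be * ga ^ 4 * C ^ 3 * w ^ 4 + (3) * al * be * ga ^ 4 * C ^ 3 * w ^ 3 + (-6) * al * be * ga ^ 4 * C ^ 3 * w + (6) * al * be * ga ^ 4 * C ^ 3 + (3) * al * be * ga * C * n ^ 3 + (3) * al * ga ^ 3 * C ^ 2 * n ^ 2 * w + (-6) * al * ga ^ 3 * C ^ 2 * n ^ 2 + be ^ 6 * C ^ 2 * w + -(be ^ 6 * C ^ 2) + (3) * be ^ 4 * ga * C ^ 2 * n + (3)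 * be ^ 3 * ga ^ 3 * C ^ 3 * w + (-3) * be ^ 3 * ga ^ 3 * C ^ 3 + (-3) * be ^ 3 * C * n ^ 3 + (-3) * be ^ 2 * ga ^ 2 * C ^ 2 * n ^ 2 * w + (6) * be ^ 2 * ga ^ 2 * C ^ 2 * n ^ 2 + (3) * be * ga ^ 4 * C ^ 3 * n * w ^ 2 + (-3) * be * ga ^ 4 * C ^ 3 * n * w + (3) * be * ga ^ 4 * C ^ 3 * n + ga ^ 6 * C ^ 4 * w ^ 4 + -(ga ^ 6 * C ^ 4 * w ^ 3) + ga ^ 6 * C ^ 4 * w + -(ga ^ 6 * C ^ 4) + (-3) * ga ^ 3 * C ^ 2 * n ^ 3) * h

/-- if `C` is not a cube mod `l`, valuations of norms are divisible by 3 -/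
theorem three_dvd_V_Nm {l C : Eis} (hl : Prime l)
    (hC : ∀ u v : Eis, l ∣ u ^ 3 + C * v ^ 3 → l ∣ u ∧ l ∣ v) :
    ∀ (k : ℕ) (u v t : Eis), N u + N v + N t = k → Nm C u v t ≠ 0 → 3 ∣ V l (Nm C u v t) := by
  have key : ∀ u v t : Eis, l ∣ Nm C u v t → l ∣ u ∧ l ∣ v ∧ l ∣ t := by
    intro u v t h
    have h1 : l ∣ (u * v - C * t ^ 2) ^ 3 + C * (v ^ 2 - u * t) ^ 3 := by
      have e : (u * v - C * t ^ 2) ^ 3 + C * (v ^ 2 - u * t) ^ 3 =
        Nm C u v t * (v ^ 3 - C * t ^ 3) := by rw [Nm]; ring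
      rw [e]; exact Dvd.dvd.mul_right h _
    obtain ⟨h2, h3⟩ := hC _ _ h1
    have h4 : l ∣ v ^ 3 + C * (-t) ^ 3 := by
      have e : v ^ 3 + C * (-t) ^ 3 = (v ^ 2 - u * t) * v + (u * v - C * t ^ 2) * t := by ring
      rw [e]; exact dvd_add (Dvd.dvd.mul_right h3 _) (Dvd.dvd.mul_right h2 _)
    obtain ⟨h5, h6⟩ := hC _ _ h4
    rw [dvd_neg] at h6
    refine ⟨?_, h5, h6⟩
    have h7 : l ∣ u ^ 3 := by
      have e : u ^ 3 = Nm C u v t - v * (C * v ^ 2 - 3 * C * u * t) - t * (C ^ 2 * t ^ 2) := by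
        rw [Nm]; ring
      rw [e]
      exact dvd_sub (dvd_sub h (Dvd.dvd.mul_right h5 _)) (Dvd.dvd.mul_right h6 _)
    exact hl.dvd_of_dvd_pow h7
  intro k
  induction k using Nat.strong_induction_on with
  | _ k ih =>
    intro u v t hk hne
    by_cases h : l ∣ Nm C u v t
    · obtain ⟨⟨u', rfl⟩, ⟨v', rfl⟩, ⟨t', rfl⟩⟩ := key _ _ _ h
      have e : Nm C (l * u') (l * v') (l * t') = l ^ 3 * Nm C u' v' t' := by
        simp only [Nm]; ring
      rw [e] at hne ⊢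
      have hne' := right_ne_zero_of_mul hne
      have hlt : N u' + N v' + N t' < k := by
        rw [← hk, N_mul, N_mul, N_mul]
        have h1 := N_prime hl
        have h2 : 0 < N u' + N v' + N t' := by
          by_contra h0
          apply hne'
          have a1 : u' = 0 := by
            by_contra h3; have := N_pos h3; omega
          have a2 : v' = 0 := by
            by_contra h3; have := N_pos h3; omega
          have a3 : t' = 0 := by
            by_contra h3; have := N_pos h3; omega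
          rw [a1, a2, a3]; simp [Nm]
        nlinarith
      have := ih _ hlt u' v' t' rfl hne'
      rw [V_mul hl (pow_ne_zero _ hl.ne_zero) hne', V_pow hl hl.ne_zero, V_self]
      omega
    · rw [V_eq_zero h]; exact dvd_zero _

/-- Hensel's lemma for cube roots -/
theorem hensel {l C τ₀ : Eis} (hl : Prime l) (h3 : ¬ l ∣ 3) (hC : ¬ l ∣ C)
    (h0 : l ∣ τ₀ ^ 3 - C) (M : ℕ) : ∃ τ : Eis, ¬ l ∣ τ ∧ l ^ (M + 1) ∣ τ ^ 3 - C := by
  induction M with
  | zero =>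
    refine ⟨τ₀, ?_, by simpa using h0⟩
    intro h
    apply hC
    have h1 : l ∣ τ₀ ^ 3 := Dvd.dvd.pow h (by norm_num)
    have := dvd_sub h1 h0
    rwa [sub_sub_cancel] at this
  | succ M ih =>
    obtain ⟨τ, hτ, c, hc⟩ := ih
    have hnd : ¬ l ∣ 3 * τ ^ 2 := fun h =>
      (hl.dvd_or_dvd h).elim h3 (fun h => hτ (hl.dvd_of_dvd_pow h))
    obtain ⟨u, v, huv⟩ := (hl.irreducible.coprime_iff_not_dvd.mpr hnd)
    refine ⟨τ + l ^ (M + 1) * (-(c * v)), ?_, ?_⟩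
    · intro h
      apply hτ
      have h1 : l ∣ l ^ (M + 1) * (-(c * v)) :=
        Dvd.dvd.mul_right (dvd_pow_self _ (by omega)) _
      exact (dvd_add_left h1).mp h
    · have e : (τ + l ^ (M + 1) * (-(c * v))) ^ 3 - C =
          l ^ (M + 2) * (c * u) + l ^ (M + 1) * (l ^ (M + 1)) *
            (3 * τ * (c * v) ^ 2 - l ^ (M + 1) * (c * v) ^ 3) := by
        have h2 : l ^ (M + 2) = l ^ (M + 1) * l := by ring
        rw [h2]
        linear_combination hc - l ^ (M + 1) * c * huv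
      rw [e]
      refine dvd_add (dvd_mul_right _ _) ?_
      refine Dvd.dvd.mul_right ?_ _
      rw [← pow_add]
      exact pow_dvd_pow _ (by omega)

theorem cube_or {l : Eis} (hl : Prime l) (C : Eis) :
    (∀ u v : Eis, l ∣ u ^ 3 + C * v ^ 3 → l ∣ u ∧ l ∣ v) ∨ ∃ τ : Eis, l ∣ τ ^ 3 - C := by
  by_cases h : ∀ u v : Eis, l ∣ u ^ 3 + C * v ^ 3 → l ∣ u ∧ l ∣ v
  · exact Or.inl h
  · right
    push Not at h
    obtain ⟨u, v, h1, h2⟩ := h
    have hv : ¬ l ∣ v := by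
      intro hv
      refine h2 ?_ hv
      have h3 : l ∣ C * v ^ 3 := Dvd.dvd.mul_left (Dvd.dvd.pow hv (by norm_num)) _
      exact hl.dvd_of_dvd_pow ((dvd_add_left h3).mp h1)
    obtain ⟨a, b, hab⟩ := (hl.irreducible.coprime_iff_not_dvd.mpr hv)
    refine ⟨-(u * b), ?_⟩
    have e : (-(u * b)) ^ 3 - C = (u ^ 3 + C * v ^ 3) * (-(b ^ 3)) +
        l * (-(C * a * (1 + b * v + (b * v) ^ 2))) := by
      linear_combination (C * (1 + b * v + (b * v) ^ 2)) * hab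
    rw [e]
    exact dvd_add (Dvd.dvd.mul_right h1 _) (dvd_mul_right _ _)

theorem V_congr {l a b : Eis} {M : ℕ} (hl : Prime l) (h : l ^ M ∣ a - b) (ha : a ≠ 0)
    (hV : V l a < M) : b ≠ 0 ∧ V l b = V l a := by
  have hb : b ≠ 0 := by
    rintro rfl
    rw [sub_zero] at h
    have h1 : M ≤ V l a := (fin hl ha).le_multiplicity_of_pow_dvd h
    omega
  refine ⟨hb, ?_⟩
  have hfa := fin hl ha
  have hfb := fin hl hb
  apply le_antisymm
  · by_contra hlt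
    push Not at hlt
    -- l^(V a + 1) | b and | a - b, so | a
    have h1 : l ^ (V l a + 1) ∣ b :=
      (hfb.pow_dvd_iff_le_multiplicity).mpr (show V l a + 1 ≤ V l b by omega)
    have h2 : l ^ (V l a + 1) ∣ a - b := (pow_dvd_pow _ (by omega)).trans h
    have h3 := dvd_add h2 h1
    rw [sub_add_cancel] at h3
    have h4 : V l a + 1 ≤ V l a := hfa.le_multiplicity_of_pow_dvd h3
    omega
  · have h1 : l ^ (V l a) ∣ a := pow_multiplicity_dvd _ _
    have h2 : l ^ (V l a) ∣ a - b := (pow_dvd_pow _ (by omega)).trans h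
    have h3 := dvd_sub h1 h2
    rw [sub_sub_cancel] at h3
    exact hfb.le_multiplicity_of_pow_dvd h3

/-- **Case III, local part** -/
theorem caseIII_local {l C x y z x' y' z' B B' Q : Eis} (hl : Prime l) (h3 : ¬ l ∣ 3)
    (hlC : ¬ l ∣ C) (h : x ^ 3 + C * y ^ 3 + B * z ^ 3 = 0)
    (h' : x' ^ 3 + C * y' ^ 3 + B' * z' ^ 3 = 0) (hBB : B * B' = Q ^ 3)
    (hlB : ¬ l ∣ B) (hlB' : ¬ l ∣ B') (hxy : ¬ (l ∣ x ∧ l ∣ y)) (hxy' : ¬ (l ∣ x' ∧ l ∣ y'))
    (hz : z ≠ 0) (hz' : z' ≠ 0) (hQ : ¬ l ∣ Q)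
    (hXi : Xi C (Q * z * z') (x * x') (x * y' + x' * y) (y * y') ≠ 0) :
    3 ∣ V l (Xi C (Q * z * z') (x * x') (x * y' + x' * y) (y * y')) := by
  have hB0 : B ≠ 0 := by rintro rfl; exact hlB (dvd_zero _)
  have hB0' : B' ≠ 0 := by rintro rfl; exact hlB' (dvd_zero _)
  have hQ0 : Q ≠ 0 := by rintro rfl; exact hQ (dvd_zero _)
  set n := Q * z * z' with hn
  set al := x * x' with hal
  set be := x * y' + x' * y with hbe
  set ga := y * y' with hga
  have hn0 : n ≠ 0 := mul_ne_zero (mul_ne_zero hQ0 hz) hz'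
  have h30 : (3 : Eis) ≠ 0 := by intro h; rw [h] at h3; exact h3 (dvd_zero _)
  have hNg : Nm C al be ga = n ^ 3 := by
    rw [hal, hbe, hga, hn, Nm]
    linear_combination (x' ^ 3 + C * y' ^ 3) * h - B * z ^ 3 * h' + (z * z') ^ 3 * hBB
  have hNU : Nm C (U0 C n al be ga) (U1 C n al be ga) (U2 n al be ga) =
      3 * n ^ 3 * Xi C n al be ga := by
    have := Nm_U C n al be ga
    rw [hNg, sub_self, zero_mul] at this
    exact sub_eq_zero.mp this
  have hn3 : (3 : Eis) * n ^ 3 ≠ 0 := mul_ne_zero h30 (pow_ne_zero _ hn0)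
  have hVn : V l (3 * n ^ 3 * Xi C n al be ga) = 3 * V l n + V l (Xi C n al be ga) := by
    rw [V_mul hl hn3 hXi, V_mul_not_dvd hl h3 (pow_ne_zero _ hn0), V_pow hl hn0]
  rcases cube_or hl C with hC | ⟨τ₀, hτ₀⟩
  · have h1 := three_dvd_V_Nm hl hC _ (U0 C n al be ga) (U1 C n al be ga) (U2 n al be ga) rfl
      (by rw [hNU]; exact mul_ne_zero hn3 hXi)
    rw [hNU, hVn] at h1
    omega
  · set K := 3 * V l n + V l (Xi C n al be ga) with hK
    obtain ⟨τ, hτ, hM⟩ := hensel hl h3 hlC hτ₀ (2 * K)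
    set M := 2 * K + 1 with hMdef
    -- products
    have hWprod : l ^ M ∣ 3 * n ^ 3 * Xi C n al be ga -
        Wf n al be ga τ * Wf n al be ga (w * τ) * Wf n al be ga (w ^ 2 * τ) := by
      rw [Wf_prod]
      have h5 := Nm_U (τ ^ 3) n al be ga
      have e : 3 * n ^ 3 * Xi C n al be ga -
        Nm (τ ^ 3) (U0 (τ ^ 3) n al be ga) (U1 (τ ^ 3) n al be ga) (U2 n al be ga) =
        (τ ^ 3 - C) * (-(3 * n ^ 3 * (w ^ 2 * be ^ 3 + w * (τ ^ 3 + C) * ga ^ 3 - 3 * be * ga * n)) -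
        (be ^ 3 + (τ ^ 3 + C) * ga ^ 3 - 3 * al * be * ga) *
        (al ^ 3 + 3 * al ^ 2 * n - 3 * al * be * ga * τ ^ 3 + 6 * al * n ^ 2 +
        be ^ 3 * τ ^ 3 - 3 * be * ga * τ ^ 3 * n + ga ^ 3 * (τ ^ 3) ^ 2 + 5 * n ^ 3)) := by
        have h6 : Nm (τ ^ 3) al be ga - n ^ 3 = (τ ^ 3 - C) *
          (be ^ 3 + (τ ^ 3 + C) * ga ^ 3 - 3 * al * be * ga) := by
          rw [← hNg]; simp only [Nm]; ring
        rw [h6] at h5
        have h7 : Xi (τ ^ 3) n al be ga - Xi C n al be ga = (τ ^ 3 - C) *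
          (w ^ 2 * be ^ 3 + w * (τ ^ 3 + C) * ga ^ 3 - 3 * be * ga * n) := by
          simp only [Xi]; ring
        linear_combination (-1 : Eis) * h5 - 3 * n ^ 3 * h7
      rw [e]; exact Dvd.dvd.mul_right hM _
    have hGprod : l ^ M ∣ n ^ 3 -
        Gf al be ga τ * Gf al be ga (w * τ) * Gf al be ga (w ^ 2 * τ) := by
      rw [Gf_prod]
      have e : n ^ 3 - Nm (τ ^ 3) al be ga =
        (τ ^ 3 - C) * (-(be ^ 3 + (τ ^ 3 + C) * ga ^ 3 - 3 * al * be * ga)) := by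
        rw [← hNg]; simp only [Nm]; ring
      rw [e]; exact Dvd.dvd.mul_right hM _
    obtain ⟨hW0, hWV⟩ := V_congr hl hWprod (mul_ne_zero hn3 hXi) (by rw [hVn]; omega)
    obtain ⟨hG0, hGV⟩ := V_congr hl hGprod (pow_ne_zero _ hn0) (by
      rw [V_pow hl hn0]; omega)
    rw [hVn] at hWV
    rw [V_pow hl hn0] at hGV
    have hWa := left_ne_zero_of_mul (left_ne_zero_of_mul hW0)
    have hWb := right_ne_zero_of_mul (left_ne_zero_of_mul hW0)
    have hWc := right_ne_zero_of_mul hW0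
    have hGa := left_ne_zero_of_mul (left_ne_zero_of_mul hG0)
    have hGb := right_ne_zero_of_mul (left_ne_zero_of_mul hG0)
    have hGc := right_ne_zero_of_mul hG0
    rw [V_mul hl (mul_ne_zero hWa hWb) hWc, V_mul hl hWa hWb] at hWV
    rw [V_mul hl (mul_ne_zero hGa hGb) hGc, V_mul hl hGa hGb] at hGV
    -- valuations of the factors
    have hww : w * (w * τ) = w ^ 2 * τ := by ring
    have hwww : w * (w ^ 2 * τ) = τ := by
      have : w * (w ^ 2 * τ) = w ^ 3 * τ := by ring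
      rw [this, w_cube, one_mul]
    have hcyc1 : Gf al be ga (w * τ) * Gf al be ga (w * (w * τ)) * Gf al be ga (w ^ 2 * (w * τ)) =
        Gf al be ga τ * Gf al be ga (w * τ) * Gf al be ga (w ^ 2 * τ) := by
      have e1 : w ^ 2 * (w * τ) = τ := by
        have : w ^ 2 * (w * τ) = w ^ 3 * τ := by ring
        rw [this, w_cube, one_mul]
      rw [hww, e1]; ring
    have rel0 : V l (Gf al be ga τ) + V l (Wf n al be ga (w * τ)) = V l n + V l (Wf n al be ga τ) := by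
      have h5 := Wf_rel n al be ga τ
      have h6 : l ^ M ∣ n * Wf n al be ga τ - Gf al be ga τ * Wf n al be ga (w * τ) := by
        rw [h5]
        have e : n * Wf n al be ga τ - (n * Wf n al be ga τ +
          (Gf al be ga τ * Gf al be ga (w * τ) * Gf al be ga (w ^ 2 * τ) - n ^ 3)) =
          n ^ 3 - Gf al be ga τ * Gf al be ga (w * τ) * Gf al be ga (w ^ 2 * τ) := by ring
        rw [e]; exact hGprod
      obtain ⟨-, h7⟩ := V_congr hl h6 (mul_ne_zero hn0 hWa) (by rw [V_mul hl hn0 hWa]; omega)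
      rw [V_mul hl hGa hWb, V_mul hl hn0 hWa] at h7
      exact h7
    have rel1 : V l (Gf al be ga (w * τ)) + V l (Wf n al be ga (w ^ 2 * τ)) =
        V l n + V l (Wf n al be ga (w * τ)) := by
      have h5 := Wf_rel n al be ga (w * τ)
      rw [hcyc1, hww] at h5
      have h6 : l ^ M ∣ n * Wf n al be ga (w * τ) -
          Gf al be ga (w * τ) * Wf n al be ga (w ^ 2 * τ) := by
        rw [h5]
        have e : n * Wf n al be ga (w * τ) - (n * Wf n al be ga (w * τ) +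
          (Gf al be ga τ * Gf al be ga (w * τ) * Gf al be ga (w ^ 2 * τ) - n ^ 3)) =
          n ^ 3 - Gf al be ga τ * Gf al be ga (w * τ) * Gf al be ga (w ^ 2 * τ) := by ring
        rw [e]; exact hGprod
      obtain ⟨-, h7⟩ := V_congr hl h6 (mul_ne_zero hn0 hWb) (by rw [V_mul hl hn0 hWb]; omega)
      rw [V_mul hl hGb hWc, V_mul hl hn0 hWb] at h7
      exact h7
    -- divisibility by 3 of the valuations of the G's
    have hfac : ∀ {u v s D : Eis}, u ^ 3 + C * v ^ 3 + D * s ^ 3 = 0 → ¬ l ∣ D → s ≠ 0 →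
        ¬ (l ∣ u ∧ l ∣ v) → V l s ≤ V l n → ∀ c : Eis, c ^ 3 = 1 → ¬ l ∣ c →
        3 ∣ V l (u + c * τ * v) := by
      intro u v s D hD hlD hs huv hsn c hc hlc
      have hD0 : D ≠ 0 := by rintro rfl; exact hlD (dvd_zero _)
      have h5 : l ^ M ∣ -(D * s ^ 3) - (u ^ 3 + (c * τ * v) ^ 3) := by
        have e : -(D * s ^ 3) - (u ^ 3 + (c * τ * v) ^ 3) = (τ ^ 3 - C) * (-(v ^ 3)) := by
          linear_combination (-1 : Eis) * hD - τ ^ 3 * v ^ 3 * hc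
        rw [e]; exact Dvd.dvd.mul_right hM _
      have h6 : V l (-(D * s ^ 3)) = 3 * V l s := by
        rw [V_neg, V_mul_not_dvd hl hlD (pow_ne_zero _ hs), V_pow hl hs]
      obtain ⟨h7, h8⟩ := V_congr hl h5 (neg_ne_zero.mpr (mul_ne_zero hD0 (pow_ne_zero _ hs)))
        (by rw [h6]; omega)
      refine three_dvd_V_add hl h3 ?_ h7 (by rw [h8, h6]; exact dvd_mul_right _ _)
      rintro ⟨g1, g2⟩
      refine huv ⟨g1, ?_⟩
      rcases hl.dvd_or_dvd g2 with g | g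
      · exact absurd g (fun g => (hl.dvd_or_dvd g).elim hlc hτ)
      · exact g
    have hVz : V l n = V l z + V l z' := by
      rw [hn, mul_assoc, V_mul_not_dvd hl hQ (mul_ne_zero hz hz'), V_mul hl hz hz']
    have hGfac : ∀ c : Eis, Gf al be ga (c * τ) = (x + c * τ * y) * (x' + c * τ * y') := by
      intro c
      rw [hal, hbe, hga, Gf]; ring
    have hG3 : ∀ c : Eis, c ^ 3 = 1 → ¬ l ∣ c → Gf al be ga (c * τ) ≠ 0 →
        3 ∣ V l (Gf al be ga (c * τ)) := by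
      intro c hc hlc hne
      rw [hGfac] at hne ⊢
      have e1 := left_ne_zero_of_mul hne
      have e2 := right_ne_zero_of_mul hne
      rw [V_mul hl e1 e2]
      exact dvd_add (hfac h hlB hz hxy (by omega) c hc hlc)
        (hfac h' hlB' hz' hxy' (by omega) c hc hlc)
    have hg0 : 3 ∣ V l (Gf al be ga τ) := by
      have := hG3 1 (by norm_num) (not_dvd_of_isUnit hl isUnit_one) (by rwa [one_mul])
      rwa [one_mul] at this
    have hg1 : 3 ∣ V l (Gf al be ga (w * τ)) := hG3 w w_cube (not_dvd_w hl) hGb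
    omega

end Pool.Agent.Lib_helper84.Cub
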