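import Pool.Agent.Lib_helper84.Cub.CaseThree
import Pool.Agent.Lib_helper84.Cub.LemC

/-!
# Case III, general form
-/

namespace Pool.Agent.Lib_helper84.Cub

open Pool.Agent.Lib_helper18 Pool.Agent.Lib_helper18.Eis

/-- every nonzero element has a class at the prime above 3 -/
theorem exists_cls {t : Eis} (ht : t ≠ 0) : ∃ c, Cls t c := by
  obtain ⟨s, hs, hns⟩ := V_split prime_lam ht
  obtain ⟨k, hk⟩ := exists_prim hns
  exact ⟨_, V lam t, k, s, hs, hk, rfl⟩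

/-- all primes dividing `n`, not above 3, are inert rational primes -/
def InertD (n : ℤ) : Prop := ∀ l : Eis, Prime l → ¬ l ∣ 3 → l ∣ (n : Eis) →
  ∃ s : ℕ, s.Prime ∧ s % 3 = 2 ∧ Associated l (s : Eis)

theorem ndvd9 {q : ℕ} (hq : q.Prime) (hq3 : q % 3 = 2) : ¬ (q : ℤ) ∣ 9 := by
  intro h9
  have hqZ := Nat.prime_iff_prime_int.mp hq
  have h9' : (q : ℤ) ∣ 3 ^ 2 := by norm_num; exact h9
  have h3' := hqZ.dvd_of_dvd_pow h9'
  have h3n : q ∣ 3 := by exact_mod_cast h3'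
  have := (Nat.prime_dvd_prime_iff_eq hq Nat.prime_three).mp h3n
  omega

/-- the main element of case III -/
def XiZ (C Q x y z x' y' z' : ℤ) : Eis :=
  Xi (C : Eis) ((Q : Eis) * z * z') (x * x') (x * y' + x' * y) (y * y')

section

variable {q : ℕ} (hq : q.Prime) (hq3 : q % 3 = 2)
  {B B' C Q x y z x' y' z' : ℤ}

include hq hq3

/-- modulo a prime `q` dividing `B`, `B'` -/
theorem caseIII_q (hqQ : (q : ℤ) ∣ Q) (hqB : (q : ℤ) ∣ B) (hqB' : (q : ℤ) ∣ B')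
    (h : x ^ 3 + C * y ^ 3 + B * z ^ 3 = 0)
    (h' : x' ^ 3 + C * y' ^ 3 + B' * z' ^ 3 = 0)
    (cyz : IsCoprime (C * y) (B * z)) (cyz' : IsCoprime (C * y') (B' * z')) :
    ¬ (q : Eis) ∣ XiZ C Q x y z x' y' z' ∧
      sym (q : Eis) (XiZ C Q x y z x' y' z') = 2 * sym (q : Eis) w := by
  have hQ := prime_inert hq hq3
  have hQ3 := n3 hq hq3
  have hqZ := Nat.prime_iff_prime_int.mp hq
  set Ξ := XiZ C Q x y z x' y' z' with hΞ
  have qC : ¬ (q : ℤ) ∣ C := not_dvd_of_coprime hq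
    (IsCoprime.of_mul_left_left cyz).symm (Dvd.dvd.mul_right hqB _)
  have qy : ¬ (q : ℤ) ∣ y := not_dvd_of_coprime hq
    (IsCoprime.of_mul_left_right cyz).symm (Dvd.dvd.mul_right hqB _)
  have qy' : ¬ (q : ℤ) ∣ y' := not_dvd_of_coprime hq
    (IsCoprime.of_mul_left_right cyz').symm (Dvd.dvd.mul_right hqB' _)
  have q1 : (q : ℤ) ∣ x ^ 3 + C * y ^ 3 := by
    have e : x ^ 3 + C * y ^ 3 = B * (-z ^ 3) := by linear_combination h
    rw [e]; exact Dvd.dvd.mul_right hqB _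
  have q2 : (q : ℤ) ∣ x' ^ 3 + C * y' ^ 3 := by
    have e : x' ^ 3 + C * y' ^ 3 = B' * (-z' ^ 3) := by linear_combination h'
    rw [e]; exact Dvd.dvd.mul_right hqB' _
  have q3 : (q : ℤ) ∣ x * y' - x' * y := by
    apply cube_inj hq hq3
    have e : (x * y') ^ 3 - (x' * y) ^ 3 = (x ^ 3 + C * y ^ 3) * y' ^ 3 -
      (x' ^ 3 + C * y' ^ 3) * y ^ 3 := by ring
    rw [e]; exact dvd_sub (Dvd.dvd.mul_right q1 _) (Dvd.dvd.mul_right q2 _)
  have q9 : ¬ (q : ℤ) ∣ -9 * C ^ 2 * (y * y') ^ 3 := by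
    intro hd
    rcases hqZ.dvd_or_dvd hd with hd | hd
    · rcases hqZ.dvd_or_dvd hd with hd | hd
      · have h9 : (q : ℤ) ∣ 9 := by
          rw [neg_eq_neg_one_mul] at hd
          have := (dvd_neg (a := (q : ℤ)) (b := 9)).mp (by simpa using hd)
          exact this
        exact ndvd9 hq hq3 h9
      · exact qC (hqZ.dvd_of_dvd_pow hd)
    · rcases hqZ.dvd_or_dvd (hqZ.dvd_of_dvd_pow hd) with hd | hd
      · exact qy hd
      · exact qy' hd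
  have q1E := cast_dvd_cast.mpr q1
  have q2E := cast_dvd_cast.mpr q2
  have q3E := cast_dvd_cast.mpr q3
  have qQE := cast_dvd_cast.mpr hqQ
  push_cast at q1E q2E q3E
  have hw2 : ¬ (q : Eis) ∣ w ^ 2 := fun h => not_dvd_w hQ (hQ.dvd_of_dvd_pow h)
  have q9E : ¬ (q : Eis) ∣ ((-9 * C ^ 2 * (y * y') ^ 3 : ℤ) : Eis) :=
    fun h => q9 (cast_dvd_cast.mp h)
  have qΞ : (q : Eis) ∣ Ξ - ((-9 * C ^ 2 * (y * y') ^ 3 : ℤ) : Eis) * w ^ 2 := by
    have e : Ξ - ((-9 * C ^ 2 * (y * y') ^ 3 : ℤ) : Eis) * w ^ 2 =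
        (Q : Eis) * (z * z' * (3 * (x * x') ^ 2 + 3 * (x * x') * (Q * z * z') +
          2 * (Q * z * z') ^ 2 - 3 * C * (x * y' + x' * y) * (y * y'))) +
        ((x : Eis) ^ 3 + C * y ^ 3) * (x' ^ 3 + 8 * w ^ 2 * C * y' ^ 3) -
        ((x' : Eis) ^ 3 + C * y' ^ 3) * (C * y ^ 3) +
        ((x : Eis) * y' - x' * y) * (-(w ^ 2 * C * ((x * y' + x' * y) ^ 2 +
          (x * y' + x' * y) * (2 * x * y') + (2 * x * y') ^ 2))) := by
      have h4 := w_rel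
      rw [hΞ, XiZ, Xi]
      push_cast
      linear_combination ((C : Eis) ^ 2 * (y * y') ^ 3) * h4
    rw [e]
    exact dvd_add (dvd_sub (dvd_add (Dvd.dvd.mul_right qQE _) (Dvd.dvd.mul_right q1E _))
      (Dvd.dvd.mul_right q2E _)) (Dvd.dvd.mul_right q3E _)
  refine ⟨?_, ?_⟩
  · intro hd
    have := dvd_sub hd qΞ
    rw [sub_sub_cancel] at this
    exact (hQ.dvd_or_dvd this).elim q9E hw2
  · rw [sym_congr qΞ, sym_mul hQ hQ3 q9E hw2, sym_int hq hq3 q9, sym_pow hQ hQ3 (not_dvd_w hQ)]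
    push_cast; ring

/-- modulo a prime `q` dividing `C` -/
theorem caseIII_p (hBB : B * B' = Q ^ 3) (hqC : (q : ℤ) ∣ C)
    (h : x ^ 3 + C * y ^ 3 + B * z ^ 3 = 0)
    (h' : x' ^ 3 + C * y' ^ 3 + B' * z' ^ 3 = 0)
    (cxy : IsCoprime x (C * y)) (cxy' : IsCoprime x' (C * y')) :
    ¬ (q : Eis) ∣ XiZ C Q x y z x' y' z' ∧
      sym (q : Eis) (XiZ C Q x y z x' y' z') = 0 := by
  have hqZ := Nat.prime_iff_prime_int.mp hq
  set Ξ := XiZ C Q x y z x' y' z' with hΞ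
  have px : ¬ (q : ℤ) ∣ x := not_dvd_of_coprime hq cxy.symm (Dvd.dvd.mul_right hqC _)
  have px' : ¬ (q : ℤ) ∣ x' := not_dvd_of_coprime hq cxy'.symm (Dvd.dvd.mul_right hqC _)
  have p1 : (q : ℤ) ∣ x * x' - Q * z * z' := by
    apply cube_inj hq hq3
    have e : (x * x') ^ 3 - (Q * z * z') ^ 3 = C * (-(y ^ 3 * x' ^ 3) + B * z ^ 3 * y' ^ 3) := by
      linear_combination x' ^ 3 * h - B * z ^ 3 * h' + (z * z') ^ 3 * hBB
    rw [e]; exact Dvd.dvd.mul_right hqC _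
  have p9 : ¬ (q : ℤ) ∣ 9 * (x * x') ^ 3 := by
    intro hd
    rcases hqZ.dvd_or_dvd hd with hd | hd
    · exact ndvd9 hq hq3 hd
    · rcases hqZ.dvd_or_dvd (hqZ.dvd_of_dvd_pow hd) with hd | hd
      · exact px hd
      · exact px' hd
  have p1E := cast_dvd_cast.mpr p1
  have pCE := cast_dvd_cast.mpr hqC
  push_cast at p1E
  have p9E : ¬ (q : Eis) ∣ ((9 * (x * x') ^ 3 : ℤ) : Eis) := fun h => p9 (cast_dvd_cast.mp h)
  have pΞ : (q : Eis) ∣ Ξ - ((9 * (x * x') ^ 3 : ℤ) : Eis) := by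
    have e : Ξ - ((9 * (x * x') ^ 3 : ℤ) : Eis) =
        ((x : Eis) * x' - Q * z * z') * (-((Q * z * z' + x * x') ^ 2 +
          (Q * z * z' + x * x') * (2 * x * x') + (2 * x * x') ^ 2 +
          (Q * z * z') ^ 2 + (Q * z * z') * (x * x') + (x * x') ^ 2)) +
        (C : Eis) * (w ^ 2 * (x * y' + x' * y) ^ 3 + w * C * (y * y') ^ 3 -
          3 * (x * y' + x' * y) * (y * y') * (Q * z * z')) := by
      rw [hΞ, XiZ, Xi]
      push_cast
      ring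
    rw [e]
    exact dvd_add (Dvd.dvd.mul_right p1E _) (Dvd.dvd.mul_right pCE _)
  refine ⟨?_, ?_⟩
  · intro hd
    have := dvd_sub hd pΞ
    rw [sub_sub_cancel] at this
    exact p9E this
  · rw [sym_congr pΞ, sym_int hq hq3 p9]

/-- at all other primes the symbol of `q` vanishes or the valuation is divisible by 3 -/
theorem caseIII_loc (hBB : B * B' = Q ^ 3) (hCi : InertD C) (hQi : InertD Q)
    (h : x ^ 3 + C * y ^ 3 + B * z ^ 3 = 0)
    (h' : x' ^ 3 + C * y' ^ 3 + B' * z' ^ 3 = 0)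
    (cxy : IsCoprime x (C * y)) (cxy' : IsCoprime x' (C * y'))
    (hz : z ≠ 0) (hz' : z' ≠ 0) (hΞ0 : XiZ C Q x y z x' y' z' ≠ 0)
    {l : Eis} (hl : Prime l) (hl3 : ¬ l ∣ 3) (hlq : ¬ l ∣ (q : Eis)) :
    sym l (q : Eis) = 0 ∨ 3 ∣ V l (XiZ C Q x y z x' y' z') := by
  have hE := cast_eq h
  have hE' := cast_eq h'
  have hBBE := cast_eq hBB
  push_cast at hE hE' hBBE
  have inert_good : (∃ s : ℕ, s.Prime ∧ s % 3 = 2 ∧ Associated l (s : Eis)) →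
      sym l (q : Eis) = 0 := by
    rintro ⟨s, hs, hs3, hass⟩
    have h1 : ¬ s ∣ q := by
      intro hd
      exact hlq (hass.dvd.trans (Nat.cast_dvd_cast hd))
    rw [sym_associated hass, sym_nat hs hs3 h1]
  by_cases hlC : l ∣ (C : Eis)
  · exact Or.inl (inert_good (hCi l hl hl3 hlC))
  by_cases hlQ : l ∣ (Q : Eis)
  · exact Or.inl (inert_good (hQi l hl hl3 hlQ))
  right
  have hlBB : ¬ l ∣ (B : Eis) * B' := by
    rw [hBBE]; exact fun h => hlQ (hl.dvd_of_dvd_pow h)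
  have ndc : ∀ {s t : ℤ}, IsCoprime s (C * t) → ¬ (l ∣ (s : Eis) ∧ l ∣ (t : Eis)) := by
    intro s t hc ⟨h1, h2⟩
    refine not_dvd_of_coprime' hl hc h1 ?_
    push_cast; exact Dvd.dvd.mul_left h2 _
  exact caseIII_local hl hl3 hlC hE hE' hBBE (fun h => hlBB (Dvd.dvd.mul_right h _))
    (fun h => hlBB (Dvd.dvd.mul_left h _)) (ndc cxy) (ndc cxy') (cast_ne hz) (cast_ne hz')
    hlQ hΞ0

end

/-- **Case III**, general form -/
theorem caseIII_gen' {q p : ℕ} (hq : q.Prime) (hq3 : q % 3 = 2)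
    (hp : p.Prime) (hp3 : p % 3 = 2)
    {B B' C Q x y z x' y' z' : ℤ} (hBB : B * B' = Q ^ 3)
    (hqQ : (q : ℤ) ∣ Q) (hqB : (q : ℤ) ∣ B) (hqB' : (q : ℤ) ∣ B')
    (hpC : (p : ℤ) ∣ C) (hCi : InertD C) (hQi : InertD Q)
    (h : x ^ 3 + C * y ^ 3 + B * z ^ 3 = 0)
    (h' : x' ^ 3 + C * y' ^ 3 + B' * z' ^ 3 = 0)
    (cxy : IsCoprime x (C * y)) (cyz : IsCoprime (C * y) (B * z))
    (cxy' : IsCoprime x' (C * y')) (cyz' : IsCoprime (C * y') (B' * z'))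
    (hz : z ≠ 0) (hz' : z' ≠ 0)
    (hwq : sym (q : Eis) w ≠ 0) (hwp : sym (p : Eis) w ≠ 0) : False := by
  have hQ := prime_inert hq hq3
  have hP := prime_inert hp hp3
  obtain ⟨qnd, symq⟩ := caseIII_q hq hq3 hqQ hqB hqB' h h' cyz cyz'
  obtain ⟨pnd, symp⟩ := caseIII_p hp hp3 hBB hpC h h' cxy cxy'
  have hΞ0 : XiZ C Q x y z x' y' z' ≠ 0 := by
    intro h0; rw [h0] at qnd; exact qnd (dvd_zero _)
  obtain ⟨c, hc⟩ := exists_cls hΞ0
  have h1 := lemmaB1 hq hq3 qnd hc (fun l hl hl3 hlΞ =>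
    caseIII_loc hq hq3 hBB hCi hQi h h' cxy cxy' hz hz' hΞ0 hl hl3
      (fun h => qnd ((hl.associated_of_dvd hQ h).symm.dvd.trans hlΞ)))
  have h2 := lemmaB1 hp hp3 pnd hc (fun l hl hl3 hlΞ =>
    caseIII_loc hp hp3 hBB hCi hQi h h' cxy cxy' hz hz' hΞ0 hl hl3
      (fun h => pnd ((hl.associated_of_dvd hP h).symm.dvd.trans hlΞ)))
  rw [symq] at h1
  rw [symp] at h2
  have key : ∀ u v c : ZMod 3, 2 * u = c * u → 0 = c * v → u ≠ 0 → v ≠ 0 → False := by decide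
  exact key _ _ _ h1 h2 hwq hwp

end Pool.Agent.Lib_helper84.Cub
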