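import Pool.Agent.Lib_helper84.Cub.CaseOne

/-!
# Case II
-/

namespace Pool.Agent.Lib_helper84.Cub

open Pool.Agent.Lib_helper18 Pool.Agent.Lib_helper18.Eis

/-- cubing is injective modulo an inert prime -/
theorem cube_inj {q : ℕ} (hq : q.Prime) (hq3 : q % 3 = 2) {u v : ℤ}
    (h : (q : ℤ) ∣ u ^ 3 - v ^ 3) : (q : ℤ) ∣ u - v := by
  have hP := prime_inert hq hq3
  have h1 : (q : Eis) ∣ ((u : Eis) - v) * (((u : Eis) - w * v) * ((u : Eis) - w ^ 2 * v)) := by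
    have e : ((u : Eis) - v) * (((u : Eis) - w * v) * ((u : Eis) - w ^ 2 * v)) =
        ((u ^ 3 - v ^ 3 : ℤ) : Eis) := by
      push_cast
      have h1 := w_rel
      have h2 := w_cube
      linear_combination ((u : Eis) - v) * u * v * (-1) * h1 + ((u : Eis) - v) * v ^ 2 * h2
    rw [e]; exact cast_dvd_cast.mpr h
  rcases hP.dvd_or_dvd h1 with h2 | h2
  · have : (q : Eis) ∣ ((u - v : ℤ) : Eis) := by push_cast; exact h2
    exact cast_dvd_cast.mp this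
  · rcases hP.dvd_or_dvd h2 with h3 | h3
    · rw [natCast_dvd_iff] at h3
      obtain ⟨h4, h5⟩ := h3
      simp at h4 h5
      exact dvd_sub h4 h5
    · rw [natCast_dvd_iff, w_sq] at h3
      obtain ⟨h4, h5⟩ := h3
      simp at h4 h5
      have h6 : (q : ℤ) ∣ u := by
        have := dvd_sub h4 h5
        have e : u - -v - v = u := by ring
        first
        | rwa [e] at this
        | (have h7 := (dvd_add_left h5).mp h4; exact h7)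
      exact dvd_sub h6 h5

theorem cast_eq {m n : ℤ} (h : m = n) : (m : Eis) = n := by rw [h]

/-- the contribution of one prime in case II -/
theorem caseII_one {q : ℕ} (hq : q.Prime) (hq3 : q % 3 = 2)
    {a0 a1 a2 a0' a1' a2' x0 x1 x2 y0 y1 y2 rd rn : ℤ}
    (hx : a0 * x0 ^ 3 + a1 * x1 ^ 3 + a2 * x2 ^ 3 = 0)
    (cx01 : IsCoprime (a0 * x0) (a1 * x1))
    (cx12 : IsCoprime (a1 * x1) (a2 * x2))
    (hy : a0' * y0 ^ 3 + a1' * y1 ^ 3 + a2' * y2 ^ 3 = 0)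
    (cy01 : IsCoprime (a0' * y0) (a1' * y1)) (cy02 : IsCoprime (a0' * y0) (a2' * y2))
    (h1 : a0 * a1' * rd ^ 3 = a0' * a1 * rn ^ 3) {f : ZMod 3}
    (hf : (q : ℤ) ∣ a2 ∧ (q : ℤ) ∣ a2' ∧ ¬ (q : ℤ) ∣ rd ∧ f = 2 ∨
      (q : ℤ) ∣ a0 ∧ (q : ℤ) ∣ a1' ∧ (q : ℤ) ∣ rn ∧ ¬ (q : ℤ) ∣ rd ∧ f = 1 ∨
      (q : ℤ) ∣ a1 ∧ (q : ℤ) ∣ a0' ∧ (q : ℤ) ∣ rd ∧ ¬ (q : ℤ) ∣ rn ∧ f = 0) :
    ¬ (q : Eis) ∣ w * rd * x1 * y0 + (-(rn * x0 * y1) : ℤ) ∧
      sym (q : Eis) (w * rd * x1 * y0 + (-(rn * x0 * y1) : ℤ)) = f * sym (q : Eis) w := by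
  have hP := prime_inert hq hq3
  have hZ := Nat.prime_iff_prime_int.mp hq
  have h3 := n3 hq hq3
  have hw := not_dvd_w hP
  have hl := not_dvd_lam h3
  have key : ∀ (Y : ℤ) (u : Eis), ¬ (q : ℤ) ∣ Y → ¬ (q : Eis) ∣ u →
      (q : Eis) ∣ (w * rd * x1 * y0 + (-(rn * x0 * y1) : ℤ)) - Y * u →
      ¬ (q : Eis) ∣ w * rd * x1 * y0 + (-(rn * x0 * y1) : ℤ) ∧
      sym (q : Eis) (w * rd * x1 * y0 + (-(rn * x0 * y1) : ℤ)) = sym (q : Eis) u := by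
    intro Y u hY hu h
    have hY' : ¬ (q : Eis) ∣ (Y : Eis) := fun h' => hY (cast_dvd_cast.mp h')
    constructor
    · intro h'
      have h4 := dvd_sub h' h
      rw [sub_sub_cancel] at h4
      exact (hP.dvd_or_dvd h4).elim hY' hu
    · rw [sym_congr h, sym_mul hP h3 hY' hu, sym_int hq hq3 hY, zero_add]
  have nd : ∀ {s t u v : ℤ}, IsCoprime (s * t) (u * v) → (q : ℤ) ∣ s → ¬ (q : ℤ) ∣ v :=
    fun h hs hv => not_dvd_of_coprime hq h (Dvd.dvd.mul_right hs _) (Dvd.dvd.mul_left hv _)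
  have nd2 : ∀ {s t u v : ℤ}, IsCoprime (s * t) (u * v) → (q : ℤ) ∣ s → ¬ (q : ℤ) ∣ u :=
    fun h hs hv => not_dvd_of_coprime hq h (Dvd.dvd.mul_right hs _) (Dvd.dvd.mul_right hv _)
  rcases hf with ⟨g1, g2, g3, rfl⟩ | ⟨g1, g2, g3, g4, rfl⟩ | ⟨g1, g2, g3, g4, rfl⟩
  · -- position 2
    have n0 : ¬ (q : ℤ) ∣ y0 := nd cy02.symm g2
    have n1 : ¬ (q : ℤ) ∣ x1 := nd cx12.symm g1
    have m0 : ¬ (q : ℤ) ∣ a0' := nd2 cy02.symm g2
    have m1 : ¬ (q : ℤ) ∣ a1 := nd2 cx12.symm g1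
    have e1 : (q : ℤ) ∣ a0' * a1 * ((rn * x0 * y1) ^ 3 - (rd * x1 * y0) ^ 3) := by
      have e : a0' * a1 * ((rn * x0 * y1) ^ 3 - (rd * x1 * y0) ^ 3) =
        a2 * (-(rd ^ 3 * a1' * x2 ^ 3 * y1 ^ 3)) + a2' * (rd ^ 3 * a1 * x1 ^ 3 * y2 ^ 3) := by
        linear_combination (-(x0 * y1) ^ 3) * h1 + rd ^ 3 * a1' * y1 ^ 3 * hx -
          rd ^ 3 * a1 * x1 ^ 3 * hy
      rw [e]
      exact dvd_add (Dvd.dvd.mul_right g1 _) (Dvd.dvd.mul_right g2 _)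
    have e2 : (q : ℤ) ∣ rn * x0 * y1 - rd * x1 * y0 := by
      apply cube_inj hq hq3
      rcases hZ.dvd_or_dvd e1 with h | h
      · exact absurd h (fun h => (hZ.dvd_or_dvd h).elim m0 m1)
      · exact h
    have hu : ¬ (q : Eis) ∣ -lam := by rwa [dvd_neg]
    have hY : ¬ (q : ℤ) ∣ rd * x1 * y0 := fun h =>
      (hZ.dvd_or_dvd h).elim (fun h => (hZ.dvd_or_dvd h).elim g3 n1) n0
    obtain ⟨k1, k2⟩ := key (rd * x1 * y0) (-lam) hY hu (by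
      have e : (w * rd * x1 * y0 + (-(rn * x0 * y1) : ℤ)) - ((rd * x1 * y0 : ℤ) : Eis) * (-lam) =
        ((-(rn * x0 * y1 - rd * x1 * y0) : ℤ) : Eis) := by
        rw [lam_eq]; push_cast; ring
      rw [e]
      exact cast_dvd_cast.mpr ((dvd_neg).mpr e2))
    refine ⟨k1, ?_⟩
    rw [k2, sym_neg hP h3 hl, sym_inert_lam hq hq3]
    linear_combination -(sym (q : Eis) w) * three_zmod
  · have n0 : ¬ (q : ℤ) ∣ y0 := nd cy01.symm g2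
    have n1 : ¬ (q : ℤ) ∣ x1 := nd cx01 g1
    have hY : ¬ (q : ℤ) ∣ rd * x1 * y0 := fun h =>
      (hZ.dvd_or_dvd h).elim (fun h => (hZ.dvd_or_dvd h).elim g4 n1) n0
    obtain ⟨k1, k2⟩ := key (rd * x1 * y0) w hY hw (by
      have e : (w * rd * x1 * y0 + (-(rn * x0 * y1) : ℤ)) - ((rd * x1 * y0 : ℤ) : Eis) * w =
        ((rn * (-(x0 * y1)) : ℤ) : Eis) := by
        push_cast; ring
      rw [e]
      exact cast_dvd_cast.mpr (Dvd.dvd.mul_right g3 _))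
    refine ⟨k1, ?_⟩
    rw [k2]; ring
  · have n0 : ¬ (q : ℤ) ∣ y1 := nd cy01 g2
    have n1 : ¬ (q : ℤ) ∣ x0 := nd cx01.symm g1
    have hY : ¬ (q : ℤ) ∣ -(rn * x0 * y1) := by
      rw [dvd_neg]
      exact fun h => (hZ.dvd_or_dvd h).elim (fun h => (hZ.dvd_or_dvd h).elim g4 n1) n0
    have hu : ¬ (q : Eis) ∣ 1 := not_dvd_of_isUnit hP isUnit_one
    obtain ⟨k1, k2⟩ := key (-(rn * x0 * y1)) 1 hY hu (by
      rw [mul_one, add_sub_cancel_right]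
      have : (q : Eis) ∣ (rd : Eis) := cast_dvd_cast.mpr g3
      exact Dvd.dvd.mul_right (Dvd.dvd.mul_right (Dvd.dvd.mul_left this _) _) _)
    refine ⟨k1, ?_⟩
    rw [k2, sym_one hP h3]; ring

/-- **Case II** -/
theorem caseII {q r a b : ℕ} (hq : q.Prime) (hq3 : q % 3 = 2) (hr : r.Prime) (hr3 : r % 3 = 2)
    (hab : (a : ZMod 3) * sym (q : Eis) w + (b : ZMod 3) * sym (r : Eis) w = 0)
    {a0 a1 a2 a0' a1' a2' x0 x1 x2 y0 y1 y2 rd rn B k m : ℤ}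
    (hB : B = (q : ℤ) ^ a * (r : ℤ) ^ b)
    (hx : a0 * x0 ^ 3 + a1 * x1 ^ 3 + a2 * x2 ^ 3 = 0)
    (cx01 : IsCoprime (a0 * x0) (a1 * x1))
    (cx12 : IsCoprime (a1 * x1) (a2 * x2))
    (hy : a0' * y0 ^ 3 + a1' * y1 ^ 3 + a2' * y2 ^ 3 = 0)
    (cy01 : IsCoprime (a0' * y0) (a1' * y1)) (cy02 : IsCoprime (a0' * y0) (a2' * y2))
    (cy12 : IsCoprime (a1' * y1) (a2' * y2))
    (h1 : a0 * a1' * rd ^ 3 = a0' * a1 * rn ^ 3)
    (h2 : a0 * a2' * k ^ 3 = a0' * a2 * B) (h3 : a1 * a2' * m ^ 3 = a1' * a2 * B)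
    (hunit : ∀ l : Eis, Prime l → ¬ l ∣ 3 → ¬ l ∣ (q : Eis) → ¬ l ∣ (r : Eis) →
      ¬ ((a : ZMod 3) * sym l (q : Eis) + (b : ZMod 3) * sym l (r : Eis) = 0) →
      ¬ l ∣ ((a0' * a1' * a1 * a2 * rd * rn * k * m : ℤ) : Eis))
    {f g : ZMod 3}
    (hf : (q : ℤ) ∣ a2 ∧ (q : ℤ) ∣ a2' ∧ ¬ (q : ℤ) ∣ rd ∧ f = 2 ∨
      (q : ℤ) ∣ a0 ∧ (q : ℤ) ∣ a1' ∧ (q : ℤ) ∣ rn ∧ ¬ (q : ℤ) ∣ rd ∧ f = 1 ∨
      (q : ℤ) ∣ a1 ∧ (q : ℤ) ∣ a0' ∧ (q : ℤ) ∣ rd ∧ ¬ (q : ℤ) ∣ rn ∧ f = 0)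
    (hg : (r : ℤ) ∣ a2 ∧ (r : ℤ) ∣ a2' ∧ ¬ (r : ℤ) ∣ rd ∧ g = 2 ∨
      (r : ℤ) ∣ a0 ∧ (r : ℤ) ∣ a1' ∧ (r : ℤ) ∣ rn ∧ ¬ (r : ℤ) ∣ rd ∧ g = 1 ∨
      (r : ℤ) ∣ a1 ∧ (r : ℤ) ∣ a0' ∧ (r : ℤ) ∣ rd ∧ ¬ (r : ℤ) ∣ rn ∧ g = 0)
    (hne : x0 ≠ 0 ∧ y2 ≠ 0) :
    (a : ZMod 3) * (f * sym (q : Eis) w) + (b : ZMod 3) * (g * sym (r : Eis) w) = 0 := by
  have hQ := prime_inert hq hq3
  have hR := prime_inert hr hr3
  obtain ⟨tq, sq⟩ := caseII_one hq hq3 hx cx01 cx12 hy cy01 cy02 h1 hf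
  obtain ⟨tr, sr⟩ := caseII_one hr hr3 hx cx01 cx12 hy cy01 cy02 h1 hg
  have ht0 : w * rd * x1 * y0 + (-(rn * x0 * y1) : ℤ) ≠ 0 := by
    intro h; rw [h] at tq; exact tq (dvd_zero _)
  rw [← sq, ← sr]
  refine lemmaB hq hq3 hr hr3 _ _ hab _ _ rfl ht0 tq tr ?_
  intro l hl hl3 hlt
  by_cases hgood : (a : ZMod 3) * sym l (q : Eis) + (b : ZMod 3) * sym l (r : Eis) = 0
  · exact Or.inl hgood
  right
  have hlq : ¬ l ∣ (q : Eis) := fun h => tq ((hl.associated_of_dvd hQ h).symm.dvd.trans hlt)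
  have hlr : ¬ l ∣ (r : Eis) := fun h => tr ((hl.associated_of_dvd hR h).symm.dvd.trans hlt)
  have hbad := bad_B hl hl3 hlq hlr hgood
  have hBc : (B : Eis) = (q : Eis) ^ a * (r : Eis) ^ b := by rw [hB]; push_cast; rfl
  rw [← hBc] at hbad
  have hun := hunit l hl hl3 hlq hlr hgood
  push_cast at hun
  have u0' : ¬ l ∣ (a0' : Eis) := fun h => hun
    (by repeat' first | exact h | apply Dvd.dvd.mul_right)
  have u1' : ¬ l ∣ (a1' : Eis) := fun h => hun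
    (by
      iterate 6 apply Dvd.dvd.mul_right
      exact Dvd.dvd.mul_left h _)
  have u1 : ¬ l ∣ (a1 : Eis) := fun h => hun
    (by
      iterate 5 apply Dvd.dvd.mul_right
      exact Dvd.dvd.mul_left h _)
  have u2 : ¬ l ∣ (a2 : Eis) := fun h => hun
    (by
      iterate 4 apply Dvd.dvd.mul_right
      exact Dvd.dvd.mul_left h _)
  have urd : ¬ l ∣ (rd : Eis) := fun h => hun
    (by
      iterate 3 apply Dvd.dvd.mul_right
      exact Dvd.dvd.mul_left h _)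
  have urn : ¬ l ∣ (rn : Eis) := fun h => hun
    (by
      iterate 2 apply Dvd.dvd.mul_right
      exact Dvd.dvd.mul_left h _)
  have uk : ¬ l ∣ (k : Eis) := fun h => hun
    (by
      iterate 1 apply Dvd.dvd.mul_right
      exact Dvd.dvd.mul_left h _)
  have um : ¬ l ∣ (m : Eis) := fun h => hun (Dvd.dvd.mul_left h _)
  -- casts
  have hxE := cast_eq hx
  have hyE := cast_eq hy
  have h1E := cast_eq h1
  have h2E := cast_eq h2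
  have h3E := cast_eq h3
  push_cast at hxE hyE h1E h2E h3E
  have ha0E : (a0' : Eis) ≠ 0 := by rintro h; rw [h] at u0'; exact u0' (dvd_zero _)
  have hcast0 : ∀ {n : ℤ}, n ≠ 0 → (n : Eis) ≠ 0 := by
    intro n hn h
    have := congrArg Eis.re h
    simp at this
    exact hn this
  have hkne : (k : Eis) ≠ 0 := by rintro h; rw [h] at uk; exact uk (dvd_zero _)
  -- the main identity
  have hmain : (a1 : Eis) * k ^ 3 * ((w * rd * x1 * y0) ^ 3 + ((-(rn * x0 * y1) : ℤ) : Eis) ^ 3) =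
      rd ^ 3 * a2 * ((-(k * x2 * y0)) ^ 3 + B * (x0 * y2) ^ 3) := by
    apply mul_left_cancel₀ ha0E
    push_cast
    have hw3 := w_cube
    linear_combination (a0' : Eis) * a1 * k ^ 3 * (rd * x1 * y0) ^ 3 * hw3 +
      (k : Eis) ^ 3 * (x0 * y1) ^ 3 * h1E + (rd : Eis) ^ 3 * (x0 * y2) ^ 3 * h2E +
      (k : Eis) ^ 3 * rd ^ 3 * a0' * y0 ^ 3 * hxE - (k : Eis) ^ 3 * rd ^ 3 * a0 * x0 ^ 3 * hyE
  obtain ⟨n0, n1⟩ := three_dvd_V hl hbad _ (-(k * x2 * y0)) (x0 * y2) rfl (fun h =>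
    (mul_ne_zero (hcast0 hne.1) (hcast0 hne.2)) h.2)
  have hc1 : ¬ l ∣ (a1 : Eis) * k ^ 3 := fun h =>
    (hl.dvd_or_dvd h).elim u1 (fun h => uk (hl.dvd_of_dvd_pow h))
  have hc2 : ¬ l ∣ (rd : Eis) ^ 3 * a2 := fun h =>
    (hl.dvd_or_dvd h).elim (fun h => urd (hl.dvd_of_dvd_pow h)) u2
  have hDne : (w * rd * x1 * y0) ^ 3 + ((-(rn * x0 * y1) : ℤ) : Eis) ^ 3 ≠ 0 := by
    intro h
    rw [h, mul_zero] at hmain
    refine mul_ne_zero ?_ n0 hmain.symm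
    rintro h; rw [h] at hc2; exact hc2 (dvd_zero _)
  refine three_dvd_V_add hl hl3 ?_ hDne ?_
  · rintro ⟨g1, g2⟩
    have g1' : l ∣ (x1 : Eis) ∨ l ∣ (y0 : Eis) := by
      rcases hl.dvd_or_dvd g1 with h | h
      · rcases hl.dvd_or_dvd h with h | h
        · exact absurd h (fun h => (hl.dvd_or_dvd h).elim (not_dvd_w hl) urd)
        · exact Or.inl h
      · exact Or.inr h
    have g2' : l ∣ (x0 : Eis) ∨ l ∣ (y1 : Eis) := by
      push_cast at g2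
      rw [dvd_neg] at g2
      rcases hl.dvd_or_dvd g2 with h | h
      · rcases hl.dvd_or_dvd h with h | h
        · exact absurd h urn
        · exact Or.inl h
      · exact Or.inr h
    have ndc : ∀ {s t u v : ℤ}, IsCoprime (s * t) (u * v) → l ∣ (t : Eis) → ¬ l ∣ (v : Eis) := by
      intro s t u v h ht hv
      refine not_dvd_of_coprime' hl h ?_ ?_
      · push_cast; exact Dvd.dvd.mul_left ht _
      · push_cast; exact Dvd.dvd.mul_left hv _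
    rcases g1' with g1 | g1 <;> rcases g2' with g2 | g2
    · exact ndc cx01 g2 g1
    · -- x1, y1
      have e1 : l ∣ (a0' : Eis) * a2 * ((-(k * x2 * y0)) ^ 3 + B * (x0 * y2) ^ 3) := by
        have e : (a0' : Eis) * a2 * ((-(k * x2 * y0)) ^ 3 + B * (x0 * y2) ^ 3) =
          x1 * (a0' * a1 * k ^ 3 * x1 ^ 2 * y0 ^ 3) +
          y1 * (-(a0 * a1' * k ^ 3 * x0 ^ 3 * y1 ^ 2)) := by
          linear_combination (-((x0 * y2 : Eis)) ^ 3) * h2E - (k : Eis) ^ 3 * a0' * y0 ^ 3 * hxE +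
            (k : Eis) ^ 3 * a0 * x0 ^ 3 * hyE
        rw [e]
        exact dvd_add (Dvd.dvd.mul_right g1 _) (Dvd.dvd.mul_right g2 _)
      have e2 := (hl.dvd_or_dvd e1).resolve_left (fun h => (hl.dvd_or_dvd h).elim u0' u2)
      rcases hl.dvd_or_dvd (hbad _ _ e2).2 with h | h
      · exact ndc cx01 h g1
      · exact ndc cy12 g2 h
    · -- y0, x0
      have e1 : l ∣ (a1' : Eis) * a2 * ((-(m * x2 * y1)) ^ 3 + B * (x1 * y2) ^ 3) := by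
        have e : (a1' : Eis) * a2 * ((-(m * x2 * y1)) ^ 3 + B * (x1 * y2) ^ 3) =
          x0 * (a1' * a0 * m ^ 3 * x0 ^ 2 * y1 ^ 3) +
          y0 * (-(a1 * a0' * m ^ 3 * x1 ^ 3 * y0 ^ 2)) := by
          linear_combination (-((x1 * y2 : Eis)) ^ 3) * h3E - (m : Eis) ^ 3 * a1' * y1 ^ 3 * hxE +
            (m : Eis) ^ 3 * a1 * x1 ^ 3 * hyE
        rw [e]
        exact dvd_add (Dvd.dvd.mul_right g2 _) (Dvd.dvd.mul_right g1 _)
      have e2 := (hl.dvd_or_dvd e1).resolve_left (fun h => (hl.dvd_or_dvd h).elim u1' u2)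
      rcases hl.dvd_or_dvd (hbad _ _ e2).2 with h | h
      · exact ndc cx01 g2 h
      · exact ndc cy02 g1 h
    · exact ndc cy01 g1 g2
  · have hV := congrArg (V l) hmain
    rw [V_mul_not_dvd hl hc1 hDne, V_mul_not_dvd hl hc2 n0] at hV
    rw [hV]; exact n1

end Pool.Agent.Lib_helper84.Cub
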