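import Pool.Agent.Lib_helper84.Cub.GlueB
import Pool.Agent.Lib_helper18.CubStep0

/-!
# Orderings of the cells
-/

namespace Pool.Agent.Lib_helper84.Cub

open Pool.Agent.Lib_helper18 Pool.Agent.Lib_helper18.Eis

variable {m : ℕ} {p e e' : Fin m → ℕ} {pos pos' : Fin m → Fin 3} {x y : Fin 3 → ℤ}

/-- the six permutations -/
def pf : Fin 6 → Fin 3 → Fin 3 :=
  ![![0, 1, 2], ![0, 2, 1], ![1, 0, 2], ![1, 2, 0], ![2, 0, 1], ![2, 1, 0]]

theorem pf_bij : ∀ k, Function.Bijective (pf k) := by decide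

noncomputable def pe (k : Fin 6) : Equiv.Perm (Fin 3) := Equiv.ofBijective (pf k) (pf_bij k)

theorem pe_apply (k : Fin 6) (a : Fin 3) : pe k a = pf k a := rfl

theorem glueA {i0 i1 : Fin m} (b : Base p e e' i0 i1) (hP : IsPt p e pos x)
    (hP' : IsPt p e' pos' y) (hne : pos i0 ≠ pos i1) {k k' : Fin 6}
    (h : ∀ j, pf k' (pos' j) = if Sp i0 i1 j then tau (pf k (pos j)) else pf k (pos j)) :
    False := by
  refine caseII_gen b (hP.perm (pe k)) (hP'.perm (pe k')) ?_ h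
  intro h'
  exact hne ((pe k).injective h')

theorem IsPt.std {i0 i1 : Fin m} (hP : IsPt p e pos x) {k : Fin 6}
    (h : ∀ j, pf k (pos j) = stdp i0 i1 j) : ∃ z, IsPt p e (stdp i0 i1) z := by
  have h1 := hP.perm (pe k)
  have h2 : (pe k) ∘ pos = stdp i0 i1 := funext h
  rw [h2] at h1
  exact ⟨_, h1⟩

/-- everything together: the cells of each point are either standard or separate `i0`, `i1` -/
theorem glue {i0 i1 i2 : Fin m} (b : Base p e e' i0 i1) (hi2 : ¬ Sp i0 i1 i2)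
    (hP : IsPt p e pos x) (hP' : IsPt p e' pos' y)
    (h1 : pos i0 = pos i1 → ∃ k, ∀ j, pf k (pos j) = stdp i0 i1 j)
    (h2 : pos' i0 = pos' i1 → ∃ k, ∀ j, pf k (pos' j) = stdp i0 i1 j)
    (h3 : pos i0 ≠ pos i1 → pos' i0 ≠ pos' i1 → ∃ k k', ∀ j, pf k' (pos' j) =
      if Sp i0 i1 j then tau (pf k (pos j)) else pf k (pos j)) : False := by
  by_cases g1 : pos i0 = pos i1
  · obtain ⟨k, hk⟩ := h1 g1
    obtain ⟨z, hz⟩ := hP.std hk
    by_cases g2 : pos' i0 = pos' i1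
    · obtain ⟨k', hk'⟩ := h2 g2
      obtain ⟨z', hz'⟩ := hP'.std hk'
      exact caseIII_gen b hi2 hz hz'
    · exact caseI_gen b.symm hP' g2 hz
  · by_cases g2 : pos' i0 = pos' i1
    · obtain ⟨k', hk'⟩ := h2 g2
      obtain ⟨z', hz'⟩ := hP'.std hk'
      exact caseI_gen b hP g1 hz'
    · obtain ⟨k, k', h⟩ := h3 g1 g2
      exact glueA b hP hP' g1 h

theorem comb3 : ∀ a b c a' b' c' : Fin 3, a ≠ b → a' ≠ b' → ∃ k k' : Fin 6,
    pf k' a' = tau (pf k a) ∧ pf k' b' = tau (pf k b) ∧ pf k' c' = pf k c := by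
  decide

theorem std3 : ∀ a c : Fin 3, a ≠ c → ∃ k, pf k a = 2 ∧ pf k c = 1 := by decide

/-- equal weights of the cells -/
def cw (s0 s1 s2 s3 : ZMod 3) (a b c d k : Fin 3) : ZMod 3 :=
  (if a = k then s0 else 0) + (if b = k then s1 else 0) + (if c = k then s2 else 0) +
    (if d = k then s3 else 0)

def cwEq (s0 s1 s2 s3 : ZMod 3) (a b c d : Fin 3) : Prop :=
  cw s0 s1 s2 s3 a b c d 0 = cw s0 s1 s2 s3 a b c d 1 ∧
    cw s0 s1 s2 s3 a b c d 0 = cw s0 s1 s2 s3 a b c d 2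

instance (s0 s1 s2 s3 : ZMod 3) (a b c d : Fin 3) : Decidable (cwEq s0 s1 s2 s3 a b c d) := by
  unfold cwEq; infer_instance

set_option maxRecDepth 100000 in
theorem comb4same : ∀ s u : ZMod 3, s ≠ 0 → u ≠ 0 → ∀ a c d : Fin 3,
    ¬ (c = a ∧ d = a) → cwEq s (-s) u (-u) a a c d → c = d ∧ a ≠ c := by
  decide

def ExK (a b c d a' b' c' d' : Fin 3) : Prop := ∃ k k' : Fin 6,
    pf k' a' = tau (pf k a) ∧ pf k' b' = tau (pf k b) ∧ pf k' c' = pf k c ∧
      pf k' d' = pf k d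

instance (a b c d a' b' c' d' : Fin 3) : Decidable (ExK a b c d a' b' c' d') := by
  unfold ExK; infer_instance

def Imp4 (s u : ZMod 3) (a b c d : Fin 3) : Prop := ∀ a' b' c' d' : Fin 3, a' ≠ b' →
    cwEq (-s) s u (-u) a' b' c' d' → ExK a b c d a' b' c' d'

instance (s u : ZMod 3) (a b c d : Fin 3) : Decidable (Imp4 s u a b c d) := by
  unfold Imp4; infer_instance

set_option maxRecDepth 100000 in
theorem comb4diff : ∀ s u : ZMod 3, s ≠ 0 → u ≠ 0 → ∀ a b c d : Fin 3, a ≠ b →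
    cwEq s (-s) u (-u) a b c d → Imp4 s u a b c d := by
  decide

end Pool.Agent.Lib_helper84.Cub
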