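import Pool.Agent.Lib_helper84.Cub.PairsFour

/-!
# Counting
-/

namespace Pool.Agent.Lib_helper84.Cub

open Pool.Agent.Lib_helper18 Pool.Agent.Lib_helper18.Eis

variable {m : ℕ}

/-- the number with exponents `e i + 1` -/
def num (q : Fin m → ℕ) (e : Fin m → Fin 2) : ℕ := ∏ i, q i ^ ((e i : ℕ) + 1)

theorem num_inj {q : Fin m → ℕ} (hq : ∀ i, (q i).Prime) (hinj : Function.Injective q) :
    Function.Injective (num q) := by
  intro e e' h
  have key : ∀ (e : Fin m → Fin 2) (i : Fin m), (num q e).factorization (q i) = (e i : ℕ) + 1 := by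
    intro e i
    rw [num, Nat.factorization_prod (fun j _ => pow_ne_zero _ (hq j).ne_zero),
      Finsupp.finsetSum_apply, Finset.sum_eq_single i]
    · rw [(hq i).factorization_pow, Finsupp.single_eq_same]
    · intro j _ hj
      rw [(hq j).factorization_pow, Finsupp.single_eq_of_ne]
      intro h'
      exact hj (hinj h').symm
    · intro h'; exact absurd (Finset.mem_univ _) h'
  funext i
  have h1 := key e i
  have h2 := key e' i
  rw [h, h2] at h1
  exact Fin.ext (by omega)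

theorem num_cast_int (q : Fin m → ℕ) (e : Fin m → Fin 2) :
    ((num q e : ℕ) : ℤ) = ∏ i, (q i : ℤ) ^ ((e i : ℕ) + 1) := by
  rw [num]; push_cast; rfl

theorem num_cast_rat (q : Fin m → ℕ) (e : Fin m → Fin 2) :
    ((num q e : ℕ) : ℚ) = ∏ i, (q i : ℚ) ^ ((e i : ℕ) + 1) := by
  rw [num]; push_cast; rfl

theorem num_not_three {q : Fin m → ℕ} (h9 : ∀ i, q i % 9 = 2 ∨ q i % 9 = 5) (e : Fin m → Fin 2) :
    ¬ (3 : ℤ) ∣ (num q e : ℤ) := by
  rw [num_cast_int]
  intro h
  rw [Prime.dvd_finsetProd_iff Int.prime_three] at h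
  obtain ⟨j, -, hj⟩ := h
  exact not_three_dvd (h9 j) (Int.prime_three.dvd_of_dvd_pow hj)

theorem num_wq {q : Fin m → ℕ} (h9 : ∀ i, q i % 9 = 2 ∨ q i % 9 = 5) (e : Fin m → Fin 2) :
    wq (num q e : ℤ) = ∑ i, (((e i : ℕ) : ZMod 3) + 1) * wq (q i : ℤ) := by
  rw [num_cast_int, wq_all h9]
  push_cast
  rfl

theorem num_mod {q : Fin m → ℕ} (h9 : ∀ i, q i % 9 = 2 ∨ q i % 9 = 5) (e : Fin m → Fin 2) :
    (num q e % 9 = 1 ∨ num q e % 9 = 8) ↔
      ∑ i, (((e i : ℕ) : ZMod 3) + 1) * wq (q i : ℤ) = 0 := by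
  rw [← num_wq h9, wq_zero_iff (num_not_three h9 e)]
  omega

theorem exp_cases (e : Fin m → Fin 2) (i : Fin m) :
    (fun i => (e i : ℕ) + 1) i = 1 ∨ (fun i => (e i : ℕ) + 1) i = 2 := by
  have := (e i).isLt
  simp only
  omega

def W3 (v0 v1 v2 : ZMod 3) (e : Fin 3 → Fin 2) : ZMod 3 :=
  (((e 0 : ℕ) : ZMod 3) + 1) * v0 + (((e 1 : ℕ) : ZMod 3) + 1) * v1 +
    (((e 2 : ℕ) : ZMod 3) + 1) * v2

def W4 (v0 v1 v2 v3 : ZMod 3) (e : Fin 4 → Fin 2) : ZMod 3 :=
  (((e 0 : ℕ) : ZMod 3) + 1) * v0 + (((e 1 : ℕ) : ZMod 3) + 1) * v1 +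
    (((e 2 : ℕ) : ZMod 3) + 1) * v2 + (((e 3 : ℕ) : ZMod 3) + 1) * v3

set_option maxRecDepth 100000 in
theorem card3 : ∀ v0 v1 v2 : ZMod 3, v0 ≠ 0 → v1 ≠ 0 → v2 ≠ 0 →
    (Finset.univ.filter (fun e : Fin 3 → Fin 2 => W3 v0 v1 v2 e ≠ 0)).card = 6 := by
  decide

set_option maxRecDepth 100000 in
theorem card4 : ∀ v0 v1 v2 v3 : ZMod 3, v0 ≠ 0 → v1 ≠ 0 → v2 ≠ 0 → v3 ≠ 0 →
    (Finset.univ.filter (fun e : Fin 4 → Fin 2 => W4 v0 v1 v2 v3 e = 0)).card = 6 := by
  decide

open Classical in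
/-- three primes: at least four of six -/
theorem count_three {q : Fin 3 → ℕ} (hq : ∀ i, (q i).Prime)
    (h9 : ∀ i, q i % 9 = 2 ∨ q i % 9 = 5) (hinj : Function.Injective q) :
    ∃ T : Finset ℕ, T.card = 6 ∧
      (∀ A, A ∈ T ↔ (∃ e : Fin 3 → Fin 2, A = num q e) ∧ A % 9 ≠ 1 ∧ A % 9 ≠ 8) ∧
      4 ≤ (T.filter (fun A : ℕ => ¬ IsSum (A : ℚ))).card := by
  set F := Finset.univ.filter (fun e : Fin 3 → Fin 2 =>
    W3 (wq (q 0 : ℤ)) (wq (q 1 : ℤ)) (wq (q 2 : ℤ)) e ≠ 0) with hF
  have hcard : F.card = 6 := card3 _ _ _ (wq_ne (h9 0)) (wq_ne (h9 1)) (wq_ne (h9 2))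
  have hW : ∀ e, wq (num q e : ℤ) = W3 (wq (q 0 : ℤ)) (wq (q 1 : ℤ)) (wq (q 2 : ℤ)) e := by
    intro e
    rw [num_wq h9, Fin.sum_univ_three, W3]
  have hmem : ∀ e, e ∈ F ↔ num q e % 9 ≠ 1 ∧ num q e % 9 ≠ 8 := by
    intro e
    have h1 := num_mod h9 e
    rw [← num_wq h9, hW] at h1
    rw [hF, Finset.mem_filter, Ne, ← h1]
    simp
  refine ⟨F.image (num q), ?_, ?_, ?_⟩
  · rw [Finset.card_image_of_injective _ (num_inj hq hinj), hcard]
  · intro A
    rw [Finset.mem_image]
    constructor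
    · rintro ⟨e, he, rfl⟩
      exact ⟨⟨e, rfl⟩, (hmem e).mp he⟩
    · rintro ⟨⟨e, rfl⟩, h⟩
      exact ⟨e, (hmem e).mpr h, rfl⟩
  · set G := F.filter (fun e => IsSum (num q e : ℚ)) with hG
    have hG2 : G.card ≤ 2 := by
      have hmaps : ∀ e ∈ G, wq (num q e : ℤ) ∈ ({1, 2} : Finset (ZMod 3)) := by
        intro e he
        have h1 := (Finset.mem_filter.mp he).1
        have h2 := (Finset.mem_filter.mp h1).2
        rw [← hW] at h2
        revert h2
        generalize wq (num q e : ℤ) = z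
        revert z; decide
      have hcard2 : ({1, 2} : Finset (ZMod 3)).card = 2 := by decide
      refine (Finset.card_le_card_of_injOn _ hmaps ?_).trans (le_of_eq hcard2)
      intro e he e' he' h
      by_contra hne
      have he := Finset.mem_coe.mp he
      have he' := Finset.mem_coe.mp he'
      have h1 := (Finset.mem_filter.mp he).1
      have h2 := (Finset.mem_filter.mp h1).2
      rw [← hW] at h2
      have hs := (Finset.mem_filter.mp he).2
      have hs' := (Finset.mem_filter.mp he').2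
      rw [num_cast_rat] at hs hs'
      simp only at h
      rw [num_cast_int] at h2 h
      rw [num_cast_int] at h
      refine three_pair (e := fun i => (e i : ℕ) + 1) (e' := fun i => (e' i : ℕ) + 1) hq h9 hinj
        (exp_cases e) (exp_cases e') ?_ h2 h ⟨hs, hs'⟩
      intro h5
      apply hne
      funext i
      have := congrFun h5 i
      exact Fin.ext (by omega)
    have hsub : (F \ G).image (num q) ⊆
        (F.image (num q)).filter (fun A : ℕ => ¬ IsSum (A : ℚ)) := by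
      intro A hA
      rw [Finset.mem_image] at hA
      obtain ⟨e, he, rfl⟩ := hA
      rw [Finset.mem_sdiff] at he
      rw [Finset.mem_filter, Finset.mem_image]
      refine ⟨⟨e, he.1, rfl⟩, fun h => he.2 ?_⟩
      rw [hG, Finset.mem_filter]
      exact ⟨he.1, h⟩
    have h1 := Finset.card_le_card hsub
    rw [Finset.card_image_of_injective _ (num_inj hq hinj)] at h1
    have h2 := Finset.le_card_sdiff G F
    omega

open Classical in
/-- four primes: at least four of six -/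
theorem count_four {q : Fin 4 → ℕ} (hq : ∀ i, (q i).Prime)
    (h9 : ∀ i, q i % 9 = 2 ∨ q i % 9 = 5) (hinj : Function.Injective q) :
    ∃ T : Finset ℕ, T.card = 6 ∧
      (∀ A, A ∈ T ↔ (∃ e : Fin 4 → Fin 2, A = num q e) ∧ (A % 9 = 1 ∨ A % 9 = 8)) ∧
      4 ≤ (T.filter (fun A : ℕ => ¬ IsSum (A : ℚ))).card := by
  set F := Finset.univ.filter (fun e : Fin 4 → Fin 2 =>
    W4 (wq (q 0 : ℤ)) (wq (q 1 : ℤ)) (wq (q 2 : ℤ)) (wq (q 3 : ℤ)) e = 0) with hF
  have hcard : F.card = 6 :=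
    card4 _ _ _ _ (wq_ne (h9 0)) (wq_ne (h9 1)) (wq_ne (h9 2)) (wq_ne (h9 3))
  have hW : ∀ e, wq (num q e : ℤ) =
      W4 (wq (q 0 : ℤ)) (wq (q 1 : ℤ)) (wq (q 2 : ℤ)) (wq (q 3 : ℤ)) e := by
    intro e
    rw [num_wq h9, Fin.sum_univ_four, W4]
  have hmem : ∀ e, e ∈ F ↔ (num q e % 9 = 1 ∨ num q e % 9 = 8) := by
    intro e
    rw [num_mod h9 e, ← num_wq h9, hW, hF, Finset.mem_filter]
    simp
  refine ⟨F.image (num q), ?_, ?_, ?_⟩
  · rw [Finset.card_image_of_injective _ (num_inj hq hinj), hcard]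
  · intro A
    rw [Finset.mem_image]
    constructor
    · rintro ⟨e, he, rfl⟩
      exact ⟨⟨e, rfl⟩, (hmem e).mp he⟩
    · rintro ⟨⟨e, rfl⟩, h⟩
      exact ⟨e, (hmem e).mpr h, rfl⟩
  · set G := F.filter (fun e => IsSum (num q e : ℚ)) with hG
    have hpair : ∀ e ∈ G, ∀ e' ∈ G, e ≠ e' → ∀ i, e i ≠ e' i := by
      intro e he e' he' hne i hi
      have h1 := (Finset.mem_filter.mp he).1
      have h2 := (Finset.mem_filter.mp h1).2
      have h1' := (Finset.mem_filter.mp he').1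
      have h2' := (Finset.mem_filter.mp h1').2
      rw [← hW] at h2 h2'
      have hs := (Finset.mem_filter.mp he).2
      have hs' := (Finset.mem_filter.mp he').2
      rw [num_cast_rat] at hs hs'
      rw [num_cast_int] at h2 h2'
      refine four_pair (e := fun i => (e i : ℕ) + 1) (e' := fun i => (e' i : ℕ) + 1) hq h9 hinj
        (exp_cases e) (exp_cases e') ?_ ⟨i, by simp only [hi]⟩ h2 h2' ⟨hs, hs'⟩
      intro h5
      apply hne
      funext i
      have := congrFun h5 i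
      exact Fin.ext (by omega)
    have hG2 : G.card ≤ 2 := by
      rcases G.eq_empty_or_nonempty with h | ⟨e0, he0⟩
      · rw [h]; simp
      · have hsub : G ⊆ {e0, fun i => 1 - e0 i} := by
          intro e he
          rw [Finset.mem_insert, Finset.mem_singleton]
          by_cases h : e = e0
          · exact Or.inl h
          · right
            funext i
            have := hpair e he e0 he0 h i
            revert this
            generalize e i = a
            generalize e0 i = b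
            revert a b; decide
        exact (Finset.card_le_card hsub).trans Finset.card_le_two
    have hsub : (F \ G).image (num q) ⊆
        (F.image (num q)).filter (fun A : ℕ => ¬ IsSum (A : ℚ)) := by
      intro A hA
      rw [Finset.mem_image] at hA
      obtain ⟨e, he, rfl⟩ := hA
      rw [Finset.mem_sdiff] at he
      rw [Finset.mem_filter, Finset.mem_image]
      refine ⟨⟨e, he.1, rfl⟩, fun h => he.2 ?_⟩
      rw [hG, Finset.mem_filter]
      exact ⟨he.1, h⟩
    have h1 := Finset.card_le_card hsub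
    rw [Finset.card_image_of_injective _ (num_inj hq hinj)] at h1
    have h2 := Finset.le_card_sdiff G F
    omega

end Pool.Agent.Lib_helper84.Cub
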