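import Pool.Agent.Lib_helper84.Cub.Count

/-!
# Counting in one residue class
-/

namespace Pool.Agent.Lib_helper84.Cub

open Pool.Agent.Lib_helper18 Pool.Agent.Lib_helper18.Eis

theorem wq_two_iff {n : ℤ} (h3 : ¬ (3 : ℤ) ∣ n) : wq n = 2 ↔ n % 9 = 2 ∨ n % 9 = 7 := by
  unfold wq
  have : n % 9 = 1 ∨ n % 9 = 2 ∨ n % 9 = 4 ∨ n % 9 = 5 ∨ n % 9 = 7 ∨ n % 9 = 8 := by omega
  rcases this with h | h | h | h | h | h <;> rw [h] <;> decide

theorem wq_one_iff {n : ℤ} (h3 : ¬ (3 : ℤ) ∣ n) : wq n = 1 ↔ n % 9 = 4 ∨ n % 9 = 5 := by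
  unfold wq
  have : n % 9 = 1 ∨ n % 9 = 2 ∨ n % 9 = 4 ∨ n % 9 = 5 ∨ n % 9 = 7 ∨ n % 9 = 8 := by omega
  rcases this with h | h | h | h | h | h <;> rw [h] <;> decide

set_option maxRecDepth 100000 in
theorem card3c : ∀ v0 v1 v2 c : ZMod 3, v0 ≠ 0 → v1 ≠ 0 → v2 ≠ 0 → c ≠ 0 →
    (Finset.univ.filter (fun e : Fin 3 → Fin 2 => W3 v0 v1 v2 e = c)).card = 3 := by
  decide

theorem sub_one_exp {m : ℕ} {q : Fin m → ℕ} {e : Fin m → ℕ} (he : ∀ i, e i = 1 ∨ e i = 2) :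
    ∃ f : Fin m → Fin 2, ∏ i, q i ^ e i = num q f := by
  refine ⟨fun i => ⟨e i - 1, by have := he i; omega⟩, ?_⟩
  rw [num]
  refine Finset.prod_congr rfl (fun i _ => ?_)
  have := he i
  congr 1
  show e i = e i - 1 + 1
  omega

theorem wq_num_W3 {q : Fin 3 → ℕ} (h9 : ∀ i, q i % 9 = 2 ∨ q i % 9 = 5) (e : Fin 3 → Fin 2) :
    wq (num q e : ℤ) = W3 (wq (q 0 : ℤ)) (wq (q 1 : ℤ)) (wq (q 2 : ℤ)) e := by
  rw [num_wq h9, Fin.sum_univ_three, W3]

/-- three primes: in each class at most one sum of two cubes -/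
theorem class_three {q : Fin 3 → ℕ} (hq : ∀ i, (q i).Prime)
    (h9 : ∀ i, q i % 9 = 2 ∨ q i % 9 = 5) (hinj : Function.Injective q) {c : ℕ}
    (hc : c = 2 ∨ c = 4) :
    ∃ T : Finset ℕ, T.card = 3 ∧
      (∀ A, A ∈ T ↔ (∃ e : Fin 3 → Fin 2, A = num q e) ∧ (A % 9 = c ∨ A % 9 = 9 - c)) ∧
      ∀ A ∈ T, ∀ A' ∈ T, IsSum (A : ℚ) → IsSum (A' : ℚ) → A = A' := by
  classical
  obtain ⟨c', hc'0, hc'⟩ : ∃ c' : ZMod 3, c' ≠ 0 ∧ ∀ e : Fin 3 → Fin 2,
      (wq (num q e : ℤ) = c' ↔ (num q e % 9 = c ∨ num q e % 9 = 9 - c)) := by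
    rcases hc with rfl | rfl
    · refine ⟨2, by decide, fun e => ?_⟩
      rw [wq_two_iff (num_not_three h9 e)]
      omega
    · refine ⟨1, by decide, fun e => ?_⟩
      rw [wq_one_iff (num_not_three h9 e)]
      omega
  set F := Finset.univ.filter (fun e : Fin 3 → Fin 2 =>
    W3 (wq (q 0 : ℤ)) (wq (q 1 : ℤ)) (wq (q 2 : ℤ)) e = c') with hF
  have hcard : F.card = 3 := card3c _ _ _ _ (wq_ne (h9 0)) (wq_ne (h9 1)) (wq_ne (h9 2)) hc'0
  have hmem : ∀ e, e ∈ F ↔ (num q e % 9 = c ∨ num q e % 9 = 9 - c) := by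
    intro e
    rw [← hc', hF, Finset.mem_filter, ← wq_num_W3 h9]
    simp
  refine ⟨F.image (num q), ?_, ?_, ?_⟩
  · rw [Finset.card_image_of_injective _ (num_inj hq hinj), hcard]
  · intro A
    rw [Finset.mem_image]
    constructor
    · rintro ⟨e, he, rfl⟩
      exact ⟨⟨e, rfl⟩, (hmem e).mp he⟩
    · rintro ⟨⟨e, rfl⟩, h⟩
      exact ⟨e, (hmem e).mpr h, rfl⟩
  · intro A hA A' hA' hs hs'
    rw [Finset.mem_image] at hA hA'
    obtain ⟨e, he, rfl⟩ := hA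
    obtain ⟨e', he', rfl⟩ := hA'
    by_contra hne
    have h1 := (hc' e).mpr ((hmem e).mp he)
    have h2 := (hc' e').mpr ((hmem e').mp he')
    rw [num_cast_rat] at hs hs'
    rw [num_cast_int] at h1 h2
    refine three_pair (e := fun i => (e i : ℕ) + 1) (e' := fun i => (e' i : ℕ) + 1) hq h9 hinj
      (exp_cases e) (exp_cases e') ?_ (by rw [h1]; exact hc'0) (by rw [h1, h2]) ⟨hs, hs'⟩
    intro h5
    apply hne
    congr 1
    funext i
    have := congrFun h5 i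
    exact Fin.ext (by omega)

/-- four primes: two sums of two cubes are complementary -/
theorem class_four {q : Fin 4 → ℕ} (hq : ∀ i, (q i).Prime)
    (h9 : ∀ i, q i % 9 = 2 ∨ q i % 9 = 5) (hinj : Function.Injective q) :
    ∃ T : Finset ℕ, T.card = 6 ∧
      (∀ A, A ∈ T ↔ (∃ e : Fin 4 → Fin 2, A = num q e) ∧ (A % 9 = 1 ∨ A % 9 = 8)) ∧
      ∀ A ∈ T, ∀ A' ∈ T, IsSum (A : ℚ) → IsSum (A' : ℚ) →
        A = A' ∨ A * A' = (q 0 * q 1 * q 2 * q 3) ^ 3 := by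
  obtain ⟨T, hT, hmem, -⟩ := count_four hq h9 hinj
  refine ⟨T, hT, hmem, ?_⟩
  intro A hA A' hA' hs hs'
  obtain ⟨⟨e, rfl⟩, h1⟩ := (hmem _).mp hA
  obtain ⟨⟨e', rfl⟩, h1'⟩ := (hmem _).mp hA'
  by_cases hee : e = e'
  · left; rw [hee]
  · right
    by_contra hne
    have hi : ∃ i, e i = e' i := by
      by_contra hno
      push Not at hno
      apply hne
      have hp : q 0 * q 1 * q 2 * q 3 = ∏ i, q i := by rw [Fin.prod_univ_four]
      rw [hp, num, num, ← Finset.prod_mul_distrib, ← Finset.prod_pow]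
      refine Finset.prod_congr rfl (fun i _ => ?_)
      rw [← pow_add]
      congr 1
      have h5 := hno i
      have h6 := (e i).isLt
      have h7 := (e' i).isLt
      have h8 : (e i : ℕ) ≠ e' i := fun h => h5 (Fin.ext h)
      omega
    have w1 : wq (num q e : ℤ) = 0 := by
      rw [wq_zero_iff (num_not_three h9 e)]; omega
    have w2 : wq (num q e' : ℤ) = 0 := by
      rw [wq_zero_iff (num_not_three h9 e')]; omega
    rw [num_cast_rat] at hs hs'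
    rw [num_cast_int] at w1 w2
    obtain ⟨i, hi⟩ := hi
    refine four_pair (e := fun i => (e i : ℕ) + 1) (e' := fun i => (e' i : ℕ) + 1) hq h9 hinj
      (exp_cases e) (exp_cases e') ?_ ⟨i, by simp only [hi]⟩ w1 w2 ⟨hs, hs'⟩
    intro h5
    apply hee
    funext i
    have := congrFun h5 i
    exact Fin.ext (by omega)

end Pool.Agent.Lib_helper84.Cub
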