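import Pool.Agent.Lib_helper84.Cub.Frob

/-!
# Cubic algebras and `p^{-e}`-linear maps

`R = A + A X + A Y` with `X Y = -ae`, `X² = -ac - bX + aY`, `Y² = -be - eX + cY`.
-/

set_option autoImplicit false

open Polynomial Module

namespace Pool.Agent.Cub

/-- dual representation of `q^{-1}`-linear maps into `A` -/
theorem FrobDual.exists_rep {A : Type*} [CommRing A] {q : ℕ} {Φ : A →+ A}
    (hΦ : FrobDual A q Φ) {R : Type*} [CommRing R] [Algebra A R] {ι : Type*} [Fintype ι]
    (B : Basis ι A R) (ψ : R →+ A) (hψ : ∀ (x : A) (z : R), ψ (x ^ q • z) = x * ψ z) :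
    ∃ G : R →ₗ[A] A, ∀ z, ψ z = Φ (G z) := by
  obtain ⟨n, e, e', h⟩ := hΦ.dual
  let g : ι → A := fun j => ∑ i, ψ (e i • B j) ^ q * e' i
  refine ⟨B.constr A g, fun z => ?_⟩
  have key : ∀ (x : A) (j : ι), ψ (x • B j) = Φ (x * g j) := by
    intro x j
    have h1 : x • B j = ∑ i, Φ (x * e' i) ^ q • (e i • B j) := by
      conv_lhs => rw [h x]
      rw [Finset.sum_smul]
      exact Finset.sum_congr rfl fun i _ => by rw [mul_smul]
    rw [h1, map_sum]
    simp only [hψ]
    have h2 : x * g j = ∑ i, ψ (e i • B j) ^ q * (x * e' i) := by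
      simp only [g, Finset.mul_sum]
      exact Finset.sum_congr rfl fun i _ => by ring
    rw [h2, map_sum]
    exact Finset.sum_congr rfl fun i _ => by rw [hΦ.lin, mul_comm]
  have h3 : B.constr A g z = ∑ j, B.repr z j * g j := by
    rw [Basis.constr_apply_fintype]
    rfl
  conv_lhs => rw [← B.sum_repr z]
  rw [map_sum, h3, map_sum]
  exact Finset.sum_congr rfl fun j _ => key _ _

/-- The Delone-Faddeev table. -/
structure Cubic {A R : Type*} [CommRing A] [CommRing R] [Algebra A R] (a b c e : A)
    (B : Basis (Fin 3) A R) : Prop where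
  one : B 0 = 1
  xy : B 1 * B 2 = algebraMap A R (-(a * e))
  xx : B 1 * B 1 = algebraMap A R (-(a * c)) - b • B 1 + a • B 2
  yy : B 2 * B 2 = algebraMap A R (-(b * e)) - e • B 1 + c • B 2

section

variable {A R : Type*} [CommRing A] [CommRing R] [Algebra A R] {a b c e : A}
  {B : Basis (Fin 3) A R}

lemma Cubic.expand (hB : Cubic a b c e B) (z : R) :
    z = algebraMap A R (B.repr z 0) + algebraMap A R (B.repr z 1) * B 1 +
      algebraMap A R (B.repr z 2) * B 2 := by
  conv_lhs => rw [← B.sum_repr z]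
  rw [Fin.sum_univ_three, hB.one, Algebra.smul_def, Algebra.smul_def, Algebra.smul_def, mul_one]

lemma Cubic.repr_eq (hB : Cubic a b c e B) (u v w : A) :
    B.repr (algebraMap A R u + algebraMap A R v * B 1 + algebraMap A R w * B 2) =
      Finsupp.equivFunOnFinite.symm ![u, v, w] := by
  have h1 : algebraMap A R u + algebraMap A R v * B 1 + algebraMap A R w * B 2 =
      u • B 0 + v • B 1 + w • B 2 := by
    rw [hB.one, Algebra.smul_def, Algebra.smul_def, Algebra.smul_def, mul_one]
  rw [h1, map_add, map_add, map_smul, map_smul, map_smul, B.repr_self, B.repr_self, B.repr_self]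
  ext i
  fin_cases i <;> simp

lemma Cubic.lam_eq (hB : Cubic a b c e B) (u v w : A) :
    B.repr (algebraMap A R u + algebraMap A R v * B 1 + algebraMap A R w * B 2) 2 = w := by
  rw [hB.repr_eq]; rfl

lemma Cubic.mu_eq (hB : Cubic a b c e B) (u v w : A) :
    B.repr (algebraMap A R u + algebraMap A R v * B 1 + algebraMap A R w * B 2) 1 = v := by
  rw [hB.repr_eq]; rfl

lemma Cubic.nu_eq (hB : Cubic a b c e B) (u v w : A) :
    B.repr (algebraMap A R u + algebraMap A R v * B 1 + algebraMap A R w * B 2) 0 = u := by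
  rw [hB.repr_eq]; rfl

/-- `λ(X z) = a μ(z)` -/
lemma Cubic.lam_X (hB : Cubic a b c e B) (z : R) : B.repr (B 1 * z) 2 = a * B.repr z 1 := by
  have h : B 1 * z = algebraMap A R (-(a * c) * B.repr z 1 - a * e * B.repr z 2) +
      algebraMap A R (B.repr z 0 - b * B.repr z 1) * B 1 +
      algebraMap A R (a * B.repr z 1) * B 2 := by
    have hxx := hB.xx
    have hxy := hB.xy
    rw [Algebra.smul_def, Algebra.smul_def] at hxx
    conv_lhs => rw [hB.expand z]
    simp only [map_sub, map_mul, map_neg] at hxx hxy ⊢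
    linear_combination (algebraMap A R (B.repr z 1)) * hxx + (algebraMap A R (B.repr z 2)) * hxy
  rw [h, hB.lam_eq]

/-- the element `a g` of `R` which corresponds to a linear form `G` -/
noncomputable def gh (a c : A) (B : Basis (Fin 3) A R) (G : R →ₗ[A] A) : R :=
  algebraMap A R (a * G (B 2) - a * c * G (B 0)) + algebraMap A R (G (B 1)) * B 1 +
    algebraMap A R (a * G (B 0)) * B 2

lemma Cubic.lam_gh (hB : Cubic a b c e B) (G : R →ₗ[A] A) (z : R) :
    B.repr (gh a c B G * z) 2 = a * G z := by
  have hG : G z = B.repr z 0 * G (B 0) + B.repr z 1 * G (B 1) + B.repr z 2 * G (B 2) := by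
    conv_lhs => rw [← B.sum_repr z]
    rw [Fin.sum_univ_three, map_add, map_add, map_smul, map_smul, map_smul]
    rfl
  have h : gh a c B G * z =
      algebraMap A R ((a * G (B 2) - a * c * G (B 0)) * B.repr z 0
        - a * c * (G (B 1) * B.repr z 1)
        - a * e * (G (B 1) * B.repr z 2 + a * G (B 0) * B.repr z 1)
        - b * e * (a * G (B 0) * B.repr z 2)) +
      algebraMap A R ((a * G (B 2) - a * c * G (B 0)) * B.repr z 1 + G (B 1) * B.repr z 0
        - b * (G (B 1) * B.repr z 1) - e * (a * G (B 0) * B.repr z 2)) * B 1 +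
      algebraMap A R ((a * G (B 2) - a * c * G (B 0)) * B.repr z 2 + a * G (B 0) * B.repr z 0
        + a * (G (B 1) * B.repr z 1) + c * (a * G (B 0) * B.repr z 2)) * B 2 := by
    have hxx := hB.xx
    have hxy := hB.xy
    have hyy := hB.yy
    rw [Algebra.smul_def, Algebra.smul_def] at hxx hyy
    conv_lhs => rw [hB.expand z]
    unfold gh
    simp only [map_sub, map_add, map_mul, map_neg] at hxx hxy hyy ⊢
    linear_combination
      (algebraMap A R (G (B 1)) * algebraMap A R (B.repr z 1)) * hxx +
      (algebraMap A R (G (B 1)) * algebraMap A R (B.repr z 2) +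
        algebraMap A R a * algebraMap A R (G (B 0)) * algebraMap A R (B.repr z 1)) * hxy +
      (algebraMap A R a * algebraMap A R (G (B 0)) * algebraMap A R (B.repr z 2)) * hyy
  rw [h, hB.lam_eq, hG]
  ring

lemma Cubic.nondeg (hB : Cubic a b c e B) (ha : a ∈ nonZeroDivisors A) {s : R}
    (hs : ∀ z, B.repr (s * z) 2 = 0) : s = 0 := by
  have h2 : B.repr s 2 = 0 := by simpa using hs 1
  have h1 : B.repr s 1 = 0 := by
    have := hs (B 1)
    rw [mul_comm, hB.lam_X] at this
    exact (mul_left_mem_nonZeroDivisors_eq_zero_iff ha).1 this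
  have h0 : B.repr s 0 = 0 := by
    have h3 : s = algebraMap A R (B.repr s 0) := by
      conv_lhs => rw [hB.expand s, h1, h2]
      simp
    have h4 := hs (B 2)
    rw [h3, ← Algebra.smul_def, map_smul, B.repr_self] at h4
    simpa using h4
  rw [hB.expand s, h0, h1, h2]
  simp

end

end Pool.Agent.Cub
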