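import Pool.Agent.Lib_helper84.Cub.Ker

/-!
# Cubic algebras: existence of the Delone-Faddeev table
-/

set_option autoImplicit false
set_option linter.unusedSectionVars false

open Polynomial Module

namespace Pool.Agent.Cub

section

variable {A R : Type*} [CommRing A] [CommRing R] [Algebra A R]

/-- three elements which span a free module of rank three are a basis -/
lemma exists_basis_of_span (b : Basis (Fin 3) A R) (v : Fin 3 → R)
    (hv : Submodule.span A (Set.range v) = ⊤) : ∃ B : Basis (Fin 3) A R, ∀ i, B i = v i := by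
  let f : (Fin 3 → A) →ₗ[A] R := Fintype.linearCombination A v
  have hf : Function.Surjective f := by
    rw [← LinearMap.range_eq_top, Fintype.range_linearCombination, hv]
  let g : (Fin 3 → A) →ₗ[A] (Fin 3 → A) := b.equivFun.toLinearMap ∘ₗ f
  have hg : Function.Surjective g := b.equivFun.surjective.comp hf
  have hgi : Function.Injective g := OrzechProperty.injective_of_surjective_endomorphism g hg
  have hfi : Function.Injective f := fun x y h => hgi (by
    change b.equivFun (f x) = b.equivFun (f y)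
    rw [h])
  refine ⟨Basis.ofEquivFun (LinearEquiv.ofBijective f ⟨hfi, hf⟩).symm, fun i => ?_⟩
  rw [Basis.coe_ofEquivFun]
  simp [f, Fintype.linearCombination_apply, Pi.single_apply]

/-- there is a basis which starts with `1` -/
lemma exists_basis_one [IsLocalRing A] (b : Basis (Fin 3) A R)
    (h1 : (1 : R) ∉ (IsLocalRing.maximalIdeal A).map (algebraMap A R)) :
    ∃ B : Basis (Fin 3) A R, B 0 = 1 := by
  have hex : ∃ i, IsUnit (b.repr 1 i) := by
    by_contra hcon
    push Not at hcon
    apply h1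
    rw [← b.sum_repr 1]
    refine sum_mem fun i _ => ?_
    rw [Algebra.smul_def]
    exact Ideal.mul_mem_right _ _ (Ideal.mem_map_of_mem _
      ((IsLocalRing.mem_maximalIdeal _).2 (hcon i)))
  obtain ⟨i, hi⟩ := hex
  let σ : Fin 3 ≃ Fin 3 := Equiv.swap 0 i
  let b' : Basis (Fin 3) A R := b.reindex σ
  have hb' : IsUnit (b'.repr 1 0) := by
    rw [Basis.repr_reindex_apply]
    simpa [σ] using hi
  obtain ⟨u, hu⟩ := hb'
  have hsum : (1 : R) = b'.repr 1 0 • b' 0 + b'.repr 1 1 • b' 1 + b'.repr 1 2 • b' 2 := by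
    conv_lhs => rw [← b'.sum_repr 1]
    rw [Fin.sum_univ_three]
  generalize b'.repr 1 0 = x0 at hsum hu
  generalize b'.repr 1 1 = x1 at hsum
  generalize b'.repr 1 2 = x2 at hsum
  obtain ⟨B, hB⟩ := exists_basis_of_span b' ![1, b' 1, b' 2] (by
    rw [eq_top_iff, ← b'.span_eq, Submodule.span_le]
    rintro _ ⟨j, rfl⟩
    have m0 : (1 : R) ∈ Submodule.span A (Set.range ![1, b' 1, b' 2]) :=
      Submodule.subset_span ⟨0, rfl⟩
    have m1 : b' 1 ∈ Submodule.span A (Set.range ![1, b' 1, b' 2]) :=
      Submodule.subset_span ⟨1, rfl⟩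
    have m2 : b' 2 ∈ Submodule.span A (Set.range ![1, b' 1, b' 2]) :=
      Submodule.subset_span ⟨2, rfl⟩
    fin_cases j
    · have h3 : b' 0 = (↑u⁻¹ : A) • (1 : R) - (↑u⁻¹ * x1) • b' 1 -
          (↑u⁻¹ * x2) • b' 2 := by
        rw [hsum, smul_add, smul_add, smul_smul, smul_smul, smul_smul, ← hu, Units.inv_mul,
          one_smul]
        abel
      change b' 0 ∈ _
      rw [h3]
      exact sub_mem (sub_mem (Submodule.smul_mem _ _ m0) (Submodule.smul_mem _ _ m1))
        (Submodule.smul_mem _ _ m2)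
    · exact m1
    · exact m2)
  exact ⟨B, hB 0⟩

/-- **the Delone-Faddeev table** -/
theorem exists_cubic [IsLocalRing A] (b : Basis (Fin 3) A R)
    (h1 : (1 : R) ∉ (IsLocalRing.maximalIdeal A).map (algebraMap A R)) :
    ∃ (a b c e : A) (B : Basis (Fin 3) A R), Cubic a b c e B := by
  obtain ⟨B0, hB0⟩ := exists_basis_one b h1
  set v : A := B0.repr (B0 1 * B0 2) 1 with hv
  set w : A := B0.repr (B0 1 * B0 2) 2 with hw
  obtain ⟨B, hB⟩ := exists_basis_of_span B0
    ![1, B0 1 - algebraMap A R w, B0 2 - algebraMap A R v] (by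
    set v' : Fin 3 → R := ![1, B0 1 - algebraMap A R w, B0 2 - algebraMap A R v] with hv'
    rw [eq_top_iff, ← B0.span_eq, Submodule.span_le]
    rintro _ ⟨j, rfl⟩
    have m0 : (1 : R) ∈ Submodule.span A (Set.range v') := Submodule.subset_span ⟨0, rfl⟩
    have m1 : B0 1 - algebraMap A R w ∈ Submodule.span A (Set.range v') :=
      Submodule.subset_span ⟨1, rfl⟩
    have m2 : B0 2 - algebraMap A R v ∈ Submodule.span A (Set.range v') :=
      Submodule.subset_span ⟨2, rfl⟩
    fin_cases j
    · change B0 0 ∈ _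
      rw [hB0]; exact m0
    · change B0 1 ∈ _
      have : B0 1 = (B0 1 - algebraMap A R w) + w • (1 : R) := by
        rw [Algebra.smul_def]; ring
      rw [this]
      exact add_mem m1 (Submodule.smul_mem _ _ m0)
    · change B0 2 ∈ _
      have : B0 2 = (B0 2 - algebraMap A R v) + v • (1 : R) := by
        rw [Algebra.smul_def]; ring
      rw [this]
      exact add_mem m2 (Submodule.smul_mem _ _ m0))
  have b0 : B 0 = 1 := hB 0
  have b1 : B 1 = B0 1 - algebraMap A R w := hB 1
  have b2 : B 2 = B0 2 - algebraMap A R v := hB 2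
  -- the product `X Y` is in `A`
  obtain ⟨n, hn⟩ : ∃ n : A, B 1 * B 2 = algebraMap A R n := by
    have h2 : B0 1 * B0 2 = algebraMap A R (B0.repr (B0 1 * B0 2) 0) +
        algebraMap A R v * B0 1 + algebraMap A R w * B0 2 := by
      conv_lhs => rw [← B0.sum_repr (B0 1 * B0 2)]
      rw [Fin.sum_univ_three, hB0, Algebra.smul_def, Algebra.smul_def, Algebra.smul_def, mul_one]
    generalize B0.repr (B0 1 * B0 2) 0 = x0 at h2
    refine ⟨x0 + v * w, ?_⟩
    rw [b1, b2]
    simp only [map_add, map_mul]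
    linear_combination h2
  have hexp : ∀ z : R, z = algebraMap A R (B.repr z 0) + algebraMap A R (B.repr z 1) * B 1 +
      algebraMap A R (B.repr z 2) * B 2 := by
    intro z
    conv_lhs => rw [← B.sum_repr z]
    rw [Fin.sum_univ_three, b0, Algebra.smul_def, Algebra.smul_def, Algebra.smul_def, mul_one]
  have huniq : ∀ u v w u' v' w' : A,
      algebraMap A R u + algebraMap A R v * B 1 + algebraMap A R w * B 2 =
        algebraMap A R u' + algebraMap A R v' * B 1 + algebraMap A R w' * B 2 →
      u = u' ∧ v = v' ∧ w = w' := by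
    intro u v w u' v' w' h
    have hr : ∀ u v w : A, algebraMap A R u + algebraMap A R v * B 1 + algebraMap A R w * B 2 =
        u • B 0 + v • B 1 + w • B 2 := by
      intro u v w
      rw [b0, Algebra.smul_def, Algebra.smul_def, Algebra.smul_def, mul_one]
    rw [hr, hr] at h
    have h' := congrArg B.repr h
    simp only [map_add, map_smul, B.repr_self] at h'
    refine ⟨?_, ?_, ?_⟩
    · simpa using DFunLike.congr_fun h' 0
    · simpa using DFunLike.congr_fun h' 1
    · simpa using DFunLike.congr_fun h' 2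
  set α1 := B.repr (B 1 * B 1) 0
  set β1 := B.repr (B 1 * B 1) 1
  set γ1 := B.repr (B 1 * B 1) 2
  set α2 := B.repr (B 2 * B 2) 0
  set β2 := B.repr (B 2 * B 2) 1
  set γ2 := B.repr (B 2 * B 2) 2
  have hX := hexp (B 1 * B 1)
  have hY := hexp (B 2 * B 2)
  change B 1 * B 1 = algebraMap A R α1 + algebraMap A R β1 * B 1 + algebraMap A R γ1 * B 2 at hX
  change B 2 * B 2 = algebraMap A R α2 + algebraMap A R β2 * B 1 + algebraMap A R γ2 * B 2 at hY
  have r1 := huniq (γ1 * α2 + β1 * n) (γ1 * β2) (γ1 * γ2 + α1) 0 n 0 (by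
    simp only [map_add, map_mul, map_zero]
    linear_combination (-(B 2)) * hX + (B 1) * hn - (algebraMap A R γ1) * hY
      - (algebraMap A R β1) * hn)
  have r2 := huniq (β2 * α1 + γ2 * n) (β2 * β1 + α2) (β2 * γ1) 0 0 n (by
    simp only [map_add, map_mul, map_zero]
    linear_combination (-(B 1)) * hY + (B 2) * hn - (algebraMap A R β2) * hX
      - (algebraMap A R γ2) * hn)
  obtain ⟨_, r11, r12⟩ := r1
  obtain ⟨_, r21, _⟩ := r2
  refine ⟨γ1, -β1, γ2, -β2, B, ⟨b0, ?_, ?_, ?_⟩⟩
  · rw [hn, ← r11]; congr 1; ring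
  · rw [hX, Algebra.smul_def, Algebra.smul_def]
    have : α1 = -(γ1 * γ2) := by linear_combination r12
    rw [this]
    simp only [map_neg]
    ring
  · rw [hY, Algebra.smul_def, Algebra.smul_def]
    have : α2 = -(-β1 * -β2) := by linear_combination r21
    rw [this]
    simp only [map_neg]
    ring

/-- the coefficients are in the maximal ideal -/
theorem Cubic.mem_maximalIdeal [IsLocalRing A] [IsDomain A] [IsDomain R] [IsLocalRing R]
    {a b c e : A} {B : Basis (Fin 3) A R} (hB : Cubic a b c e B)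
    (hloc : (IsLocalRing.maximalIdeal A).map (algebraMap A R) ≤ IsLocalRing.maximalIdeal R)
    (hres : ∀ r : R, ∃ x : A, r - algebraMap A R x ∈ IsLocalRing.maximalIdeal R)
    (hsq : IsLocalRing.maximalIdeal R ^ 2 ≤ (IsLocalRing.maximalIdeal A).map (algebraMap A R)) :
    (a ∈ IsLocalRing.maximalIdeal A ∧ b ∈ IsLocalRing.maximalIdeal A ∧
      c ∈ IsLocalRing.maximalIdeal A ∧ e ∈ IsLocalRing.maximalIdeal A) ∧
    a ≠ 0 ∧ e ≠ 0 ∧
    IsLocalRing.maximalIdeal R =
      (IsLocalRing.maximalIdeal A).map (algebraMap A R) ⊔ Ideal.span {B 1, B 2} := by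
  set mA := IsLocalRing.maximalIdeal A
  set mR := IsLocalRing.maximalIdeal R
  -- coordinates of elements of `m_A R`
  have hco : ∀ z ∈ mA.map (algebraMap A R), ∀ i, B.repr z i ∈ mA := by
    intro z hz i
    refine Submodule.span_induction (p := fun z _ => ∀ i, B.repr z i ∈ mA) ?_ ?_ ?_ ?_ hz i
    · rintro _ ⟨x, hx, rfl⟩ i
      rw [Algebra.algebraMap_eq_smul_one, map_smul, Finsupp.smul_apply, smul_eq_mul]
      exact Ideal.mul_mem_right _ _ hx
    · intro i; simp
    · intro x y _ _ hx hy i
      rw [map_add, Finsupp.add_apply]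
      exact add_mem (hx i) (hy i)
    · intro r x _ hx i
      -- `r • x` has coordinates which are linear combinations of those of `x`
      have : r • x = ∑ j, B.repr x j • (r * B j) := by
        conv_lhs => rw [← B.sum_repr x]
        rw [smul_eq_mul, Finset.mul_sum]
        exact Finset.sum_congr rfl fun j _ => by rw [mul_smul_comm]
      rw [this, map_sum, Finsupp.finsetSum_apply]
      refine sum_mem fun j _ => ?_
      rw [map_smul, Finsupp.smul_apply, smul_eq_mul]
      exact Ideal.mul_mem_right _ _ (hx j)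
  have hne : (1 : A) ∉ mA := fun h => (Ideal.ne_top_iff_one _).1
    (IsLocalRing.maximalIdeal.isMaximal A).ne_top h
  obtain ⟨α, hα⟩ := hres (B 1)
  obtain ⟨β, hβ⟩ := hres (B 2)
  -- `X, Y ∈ m_R`
  have hprod : (B 1 - algebraMap A R α) * (B 2 - algebraMap A R β) ∈ mA.map (algebraMap A R) := by
    apply hsq
    rw [pow_two]
    exact Ideal.mul_mem_mul hα hβ
  have hexp : (B 1 - algebraMap A R α) * (B 2 - algebraMap A R β) =
      algebraMap A R (-(a * e) + α * β) + algebraMap A R (-β) * B 1 +
        algebraMap A R (-α) * B 2 := by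
    have := hB.xy
    simp only [map_add, map_mul, map_neg] at this ⊢
    linear_combination this
  have hβ' : β ∈ mA := by
    have := hco _ hprod 1
    rw [hexp, hB.mu_eq] at this
    exact neg_mem_iff.1 this
  have hα' : α ∈ mA := by
    have := hco _ hprod 2
    rw [hexp, hB.lam_eq] at this
    exact neg_mem_iff.1 this
  have hX : B 1 ∈ mR := by
    have : B 1 = (B 1 - algebraMap A R α) + algebraMap A R α := by ring
    rw [this]
    exact add_mem hα (hloc (Ideal.mem_map_of_mem _ hα'))
  have hY : B 2 ∈ mR := by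
    have : B 2 = (B 2 - algebraMap A R β) + algebraMap A R β := by ring
    rw [this]
    exact add_mem hβ (hloc (Ideal.mem_map_of_mem _ hβ'))
  have hXX : B 1 * B 1 ∈ mA.map (algebraMap A R) := by
    apply hsq; rw [pow_two]; exact Ideal.mul_mem_mul hX hX
  have hYY : B 2 * B 2 ∈ mA.map (algebraMap A R) := by
    apply hsq; rw [pow_two]; exact Ideal.mul_mem_mul hY hY
  have eX : B 1 * B 1 = algebraMap A R (-(a * c)) + algebraMap A R (-b) * B 1 +
      algebraMap A R a * B 2 := by
    rw [hB.xx, Algebra.smul_def, Algebra.smul_def, map_neg, map_neg]; ring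
  have eY : B 2 * B 2 = algebraMap A R (-(b * e)) + algebraMap A R (-e) * B 1 +
      algebraMap A R c * B 2 := by
    rw [hB.yy, Algebra.smul_def, Algebra.smul_def, map_neg, map_neg]; ring
  have ma : a ∈ mA := by
    have := hco _ hXX 2
    rwa [eX, hB.lam_eq] at this
  have mb : b ∈ mA := by
    have := hco _ hXX 1
    rw [eX, hB.mu_eq] at this
    exact neg_mem_iff.1 this
  have mc : c ∈ mA := by
    have := hco _ hYY 2
    rwa [eY, hB.lam_eq] at this
  have me : e ∈ mA := by
    have := hco _ hYY 1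
    rw [eY, hB.mu_eq] at this
    exact neg_mem_iff.1 this
  have hXY0 : a * e ≠ 0 := by
    intro h0
    have h2 := hB.xy
    rw [h0, neg_zero, map_zero, mul_eq_zero] at h2
    rcases h2 with h2 | h2
    · exact B.ne_zero 1 h2
    · exact B.ne_zero 2 h2
  refine ⟨⟨ma, mb, mc, me⟩, left_ne_zero_of_mul hXY0, right_ne_zero_of_mul hXY0, ?_⟩
  apply le_antisymm
  · intro z hz
    have h0 : B.repr z 0 ∈ mA := by
      by_contra hcon
      have hu : IsUnit (B.repr z 0) := by
        by_contra hnu
        exact hcon ((IsLocalRing.mem_maximalIdeal _).2 hnu)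
      have h2 : algebraMap A R (B.repr z 0) ∈ mR := by
        have : algebraMap A R (B.repr z 0) = z - algebraMap A R (B.repr z 1) * B 1 -
            algebraMap A R (B.repr z 2) * B 2 := by
          linear_combination -(hB.expand z)
        rw [this]
        exact sub_mem (sub_mem hz (Ideal.mul_mem_left _ _ hX)) (Ideal.mul_mem_left _ _ hY)
      exact (IsLocalRing.maximalIdeal.isMaximal R).ne_top
        (Ideal.eq_top_of_isUnit_mem _ h2 (hu.map _))
    rw [hB.expand z]
    have s1 : B 1 ∈ Ideal.span {B 1, B 2} := Ideal.subset_span (Or.inl rfl)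
    have s2 : B 2 ∈ Ideal.span {B 1, B 2} := Ideal.subset_span (Or.inr rfl)
    refine add_mem (add_mem ?_ ?_) ?_
    · exact Ideal.mem_sup_left (Ideal.mem_map_of_mem _ h0)
    · exact Ideal.mem_sup_right (Ideal.mul_mem_left _ _ s1)
    · exact Ideal.mem_sup_right (Ideal.mul_mem_left _ _ s2)
  · rw [sup_le_iff]
    refine ⟨hloc, ?_⟩
    rw [Ideal.span_le]
    rintro x (rfl | hx)
    · exact hX
    · rw [Set.mem_singleton_iff] at hx; subst hx; exact hY

end

end Pool.Agent.Cub
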