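import Pool.Agent.Lib_helper84.Cub.Cubic

/-!
# Cubic algebras: evaluation at `θ = X / a`
-/

set_option autoImplicit false
set_option linter.unusedSectionVars false

open Polynomial Module

namespace Pool.Agent.Cub

/-- the cubic polynomial `a T³ + b T² + c T + e` -/
noncomputable def FF {A : Type*} [CommRing A] (a b c e : A) : A[X] :=
  C a * X ^ 3 + C b * X ^ 2 + C c * X + C e

section

variable {A R L : Type*} [CommRing A] [IsDomain A] [CommRing R] [Algebra A R] [Field L]
  [Algebra A L] [Algebra R L] [IsScalarTower A R L] {a b c e : A} {B : Basis (Fin 3) A R}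

lemma Cubic.inj (hB : Cubic a b c e B) : Function.Injective (algebraMap A R) := by
  intro x y hxy
  have h := congrArg (fun z => B.repr z 0) hxy
  have e1 : ∀ x : A, B.repr (algebraMap A R x) 0 = x := by
    intro x
    rw [Algebra.algebraMap_eq_smul_one, ← hB.one, map_smul, B.repr_self]
    simp
  simpa [e1] using h

lemma algMap_eq (x : A) : algebraMap A L x = algebraMap R L (algebraMap A R x) :=
  IsScalarTower.algebraMap_apply A R L x

variable (L) in
/-- `θ = X / a` -/
noncomputable def th (a : A) (B : Basis (Fin 3) A R) : L :=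
  algebraMap R L (B 1) / algebraMap A L a

variable (hB : Cubic a b c e B) (hinj : Function.Injective (algebraMap R L)) (ha : a ≠ 0)

include hB hinj ha

lemma a_ne : algebraMap A L a ≠ 0 := by
  rw [algMap_eq (R := R)]
  intro h
  rw [← map_zero (algebraMap R L)] at h
  have := hinj h
  rw [← map_zero (algebraMap A R)] at this
  exact ha (hB.inj this)

lemma a_th : algebraMap A L a * th L a B = algebraMap R L (B 1) := by
  unfold th
  rw [mul_div_cancel₀]
  exact a_ne hB hinj ha

lemma Y_eq : algebraMap R L (B 2) =
    algebraMap A L a * th L a B ^ 2 + algebraMap A L b * th L a B + algebraMap A L c := by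
  have h1 := a_ne (L := L) hB hinj ha
  have h2 := a_th (L := L) hB hinj ha
  have h3 := congrArg (algebraMap R L) hB.xx
  rw [Algebra.smul_def, Algebra.smul_def] at h3
  simp only [map_add, map_sub, map_mul, map_neg, ← algMap_eq (R := R) (L := L)] at h3
  rw [← h2] at h3
  apply mul_left_cancel₀ h1
  linear_combination -h3

lemma th_Y : th L a B * algebraMap R L (B 2) = - algebraMap A L e := by
  have h1 := a_ne (L := L) hB hinj ha
  have h2 := a_th (L := L) hB hinj ha
  have h3 := congrArg (algebraMap R L) hB.xy
  simp only [map_mul, map_neg, ← algMap_eq (R := R) (L := L)] at h3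
  rw [← h2] at h3
  apply mul_left_cancel₀ h1
  linear_combination h3

lemma aeval_FF : aeval (th L a B) (FF a b c e) = 0 := by
  have h1 := Y_eq (L := L) hB hinj ha
  have h2 := th_Y (L := L) hB hinj ha
  rw [h1] at h2
  unfold FF
  simp only [map_add, map_mul, aeval_C, map_pow, aeval_X]
  linear_combination h2

/-- no nonzero polynomial of degree at most two kills `θ` -/
lemma eq_zero_of_deg_two {P : A[X]} (hP : P.natDegree ≤ 2) (h : aeval (th L a B) P = 0) :
    P = 0 := by
  have h1 := a_th (L := L) hB hinj ha
  have h2 := Y_eq (L := L) hB hinj ha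
  have hP' : P = C (P.coeff 0) + C (P.coeff 1) * X + C (P.coeff 2) * X ^ 2 := by
    conv_lhs => rw [P.as_sum_range_C_mul_X_pow' (by omega : P.natDegree < 3)]
    simp [Finset.sum_range_succ]
  set p0 := P.coeff 0
  set p1 := P.coeff 1
  set p2 := P.coeff 2
  rw [hP'] at h
  simp only [map_add, map_mul, aeval_C, map_pow, aeval_X] at h
  have h3 : algebraMap R L (algebraMap A R (a ^ 2 * p0 - a * c * p2) +
      algebraMap A R (a * p1 - b * p2) * B 1 + algebraMap A R (a * p2) * B 2) = 0 := by
    simp only [map_add, map_sub, map_mul, map_pow, ← algMap_eq (R := R) (L := L)]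
    rw [h2, ← h1]
    linear_combination (algebraMap A L a) ^ 2 * h
  have h4 : algebraMap A R (a ^ 2 * p0 - a * c * p2) +
      algebraMap A R (a * p1 - b * p2) * B 1 + algebraMap A R (a * p2) * B 2 = 0 := by
    apply hinj
    rw [h3, map_zero]
  have e2 : a * p2 = 0 := by rw [← hB.lam_eq _ _ (a * p2), h4]; simp
  have e1 : a * p1 - b * p2 = 0 := by rw [← hB.mu_eq _ (a * p1 - b * p2) _, h4]; simp
  have e0 : a ^ 2 * p0 - a * c * p2 = 0 := by
    rw [← hB.nu_eq (a ^ 2 * p0 - a * c * p2) _ _, h4]; simp
  have f2 : p2 = 0 := (mul_eq_zero.1 e2).resolve_left ha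
  have f1 : p1 = 0 := by
    rw [f2, mul_zero, sub_zero] at e1
    exact (mul_eq_zero.1 e1).resolve_left ha
  have f0 : p0 = 0 := by
    rw [f2, mul_zero, sub_zero] at e0
    exact (mul_eq_zero.1 e0).resolve_left (pow_ne_zero 2 ha)
  rw [hP', f0, f1, f2]
  simp

end

/-- pseudo-division by the cubic -/
lemma exists_pseudo {A : Type*} [CommRing A] (a b c e : A) (P : A[X]) :
    ∃ (m : ℕ) (Q P0 : A[X]), C (a ^ m) * P = FF a b c e * Q + P0 ∧ P0.natDegree ≤ 2 := by
  have key : ∀ (n : ℕ) (P : A[X]), P.natDegree ≤ n →
      ∃ (m : ℕ) (Q P0 : A[X]), C (a ^ m) * P = FF a b c e * Q + P0 ∧ P0.natDegree ≤ 2 := by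
    intro n
    induction n with
    | zero => exact fun P hP => ⟨0, 0, P, by simp, by omega⟩
    | succ n ih =>
      intro P hP
      by_cases hn : n + 1 ≤ 2
      · exact ⟨0, 0, P, by simp, by omega⟩
      · obtain ⟨k, rfl⟩ : ∃ k, n = k + 2 := ⟨n - 2, by omega⟩
        have hd : (C a * P - FF a b c e * (C (P.coeff (k + 3)) * X ^ k)).natDegree ≤ k + 2 := by
          rw [natDegree_le_iff_coeff_eq_zero]
          intro N hN
          have hFF : (FF a b c e * (C (P.coeff (k + 3)) * X ^ k)).coeff N =
              if N = k + 3 then a * P.coeff (k + 3) else 0 := by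
            have h1 : FF a b c e * (C (P.coeff (k + 3)) * X ^ k) =
                C (a * P.coeff (k + 3)) * X ^ (k + 3) + C (b * P.coeff (k + 3)) * X ^ (k + 2) +
                C (c * P.coeff (k + 3)) * X ^ (k + 1) + C (e * P.coeff (k + 3)) * X ^ k := by
              unfold FF
              simp only [C_mul]
              ring
            rw [h1]
            simp only [coeff_add, coeff_C_mul, coeff_X_pow]
            by_cases h : N = k + 3
            · subst h; simp
            · have h2 : N ≠ k + 2 := by omega
              have h3 : N ≠ k + 1 := by omega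
              have h4 : N ≠ k := by omega
              simp [h, h2, h3, h4]
          rw [coeff_sub, coeff_C_mul, hFF]
          by_cases h : N = k + 3
          · subst h; simp
          · rw [if_neg h, coeff_eq_zero_of_natDegree_lt (by omega)]; simp
        obtain ⟨m, Q, P0, h1, h2⟩ := ih _ hd
        refine ⟨m + 1, Q + C (a ^ m) * (C (P.coeff (k + 3)) * X ^ k), P0, ?_, h2⟩
        rw [mul_sub] at h1
        rw [pow_succ, C_mul]
        linear_combination h1
  exact key P.natDegree P le_rfl

section

variable {A R L : Type*} [CommRing A] [IsDomain A] [CommRing R] [Algebra A R] [Field L]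
  [Algebra A L] [Algebra R L] [IsScalarTower A R L] {a b c e : A} {B : Basis (Fin 3) A R}

lemma natDegree_FF (ha : a ≠ 0) : (FF a b c e).natDegree = 3 := by
  unfold FF
  compute_degree!

lemma ker_of_prime (hB : Cubic a b c e B) (hinj : Function.Injective (algebraMap R L))
    (ha : a ≠ 0) (hF : Prime (FF a b c e)) {P : A[X]} (h : aeval (th L a B) P = 0) :
    FF a b c e ∣ P := by
  obtain ⟨m, Q, P0, h1, h2⟩ := exists_pseudo a b c e P
  have h3 : aeval (th L a B) P0 = 0 := by
    have := congrArg (aeval (th L a B)) h1
    simp only [map_mul, map_add, h, aeval_FF hB hinj ha, mul_zero, zero_mul, zero_add] at this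
    exact this.symm
  rw [eq_zero_of_deg_two hB hinj ha h2 h3, add_zero] at h1
  have h4 : FF a b c e ∣ C (a ^ m) * P := ⟨Q, h1⟩
  rcases hF.dvd_or_dvd h4 with h5 | h5
  · exfalso
    have h6 := natDegree_le_of_dvd h5 (by simpa using pow_ne_zero m ha)
    rw [natDegree_FF ha, natDegree_C] at h6
    omega
  · exact h5

/-- a primitive cubic is prime -/
lemma prime_of_primitive [UniqueFactorizationMonoid A] (hB : Cubic a b c e B)
    (hinj : Function.Injective (algebraMap R L)) (ha : a ≠ 0)
    (hprim : (FF a b c e).IsPrimitive) : Prime (FF a b c e) := by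
  rw [← UniqueFactorizationMonoid.irreducible_iff_prime]
  refine ⟨?_, ?_⟩
  · intro hu
    have := natDegree_eq_zero_of_isUnit hu
    rw [natDegree_FF ha] at this
    omega
  · intro G H hGH
    have hF0 : FF a b c e ≠ 0 := by
      intro h0
      have := natDegree_FF (b := b) (c := c) (e := e) ha
      rw [h0] at this
      simp at this
    have hG0 : G ≠ 0 := by rintro rfl; exact hF0 (by rw [hGH, zero_mul])
    have hH0 : H ≠ 0 := by rintro rfl; exact hF0 (by rw [hGH, mul_zero])
    have hdeg : G.natDegree + H.natDegree = 3 := by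
      rw [← natDegree_mul hG0 hH0, ← hGH, natDegree_FF ha]
    have hconst : ∀ G H : A[X], FF a b c e = G * H → G.natDegree = 0 → IsUnit G := by
      intro G H hGH hd
      obtain ⟨g, rfl⟩ := natDegree_eq_zero.1 hd
      exact (hprim g ⟨H, hGH⟩).map C
    have h0 := aeval_FF (L := L) hB hinj ha
    rw [hGH, map_mul, mul_eq_zero] at h0
    rcases h0 with h0 | h0
    · right
      apply hconst H G (by rw [hGH, mul_comm])
      by_contra hne
      exact hG0 (eq_zero_of_deg_two hB hinj ha (by omega) h0)
    · left
      apply hconst G H hGH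
      by_contra hne
      exact hH0 (eq_zero_of_deg_two hB hinj ha (by omega) h0)

end

end Pool.Agent.Cub
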