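import Mathlib

/-!
# Cubic algebras and `p^{-e}`-linear maps: the trace of the Frobenius map

`Φ : A →+ A` is `q^{-1}`-linear and has a finite dual family. Extension to polynomials.
-/

set_option autoImplicit false

open Polynomial

namespace Pool.Agent.Cub

/-- `Φ` is `q^{-1}`-linear and has a finite dual family. -/
structure FrobDual (A : Type*) [CommRing A] (q : ℕ) (Φ : A →+ A) : Prop where
  lin : ∀ x y, Φ (x ^ q * y) = x * Φ y
  dual : ∃ (n : ℕ) (e e' : Fin n → A), ∀ h, h = ∑ i, Φ (h * e' i) ^ q * e i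

variable {A : Type*} [CommRing A] {q : ℕ} {Φ : A →+ A}

lemma FrobDual.eq_zero (hΦ : FrobDual A q Φ) (hq : 0 < q) {g : A} (hg : ∀ x, Φ (g * x) = 0) :
    g = 0 := by
  obtain ⟨n, e, e', h⟩ := hΦ.dual
  rw [h g]
  refine Finset.sum_eq_zero fun i _ => ?_
  rw [hg, zero_pow hq.ne', zero_mul]

/-- the trace of Frobenius on polynomials, `T^{q-1+qm} ↦ T^m` -/
noncomputable def phiPoly (q : ℕ) (Φ : A →+ A) (P : A[X]) : A[X] :=
  ∑ m ∈ Finset.range (P.natDegree + 1), monomial m (Φ (P.coeff (q * m + (q - 1))))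

lemma phiPoly_coeff (hq : 0 < q) (P : A[X]) (m : ℕ) :
    (phiPoly q Φ P).coeff m = Φ (P.coeff (q * m + (q - 1))) := by
  unfold phiPoly
  rw [finsetSum_coeff]
  simp only [coeff_monomial]
  rw [Finset.sum_ite_eq']
  split_ifs with h
  · rfl
  · rw [Finset.mem_range, not_lt] at h
    rw [coeff_eq_zero_of_natDegree_lt, map_zero]
    have : m ≤ q * m := Nat.le_mul_of_pos_left m hq
    omega

lemma phiPoly_add (hq : 0 < q) (P Q : A[X]) :
    phiPoly q Φ (P + Q) = phiPoly q Φ P + phiPoly q Φ Q := by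
  ext m
  simp only [phiPoly_coeff hq, coeff_add, map_add]

lemma phiPoly_zero (hq : 0 < q) : phiPoly q Φ (0 : A[X]) = 0 := by
  ext m
  simp [phiPoly_coeff hq]

/-- `Φ(Q^q P) = Q Φ(P)` -/
lemma phiPoly_lin {p : ℕ} [hp : Fact p.Prime] [CharP A p] {s : ℕ} (hq : q = p ^ s)
    (hΦ : ∀ x y, Φ (x ^ q * y) = x * Φ y) (Q P : A[X]) :
    phiPoly q Φ (Q ^ q * P) = Q * phiPoly q Φ P := by
  have hq0 : 0 < q := by rw [hq]; exact pow_pos hp.1.pos _
  induction Q using Polynomial.induction_on' with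
  | add Q₁ Q₂ h1 h2 =>
    have : (Q₁ + Q₂) ^ q = Q₁ ^ q + Q₂ ^ q := by rw [hq]; exact add_pow_char_pow _ _ _ _
    rw [this, add_mul, phiPoly_add hq0, h1, h2, add_mul]
  | monomial n c =>
    ext m
    rw [phiPoly_coeff hq0, monomial_pow, ← C_mul_X_pow_eq_monomial, ← C_mul_X_pow_eq_monomial,
      mul_assoc, coeff_C_mul, mul_assoc, coeff_C_mul, coeff_X_pow_mul', coeff_X_pow_mul']
    by_cases hnm : n ≤ m
    · have h1 : n * q ≤ q * m + (q - 1) := by nlinarith
      rw [if_pos h1, if_pos hnm, hΦ, phiPoly_coeff hq0]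
      congr 3
      obtain ⟨k, rfl⟩ := Nat.exists_eq_add_of_le hnm
      have : q * (n + k) + (q - 1) = n * q + (q * k + (q - 1)) := by ring
      rw [this]
      simp
    · have h1 : ¬ n * q ≤ q * m + (q - 1) := by
        push Not at hnm ⊢
        have : (m + 1) * q ≤ n * q := Nat.mul_le_mul_right q hnm
        have h2 : (m + 1) * q = q * m + q := by ring
        omega
      rw [if_neg h1, if_neg hnm, mul_zero, map_zero, mul_zero]

end Pool.Agent.Cub
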