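import Pool.Agent.Lib_helper84.Cub.Glue

/-!
# Cases I and III in terms of cells
-/

namespace Pool.Agent.Lib_helper84.Cub

open Pool.Agent.Lib_helper18 Pool.Agent.Lib_helper18.Eis

variable {m : ℕ} {p e e' : Fin m → ℕ} {pos pos' : Fin m → Fin 3} {x y : Fin 3 → ℤ}

/-- the standard position with the two special primes together -/
def stdp (i0 i1 : Fin m) (j : Fin m) : Fin 3 := if Sp i0 i1 j then 2 else 1

theorem cell_std0 (p e : Fin m → ℕ) (i0 i1 : Fin m) : cell p e (stdp i0 i1) 0 = 1 := by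
  unfold cell stdp
  refine Finset.prod_eq_one (fun j _ => ?_)
  by_cases h : Sp i0 i1 j
  · rw [if_pos h, if_neg (by decide)]
  · rw [if_neg h, if_neg (by decide)]

theorem cell_std1 (p e : Fin m → ℕ) (i0 i1 : Fin m) :
    cell p e (stdp i0 i1) 1 = ∏ j, if ¬ Sp i0 i1 j then (p j : ℤ) ^ e j else 1 := by
  unfold cell stdp
  refine Finset.prod_congr rfl (fun j _ => ?_)
  by_cases h : Sp i0 i1 j
  · rw [if_pos h, if_neg (by decide), if_neg (not_not.mpr h)]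
  · rw [if_neg h, if_pos rfl, if_pos h]

theorem cell_std2 (p e : Fin m → ℕ) {i0 i1 : Fin m} (h01 : i0 ≠ i1) :
    cell p e (stdp i0 i1) 2 = (p i0 : ℤ) ^ e i0 * (p i1 : ℤ) ^ e i1 := by
  rw [← prod_Sp h01 (fun j => (p j : ℤ) ^ e j)]
  unfold cell stdp
  refine Finset.prod_congr rfl (fun j _ => ?_)
  by_cases h : Sp i0 i1 j
  · rw [if_pos h, if_pos rfl, if_pos h]
  · rw [if_neg h, if_neg (by decide), if_neg h]

theorem cell_std1_eq {i0 i1 : Fin m} (h : Rel i0 i1 e e') :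
    cell p e (stdp i0 i1) 1 = cell p e' (stdp i0 i1) 1 := by
  rw [cell_std1, cell_std1]
  refine Finset.prod_congr rfl (fun j _ => ?_)
  have := h j
  by_cases hS : Sp i0 i1 j
  · rw [if_neg (not_not.mpr hS), if_neg (not_not.mpr hS)]
  · rw [if_neg hS] at this
    rw [this]

theorem Base.BB {i0 i1 : Fin m} (b : Base p e e' i0 i1) :
    ((p i0 : ℤ) ^ e i0 * (p i1 : ℤ) ^ e i1) * ((p i0 : ℤ) ^ e' i0 * (p i1 : ℤ) ^ e' i1) =
      ((p i0 : ℤ) * p i1) ^ 3 := by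
  have h0 := b.rel i0
  have h1 := b.rel i1
  rw [if_pos (Or.inl rfl)] at h0
  rw [if_pos (Or.inr rfl)] at h1
  rw [mul_pow, ← h0]
  conv_rhs => rw [h0, ← h1]
  conv_rhs => rw [h1, ← h0]
  have e1 : (p i1 : ℤ) ^ (e i0 + e' i0) = (p i1 : ℤ) ^ (e i1 + e' i1) := by rw [h0, h1]
  rw [e1, pow_add, pow_add]; ring

theorem cell_prod (p e : Fin m → ℕ) (pos : Fin m → Fin 3) :
    cell p e pos 0 * cell p e pos 1 * cell p e pos 2 = ∏ j, (p j : ℤ) ^ e j := by
  simp only [cell, ← Finset.prod_mul_distrib]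
  refine Finset.prod_congr rfl (fun j _ => ?_)
  have h3 : pos j = 0 ∨ pos j = 1 ∨ pos j = 2 := by
    generalize pos j = k; revert k; decide
  rcases h3 with h3 | h3 | h3 <;> simp [h3]

theorem coprime_cube {c d u v : ℤ} (h : IsCoprime (c * u) (d * v)) :
    IsCoprime (c * u ^ 3) (d * v ^ 3) := by
  have h1 : IsCoprime ((c * u) ^ 3) ((d * v) ^ 3) := h.pow
  refine IsCoprime.of_isCoprime_of_dvd_left (IsCoprime.of_isCoprime_of_dvd_right h1 ?_) ?_
  · exact ⟨d ^ 2, by ring⟩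
  · exact ⟨c ^ 2, by ring⟩

theorem cast_pos : ∀ k : Fin 3, ∀ P : Fin 3 → Prop, P k →
    (P 0 ∧ ((k : ℕ) : ZMod 3) = 0 ∨ P 1 ∧ ((k : ℕ) : ZMod 3) = 1 ∨ P 2 ∧ ((k : ℕ) : ZMod 3) = 2) := by
  intro k P h
  have h3 : k = 0 ∨ k = 1 ∨ k = 2 := by clear h; revert k; decide
  rcases h3 with rfl | rfl | rfl
  · left; exact ⟨h, by decide⟩
  · right; left; exact ⟨h, by decide⟩
  · right; right; exact ⟨h, by decide⟩

/-- **Case I** in terms of cells -/
theorem caseI_gen {i0 i1 : Fin m} (b : Base p e e' i0 i1) (hP : IsPt p e pos x)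
    (hne : pos i0 ≠ pos i1) (hP' : IsPt p e' (stdp i0 i1) y) : False := by
  apply hne
  have hinj : ∀ a b : Fin 3, ((a : ℕ) : ZMod 3) = ((b : ℕ) : ZMod 3) → a = b := by decide
  apply hinj
  refine concl_eq (a := (e i0 : ZMod 3)) (b := (e i1 : ZMod 3)) b.hab (zmod_ne (b.he i0))
    (b.hw i0) ?_
  have hx := sum3 hP.sum
  have hy := sum3 hP'.sum
  have he0' : e' i0 ≠ 0 := by have := b.he' i0; omega
  have he1' : e' i1 ≠ 0 := by have := b.he' i1; omega
  have c0 := cell_std0 p e' i0 i1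
  have c2 := cell_std2 p e' b.h01
  have c1 := cell_std1_eq (p := p) b.rel
  have hprod := cell_prod p e pos
  have hprod' := cell_prod p e (stdp i0 i1)
  rw [cell_std0, cell_std2 p e b.h01, one_mul] at hprod'
  have hq : ∀ i : Fin m, (p i : ℤ) ∣ cell p e pos (pos i) * x (pos i) ^ 3 := by
    intro i
    have he : e i ≠ 0 := by have := b.he i; omega
    exact Dvd.dvd.mul_right (dvd_prod_if (fun j => pos j = pos i) rfl he) _
  refine caseI (b.hp i0) (b.h3 i0) (b.hp i1) (b.h3 i1) b.hab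
    (B := (p i0 : ℤ) ^ e i0 * (p i1 : ℤ) ^ e i1) (B' := (p i0 : ℤ) ^ e' i0 * (p i1 : ℤ) ^ e' i1)
    (C := cell p e' (stdp i0 i1) 1)
    rfl b.BB (Dvd.dvd.mul_right (dvd_pow_self _ he0') _) (Dvd.dvd.mul_left (dvd_pow_self _ he1') _)
    hx (w0 := x 0 * x 1 * x 2) ?_ (coprime_cube (hP.cop 0 1 (by decide)))
    (coprime_cube (hP.cop 0 2 (by decide)))
    (x := y 0) (y := y 1) (z := y 2) ?_ ?_ ?_ ?_
    (cast_pos (pos i0) (fun k => (p i0 : ℤ) ∣ cell p e pos k * x k ^ 3) (hq i0))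
    (cast_pos (pos i1) (fun k => (p i1 : ℤ) ∣ cell p e pos k * x k ^ 3) (hq i1))
  · rw [← c1]
    have e1 : cell p e pos 0 * x 0 ^ 3 * (cell p e pos 1 * x 1 ^ 3) * (cell p e pos 2 * x 2 ^ 3) =
      (cell p e pos 0 * cell p e pos 1 * cell p e pos 2) * (x 0 * x 1 * x 2) ^ 3 := by ring
    rw [e1, hprod, ← hprod']; ring
  · rw [c0, c2] at hy
    linear_combination hy
  · have := hP'.cop 0 1 (by decide)
    rwa [c0, one_mul] at this
  · have := hP'.cop 0 2 (by decide)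
    rwa [c0, one_mul, c2] at this
  · have := hP'.cop 1 2 (by decide)
    rwa [c2] at this

/-- **Case III** in terms of cells -/
theorem caseIII_gen {i0 i1 i2 : Fin m} (b : Base p e e' i0 i1) (hi2 : ¬ Sp i0 i1 i2)
    (hP : IsPt p e (stdp i0 i1) x) (hP' : IsPt p e' (stdp i0 i1) y) : False := by
  have hx := sum3 hP.sum
  have hy := sum3 hP'.sum
  have he0 : e i0 ≠ 0 := by have := b.he i0; omega
  have he0' : e' i0 ≠ 0 := by have := b.he' i0; omega
  have he2 : e i2 ≠ 0 := by have := b.he i2; omega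
  have c0 := cell_std0 p e i0 i1
  have c2 := cell_std2 p e b.h01
  have c0' := cell_std0 p e' i0 i1
  have c2' := cell_std2 p e' b.h01
  have c1 := cell_std1_eq (p := p) b.rel
  have k01 := hP.cop 0 1 (by decide)
  have k12 := hP.cop 1 2 (by decide)
  have k01' := hP'.cop 0 1 (by decide)
  have k12' := hP'.cop 1 2 (by decide)
  rw [c0, c2] at hx
  rw [c0', c2', ← c1] at hy
  rw [c0, one_mul] at k01
  rw [c2] at k12
  rw [c0', one_mul, ← c1] at k01'
  rw [c2', ← c1] at k12'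
  refine caseIII (b.hp i0) (b.h3 i0) (b.hp i1) (b.h3 i1) (b.hp i2) (b.h3 i2)
    (B := (p i0 : ℤ) ^ e i0 * (p i1 : ℤ) ^ e i1) (B' := (p i0 : ℤ) ^ e' i0 * (p i1 : ℤ) ^ e' i1)
    (C := cell p e (stdp i0 i1) 1)
    b.BB (Dvd.dvd.mul_right (dvd_pow_self _ he0) _) (Dvd.dvd.mul_right (dvd_pow_self _ he0') _)
    ?_ ?_ (x := x 0) (y := x 1) (z := x 2) (x' := y 0) (y' := y 1) (z' := y 2)
    (by linear_combination hx) (by linear_combination hy) k01 k12 k01' k12' (hP.ne 2) (hP'.ne 2)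
    (b.hw i0) (b.hw i2)
  · rw [cell_std1]
    exact dvd_prod_if (fun j => ¬ Sp i0 i1 j) hi2 he2
  · intro l hl hlC
    rw [cell_std1] at hlC
    obtain ⟨j, hj⟩ := SPr.prod p (fun j => ¬ Sp i0 i1 j) e l hl hlC
    exact ⟨p j, b.hp j, b.h3 j, hl.associated_of_dvd (prime_inert (b.hp j) (b.h3 j)) hj⟩

end Pool.Agent.Lib_helper84.Cub
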