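import Pool.Agent.Lib_helper84.Cub.GlueB
import Pool.Agent.Lib_helper84.Cub.CaseThreeB
import Pool.Agent.Lib_helper84.Cub.CaseOneB

/-!
# The three cases in terms of cells; one or two exchanged primes, 3 allowed in the cells
-/

namespace Pool.Agent.Lib_helper84.Cub

open Pool.Agent.Lib_helper18 Pool.Agent.Lib_helper18.Eis

variable {m : ℕ} {p e e' : Fin m → ℕ} {pos pos' : Fin m → Fin 3} {x y : Fin 3 → ℤ} {i0 i1 : Fin m}

/-- data used in all cases; `i0 = i1` is allowed -/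
structure BaseG (p e e' : Fin m → ℕ) (i0 i1 : Fin m) : Prop where
  hp : ∀ i, (p i).Prime
  h3 : ∀ i, p i % 3 = 2 ∨ p i = 3
  inj : Function.Injective p
  he : ∀ i, e i = 1 ∨ e i = 2
  he' : ∀ i, e' i = 1 ∨ e' i = 2
  n0 : p i0 ≠ 3
  n1 : p i1 ≠ 3
  hw : ∀ i, p i ≠ 3 → sym (p i : Eis) w ≠ 0
  rel : Rel i0 i1 e e'

namespace BaseG

theorem symm (b : BaseG p e e' i0 i1) : BaseG p e' e i0 i1 where
  hp := b.hp
  h3 := b.h3
  inj := b.inj
  he := b.he'
  he' := b.he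
  n0 := b.n0
  n1 := b.n1
  hw := b.hw
  rel := b.rel.symm

theorem sp3 (b : BaseG p e e' i0 i1) {i : Fin m} (hi : Sp i0 i1 i) : p i % 3 = 2 := by
  rcases hi with rfl | rfl
  · exact (b.h3 _).resolve_right b.n0
  · exact (b.h3 _).resolve_right b.n1

end BaseG

/-- the product of the exchanged prime powers -/
def bS (p e : Fin m → ℕ) (i0 i1 : Fin m) : ℤ := ∏ j, if Sp i0 i1 j then (p j : ℤ) ^ e j else 1

/-- the product of the exchanged primes -/
def qS (p : Fin m → ℕ) (i0 i1 : Fin m) : ℤ := ∏ j, if Sp i0 i1 j then (p j : ℤ) ^ 1 else 1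

theorem BaseG.bb (b : BaseG p e e' i0 i1) : bS p e i0 i1 * bS p e' i0 i1 = qS p i0 i1 ^ 3 := by
  unfold bS qS
  rw [← Finset.prod_mul_distrib, ← Finset.prod_pow]
  refine Finset.prod_congr rfl (fun j _ => ?_)
  have hr := b.rel j
  split_ifs at hr ⊢ with hS
  · rw [← pow_add, hr]; ring
  · ring

theorem bS_single (p e : Fin m → ℕ) (i0 : Fin m) : bS p e i0 i0 = (p i0 : ℤ) ^ e i0 := by
  unfold bS
  rw [Finset.prod_eq_single i0]
  · simp
  · intro j _ hj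
    rw [if_neg]
    rintro (h | h) <;> exact hj h
  · intro h; exact absurd (Finset.mem_univ _) h

theorem qS_single (p : Fin m → ℕ) (i0 : Fin m) : qS p i0 i0 = (p i0 : ℤ) := by
  unfold qS
  rw [Finset.prod_eq_single i0]
  · simp
  · intro j _ hj
    rw [if_neg]
    rintro (h | h) <;> exact hj h
  · intro h; exact absurd (Finset.mem_univ _) h

theorem bS_double (p e : Fin m → ℕ) (h01 : i0 ≠ i1) :
    bS p e i0 i1 = (p i0 : ℤ) ^ e i0 * (p i1 : ℤ) ^ e i1 :=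
  prod_Sp h01 (fun j => (p j : ℤ) ^ e j)

/-- nonresidues -/
theorem BaseG.nonCube (b : BaseG p e e' i0 i1) {l : Eis} (hl : Prime l) (hl3 : ¬ l ∣ 3)
    (hno : ∀ j, ¬ l ∣ (p j : Eis))
    (h : i0 ≠ i1 ∧ (e i0 : ZMod 3) * sym l (p i0 : Eis) + (e i1 : ZMod 3) * sym l (p i1 : Eis) ≠ 0 ∨
      i0 = i1 ∧ sym l (p i0 : Eis) ≠ 0) : NonCube l (bS p e i0 i1) := by
  rcases h with ⟨h01, h⟩ | ⟨rfl, h⟩
  · rw [bS_double p e h01]
    have := bad_B (q := p i0) (r := p i1) (a := e i0) (b := e i1) hl hl3 (hno i0) (hno i1) h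
    intro u v huv
    apply this
    push_cast at huv
    exact huv
  · rw [bS_single]
    exact nonCube_pow hl hl3 (hno i0) (zmod_ne (b.he i0)) h

/-- primes dividing some `p j` are harmless -/
theorem BaseG.good (b : BaseG p e e' i0 i1) {l : Eis} (hl : Prime l) (hl3 : ¬ l ∣ 3)
    {j : Fin m} (hj : l ∣ (p j : Eis)) {i : Fin m} (hi : ¬ l ∣ (p i : Eis)) :
    sym l (p i : Eis) = 0 := by
  rcases b.h3 j with h | h
  · have hass := hl.associated_of_dvd (prime_inert (b.hp j) h) hj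
    have h1 : ¬ p j ∣ p i := fun h => hi (hass.dvd.trans (Nat.cast_dvd_cast h))
    rw [sym_associated hass, sym_nat (b.hp j) h h1]
  · rw [h] at hj
    exact absurd (by exact_mod_cast hj) hl3

/-! ### case II -/

/-- auxiliary products -/
def rdP (p : Fin m → ℕ) (i0 i1 : Fin m) (pos : Fin m → Fin 3) (k : Fin 3) : ℤ :=
  ∏ j, if Sp i0 i1 j ∧ pos j = k then (p j : ℤ) ^ 1 else 1

/-- the main element of case II in terms of cells -/
def tII (p : Fin m → ℕ) (i0 i1 : Fin m) (pos : Fin m → Fin 3) (x y : Fin 3 → ℤ) : Eis :=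
  tTwo (rdP p i0 i1 pos 1) (rdP p i0 i1 pos 0) (x 0) (x 1) (y 0) (y 1)

/-- the exchange of the positions -/
def Exch (i0 i1 : Fin m) (pos pos' : Fin m → Fin 3) : Prop :=
  ∀ j, pos' j = if Sp i0 i1 j then tau (pos j) else pos j

theorem exch_h1 (b : BaseG p e e' i0 i1) (hpos : Exch i0 i1 pos pos') :
    cell p e pos 0 * cell p e' pos' 1 * rdP p i0 i1 pos 1 ^ 3 =
      cell p e' pos' 0 * cell p e pos 1 * rdP p i0 i1 pos 0 ^ 3 := by
  unfold rdP
  simp only [cell, ← Finset.prod_mul_distrib, ← Finset.prod_pow]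
  refine Finset.prod_congr rfl (fun j _ => ?_)
  have hj := hpos j
  have hr := b.rel j
  have hej := b.he j
  have h3 : pos j = 0 ∨ pos j = 1 ∨ pos j = 2 := by
    generalize pos j = k; revert k; decide
  split_ifs at hj hr with hS
  · have hee : (e j = 1 ∧ e' j = 2) ∨ (e j = 2 ∧ e' j = 1) := by omega
    rcases h3 with h3 | h3 | h3 <;> rcases hee with ⟨he, h9⟩ | ⟨he, h9⟩ <;> rw [h3] at hj <;>
      simp [hj, h3, hS, he, h9, tau] <;> ring
  · rcases h3 with h3 | h3 | h3 <;> rw [h3] at hj <;> simp [hj, h3, hS, hr]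

theorem tII_at (b : BaseG p e e' i0 i1) (hP : IsPt p e pos x) (hP' : IsPt p e' pos' y)
    (hpos : Exch i0 i1 pos pos') {i : Fin m} (hi : Sp i0 i1 i) :
    ¬ (p i : Eis) ∣ tII p i0 i1 pos x y ∧
      sym (p i : Eis) (tII p i0 i1 pos x y) = fpos (pos i) * sym (p i : Eis) w := by
  have he0 : e i ≠ 0 := by have := b.he i; omega
  have he0' : e' i ≠ 0 := by have := b.he' i; omega
  have hp' := hpos i
  rw [if_pos hi] at hp'
  have hx := sum3 hP.sum
  have hy := sum3 hP'.sum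
  have key : ((p i : ℤ) ∣ cell p e pos 2 ∧ (p i : ℤ) ∣ cell p e' pos' 2 ∧
        ¬ (p i : ℤ) ∣ rdP p i0 i1 pos 1 ∧ fpos (pos i) = 2 ∨
      (p i : ℤ) ∣ cell p e pos 0 ∧ (p i : ℤ) ∣ cell p e' pos' 1 ∧
        (p i : ℤ) ∣ rdP p i0 i1 pos 0 ∧ ¬ (p i : ℤ) ∣ rdP p i0 i1 pos 1 ∧ fpos (pos i) = 1 ∨
      (p i : ℤ) ∣ cell p e pos 1 ∧ (p i : ℤ) ∣ cell p e' pos' 0 ∧
        (p i : ℤ) ∣ rdP p i0 i1 pos 1 ∧ ¬ (p i : ℤ) ∣ rdP p i0 i1 pos 0 ∧
        fpos (pos i) = 0) := by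
    have h3 : pos i = 0 ∨ pos i = 1 ∨ pos i = 2 := by
      generalize pos i = k; revert k; decide
    rcases h3 with h3 | h3 | h3
    · right; left
      rw [h3] at hp' ⊢
      exact ⟨dvd_prod_if (fun j => pos j = 0) h3 he0,
        dvd_prod_if (fun j => pos' j = 1) hp' he0',
        dvd_prod_if (fun j => Sp i0 i1 j ∧ pos j = 0) ⟨hi, h3⟩ one_ne_zero,
        not_dvd_prod_if b.hp b.inj (fun j => Sp i0 i1 j ∧ pos j = 1)
          (fun h => by have := h.2; rw [h3] at this; exact absurd this (by decide)), rfl⟩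
    · right; right
      rw [h3] at hp' ⊢
      exact ⟨dvd_prod_if (fun j => pos j = 1) h3 he0,
        dvd_prod_if (fun j => pos' j = 0) hp' he0',
        dvd_prod_if (fun j => Sp i0 i1 j ∧ pos j = 1) ⟨hi, h3⟩ one_ne_zero,
        not_dvd_prod_if b.hp b.inj (fun j => Sp i0 i1 j ∧ pos j = 0)
          (fun h => by have := h.2; rw [h3] at this; exact absurd this (by decide)), rfl⟩
    · left
      rw [h3] at hp' ⊢
      exact ⟨dvd_prod_if (fun j => pos j = 2) h3 he0,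
        dvd_prod_if (fun j => pos' j = 2) hp' he0',
        not_dvd_prod_if b.hp b.inj (fun j => Sp i0 i1 j ∧ pos j = 1)
          (fun h => by have := h.2; rw [h3] at this; exact absurd this (by decide)), rfl⟩
  exact caseII_one (b.hp i) (b.sp3 hi) hx (hP.cop 0 1 (by decide)) (hP.cop 1 2 (by decide)) hy
    (hP'.cop 0 1 (by decide)) (hP'.cop 0 2 (by decide)) (exch_h1 b hpos) key

theorem tII_loc (b : BaseG p e e' i0 i1) (hP : IsPt p e pos x) (hP' : IsPt p e' pos' y)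
    (hpos : Exch i0 i1 pos pos') {l : Eis} (hl : Prime l) (hl3 : ¬ l ∣ 3)
    (hno : ∀ j, ¬ l ∣ (p j : Eis)) (hbad : NonCube l (bS p e i0 i1)) :
    3 ∣ V l (tII p i0 i1 pos x y) := by
  have hx := sum3 hP.sum
  have hy := sum3 hP'.sum
  refine caseII_loc hl hl3
    (k := ∏ j, if Sp i0 i1 j ∧ (pos j = 1 ∨ pos j = 2 ∧ e j = 2) then (p j : ℤ) ^ 1 else 1)
    (m := ∏ j, if Sp i0 i1 j ∧ (pos j = 0 ∨ pos j = 2 ∧ e j = 2) then (p j : ℤ) ^ 1 else 1)
    hbad hx (hP.cop 0 1 (by decide)) hy (hP'.cop 0 1 (by decide))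
    (hP'.cop 0 2 (by decide)) (hP'.cop 1 2 (by decide)) (exch_h1 b hpos) ?_ ?_ ?_
    ⟨hP.ne 0, hP'.ne 2⟩
  · -- h2
    unfold bS
    simp only [cell, ← Finset.prod_mul_distrib, ← Finset.prod_pow]
    refine Finset.prod_congr rfl (fun j _ => ?_)
    have hj := hpos j
    have hr := b.rel j
    have hej := b.he j
    have h3 : pos j = 0 ∨ pos j = 1 ∨ pos j = 2 := by
      generalize pos j = k; revert k; decide
    split_ifs at hj hr with hS
    · have hee : (e j = 1 ∧ e' j = 2) ∨ (e j = 2 ∧ e' j = 1) := by omega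
      rcases h3 with h3 | h3 | h3 <;> rcases hee with ⟨he, h9⟩ | ⟨he, h9⟩ <;> rw [h3] at hj <;>
        simp [hj, h3, hS, he, h9, tau] <;> ring
    · rcases h3 with h3 | h3 | h3 <;> rw [h3] at hj <;> simp [hj, h3, hS, hr]
  · -- h3
    unfold bS
    simp only [cell, ← Finset.prod_mul_distrib, ← Finset.prod_pow]
    refine Finset.prod_congr rfl (fun j _ => ?_)
    have hj := hpos j
    have hr := b.rel j
    have hej := b.he j
    have h3 : pos j = 0 ∨ pos j = 1 ∨ pos j = 2 := by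
      generalize pos j = k; revert k; decide
    split_ifs at hj hr with hS
    · have hee : (e j = 1 ∧ e' j = 2) ∨ (e j = 2 ∧ e' j = 1) := by omega
      rcases h3 with h3 | h3 | h3 <;> rcases hee with ⟨he, h9⟩ | ⟨he, h9⟩ <;> rw [h3] at hj <;>
        simp [hj, h3, hS, he, h9, tau] <;> ring
    · rcases h3 with h3 | h3 | h3 <;> rw [h3] at hj <;> simp [hj, h3, hS, hr]
  · -- units
    intro hdvd
    have hS : SPr p (cell p e' pos' 0 * cell p e' pos' 1 * cell p e pos 1 * cell p e pos 2 *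
      rdP p i0 i1 pos 1 * rdP p i0 i1 pos 0 *
      (∏ j, if Sp i0 i1 j ∧ (pos j = 1 ∨ pos j = 2 ∧ e j = 2) then (p j : ℤ) ^ 1 else 1) *
      (∏ j, if Sp i0 i1 j ∧ (pos j = 0 ∨ pos j = 2 ∧ e j = 2) then (p j : ℤ) ^ 1 else 1)) := by
      refine SPr.mul (SPr.mul (SPr.mul (SPr.mul (SPr.mul (SPr.mul (SPr.mul ?_ ?_) ?_) ?_)
        ?_) ?_) ?_) ?_
      · exact SPr.prod p (fun j => pos' j = 0) e'
      · exact SPr.prod p (fun j => pos' j = 1) e'
      · exact SPr.prod p (fun j => pos j = 1) e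
      · exact SPr.prod p (fun j => pos j = 2) e
      · exact SPr.prod p (fun j => Sp i0 i1 j ∧ pos j = 1) (fun _ => 1)
      · exact SPr.prod p (fun j => Sp i0 i1 j ∧ pos j = 0) (fun _ => 1)
      · exact SPr.prod p (fun j => Sp i0 i1 j ∧ (pos j = 1 ∨ pos j = 2 ∧ e j = 2)) (fun _ => 1)
      · exact SPr.prod p (fun j => Sp i0 i1 j ∧ (pos j = 0 ∨ pos j = 2 ∧ e j = 2)) (fun _ => 1)
    obtain ⟨j, hj⟩ := hS l hl hdvd
    exact hno j hj

/-- the product formula for two exchanged primes -/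
theorem dbl_of (b : BaseG p e e' i0 i1) (h01 : i0 ≠ i1)
    (hab : (e i0 : ZMod 3) * sym (p i0 : Eis) w + (e i1 : ZMod 3) * sym (p i1 : Eis) w = 0)
    {t : Eis} {f g : ZMod 3}
    (h0 : ¬ (p i0 : Eis) ∣ t ∧ sym (p i0 : Eis) t = f * sym (p i0 : Eis) w)
    (h1 : ¬ (p i1 : Eis) ∣ t ∧ sym (p i1 : Eis) t = g * sym (p i1 : Eis) w)
    (hloc : ∀ l : Eis, Prime l → ¬ l ∣ 3 → (∀ j, ¬ l ∣ (p j : Eis)) → NonCube l (bS p e i0 i1) →
      3 ∣ V l t) : f = g := by
  have q3 := b.sp3 (Or.inl rfl : Sp i0 i1 i0)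
  have r3 := b.sp3 (Or.inr rfl : Sp i0 i1 i1)
  have hQ := prime_inert (b.hp i0) q3
  have hR := prime_inert (b.hp i1) r3
  refine concl_eq (a := (e i0 : ZMod 3)) (b := (e i1 : ZMod 3)) hab (zmod_ne (b.he i0))
    (b.hw i0 b.n0) ?_
  rw [← h0.2, ← h1.2]
  have ht0 : t ≠ 0 := by
    intro h; rw [h] at h0; exact h0.1 (dvd_zero _)
  refine lemmaB (b.hp i0) q3 (b.hp i1) r3 _ _ hab _ _ rfl ht0 h0.1 h1.1 ?_
  intro l hl hl3 hlt
  have hlq : ¬ l ∣ (p i0 : Eis) := fun h => h0.1 ((hl.associated_of_dvd hQ h).symm.dvd.trans hlt)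
  have hlr : ¬ l ∣ (p i1 : Eis) := fun h => h1.1 ((hl.associated_of_dvd hR h).symm.dvd.trans hlt)
  by_cases hno : ∃ j, l ∣ (p j : Eis)
  · left
    obtain ⟨j, hj⟩ := hno
    rw [b.good hl hl3 hj hlq, b.good hl hl3 hj hlr]; ring
  push Not at hno
  by_cases hgood : (e i0 : ZMod 3) * sym l (p i0 : Eis) + (e i1 : ZMod 3) * sym l (p i1 : Eis) = 0
  · exact Or.inl hgood
  · exact Or.inr (hloc l hl hl3 hno (b.nonCube hl hl3 hno (Or.inl ⟨h01, hgood⟩)))

/-- the product formula for one exchanged prime -/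
theorem sgl_of (b : BaseG p e e' i0 i0) {t : Eis} {f c : ZMod 3}
    (h0 : ¬ (p i0 : Eis) ∣ t ∧ sym (p i0 : Eis) t = f * sym (p i0 : Eis) w)
    (hc : Cls t c)
    (hloc : ∀ l : Eis, Prime l → ¬ l ∣ 3 → (∀ j, ¬ l ∣ (p j : Eis)) → NonCube l (bS p e i0 i0) →
      3 ∣ V l t) : f = c := by
  have q3 := b.sp3 (Or.inl rfl : Sp i0 i0 i0)
  have hQ := prime_inert (b.hp i0) q3
  have h1 := lemmaB1 (b.hp i0) q3 h0.1 hc (by
    intro l hl hl3 hlt
    have hlq : ¬ l ∣ (p i0 : Eis) := fun h => h0.1 ((hl.associated_of_dvd hQ h).symm.dvd.trans hlt)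
    by_cases hno : ∃ j, l ∣ (p j : Eis)
    · left
      obtain ⟨j, hj⟩ := hno
      exact b.good hl hl3 hj hlq
    push Not at hno
    by_cases hgood : sym l (p i0 : Eis) = 0
    · exact Or.inl hgood
    · exact Or.inr (hloc l hl hl3 hno (b.nonCube hl hl3 hno (Or.inr ⟨rfl, hgood⟩))))
  rw [h0.2] at h1
  exact mul_right_cancel₀ (b.hw i0 b.n0) h1

theorem caseII_dbl (b : BaseG p e e' i0 i1) (h01 : i0 ≠ i1)
    (hab : (e i0 : ZMod 3) * sym (p i0 : Eis) w + (e i1 : ZMod 3) * sym (p i1 : Eis) w = 0)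
    (hP : IsPt p e pos x) (hP' : IsPt p e' pos' y) (hpos : Exch i0 i1 pos pos') :
    pos i0 = pos i1 :=
  fpos_inj _ _ (dbl_of b h01 hab (tII_at b hP hP' hpos (Or.inl rfl))
    (tII_at b hP hP' hpos (Or.inr rfl)) (fun _ hl hl3 hno hbad => tII_loc b hP hP' hpos hl hl3 hno hbad))

theorem caseII_sgl (b : BaseG p e e' i0 i0)
    (hP : IsPt p e pos x) (hP' : IsPt p e' pos' y) (hpos : Exch i0 i0 pos pos') {c : ZMod 3}
    (hc : Cls (tII p i0 i0 pos x y) c) : fpos (pos i0) = c :=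
  sgl_of b (tII_at b hP hP' hpos (Or.inl rfl)) hc
    (fun _ hl hl3 hno hbad => tII_loc b hP hP' hpos hl hl3 hno hbad)

/-! ### case I -/

/-- the terms of a point -/
def term (p e : Fin m → ℕ) (pos : Fin m → Fin 3) (x : Fin 3 → ℤ) (k : Fin 3) : ℤ :=
  cell p e pos k * x k ^ 3

/-- the main element of case I in terms of cells -/
def tI (p e : Fin m → ℕ) (i0 i1 : Fin m) (pos : Fin m → Fin 3) (x y : Fin 3 → ℤ) : Eis :=
  tOne (qS p i0 i1) (term p e pos x 0) (term p e pos x 1) (term p e pos x 2)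
    (x 0 * x 1 * x 2) (y 1) (y 2)

theorem cell_std2' (p e : Fin m → ℕ) (i0 i1 : Fin m) : cell p e (stdp i0 i1) 2 = bS p e i0 i1 := by
  unfold cell stdp bS
  refine Finset.prod_congr rfl (fun j _ => ?_)
  by_cases h : Sp i0 i1 j
  · rw [if_pos h, if_pos rfl, if_pos h]
  · rw [if_neg h, if_neg (by decide), if_neg h]

theorem tI_at (b : BaseG p e e' i0 i1) (hP : IsPt p e pos x) (hP' : IsPt p e' (stdp i0 i1) y)
    {i : Fin m} (hi : Sp i0 i1 i) :
    (¬ (p i : Eis) ∣ tI p e i0 i1 pos x y ∧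
      sym (p i : Eis) (tI p e i0 i1 pos x y) = ((pos i : ℕ) : ZMod 3) * sym (p i : Eis) w) ∧
      y 1 ≠ 0 ∧ res (term p e pos x 0) (term p e pos x 1) (term p e pos x 2) ≠ 0 := by
  have he : e i ≠ 0 := by have := b.he i; omega
  have he' : e' i ≠ 0 := by have := b.he' i; omega
  have hx := sum3 hP.sum
  have h12 := hP'.cop 1 2 (by decide)
  rw [cell_std2'] at h12
  obtain ⟨h1, h2, h3, h4⟩ := caseI_at (w0 := x 0 * x 1 * x 2) (b.hp i) (b.sp3 hi)
    (Q := qS p i0 i1) (B' := bS p e' i0 i1)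
    (dvd_prod_if (fun j => Sp i0 i1 j) hi one_ne_zero)
    (dvd_prod_if (fun j => Sp i0 i1 j) hi he')
    (X0 := term p e pos x 0) (X1 := term p e pos x 1) (X2 := term p e pos x 2) hx
    (coprime_cube (hP.cop 0 1 (by decide)))
    (coprime_cube (hP.cop 0 2 (by decide))) h12
    (cast_pos (pos i) (fun k => (p i : ℤ) ∣ term p e pos x k)
      (Dvd.dvd.mul_right (dvd_prod_if (fun j => pos j = pos i) rfl he) _))
  exact ⟨⟨h1, h2⟩, h3, h4⟩

theorem tI_loc (b : BaseG p e e' i0 i1) (hP : IsPt p e pos x) (hP' : IsPt p e' (stdp i0 i1) y)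
    {l : Eis} (hl : Prime l) (hl3 : ¬ l ∣ 3)
    (hno : ∀ j, ¬ l ∣ (p j : Eis)) (hbad : NonCube l (bS p e i0 i1)) :
    3 ∣ V l (tI p e i0 i1 pos x y) := by
  have hx := sum3 hP.sum
  have hy := sum3 hP'.sum
  have hprod := cell_prod p e pos
  have hprod' := cell_prod p e (stdp i0 i1)
  rw [cell_std0, cell_std2', one_mul] at hprod'
  have c0 := cell_std0 p e' i0 i1
  have c1 := cell_std1_eq (p := p) b.rel
  obtain ⟨-, hy0, hs0⟩ := tI_at b hP hP' (Or.inl rfl)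
  have k01 := hP'.cop 0 1 (by decide)
  have k02 := hP'.cop 0 2 (by decide)
  rw [c0, one_mul] at k01
  rw [c0, one_mul, cell_std2'] at k02
  rw [c0, cell_std2'] at hy
  refine caseI_loc (B := bS p e i0 i1) (B' := bS p e' i0 i1) (C := cell p e' (stdp i0 i1) 1)
    (x := y 0) hl hl3 ?_ hbad b.bb hx ?_ (coprime_cube (hP.cop 0 1 (by decide))) ?_ k01 k02 hy0 hs0
  · intro h
    obtain ⟨j, hj⟩ := SPr.prod p (fun j => Sp i0 i1 j) (fun _ => 1) l hl h
    exact hno j hj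
  · rw [← c1]
    have e1 : term p e pos x 0 * term p e pos x 1 * term p e pos x 2 =
      (cell p e pos 0 * cell p e pos 1 * cell p e pos 2) * (x 0 * x 1 * x 2) ^ 3 := by
      unfold term; ring
    rw [e1, hprod, ← hprod']; ring
  · linear_combination hy

theorem pos_cast_inj : ∀ a b : Fin 3, ((a : ℕ) : ZMod 3) = ((b : ℕ) : ZMod 3) → a = b := by decide

theorem caseI_dbl (b : BaseG p e e' i0 i1) (h01 : i0 ≠ i1)
    (hab : (e i0 : ZMod 3) * sym (p i0 : Eis) w + (e i1 : ZMod 3) * sym (p i1 : Eis) w = 0)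
    (hP : IsPt p e pos x) (hP' : IsPt p e' (stdp i0 i1) y) : pos i0 = pos i1 :=
  pos_cast_inj _ _ (dbl_of b h01 hab (tI_at b hP hP' (Or.inl rfl)).1
    (tI_at b hP hP' (Or.inr rfl)).1 (fun _ hl hl3 hno hbad => tI_loc b hP hP' hl hl3 hno hbad))

theorem caseI_sgl (b : BaseG p e e' i0 i0)
    (hP : IsPt p e pos x) (hP' : IsPt p e' (stdp i0 i0) y) {c : ZMod 3}
    (hc : Cls (tI p e i0 i0 pos x y) c) : ((pos i0 : ℕ) : ZMod 3) = c :=
  sgl_of b (tI_at b hP hP' (Or.inl rfl)).1 hc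
    (fun _ hl hl3 hno hbad => tI_loc b hP hP' hl hl3 hno hbad)

/-! ### case III -/

theorem inertD_prod (b : BaseG p e e' i0 i1) (c : Fin m → Prop) [DecidablePred c]
    (n : Fin m → ℕ) : InertD (∏ j, if c j then (p j : ℤ) ^ n j else 1) := by
  intro l hl hl3 h
  obtain ⟨j, hj⟩ := SPr.prod p c n l hl h
  rcases b.h3 j with h | h
  · exact ⟨p j, b.hp j, h, hl.associated_of_dvd (prime_inert (b.hp j) h) hj⟩
  · rw [h] at hj
    exact absurd (by exact_mod_cast hj) hl3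

theorem caseIII_any (b : BaseG p e e' i0 i1) {i2 : Fin m} (hi2 : ¬ Sp i0 i1 i2) (h2 : p i2 ≠ 3)
    (hP : IsPt p e (stdp i0 i1) x) (hP' : IsPt p e' (stdp i0 i1) y) : False := by
  have hx := sum3 hP.sum
  have hy := sum3 hP'.sum
  have he0 : e i0 ≠ 0 := by have := b.he i0; omega
  have he0' : e' i0 ≠ 0 := by have := b.he' i0; omega
  have he2 : e i2 ≠ 0 := by have := b.he i2; omega
  have c0 := cell_std0 p e i0 i1
  have c0' := cell_std0 p e' i0 i1
  have c1 := cell_std1_eq (p := p) b.rel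
  have k01 := hP.cop 0 1 (by decide)
  have k12 := hP.cop 1 2 (by decide)
  have k01' := hP'.cop 0 1 (by decide)
  have k12' := hP'.cop 1 2 (by decide)
  rw [c0, cell_std2'] at hx
  rw [c0', cell_std2', ← c1] at hy
  rw [c0, one_mul] at k01
  rw [cell_std2'] at k12
  rw [c0', one_mul, ← c1] at k01'
  rw [cell_std2', ← c1] at k12'
  refine caseIII_gen' (b.hp i0) (b.sp3 (Or.inl rfl)) (b.hp i2) ((b.h3 i2).resolve_right h2)
    (B := bS p e i0 i1) (B' := bS p e' i0 i1)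
    (C := cell p e (stdp i0 i1) 1) (Q := qS p i0 i1)
    b.bb (dvd_prod_if (fun j => Sp i0 i1 j) (Or.inl rfl) one_ne_zero)
    (dvd_prod_if (fun j => Sp i0 i1 j) (Or.inl rfl) he0)
    (dvd_prod_if (fun j => Sp i0 i1 j) (Or.inl rfl) he0') ?_ ?_ ?_
    (x := x 0) (y := x 1) (z := x 2) (x' := y 0) (y' := y 1) (z' := y 2)
    (by linear_combination hx) (by linear_combination hy) k01 k12 k01' k12' (hP.ne 2) (hP'.ne 2)
    (b.hw i0 b.n0) (b.hw i2 h2)
  · rw [cell_std1]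
    exact dvd_prod_if (fun j => ¬ Sp i0 i1 j) hi2 he2
  · rw [cell_std1]
    exact inertD_prod b (fun j => ¬ Sp i0 i1 j) e
  · exact inertD_prod b (fun j => Sp i0 i1 j) (fun _ => 1)

end Pool.Agent.Lib_helper84.Cub
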