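import Pool.Agent.Lib_helper84.Cub.Final

/-!
# The theorems on pairs of cubic twists with three or four prime factors
-/

namespace Pool.Agent.Lib_helper84.Cub

open Pool.Agent.Lib_helper18 Pool.Agent.Lib_helper18.Eis

/-- three primes, fixed pair of indices -/
theorem three_fixed {p e e' : Fin 3 → ℕ} (hp : ∀ i, (p i).Prime)
    (h9 : ∀ i, p i % 9 = 2 ∨ p i % 9 = 5)
    (hinj : Function.Injective p) (he : ∀ i, e i = 1 ∨ e i = 2) (he' : ∀ i, e' i = 1 ∨ e' i = 2)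
    {i0 i1 i2 : Fin 3} (h01 : i0 ≠ i1) (h02 : i0 ≠ i2) (h12 : i1 ≠ i2)
    (hab : (e i0 : ZMod 3) * wq (p i0 : ℤ) + (e i1 : ZMod 3) * wq (p i1 : ℤ) = 0)
    (rel : Rel i0 i1 e e') :
    ¬ (IsSum (∏ i, (p i : ℚ) ^ e i) ∧ IsSum (∏ i, (p i : ℚ) ^ e' i)) := by
  rintro ⟨hA, hA'⟩
  have b := mk_base hp h9 hinj he he' h01 hab rel
  obtain ⟨pos, x, hpos, hP, -⟩ := CubStep0.step0 (le_refl _ |>.trans (by norm_num)) hp h9 hinj he hA
  obtain ⟨pos', x', hpos', hP', -⟩ := CubStep0.step0 (le_refl _ |>.trans (by norm_num)) hp h9 hinj he' hA'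
  have hall : ∀ j : Fin 3, j = i0 ∨ j = i1 ∨ j = i2 := by
    revert h01 h02 h12; clear * -
    revert i0 i1 i2; decide
  have hi2 : ¬ Sp i0 i1 i2 := by
    rintro (h | h)
    · exact h02 h.symm
    · exact h12 h.symm
  have same : ∀ pos : Fin 3 → Fin 3, (∀ k, ∃ j, pos j ≠ k) → pos i0 = pos i1 →
      ∃ k, ∀ j, pf k (pos j) = stdp i0 i1 j := by
    intro pos hne h
    have h2 : pos i0 ≠ pos i2 := by
      intro h2
      obtain ⟨j, hj⟩ := hne (pos i0)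
      rcases hall j with rfl | rfl | rfl
      · exact hj rfl
      · exact hj h.symm
      · exact hj h2.symm
    obtain ⟨k, hk1, hk2⟩ := std3 _ _ h2
    refine ⟨k, fun j => ?_⟩
    rcases hall j with rfl | rfl | rfl
    · rw [stdp, if_pos (Or.inl rfl)]; exact hk1
    · rw [stdp, if_pos (Or.inr rfl), ← h]; exact hk1
    · rw [stdp, if_neg hi2]; exact hk2
  refine glue b hi2 hP hP' (same pos hpos) (same pos' hpos') ?_
  intro g1 g2
  obtain ⟨k, k', c0, c1, c2⟩ := comb3 _ _ (pos i2) _ _ (pos' i2) g1 g2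
  refine ⟨k, k', fun j => ?_⟩
  rcases hall j with rfl | rfl | rfl
  · rw [if_pos (Or.inl rfl)]; exact c0
  · rw [if_pos (Or.inr rfl)]; exact c1
  · rw [if_neg hi2]; exact c2

/-- four primes, fixed pair of indices -/
theorem four_fixed {p e e' : Fin 4 → ℕ} (hp : ∀ i, (p i).Prime)
    (h9 : ∀ i, p i % 9 = 2 ∨ p i % 9 = 5)
    (hinj : Function.Injective p) (he : ∀ i, e i = 1 ∨ e i = 2) (he' : ∀ i, e' i = 1 ∨ e' i = 2)
    {i0 i1 i2 i3 : Fin 4} (h01 : i0 ≠ i1) (h02 : i0 ≠ i2) (h12 : i1 ≠ i2) (h03 : i0 ≠ i3)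
    (h13 : i1 ≠ i3) (h23 : i2 ≠ i3)
    (hab : (e i0 : ZMod 3) * wq (p i0 : ℤ) + (e i1 : ZMod 3) * wq (p i1 : ℤ) = 0)
    (hcd : (e i2 : ZMod 3) * wq (p i2 : ℤ) + (e i3 : ZMod 3) * wq (p i3 : ℤ) = 0)
    (rel : Rel i0 i1 e e') :
    ¬ (IsSum (∏ i, (p i : ℚ) ^ e i) ∧ IsSum (∏ i, (p i : ℚ) ^ e' i)) := by
  rintro ⟨hA, hA'⟩
  have b := mk_base hp h9 hinj he he' h01 hab rel
  have hall : ∀ j : Fin 4, j = i0 ∨ j = i1 ∨ j = i2 ∨ j = i3 := by
    revert h01 h02 h12 h03 h13 h23; clear * -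
    revert i0 i1 i2 i3; decide
  have hsum : ∀ f : Fin 4 → ZMod 3, ∑ j, f j = f i0 + f i1 + f i2 + f i3 := by
    intro f
    have hu : (Finset.univ : Finset (Fin 4)) = {i0, i1, i2, i3} := by
      ext j
      simp only [Finset.mem_univ, Finset.mem_insert, Finset.mem_singleton, true_iff]
      exact hall j
    rw [hu, Finset.sum_insert, Finset.sum_insert, Finset.sum_insert, Finset.sum_singleton]
    · ring
    · simpa using h23
    · simp [h12, h13]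
    · simp [h01, h02, h03]
  have hi2 : ¬ Sp i0 i1 i2 := by
    rintro (h | h)
    · exact h02 h.symm
    · exact h12 h.symm
  have hi3 : ¬ Sp i0 i1 i3 := by
    rintro (h | h)
    · exact h03 h.symm
    · exact h13 h.symm
  have r0 := rel i0
  have r1 := rel i1
  have r2 := rel i2
  have r3 := rel i3
  rw [if_pos (Or.inl rfl)] at r0
  rw [if_pos (Or.inr rfl)] at r1
  rw [if_neg hi2] at r2
  rw [if_neg hi3] at r3
  have z0 : (e' i0 : ZMod 3) = -(e i0 : ZMod 3) := by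
    have := congrArg (fun n : ℕ => (n : ZMod 3)) r0
    push_cast at this
    linear_combination this + three_zmod
  have z1 : (e' i1 : ZMod 3) = -(e i1 : ZMod 3) := by
    have := congrArg (fun n : ℕ => (n : ZMod 3)) r1
    push_cast at this
    linear_combination this + three_zmod
  have n3A : ∀ e : Fin 4 → ℕ, ¬ (3 : ℤ) ∣ ∏ i, (p i : ℤ) ^ e i := by
    intro e h
    rw [Prime.dvd_finsetProd_iff Int.prime_three] at h
    obtain ⟨j, -, hj⟩ := h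
    exact not_three_dvd (h9 j) (Int.prime_three.dvd_of_dvd_pow hj)
  have A9 : (∏ i, (p i : ℤ) ^ e i) % 9 = 1 ∨ (∏ i, (p i : ℤ) ^ e i) % 9 = 8 := by
    rw [← wq_zero_iff (n3A e), wq_all h9, hsum]
    linear_combination hab + hcd
  have A9' : (∏ i, (p i : ℤ) ^ e' i) % 9 = 1 ∨ (∏ i, (p i : ℤ) ^ e' i) % 9 = 8 := by
    rw [← wq_zero_iff (n3A e'), wq_all h9, hsum, z0, z1, ← r2, ← r3]
    linear_combination hcd - hab
  obtain ⟨pos, x, hpos, hP, hw⟩ := CubStep0.step0 (by norm_num) hp h9 hinj he hA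
  obtain ⟨pos', x', hpos', hP', hw'⟩ := CubStep0.step0 (by norm_num) hp h9 hinj he' hA'
  have hw1 := hw A9
  have hw2 := hw' A9'
  -- weights
  set s := (e i0 : ZMod 3) * wq (p i0 : ℤ) with hs
  set u := (e i2 : ZMod 3) * wq (p i2 : ℤ) with hu
  have hs1 : (e i1 : ZMod 3) * wq (p i1 : ℤ) = -s := by linear_combination hab
  have hu1 : (e i3 : ZMod 3) * wq (p i3 : ℤ) = -u := by linear_combination hcd
  have hs0 : s ≠ 0 := mul_ne_zero (zmod_ne (he i0)) (wq_ne (h9 i0))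
  have hu0 : u ≠ 0 := mul_ne_zero (zmod_ne (he i2)) (wq_ne (h9 i2))
  have cw1 : ∀ k, wq (cell p e pos k) = cw s (-s) u (-u) (pos i0) (pos i1) (pos i2) (pos i3) k := by
    intro k
    rw [wq_cell h9, hsum, hs1, hu1, ← hs, ← hu]; rfl
  have cw2 : ∀ k, wq (cell p e' pos' k) =
      cw (-s) s u (-u) (pos' i0) (pos' i1) (pos' i2) (pos' i3) k := by
    intro k
    rw [wq_cell h9, hsum, z0, z1, ← r2, ← r3, ← hu, hu1]
    have e1 : -(e i0 : ZMod 3) * wq (p i0 : ℤ) = -s := by rw [hs]; ring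
    have e2 : -(e i1 : ZMod 3) * wq (p i1 : ℤ) = s := by linear_combination -hs1
    rw [e1, e2]; rfl
  have C1 : cwEq s (-s) u (-u) (pos i0) (pos i1) (pos i2) (pos i3) :=
    ⟨by rw [← cw1, ← cw1]; exact hw1 _ _, by rw [← cw1, ← cw1]; exact hw1 _ _⟩
  have C2 : cwEq (-s) s u (-u) (pos' i0) (pos' i1) (pos' i2) (pos' i3) :=
    ⟨by rw [← cw2, ← cw2]; exact hw2 _ _, by rw [← cw2, ← cw2]; exact hw2 _ _⟩
  have same : ∀ (s : ZMod 3) (pos : Fin 4 → Fin 3), s ≠ 0 → (∀ k, ∃ j, pos j ≠ k) →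
      cwEq s (-s) u (-u) (pos i0) (pos i1) (pos i2) (pos i3) → pos i0 = pos i1 →
      ∃ k, ∀ j, pf k (pos j) = stdp i0 i1 j := by
    intro s pos hs0 hne hC h
    rw [← h] at hC
    have h5 : ¬ (pos i2 = pos i0 ∧ pos i3 = pos i0) := by
      rintro ⟨h2, h3⟩
      obtain ⟨j, hj⟩ := hne (pos i0)
      rcases hall j with rfl | rfl | rfl | rfl
      · exact hj rfl
      · exact hj h.symm
      · exact hj h2
      · exact hj h3
    obtain ⟨h6, h7⟩ := comb4same s u hs0 hu0 _ _ _ h5 hC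
    obtain ⟨k, hk1, hk2⟩ := std3 _ _ h7
    refine ⟨k, fun j => ?_⟩
    rcases hall j with rfl | rfl | rfl | rfl
    · rw [stdp, if_pos (Or.inl rfl)]; exact hk1
    · rw [stdp, if_pos (Or.inr rfl), ← h]; exact hk1
    · rw [stdp, if_neg hi2]; exact hk2
    · rw [stdp, if_neg hi3, ← h6]; exact hk2
  refine glue b hi2 hP hP' (same s pos hs0 hpos C1) (same (-s) pos' (neg_ne_zero.mpr hs0) hpos'
    (by rw [neg_neg]; exact C2)) ?_
  intro g1 g2
  obtain ⟨k, k', c0, c1, c2, c3⟩ := comb4diff s u hs0 hu0 _ _ _ _ g1 C1 _ _ _ _ g2 C2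
  refine ⟨k, k', fun j => ?_⟩
  rcases hall j with rfl | rfl | rfl | rfl
  · rw [if_pos (Or.inl rfl)]; exact c0
  · rw [if_pos (Or.inr rfl)]; exact c1
  · rw [if_neg hi2]; exact c2
  · rw [if_neg hi3]; exact c3

theorem zmod_exp {a b : ℕ} {v : ZMod 3} (ha : a = 1 ∨ a = 2) (hb : b = 1 ∨ b = 2) (hv : v ≠ 0) :
    ((a : ZMod 3) * v = b * v ↔ a = b) := by
  rcases ha with rfl | rfl <;> rcases hb with rfl | rfl <;> simp <;> revert v <;> decide

theorem three_sum_aux : ∀ s0 s1 s2 t0 t1 t2 : ZMod 3, s0 ≠ 0 → s1 ≠ 0 → s2 ≠ 0 → t0 ≠ 0 → t1 ≠ 0 →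
    t2 ≠ 0 → s0 + s1 + s2 = t0 + t1 + t2 → s0 + s1 + s2 ≠ 0 → ¬ (s0 = t0 ∧ s1 = t1 ∧ s2 = t2) →
    (s0 = t0 ∧ s1 ≠ t1 ∧ s2 ≠ t2 ∧ s1 + s2 = 0) ∨ (s1 = t1 ∧ s0 ≠ t0 ∧ s2 ≠ t2 ∧ s0 + s2 = 0) ∨
    (s2 = t2 ∧ s0 ≠ t0 ∧ s1 ≠ t1 ∧ s0 + s1 = 0) := by
  decide

theorem rel_of {m : ℕ} {e e' : Fin m → ℕ} (he : ∀ i, e i = 1 ∨ e i = 2)
    (he' : ∀ i, e' i = 1 ∨ e' i = 2) {i0 i1 : Fin m} (h0 : e i0 ≠ e' i0) (h1 : e i1 ≠ e' i1)
    (h : ∀ j, j ≠ i0 → j ≠ i1 → e j = e' j) : Rel i0 i1 e e' := by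
  intro j
  have a := he j
  have b := he' j
  by_cases hS : Sp i0 i1 j
  · rw [if_pos hS]
    rcases hS with rfl | rfl <;> omega
  · rw [if_neg hS]
    exact h j (fun h => hS (Or.inl h)) (fun h => hS (Or.inr h))

/-- **Theorem on three primes**: pairs -/
theorem three_pair {p e e' : Fin 3 → ℕ} (hp : ∀ i, (p i).Prime)
    (h9 : ∀ i, p i % 9 = 2 ∨ p i % 9 = 5)
    (hinj : Function.Injective p) (he : ∀ i, e i = 1 ∨ e i = 2) (he' : ∀ i, e' i = 1 ∨ e' i = 2)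
    (hne : e ≠ e') (hwne : wq (∏ i, (p i : ℤ) ^ e i) ≠ 0)
    (hweq : wq (∏ i, (p i : ℤ) ^ e i) = wq (∏ i, (p i : ℤ) ^ e' i)) :
    ¬ (IsSum (∏ i, (p i : ℚ) ^ e i) ∧ IsSum (∏ i, (p i : ℚ) ^ e' i)) := by
  rw [wq_all h9, wq_all h9, Fin.sum_univ_three, Fin.sum_univ_three] at hweq
  rw [wq_all h9, Fin.sum_univ_three] at hwne
  have hz : ∀ i, (e i : ZMod 3) * wq (p i : ℤ) ≠ 0 := fun i =>
    mul_ne_zero (zmod_ne (he i)) (wq_ne (h9 i))
  have hz' : ∀ i, (e' i : ZMod 3) * wq (p i : ℤ) ≠ 0 := fun i =>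
    mul_ne_zero (zmod_ne (he' i)) (wq_ne (h9 i))
  have hiff : ∀ i, ((e i : ZMod 3) * wq (p i : ℤ) = (e' i : ZMod 3) * wq (p i : ℤ) ↔ e i = e' i) :=
    fun i => zmod_exp (he i) (he' i) (wq_ne (h9 i))
  have h0 := hiff 0
  have h1 := hiff 1
  have h2 := hiff 2
  rcases three_sum_aux _ _ _ _ _ _ (hz 0) (hz 1) (hz 2) (hz' 0) (hz' 1) (hz' 2) hweq hwne (by
    rintro ⟨a, b, c⟩
    apply hne
    funext i
    fin_cases i
    · exact h0.mp a
    · exact h1.mp b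
    · exact h2.mp c) with ⟨a, b, c, d⟩ | ⟨a, b, c, d⟩ | ⟨a, b, c, d⟩
  · rw [h0] at a; rw [Ne, h1] at b; rw [Ne, h2] at c
    exact three_fixed (i0 := 1) (i1 := 2) (i2 := 0) hp h9 hinj he he' (by decide) (by decide)
      (by decide) d (rel_of he he' b c (fun j g1 g2 => by
        fin_cases j
        · exact a
        · exact absurd rfl g1
        · exact absurd rfl g2))
  · rw [h1] at a; rw [Ne, h0] at b; rw [Ne, h2] at c
    exact three_fixed (i0 := 0) (i1 := 2) (i2 := 1) hp h9 hinj he he' (by decide) (by decide)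
      (by decide) d (rel_of he he' b c (fun j g1 g2 => by
        fin_cases j
        · exact absurd rfl g1
        · exact a
        · exact absurd rfl g2))
  · rw [h2] at a; rw [Ne, h0] at b; rw [Ne, h1] at c
    exact three_fixed (i0 := 0) (i1 := 1) (i2 := 2) hp h9 hinj he he' (by decide) (by decide)
      (by decide) d (rel_of he he' b c (fun j g1 g2 => by
        fin_cases j
        · exact absurd rfl g1
        · exact absurd rfl g2
        · exact a))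

end Pool.Agent.Lib_helper84.Cub
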