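import Pool.Agent.Lib_helper84.Cub.Info
import Pool.Agent.Lib_helper84.Cub.Pairs

/-!
# Three primes, one exchanged prime
-/

namespace Pool.Agent.Lib_helper84.Cub

open Pool.Agent.Lib_helper18 Pool.Agent.Lib_helper18.Eis

/-- weights of the cells, three primes -/
def cw3 (s0 s1 s2 : ZMod 3) (a b c k : Fin 3) : ZMod 3 :=
  (if a = k then s0 else 0) + (if b = k then s1 else 0) + (if c = k then s2 else 0)

/-- the compatible possibilities for the two exceptional cells -/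
def Comp (o o' : Fin 3) (f : ZMod 3) : Prop :=
  (o = 2 ∧ o' = 2 ∧ f ≠ 2) ∨ (o = 1 ∧ o' = 0 ∧ f ≠ 0) ∨ (o = 0 ∧ o' = 1 ∧ f ≠ 1)

instance (o o' : Fin 3) (f : ZMod 3) : Decidable (Comp o o' f) := by
  unfold Comp; infer_instance

def ExD (s u : ZMod 3) (a b c a' b' c' : Fin 3) : Prop := ∃ k k' : Fin 6,
    pf k' a' = tau (pf k a) ∧ pf k' b' = pf k b ∧ pf k' c' = pf k c ∧
    ∀ o o' : Fin 3, OO (cw3 s u (-u) (pf k a) (pf k b) (pf k c)) o →
      OO (cw3 (-s) u (-u) (pf k' a') (pf k' b') (pf k' c')) o' → Comp o o' (fpos (pf k a))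

instance (s u : ZMod 3) (a b c a' b' c' : Fin 3) : Decidable (ExD s u a b c a' b' c') := by
  unfold ExD; infer_instance

set_option maxRecDepth 100000 in
theorem combD : ∀ u : ZMod 3, u ≠ 0 → ∀ a b c a' b' c' : Fin 3, b ≠ c → b' ≠ c' →
    ExD 2 u a b c a' b' c' := by
  decide +kernel

theorem combD1 : ∀ s u : ZMod 3, s ≠ 0 → u ≠ 0 → ∀ a b c o : Fin 3, b ≠ c →
    OO (cw3 s u (-u) a b c) o → a ≠ o := by
  decide +kernel

theorem combD2 : ∀ s u : ZMod 3, s ≠ 0 → ∀ o : Fin 3, OO (cw3 s u (-u) 2 1 1) o → o = 2 := by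
  decide +kernel

section

variable {p e e' : Fin 3 → ℕ} {i0 i1 i2 : Fin 3} {pos : Fin 3 → Fin 3} {x : Fin 3 → ℤ}

theorem three_all (h01 : i0 ≠ i1) (h02 : i0 ≠ i2) (h12 : i1 ≠ i2) :
    ∀ j : Fin 3, j = i0 ∨ j = i1 ∨ j = i2 := by
  revert i0 i1 i2; decide

theorem three_sum (h01 : i0 ≠ i1) (h02 : i0 ≠ i2) (h12 : i1 ≠ i2) (f : Fin 3 → ZMod 3) :
    ∑ j, f j = f i0 + f i1 + f i2 := by
  have hu : (Finset.univ : Finset (Fin 3)) = {i0, i1, i2} := by
    ext j
    simp only [Finset.mem_univ, Finset.mem_insert, Finset.mem_singleton, true_iff]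
    exact three_all h01 h02 h12 j
  rw [hu, Finset.sum_insert, Finset.sum_insert, Finset.sum_singleton]
  · ring
  · simpa using h12
  · simp [h01, h02]

theorem wq_cell3 (h9 : ∀ i, p i % 9 = 2 ∨ p i % 9 = 5) (h01 : i0 ≠ i1) (h02 : i0 ≠ i2)
    (h12 : i1 ≠ i2) {s u : ZMod 3} (hs : (e i0 : ZMod 3) * wq (p i0 : ℤ) = s)
    (hu : (e i1 : ZMod 3) * wq (p i1 : ℤ) = u) (hu' : (e i2 : ZMod 3) * wq (p i2 : ℤ) = -u)
    (pos : Fin 3 → Fin 3) (k : Fin 3) :
    wq (cell p e pos k) = cw3 s u (-u) (pos i0) (pos i1) (pos i2) k := by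
  rw [wq_cell h9, three_sum h01 h02 h12, hs, hu, hu']
  rfl

theorem cell_three (h9 : ∀ i, p i % 9 = 2 ∨ p i % 9 = 5) (pos : Fin 3 → Fin 3) (k : Fin 3) :
    ¬ (3 : ℤ) ∣ cell p e pos k := by
  intro h
  rw [cell, Prime.dvd_finsetProd_iff Int.prime_three] at h
  obtain ⟨j, -, hj⟩ := h
  split_ifs at hj
  · exact not_three_dvd (h9 j) (Int.prime_three.dvd_of_dvd_pow hj)
  · omega

/-- one exchanged prime, fixed indices -/
theorem single_fixed (hp : ∀ i, (p i).Prime)
    (h9 : ∀ i, p i % 9 = 2 ∨ p i % 9 = 5)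
    (hinj : Function.Injective p) (he : ∀ i, e i = 1 ∨ e i = 2) (he' : ∀ i, e' i = 1 ∨ e' i = 2)
    (h01 : i0 ≠ i1) (h02 : i0 ≠ i2) (h12 : i1 ≠ i2)
    (h12w : (e i1 : ZMod 3) * wq (p i1 : ℤ) + (e i2 : ZMod 3) * wq (p i2 : ℤ) = 0)
    (hs : (e i0 : ZMod 3) * wq (p i0 : ℤ) = 2)
    (rel : Rel i0 i0 e e') :
    ¬ (IsSum (∏ i, (p i : ℚ) ^ e i) ∧ IsSum (∏ i, (p i : ℚ) ^ e' i)) := by
  rintro ⟨hA, hA'⟩
  have hp3 : ∀ i, p i ≠ 3 := fun i => by have := h9 i; omega
  have b : BaseG p e e' i0 i0 :=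
    { hp := hp
      h3 := fun i => Or.inl (by have := h9 i; omega)
      inj := hinj
      he := he
      he' := he'
      n0 := hp3 _
      n1 := hp3 _
      hw := fun i _ => by
        rw [FData.sym_w_r (hp i) (by have := h9 i; omega)]
        exact neg_ne_zero.mpr (wq_ne (h9 i))
      rel := rel }
  obtain ⟨pos, x, hpos, hP, -⟩ := CubStep0.step0 (le_refl _ |>.trans (by norm_num)) hp h9 hinj he hA
  obtain ⟨pos', y, hpos', hP', -⟩ := CubStep0.step0 (le_refl _ |>.trans (by norm_num)) hp h9 hinj he' hA'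
  have hall := three_all h01 h02 h12
  set u := (e i1 : ZMod 3) * wq (p i1 : ℤ) with hu
  have hu0 : u ≠ 0 := mul_ne_zero (zmod_ne (he i1)) (wq_ne (h9 i1))
  have hu' : (e i2 : ZMod 3) * wq (p i2 : ℤ) = -u := by linear_combination h12w
  have nS : ∀ {j : Fin 3}, i0 ≠ j → ¬ Sp i0 i0 j := by
    rintro j h (h' | h') <;> exact h h'.symm
  have r0 := rel i0
  have r1 := rel i1
  have r2 := rel i2
  rw [if_pos (Or.inl rfl)] at r0
  rw [if_neg (nS h01)] at r1
  rw [if_neg (nS h02)] at r2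
  have z0 : (e' i0 : ZMod 3) = -(e i0 : ZMod 3) := by
    have := congrArg (fun n : ℕ => (n : ZMod 3)) r0
    push_cast at this
    linear_combination this + three_zmod
  have hs' : (e' i0 : ZMod 3) * wq (p i0 : ℤ) = -2 := by rw [z0]; linear_combination -hs
  have hv1 : (e' i1 : ZMod 3) * wq (p i1 : ℤ) = u := by rw [← r1]
  have hv2 : (e' i2 : ZMod 3) * wq (p i2 : ℤ) = -u := by rw [← r2]; exact hu'
  have hwA' : wq (∏ j, (p j : ℤ) ^ e' j) = 1 := by
    rw [wq_all h9, three_sum h01 h02 h12, hs', hv1, hv2]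
    have : (-2 : ZMod 3) = 1 := by decide
    rw [this]; ring
  have cP := wq_cell3 h9 h01 h02 h12 hs hu.symm hu'
  have cP' := wq_cell3 h9 h01 h02 h12 hs' hv1 hv2
  have oP : ∀ {pos : Fin 3 → Fin 3} {x : Fin 3 → ℤ} {o : Fin 3}, PInfo p e pos x o →
      OO (cw3 2 u (-u) (pos i0) (pos i1) (pos i2)) o := by
    intro pos x o h i j hi hj
    have := h.out i j hi hj
    simp only at this
    rwa [cP, cP] at this
  have oP' : ∀ {pos : Fin 3 → Fin 3} {x : Fin 3 → ℤ} {o : Fin 3}, PInfo p e' pos x o →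
      OO (cw3 (-2) u (-u) (pos i0) (pos i1) (pos i2)) o := by
    intro pos x o h i j hi hj
    have := h.out i j hi hj
    simp only at this
    rwa [cP', cP'] at this
  -- normal form when `i1`, `i2` lie in the same cell
  have same : ∀ pos : Fin 3 → Fin 3, (∀ k, ∃ j, pos j ≠ k) → pos i1 = pos i2 →
      ∃ k, ∀ j, pf k (pos j) = stdp i0 i0 j := by
    intro pos hne h
    have h2 : pos i0 ≠ pos i1 := by
      intro h2
      obtain ⟨j, hj⟩ := hne (pos i0)
      rcases hall j with rfl | rfl | rfl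
      · exact hj rfl
      · exact hj h2.symm
      · exact hj (h.symm.trans h2.symm)
    obtain ⟨k, hk1, hk2⟩ := std3 _ _ h2
    refine ⟨k, fun j => ?_⟩
    rcases hall j with rfl | rfl | rfl
    · rw [stdp, if_pos (Or.inl rfl)]; exact hk1
    · rw [stdp, if_neg (nS h01)]; exact hk2
    · rw [stdp, if_neg (nS h02), ← h]; exact hk2
  have st0 : stdp i0 i0 i0 = 2 := by rw [stdp, if_pos (Or.inl rfl)]
  have st1 : stdp i0 i0 i1 = 1 := by rw [stdp, if_neg (nS h01)]
  have st2 : stdp i0 i0 i2 = 1 := by rw [stdp, if_neg (nS h02)]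
  by_cases g : pos i1 = pos i2
  · obtain ⟨k, hk⟩ := same pos hpos g
    obtain ⟨z, hz⟩ := hP.std hk
    by_cases g' : pos' i1 = pos' i2
    · obtain ⟨k', hk'⟩ := same pos' hpos' g'
      obtain ⟨z', hz'⟩ := hP'.std hk'
      exact caseIII_any b (nS h01) (hp3 i1) hz hz'
    · -- case I, roles exchanged
      obtain ⟨o, ho⟩ := pt_info (cell_three h9 _) hz
      obtain ⟨o', ho'⟩ := pt_info (cell_three h9 _) hP'
      have e1 := oP ho
      rw [st0, st1, st2] at e1
      have e2 := combD2 2 u (by decide) o e1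
      have e3 := combD1 (-2) u (by decide) hu0 _ _ _ o' g' (oP' ho')
      have hdiv := ho'.div hwA'
      have hc := cls_tI (i0 := i0) (i1 := i0) (y := z) (cell_three h9 _) hP' ho' (Or.inl (by
        have h3 : o' = 0 ∨ o' = 1 ∨ o' = 2 := by clear * -; revert o'; decide
        rcases h3 with rfl | rfl | rfl
        · exact Dvd.dvd.mul_right (Dvd.dvd.mul_right hdiv _) _
        · exact Dvd.dvd.mul_right (Dvd.dvd.mul_left hdiv _) _
        · exact Dvd.dvd.mul_left hdiv _)) (ho.unit 1 (by rw [e2]; decide))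
      exact e3 (pos_cast_inj _ _ (caseI_sgl b.symm hP' hz hc))
  · by_cases g' : pos' i1 = pos' i2
    · obtain ⟨k', hk'⟩ := same pos' hpos' g'
      obtain ⟨z', hz'⟩ := hP'.std hk'
      obtain ⟨o, ho⟩ := pt_info (cell_three h9 _) hP
      obtain ⟨o', ho'⟩ := pt_info (cell_three h9 _) hz'
      have e1 := oP' ho'
      rw [st0, st1, st2] at e1
      have e2 := combD2 (-2) u (by decide) o' e1
      have e3 := combD1 2 u (by decide) hu0 _ _ _ o g (oP ho)
      have hdiv := ho'.div hwA'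
      rw [e2] at hdiv
      have hc := cls_tI (i0 := i0) (i1 := i0) (y := z') (cell_three h9 _) hP ho (Or.inr hdiv)
        (ho'.unit 1 (by rw [e2]; decide))
      exact e3 (pos_cast_inj _ _ (caseI_sgl b hP hz' hc))
    · obtain ⟨k, k', c0, c1, c2, hcomp⟩ := combD u hu0 (pos i0) _ _ (pos' i0) _ _ g g'
      have hQ := hP.perm (pe k)
      have hQ' := hP'.perm (pe k')
      obtain ⟨o, ho⟩ := pt_info (cell_three h9 _) hQ
      obtain ⟨o', ho'⟩ := pt_info (cell_three h9 _) hQ'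
      have hexch : Exch i0 i0 (pe k ∘ pos) (pe k' ∘ pos') := by
        intro j
        rcases hall j with rfl | rfl | rfl
        · rw [if_pos (Or.inl rfl)]; exact c0
        · rw [if_neg (nS h01)]; exact c1
        · rw [if_neg (nS h02)]; exact c2
      have hdiv := ho'.div hwA'
      rcases hcomp o o' (oP ho) (oP' ho') with ⟨rfl, rfl, hf⟩ | ⟨rfl, rfl, hf⟩ | ⟨rfl, rfl, hf⟩
      · exact hf (caseII_sgl b hQ hQ' hexch (cls_tII_two b hexch hQ hQ' (cell_three h9 _ _)
          (cell_three h9 _ _) (cell_three h9 _ _) (ho.unit 0 (by decide)) (ho.unit 1 (by decide))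
          (ho'.unit 0 (by decide)) (ho'.unit 1 (by decide)) hdiv))
      · exact hf (caseII_sgl b hQ hQ' hexch (cls_tII_zero b (Or.inr hdiv)
          (ho.unit 0 (by decide)) (ho'.unit 1 (by decide))))
      · exact hf (caseII_sgl b hQ hQ' hexch (cls_tII_one b (Or.inr hdiv)
          (ho.unit 1 (by decide)) (ho'.unit 0 (by decide))))

end

end Pool.Agent.Lib_helper84.Cub
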