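import Pool.Agent.Lib_helper84.Cub.AdicB
import Pool.Agent.Lib_helper84.Cub.PairsB
import Pool.Agent.Lib_helper84.Cub.StepThree

/-!
# 3-adic information on points, when 3 divides `A` exactly once (three primes)
-/

namespace Pool.Agent.Lib_helper84.Cub

open Pool.Agent.Lib_helper18 Pool.Agent.Lib_helper18.Eis

variable {p e e' : Fin 3 → ℕ} {i0 i1 i2 : Fin 3} {pos pos' : Fin 3 → Fin 3} {x y : Fin 3 → ℤ}

theorem three_prod (h01 : i0 ≠ i1) (h02 : i0 ≠ i2) (h12 : i1 ≠ i2) (f : Fin 3 → ℤ) :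
    ∏ j, f j = f i0 * f i1 * f i2 := by
  have hu : (Finset.univ : Finset (Fin 3)) = {i0, i1, i2} := by
    ext j
    simp only [Finset.mem_univ, Finset.mem_insert, Finset.mem_singleton, true_iff]
    exact three_all h01 h02 h12 j
  rw [hu, Finset.prod_insert, Finset.prod_insert, Finset.prod_singleton]
  · ring
  · simpa using h12
  · simp [h01, h02]

theorem three_sumZ (h01 : i0 ≠ i1) (h02 : i0 ≠ i2) (h12 : i1 ≠ i2) (f : Fin 3 → ℤ) :
    ∑ j, f j = f i0 + f i1 + f i2 := by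
  have hu : (Finset.univ : Finset (Fin 3)) = {i0, i1, i2} := by
    ext j
    simp only [Finset.mem_univ, Finset.mem_insert, Finset.mem_singleton, true_iff]
    exact three_all h01 h02 h12 j
  rw [hu, Finset.sum_insert, Finset.sum_insert, Finset.sum_singleton]
  · ring
  · simpa using h12
  · simp [h01, h02]

/-- the cell without the prime 3 -/
def dc (p e : Fin 3 → ℕ) (i0 i1 : Fin 3) (pos : Fin 3 → Fin 3) (k : Fin 3) : ℤ :=
  (if pos i0 = k then (p i0 : ℤ) ^ e i0 else 1) * (if pos i1 = k then (p i1 : ℤ) ^ e i1 else 1)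

/-- its weight -/
def cw2 (s u : ZMod 3) (a b k : Fin 3) : ZMod 3 :=
  (if a = k then s else 0) + (if b = k then u else 0)

/-- the reduced terms -/
def nt (p e : Fin 3 → ℕ) (i0 i1 : Fin 3) (pos : Fin 3 → Fin 3) (x : Fin 3 → ℤ) (k : Fin 3) : ℤ :=
  dc p e i0 i1 pos k * x k ^ 3

/-- the hypotheses on the primes -/
structure Three (p e : Fin 3 → ℕ) (i0 i1 i2 : Fin 3) (s u : ZMod 3) : Prop where
  h01 : i0 ≠ i1
  h02 : i0 ≠ i2
  h12 : i1 ≠ i2
  n0 : p i0 % 9 = 2 ∨ p i0 % 9 = 5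
  n1 : p i1 % 9 = 2 ∨ p i1 % 9 = 5
  n2 : p i2 = 3
  e2 : e i2 = 1
  hs : (e i0 : ZMod 3) * wq (p i0 : ℤ) = s
  hu : (e i1 : ZMod 3) * wq (p i1 : ℤ) = u

theorem ndvd_pow {a : ℤ} (h : ¬ (3 : ℤ) ∣ a) (n : ℕ) : ¬ (3 : ℤ) ∣ a ^ n :=
  fun h' => h (Int.prime_three.dvd_of_dvd_pow h')

theorem wq_pow' {a : ℤ} (h : ¬ (3 : ℤ) ∣ a) (n : ℕ) : wq (a ^ n) = (n : ZMod 3) * wq a := by
  induction n with
  | zero => rw [pow_zero]; push_cast; rw [zero_mul]; decide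
  | succ n ih =>
    rw [pow_succ, wq_mul (ndvd_pow h n) h, ih]; push_cast; ring

namespace Three

variable {s u : ZMod 3} (t : Three p e i0 i1 i2 s u)

include t

theorem m0 : ¬ (3 : ℤ) ∣ (p i0 : ℤ) := not_three_dvd t.n0
theorem m1 : ¬ (3 : ℤ) ∣ (p i1 : ℤ) := not_three_dvd t.n1

theorem dc_ndvd (k : Fin 3) : ¬ (3 : ℤ) ∣ dc p e i0 i1 pos k := by
  unfold dc
  refine ndvd_mul ?_ ?_
  · split_ifs
    · exact ndvd_pow t.m0 _
    · omega
  · split_ifs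
    · exact ndvd_pow t.m1 _
    · omega

theorem wq_dc (k : Fin 3) : wq (dc p e i0 i1 pos k) = cw2 s u (pos i0) (pos i1) k := by
  unfold dc cw2
  have hone : wq 1 = 0 := by decide
  rw [wq_mul]
  · congr 1
    · split_ifs
      · rw [wq_pow' t.m0, t.hs]
      · exact hone
    · split_ifs
      · rw [wq_pow' t.m1, t.hu]
      · exact hone
  · split_ifs
    · exact ndvd_pow t.m0 _
    · omega
  · split_ifs
    · exact ndvd_pow t.m1 _
    · omega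

theorem cell_eq3 (k : Fin 3) : cell p e pos k =
    dc p e i0 i1 pos k * (if pos i2 = k then 3 else 1) := by
  unfold cell dc
  rw [three_prod t.h01 t.h02 t.h12, t.n2, t.e2, pow_one]
  rfl

theorem term_eq (k : Fin 3) : term p e pos x k =
    (if pos i2 = k then 3 else 1) * nt p e i0 i1 pos x k := by
  unfold term nt
  rw [t.cell_eq3]; ring

theorem unit (hP : IsPt p e pos x) {k : Fin 3} (hk : k ≠ pos i2) : ¬ (3 : ℤ) ∣ x k := by
  intro h
  have h1 := hP.cop k (pos i2) hk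
  refine Int.prime_three.not_isUnit (h1.isUnit_of_dvd' (Dvd.dvd.mul_left h _)
    (Dvd.dvd.mul_right ?_ _))
  rw [t.cell_eq3, if_pos rfl]
  exact dvd_mul_left _ _

theorem nt_ndvd (hP : IsPt p e pos x) {k : Fin 3} (hk : k ≠ pos i2) :
    ¬ (3 : ℤ) ∣ nt p e i0 i1 pos x k :=
  ndvd_mul (t.dc_ndvd k) (ndvd_pow (t.unit hP hk) 3)

theorem wq_nt (hP : IsPt p e pos x) {k : Fin 3} (hk : k ≠ pos i2) :
    wq (nt p e i0 i1 pos x k) = cw2 s u (pos i0) (pos i1) k := by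
  unfold nt
  rw [wq_mul_cube (t.dc_ndvd k) (t.unit hP hk), t.wq_dc]

theorem nt_sum (hP : IsPt p e pos x) {i j : Fin 3} (hi : i ≠ pos i2) (hj : j ≠ pos i2)
    (hij : i ≠ j) : nt p e i0 i1 pos x i + nt p e i0 i1 pos x j +
      3 * nt p e i0 i1 pos x (pos i2) = 0 := by
  have h := hP.sum
  rw [three_sumZ hij hi hj] at h
  have h1 := t.term_eq (pos := pos) (x := x) i
  have h2 := t.term_eq (pos := pos) (x := x) j
  have h3 := t.term_eq (pos := pos) (x := x) (pos i2)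
  rw [if_neg (Ne.symm hi)] at h1
  rw [if_neg (Ne.symm hj)] at h2
  rw [if_pos rfl] at h3
  unfold term at h1 h2 h3
  linear_combination h - h1 - h2 - h3

theorem nt_mod (hP : IsPt p e pos x) {i j : Fin 3} (hi : i ≠ pos i2) (hj : j ≠ pos i2)
    (hij : i ≠ j) : (nt p e i0 i1 pos x (pos i2) : ZMod 3) = (nt p e i0 i1 pos x i : ZMod 3) *
      (cw2 s u (pos i0) (pos i1) j - cw2 s u (pos i0) (pos i1) i) := by
  rw [← t.wq_nt hP hi, ← t.wq_nt hP hj]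
  exact wq_diff (t.nt_ndvd hP hi) (t.nt_ndvd hP hj) (t.nt_sum hP hi hj hij)

theorem nt_dvd {k : Fin 3} (h : (3 : ℤ) ∣ nt p e i0 i1 pos x k) : (3 : ℤ) ∣ x k :=
  Int.prime_three.dvd_of_dvd_pow ((Int.prime_three.dvd_or_dvd h).resolve_left (t.dc_ndvd k))

theorem dvd_iff (hP : IsPt p e pos x) {i j : Fin 3} (hi : i ≠ pos i2) (hj : j ≠ pos i2)
    (hij : i ≠ j) : (3 : ℤ) ∣ x (pos i2) ↔
      cw2 s u (pos i0) (pos i1) i = cw2 s u (pos i0) (pos i1) j := by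
  have h := t.nt_mod hP hi hj hij
  have hn := z3_ne.mpr (t.nt_ndvd hP hi)
  constructor
  · intro hd
    have h1 : (3 : ℤ) ∣ nt p e i0 i1 pos x (pos i2) :=
      Dvd.dvd.mul_left (Dvd.dvd.pow hd (by norm_num)) _
    rw [← z3_eq, h] at h1
    have := (mul_eq_zero.mp h1).resolve_left hn
    exact (sub_eq_zero.mp this).symm
  · intro he
    apply t.nt_dvd
    rw [← z3_eq, h, he, sub_self, mul_zero]

end Three

theorem nt9 {k : Fin 3} (h : (3 : ℤ) ∣ x k) : (9 : ℤ) ∣ nt p e i0 i1 pos x k := by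
  obtain ⟨v, hv⟩ := h
  unfold nt
  rw [hv]
  exact ⟨dc p e i0 i1 pos k * (3 * v ^ 3), by ring⟩

/-- the classes in case II -/
def cfun (s u : ZMod 3) (a b c : Fin 3) : ZMod 3 :=
  if c = 0 then (if cw2 s u a b 1 = cw2 s u a b 2 then 1 else
    if cw2 (-s) u (tau a) b 1 = cw2 (-s) u (tau a) b 2 then 0 else 2)
  else if c = 1 then (if cw2 s u a b 0 = cw2 s u a b 2 then 0 else
    if cw2 (-s) u (tau a) b 0 = cw2 (-s) u (tau a) b 2 then 1 else 2)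
  else -1 + (cw2 s u a b 0 - cw2 s u a b 1) *
    (cw2 s u a b 2 - cw2 (-s) u (tau a) b 2 + cw2 (-s) u (tau a) b 0 - cw2 s u a b 0)

theorem tau_c2 : ∀ s u : ZMod 3, ∀ a b : Fin 3, cw2 s u a b 0 - cw2 s u a b 1 =
    cw2 (-s) u (tau a) b 0 - cw2 (-s) u (tau a) b 1 := by decide

theorem tau_c0 : ∀ s u : ZMod 3, s ≠ 0 → ∀ a b : Fin 3,
    cw2 s u a b 1 - cw2 s u a b 2 ≠ 0 → cw2 (-s) u (tau a) b 1 - cw2 (-s) u (tau a) b 2 ≠ 0 →
    cw2 (-s) u (tau a) b 1 - cw2 (-s) u (tau a) b 2 = -(cw2 s u a b 1 - cw2 s u a b 2) := by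
  decide

theorem tau_c1 : ∀ s u : ZMod 3, s ≠ 0 → ∀ a b : Fin 3,
    cw2 s u a b 0 - cw2 s u a b 2 ≠ 0 → cw2 (-s) u (tau a) b 0 - cw2 (-s) u (tau a) b 2 ≠ 0 →
    cw2 (-s) u (tau a) b 0 - cw2 (-s) u (tau a) b 2 = -(cw2 s u a b 0 - cw2 s u a b 2) := by
  decide

/-- not both zero -/
theorem tau_c0' : ∀ s u : ZMod 3, s ≠ 0 → ∀ a b : Fin 3,
    cw2 s u a b 1 = cw2 s u a b 2 → cw2 (-s) u (tau a) b 1 ≠ cw2 (-s) u (tau a) b 2 := by
  decide

theorem tau_c1' : ∀ s u : ZMod 3, s ≠ 0 → ∀ a b : Fin 3,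
    cw2 s u a b 0 = cw2 s u a b 2 → cw2 (-s) u (tau a) b 0 ≠ cw2 (-s) u (tau a) b 2 := by
  decide

def ExC (s u : ZMod 3) (a b c a' b' c' : Fin 3) : Prop := ∃ k k' : Fin 6,
    pf k' a' = tau (pf k a) ∧ pf k' b' = pf k b ∧ pf k' c' = pf k c ∧
    cfun s u (pf k a) (pf k b) (pf k c) ≠ fpos (pf k a)

instance (s u : ZMod 3) (a b c a' b' c' : Fin 3) : Decidable (ExC s u a b c a' b' c') := by
  unfold ExC; infer_instance

set_option maxRecDepth 100000 in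
theorem combC : ∀ s u : ZMod 3, s ≠ 0 → u ≠ 0 → ∀ a b c a' b' c' : Fin 3, b ≠ c → b' ≠ c' →
    ExC s u a b c a' b' c' := by
  decide +kernel

end Pool.Agent.Lib_helper84.Cub
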