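import Pool.Agent.Lib_helper84.Cub.Bound

/-!
# Cubic algebras: the kernel of the evaluation at `θ`, for integrally closed `R`
-/

set_option autoImplicit false
set_option linter.unusedSectionVars false

open Polynomial Module

namespace Pool.Agent.Cub

section

variable {A R L : Type*} [CommRing A] [IsDomain A] [CommRing R] [Algebra A R] [Field L]
  [Algebra A L] [Algebra R L] [IsScalarTower A R L] {a b c e : A} {B : Basis (Fin 3) A R}

/-- The cubic equation of `X`. -/
lemma Cubic.cubic_eq (hB : Cubic a b c e B) :
    B 1 ^ 3 + algebraMap A R b * B 1 ^ 2 + algebraMap A R (a * c) * B 1 +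
      algebraMap A R (a ^ 2 * e) = 0 := by
  have hxx := hB.xx
  have hxy := hB.xy
  rw [Algebra.smul_def, Algebra.smul_def] at hxx
  simp only [map_mul, map_neg, map_pow] at hxx hxy ⊢
  linear_combination (B 1) * hxx + (algebraMap A R a) * hxy

/-- a common denominator of the coefficients is trivial, if `R` is integrally closed -/
lemma Cubic.dvd_of_dvd [IsDomain R] [IsIntegrallyClosed R] [IsFractionRing R L]
    (hB : Cubic a b c e B) {x y : A} (hx : x ≠ 0) (h1 : x ∣ y * a) (h2 : x ∣ y * b)
    (h3 : x ∣ y * c) (h4 : x ∣ y * e) : x ∣ y := by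
  obtain ⟨a', ha'⟩ := h1
  obtain ⟨b', hb'⟩ := h2
  obtain ⟨c', hc'⟩ := h3
  obtain ⟨e', he'⟩ := h4
  have hinj : Function.Injective (algebraMap R L) := IsFractionRing.injective R L
  have hx' : algebraMap A L x ≠ 0 := by
    rw [algMap_eq (R := R)]
    intro h
    rw [← map_zero (algebraMap R L)] at h
    have := hinj h
    rw [← map_zero (algebraMap A R)] at this
    exact hx (hB.inj this)
  set t : L := algebraMap A L y * algebraMap R L (B 1) / algebraMap A L x with ht
  have hxt : algebraMap A L x * t = algebraMap A L y * algebraMap R L (B 1) := by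
    rw [ht, mul_div_cancel₀ _ hx']
  have hcub := congrArg (algebraMap R L) hB.cubic_eq
  simp only [map_add, map_mul, map_pow, map_zero, ← algMap_eq (R := R) (L := L)] at hcub
  have ea := congrArg (algebraMap A L) ha'
  have eb := congrArg (algebraMap A L) hb'
  have ec := congrArg (algebraMap A L) hc'
  have ee := congrArg (algebraMap A L) he'
  simp only [map_mul] at ea eb ec ee
  have hint : IsIntegral R t := by
    refine ⟨X ^ 3 + C (algebraMap A R b') * X ^ 2 + C (algebraMap A R (a' * c')) * X +
      C (algebraMap A R (a' ^ 2 * e')), ?_, ?_⟩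
    · monicity!
    · simp only [eval₂_add, eval₂_mul, eval₂_pow, eval₂_X, eval₂_C,
        ← algMap_eq (R := R) (L := L), map_mul, map_pow]
      apply mul_left_cancel₀ (pow_ne_zero 3 hx')
      rw [mul_zero]
      set X1 := algebraMap R L (B 1)
      set xx := algebraMap A L x
      set yy := algebraMap A L y
      have e3 : xx ^ 3 * (t ^ 3 + algebraMap A L b' * t ^ 2 +
          algebraMap A L a' * algebraMap A L c' * t +
          algebraMap A L a' ^ 2 * algebraMap A L e') =
        (xx * t) ^ 3 + (xx * algebraMap A L b') * (xx * t) ^ 2 +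
          (xx * algebraMap A L a') * (xx * algebraMap A L c') * (xx * t) +
          (xx * algebraMap A L a') ^ 2 * (xx * algebraMap A L e') := by ring
      rw [e3, hxt, ← ea, ← eb, ← ec, ← ee]
      linear_combination yy ^ 3 * hcub
  obtain ⟨r, hr⟩ := IsIntegrallyClosed.isIntegral_iff.1 hint
  have h5 : algebraMap A R x * r = algebraMap A R y * B 1 := by
    apply hinj
    rw [map_mul, map_mul, ← algMap_eq (R := R) (L := L), hr, hxt, ← algMap_eq (R := R) (L := L)]
  have h6 := congrArg (fun z => B.repr z 1) h5
  simp only [← Algebra.smul_def, map_smul, Finsupp.smul_apply, B.repr_self] at h6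
  rw [Finsupp.single_eq_same, smul_eq_mul, smul_eq_mul, mul_one] at h6
  exact ⟨_, h6.symm⟩

/-- **the kernel of the evaluation is generated by the cubic** -/
theorem ker_of_closed [IsDomain R] [IsIntegrallyClosed R] [IsFractionRing R L]
    (hB : Cubic a b c e B) (ha : a ≠ 0) (P : A[X]) (hP : aeval (th L a B) P = 0) :
    FF a b c e ∣ P := by
  have hinj : Function.Injective (algebraMap R L) := IsFractionRing.injective R L
  obtain ⟨m, Q, P0, h1, h2⟩ := exists_pseudo a b c e P
  have h3 : aeval (th L a B) P0 = 0 := by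
    have := congrArg (aeval (th L a B)) h1
    simp only [map_mul, map_add, hP, aeval_FF hB hinj ha, mul_zero, zero_mul, zero_add] at this
    exact this.symm
  rw [eq_zero_of_deg_two hB hinj ha h2 h3, add_zero] at h1
  -- reduce modulo `x = a ^ m`
  set x : A := a ^ m with hx
  have hx0 : x ≠ 0 := pow_ne_zero m ha
  let π : A →+* A ⧸ Ideal.span {x} := Ideal.Quotient.mk _
  have h4 : (FF a b c e).map π * Q.map π = 0 := by
    rw [← Polynomial.map_mul, ← h1, Polynomial.map_mul, Polynomial.map_C]
    have : π x = 0 := Ideal.Quotient.eq_zero_iff_mem.2 (Ideal.mem_span_singleton_self x)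
    rw [this, C_0, zero_mul]
  have h5 : (FF a b c e).map π ∈ nonZeroDivisors (A ⧸ Ideal.span {x})[X] := by
    by_contra hcon
    rw [Polynomial.notMem_nonZeroDivisors_iff] at hcon
    obtain ⟨y', hy', hy0⟩ := hcon
    obtain ⟨y, rfl⟩ := Ideal.Quotient.mk_surjective y'
    apply hy'
    rw [Ideal.Quotient.eq_zero_iff_mem, Ideal.mem_span_singleton]
    have hco : ∀ n, x ∣ y * (FF a b c e).coeff n := by
      intro n
      have := congrArg (fun P => P.coeff n) hy0
      simp only [coeff_smul, coeff_map, coeff_zero, smul_eq_mul] at this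
      have h6 : π (y * (FF a b c e).coeff n) = 0 := by rw [map_mul]; exact this
      rwa [Ideal.Quotient.eq_zero_iff_mem, Ideal.mem_span_singleton] at h6
    have c3 : (FF a b c e).coeff 3 = a := by unfold FF; simp
    have c2 : (FF a b c e).coeff 2 = b := by unfold FF; simp
    have c1 : (FF a b c e).coeff 1 = c := by unfold FF; simp
    have c0 : (FF a b c e).coeff 0 = e := by unfold FF; simp
    exact hB.dvd_of_dvd (L := L) hx0 (c3 ▸ hco 3) (c2 ▸ hco 2) (c1 ▸ hco 1) (c0 ▸ hco 0)
  have h6 : Q.map π = 0 := by
    have := (mul_left_mem_nonZeroDivisors_eq_zero_iff h5).1 h4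
    exact this
  have h7 : C x ∣ Q := by
    rw [C_dvd_iff_dvd_coeff]
    intro i
    have := congrArg (fun P => P.coeff i) h6
    simp only [coeff_map, coeff_zero] at this
    rwa [Ideal.Quotient.eq_zero_iff_mem, Ideal.mem_span_singleton] at this
  obtain ⟨Q', rfl⟩ := h7
  refine ⟨Q', ?_⟩
  have hCx : (C x : A[X]) ≠ 0 := by rwa [Ne, C_eq_zero]
  apply mul_left_cancel₀ hCx
  rw [h1]; ring

end

end Pool.Agent.Cub
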