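import Pool.Agent.Lib_helper18.FD12

/-!
# A product formula for two inert primes
-/

namespace Pool.Agent.Lib_helper84.Cub

open Pool.Agent.Lib_helper18 Pool.Agent.Lib_helper18.Eis

theorem three_zmod : (3 : ZMod 3) = 0 := by decide

/-- an inert prime does not divide 3 -/
theorem n3 {q : ℕ} (hq : q.Prime) (h : q % 3 = 2) : ¬ (q : Eis) ∣ 3 := by
  intro h'
  have h1 : ((q : ℤ) : Eis) ∣ ((3 : ℤ) : Eis) := by
    rw [← three_eq_cast, Int.cast_natCast]; exact h'
  rw [intCast_dvd_intCast] at h1
  have h2 : q ∣ 3 := by exact_mod_cast h1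
  have h4 := (Nat.prime_dvd_prime_iff_eq hq Nat.prime_three).mp h2
  omega

theorem not_lam_dvd_inert {q : ℕ} (hq : q.Prime) (h : q % 3 = 2) : ¬ lam ∣ (q : Eis) :=
  not_lam_dvd_of_prime (prime_inert hq h) (n3 hq h)

/-- the symbol of a rational integer at an inert prime vanishes -/
theorem sym_int {q : ℕ} (hq : q.Prime) (h : q % 3 = 2) {n : ℤ} (hn : ¬ (q : ℤ) ∣ n) :
    sym (q : Eis) (n : Eis) = 0 := by
  have hP := prime_inert hq h
  have h3 := n3 hq h
  have hn' : ¬ (q : Eis) ∣ (n : Eis) := by
    intro h'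
    have : ((q : ℤ) : Eis) ∣ (n : Eis) := by rw [Int.cast_natCast]; exact h'
    rw [intCast_dvd_intCast] at this
    exact hn this
  have := sym_conj hP h3 hn'
  rw [conj_natCast, conj_intCast] at this
  have h2 : (2 : ZMod 3) * sym (q : Eis) (n : Eis) = 0 := by linear_combination this
  have h4 : ∀ x : ZMod 3, 2 * x = 0 → x = 0 := by decide
  exact h4 _ h2

theorem sym_nat {q : ℕ} (hq : q.Prime) (h : q % 3 = 2) {n : ℕ} (hn : ¬ q ∣ n) :
    sym (q : Eis) (n : Eis) = 0 := by
  have := sym_int hq h (n := (n : ℤ)) (by exact_mod_cast hn)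
  simpa using this

theorem not_dvd_w {l : Eis} (hl : Prime l) : ¬ l ∣ w := not_dvd_of_isUnit hl isUnit_w

theorem not_dvd_lam {l : Eis} (h3 : ¬ l ∣ 3) : ¬ l ∣ lam :=
  fun h => h3 (h.trans lam_dvd_three)

theorem sym_inert_lam {q : ℕ} (hq : q.Prime) (h : q % 3 = 2) :
    sym (q : Eis) lam = - sym (q : Eis) w := by
  have hP := prime_inert hq h
  have h3 := n3 hq h
  have hq3 : ¬ (q : ℤ) ∣ 3 := by
    intro h'
    have h2 : q ∣ 3 := by exact_mod_cast h'
    have h4 := (Nat.prime_dvd_prime_iff_eq hq Nat.prime_three).mp h2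
    omega
  have h1 := sym_int hq h hq3
  rw [← three_eq_cast, three_eq] at h1
  have hw := not_dvd_w hP
  have hl := not_dvd_lam h3
  have hw2 : ¬ (q : Eis) ∣ w ^ 2 := fun h => hw (hP.dvd_of_dvd_pow h)
  have hl2 : ¬ (q : Eis) ∣ lam ^ 2 := fun h => hl (hP.dvd_of_dvd_pow h)
  have hw2' : ¬ (q : Eis) ∣ -w ^ 2 := by rwa [dvd_neg]
  rw [sym_mul hP h3 hw2' hl2, sym_neg hP h3 hw2, sym_pow hP h3 hw, sym_pow hP h3 hl] at h1
  push_cast at h1
  linear_combination (-1 : ZMod 3) * h1 + (sym (q : Eis) w + sym (q : Eis) lam) * three_zmod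

/-- **reciprocity** for an inert rational prime -/
theorem recip_inert {q : ℕ} (hq : q.Prime) (h : q % 3 = 2) {l : Eis} (hl : Prime l)
    (hl3 : ¬ l ∣ 3) (hprim : Prim l) (hql : ¬ (q : Eis) ∣ l) :
    sym (q : Eis) l = sym l (q : Eis) := by
  have hP := prime_inert hq h
  have h3 := n3 hq h
  obtain ⟨p0, hp0, hlp, hn⟩ := exists_rational_prime hl
  have hp3 : ¬ 3 ∣ p0 := by
    intro h'
    have := (Nat.prime_dvd_prime_iff_eq Nat.prime_three hp0).mp h'
    subst this
    exact hl3 (by exact_mod_cast hlp)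
  rcases hn with hn | hn
  · have hF : Fact p0.Prime := ⟨hp0⟩
    have h1 : p0 % 3 = 1 := by
      have := norm_emod_three_of_not_lam_dvd (not_lam_dvd_of_prime hl hl3)
      rw [hn] at this
      omega
    have h3q : ¬ 3 ∣ q := by omega
    refine (recip h1 hn hprim.1 hP h3 (prim_natCast h3q) ?_).symm
    intro h'
    exact hql h'.dvd
  · obtain ⟨u, hu⟩ := associated_of_norm_sq hp0 hlp hn
    have h5 : Prim (l * u) := by rw [hu]; exact prim_natCast hp3
    have h6 := hprim.unit u.isUnit h5
    have hlne : (q : Eis) ∣ (p0 : Eis) → False := by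
      intro h'
      apply hql
      rw [← hu] at h'
      exact (Associated.dvd_iff_dvd_right ⟨u, rfl⟩).mpr h'
    have hqp : ¬ q ∣ p0 := by
      intro h'
      exact hlne (by exact_mod_cast (Nat.cast_dvd_cast (α := Eis) h'))
    have hpq : ¬ p0 ∣ q := by
      intro h'
      exact hqp (((Nat.prime_dvd_prime_iff_eq hp0 hq).mp h') ▸ dvd_rfl)
    have hp03 : p0 % 3 = 2 := by
      by_contra hne
      have h1 : p0 % 3 = 1 := by omega
      -- then p0 splits, contradiction with l of norm p0^2: p0 = π π'
      have hnl : l.norm = (p0 : ℤ) ^ 2 := hn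
      obtain ⟨π, hπ⟩ : ∃ π : Eis, π.norm = p0 := by
        have hF : Fact p0.Prime := ⟨hp0⟩
        have hcube : ∃ g : ZMod p0, g ^ 2 + g + 1 = 0 := by
          obtain ⟨k, hk⟩ : 3 ∣ p0 - 1 := by
            have := hp0.two_le
            omega
          obtain ⟨g, hg⟩ := IsCyclic.exists_generator (α := (ZMod p0)ˣ)
          have hord : orderOf g = p0 - 1 := by
            rw [orderOf_eq_card_of_forall_mem_zpowers hg, Nat.card_eq_fintype_card,
              ZMod.card_units]
          refine ⟨((g ^ k : (ZMod p0)ˣ) : ZMod p0), ?_⟩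
          have hk0 : k ≠ 0 := by
            rintro rfl
            have := hp0.two_le
            omega
          have h1' : ((g ^ k : (ZMod p0)ˣ) : ZMod p0) ^ 3 = 1 := by
            rw [← Units.val_pow_eq_pow_val, ← pow_mul, mul_comm k 3, ← hk, ← hord,
              pow_orderOf_eq_one]
            rfl
          have hne1 : ((g ^ k : (ZMod p0)ˣ) : ZMod p0) ≠ 1 := by
            intro h'
            have h2 : g ^ k = 1 := Units.ext h'
            have h3 := orderOf_dvd_of_pow_eq_one h2
            rw [hord, hk] at h3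
            have := Nat.le_of_dvd (by omega) h3
            omega
          have h4 : (((g ^ k : (ZMod p0)ˣ) : ZMod p0) - 1) *
              (((g ^ k : (ZMod p0)ˣ) : ZMod p0) ^ 2 + ((g ^ k : (ZMod p0)ˣ) : ZMod p0) + 1) = 0 := by
            linear_combination h1'
          exact (mul_eq_zero.mp h4).resolve_left (sub_ne_zero.mpr hne1)
        obtain ⟨g, hg⟩ := hcube
        -- the element gcd (p0, w - g)
        by_contra hno
        -- p0 is prime in Eis
        have hpp : Prime (p0 : Eis) := by
          have : Associated l (p0 : Eis) := ⟨u, hu⟩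
          exact this.prime hl
        have hdv : (p0 : Eis) ∣ (⟨-(g.val : ℤ), 1⟩ : Eis) * ⟨(g.val : ℤ) + 1, 1⟩ := by
          rw [natCast_dvd_iff]
          have hgv : ((p0 : ℤ)) ∣ (g.val : ℤ) ^ 2 + g.val + 1 := by
            rw [← ZMod.intCast_zmod_eq_zero_iff_dvd]
            push_cast
            rw [ZMod.natCast_val, ZMod.cast_id', id]
            exact hg
          obtain ⟨c, hc⟩ := hgv
          constructor
          · refine ⟨-c, ?_⟩
            simp only [mul_re]
            linear_combination (-1 : ℤ) * hc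
          · refine ⟨0, ?_⟩
            simp only [mul_im]
            ring
        rcases hpp.dvd_or_dvd hdv with h' | h'
        · rw [natCast_dvd_iff] at h'
          have := h'.2
          simp only at this
          have h8 := Int.le_of_dvd one_pos this
          have := hp0.two_le
          omega
        · rw [natCast_dvd_iff] at h'
          have := h'.2
          simp only at this
          have h8 := Int.le_of_dvd one_pos this
          have := hp0.two_le
          omega
      have hlass : Associated l (p0 : Eis) := ⟨u, hu⟩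
      have hpp : Prime (p0 : Eis) := hlass.prime hl
      have hdv : (p0 : Eis) ∣ π * Eis.conj π := by
        rw [mul_conj, hπ]; simp
      have hnp : ∀ x : Eis, x.norm = p0 → ¬ (p0 : Eis) ∣ x := by
        intro x hx h'
        obtain ⟨y, hy⟩ := h'
        have h9 := congrArg Eis.norm hy
        rw [norm_mul, norm_natCast, hx] at h9
        have hp0' : (p0 : ℤ) ≠ 0 := by exact_mod_cast hp0.ne_zero
        have h10 : (1 : ℤ) = p0 * y.norm := by
          apply mul_left_cancel₀ hp0'
          linear_combination h9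
        have := hp0.two_le
        have h11 : (p0 : ℤ) ∣ 1 := ⟨_, h10⟩
        have h12 := Int.le_of_dvd one_pos h11
        omega
      rcases hpp.dvd_or_dvd hdv with h' | h'
      · exact hnp _ hπ h'
      · exact hnp _ (by rw [norm_conj, hπ]) h'
    have hz1 : sym (q : Eis) (p0 : Eis) = 0 := sym_nat hq h hqp
    have hz2 : sym (p0 : Eis) (q : Eis) = 0 := sym_nat hp0 hp03 hpq
    have hz3 : sym l (q : Eis) = 0 := by
      rw [← hz2]; exact sym_associated ⟨u, hu⟩
    rw [hz3]
    rcases h6 with h6 | h6
    · rw [h6, mul_one] at hu; rw [hu]; exact hz1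
    · rw [h6] at hu
      have : l = -(p0 : Eis) := by rw [← hu]; ring
      rw [this, sym_neg hP h3 hlne]; exact hz1

end Pool.Agent.Lib_helper84.Cub
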