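import Pool.Agent.Lib_helper84.Cub.Frob

/-!
# The trace of Frobenius on a power series ring
-/

set_option autoImplicit false

namespace Pool.Agent.Cub

open MvPowerSeries

/-- `FrobDual` from a dual family indexed by a finite type -/
lemma FrobDual.of_fintype {A : Type*} [CommRing A] {q : ℕ} {Φ : A →+ A}
    (lin : ∀ x y, Φ (x ^ q * y) = x * Φ y) {ι : Type*} [Fintype ι] (e e' : ι → A)
    (dual : ∀ h, h = ∑ i, Φ (h * e' i) ^ q * e i) : FrobDual A q Φ := by
  refine ⟨lin, Fintype.card ι, fun i => e ((Fintype.equivFin ι).symm i),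
    fun i => e' ((Fintype.equivFin ι).symm i), fun h => ?_⟩
  conv_lhs => rw [dual h]
  exact (Equiv.sum_comp (Fintype.equivFin ι).symm (fun i => Φ (h * e' i) ^ q * e i)).symm

section field

variable (k : Type*) [Field k] (p : ℕ) [hp : Fact p.Prime] [CharP k p] (s : ℕ)

/-- the trace of Frobenius on an `F`-finite field -/
theorem exists_frobDual_field (hfin : (iterateFrobenius k p s).Finite) :
    ∃ Φ : k →+ k, FrobDual k (p ^ s) Φ := by
  classical
  set F : k →+* k := iterateFrobenius k p s with hF
  have hFx : ∀ x, F x = x ^ p ^ s := fun x => iterateFrobenius_def ..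
  let K0 : Subfield k := F.fieldRange
  -- finiteness over the subfield
  have hsurj : Function.Surjective F.rangeRestrictField := by
    rintro ⟨_, x, rfl⟩
    exact ⟨x, rfl⟩
  have : Module.Finite K0 k := by
    have h1 : (K0.subtype.comp F.rangeRestrictField).Finite := hfin
    exact RingHom.finite_algebraMap.1 (RingHom.Finite.of_comp_finite h1)
  -- the `q`-th root on the subfield
  let E : k ≃+* K0 := RingEquiv.ofBijective F.rangeRestrictField
    ⟨F.rangeRestrictField.injective, hsurj⟩
  have hE : ∀ x : k, ((E x : K0) : k) = x ^ p ^ s := fun x => hFx x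
  have hE' : ∀ y : K0, (E.symm y) ^ p ^ s = (y : k) := by
    intro y
    rw [← hE, RingEquiv.apply_symm_apply]
  let b := Module.finBasis K0 k
  have hpos : 0 < Module.finrank K0 k := Module.finrank_pos
  let i0 : Fin (Module.finrank K0 k) := ⟨0, hpos⟩
  let ρ : k →ₗ[K0] K0 := b.coord i0
  have hρ : ρ (b i0) = 1 := by simp [ρ]
  -- the pairing
  let T : k →ₗ[K0] (k →ₗ[K0] K0) :=
    { toFun := fun u => ρ ∘ₗ LinearMap.mulLeft K0 u
      map_add' := by
        intro u v; ext x
        simp [add_mul]
      map_smul' := by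
        intro c u; ext x
        simp }
  have hTinj : Function.Injective T := by
    rw [injective_iff_map_eq_zero]
    intro u hu
    by_contra hne
    have h1 := LinearMap.congr_fun hu (u⁻¹ * b i0)
    simp only [T, LinearMap.coe_mk, AddHom.coe_mk, LinearMap.comp_apply,
      LinearMap.mulLeft_apply, LinearMap.zero_apply] at h1
    rw [← mul_assoc, mul_inv_cancel₀ hne, one_mul, hρ] at h1
    exact one_ne_zero h1
  have hTsurj : Function.Surjective T := by
    have hdim : Module.finrank K0 k = Module.finrank K0 (k →ₗ[K0] K0) := by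
      have := Subspace.dual_finrank_eq (K := K0) (V := k)
      exact this.symm
    exact (LinearMap.injective_iff_surjective_of_finrank_eq_finrank hdim).1 hTinj
  choose b' hb' using fun i => hTsurj (b.coord i)
  let Φ : k →+ k :=
    { toFun := fun x => E.symm (ρ x)
      map_zero' := by simp
      map_add' := by intro x y; simp }
  have hΦ : ∀ x, Φ x = E.symm (ρ x) := fun _ => rfl
  refine ⟨Φ, FrobDual.of_fintype ?_ (fun i => b i) b' ?_⟩
  · intro x y
    have h1 : x ^ p ^ s * y = (E x : K0) • y := by
      rw [← hE]; rfl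
    rw [hΦ, hΦ, h1, map_smul, smul_eq_mul, map_mul, RingEquiv.symm_apply_apply]
  · intro h
    conv_lhs => rw [← b.sum_repr h]
    refine Finset.sum_congr rfl fun i _ => ?_
    rw [hΦ, hE']
    have h2 : ρ (h * b' i) = b.repr h i := by
      have := LinearMap.congr_fun (hb' i) h
      simp only [T, LinearMap.coe_mk, AddHom.coe_mk, LinearMap.comp_apply,
        LinearMap.mulLeft_apply] at this
      rw [mul_comm]
      exact this
    rw [h2]
    rfl

end field

section ps

variable {k : Type*} [Field k] {d : ℕ}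

/-- the exponent `q β + (q - 1)` -/
noncomputable def sh (q : ℕ) (β : Fin d →₀ ℕ) : Fin d →₀ ℕ :=
  q • β + Finsupp.equivFunOnFinite.symm (fun _ => q - 1)

lemma sh_apply (q : ℕ) (β : Fin d →₀ ℕ) (i : Fin d) : sh q β i = q * β i + (q - 1) := by
  simp [sh]

/-- the trace of Frobenius on power series -/
noncomputable def phiPS (q : ℕ) (Φ : k →+ k) :
    MvPowerSeries (Fin d) k →+ MvPowerSeries (Fin d) k where
  toFun h := fun β => Φ (coeff (sh q β) h)
  map_zero' := by
    ext β
    change Φ (coeff (sh q β) 0) = 0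
    simp
  map_add' x y := by
    ext β
    change Φ (coeff (sh q β) (x + y)) = Φ (coeff (sh q β) x) + Φ (coeff (sh q β) y)
    simp

lemma coeff_phiPS (q : ℕ) (Φ : k →+ k) (h : MvPowerSeries (Fin d) k) (β : Fin d →₀ ℕ) :
    coeff β (phiPS q Φ h) = Φ (coeff (sh q β) h) := rfl

variable {p : ℕ} [hp : Fact p.Prime] [CharP k p] {s : ℕ}

lemma coeff_pow_smul (x : MvPowerSeries (Fin d) k) (m : Fin d →₀ ℕ) :
    coeff (p ^ s • m) (x ^ p ^ s) = (coeff m x) ^ p ^ s := by
  rw [← map_iterateFrobenius_expand p hp.1.ne_zero x s, coeff_map, coeff_expand_smul,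
    iterateFrobenius_def]

lemma coeff_pow_of_not_dvd (x : MvPowerSeries (Fin d) k) {m : Fin d →₀ ℕ} {i : Fin d}
    (h : ¬ p ^ s ∣ m i) : coeff m (x ^ p ^ s) = 0 := by
  rw [← map_iterateFrobenius_expand p hp.1.ne_zero x s, coeff_map,
    coeff_expand_of_not_dvd _ _ _ h, map_zero]

lemma phiPS_lin {Φ : k →+ k} (hΦ : FrobDual k (p ^ s) Φ) (x y : MvPowerSeries (Fin d) k) :
    phiPS (p ^ s) Φ (x ^ p ^ s * y) = x * phiPS (p ^ s) Φ y := by
  classical
  have hq : 0 < p ^ s := pow_pos hp.1.pos _
  set q := p ^ s with hqdef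
  ext β
  rw [coeff_phiPS, coeff_mul, coeff_mul, map_sum]
  symm
  refine Finset.sum_of_injOn (fun r => (q • r.1, sh q r.2)) ?_ ?_ ?_ ?_
  · rintro ⟨a1, a2⟩ _ ⟨b1, b2⟩ _ h
    simp only [Prod.mk.injEq] at h
    obtain ⟨h1, h2⟩ := h
    rw [Prod.mk.injEq]
    constructor
    · ext i
      have := DFunLike.congr_fun h1 i
      simp only [Finsupp.smul_apply, smul_eq_mul] at this
      exact Nat.eq_of_mul_eq_mul_left hq this
    · ext i
      have := DFunLike.congr_fun h2 i
      rw [sh_apply, sh_apply] at this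
      exact Nat.eq_of_mul_eq_mul_left hq (by omega)
  · rintro ⟨a1, a2⟩ h
    simp only [Finset.mem_coe, Finset.HasAntidiagonal.mem_antidiagonal] at h ⊢
    rw [← h]
    ext i
    simp only [Finsupp.add_apply, Finsupp.smul_apply, smul_eq_mul, sh_apply]
    ring
  · rintro ⟨m1, m2⟩ hm hn
    rw [Finset.HasAntidiagonal.mem_antidiagonal] at hm
    simp only at hm
    by_cases hd : ∀ i, q ∣ m1 i
    · exfalso
      apply hn
      have hle : ∀ i, m1 i / q ≤ β i := by
        intro i
        have h1 := DFunLike.congr_fun hm i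
        rw [Finsupp.add_apply, sh_apply] at h1
        have h2 : m1 i < q * (β i + 1) := by
          have : q * (β i + 1) = q * β i + q := by ring
          omega
        have := (Nat.div_lt_iff_lt_mul hq).2 (by rwa [mul_comm] at h2)
        omega
      let n1 : Fin d →₀ ℕ := Finsupp.equivFunOnFinite.symm fun i => m1 i / q
      let n2 : Fin d →₀ ℕ := Finsupp.equivFunOnFinite.symm fun i => β i - m1 i / q
      refine ⟨(n1, n2), ?_, ?_⟩
      · simp only [Finset.mem_coe, Finset.HasAntidiagonal.mem_antidiagonal]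
        ext i
        simp only [Finsupp.add_apply, n1, n2, Finsupp.equivFunOnFinite_symm_apply_apply]
        have := hle i
        omega
      · rw [Prod.mk.injEq]
        constructor
        · ext i
          simp only [Finsupp.smul_apply, smul_eq_mul, n1,
            Finsupp.equivFunOnFinite_symm_apply_apply]
          exact Nat.mul_div_cancel' (hd i)
        · ext i
          have h1 := DFunLike.congr_fun hm i
          rw [Finsupp.add_apply, sh_apply] at h1
          rw [sh_apply]
          simp only [n2, Finsupp.equivFunOnFinite_symm_apply_apply]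
          have h2 := Nat.mul_div_cancel' (hd i)
          have h3 := hle i
          obtain ⟨t, ht⟩ := Nat.exists_eq_add_of_le h3
          rw [ht, Nat.add_sub_cancel_left]
          rw [ht, mul_add, h2] at h1
          omega
    · push Not at hd
      obtain ⟨i, hi⟩ := hd
      rw [coeff_pow_of_not_dvd x hi, zero_mul, map_zero]
  · rintro ⟨m1, m2⟩ _
    simp only
    rw [coeff_phiPS, coeff_pow_smul, hΦ.lin]

lemma phiPS_dual {Φ : k →+ k} (hΦ : FrobDual k (p ^ s) Φ) :
    FrobDual (MvPowerSeries (Fin d) k) (p ^ s) (phiPS (p ^ s) Φ) := by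
  classical
  have hq : 0 < p ^ s := pow_pos hp.1.pos _
  obtain ⟨n, e, e', hdual⟩ := hΦ.dual
  let al : (Fin d → Fin (p ^ s)) → (Fin d →₀ ℕ) := fun α =>
    Finsupp.equivFunOnFinite.symm fun i => (α i : ℕ)
  let al' : (Fin d → Fin (p ^ s)) → (Fin d →₀ ℕ) := fun α =>
    Finsupp.equivFunOnFinite.symm fun i => p ^ s - 1 - (α i : ℕ)
  have hal : ∀ α i, al α i = (α i : ℕ) := fun α i => by simp [al]
  have hal' : ∀ α i, al' α i = p ^ s - 1 - (α i : ℕ) := fun α i => by simp [al']
  refine FrobDual.of_fintype (phiPS_lin hΦ)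
    (ι := Fin n × (Fin d → Fin (p ^ s)))
    (fun j => monomial (al j.2) (e j.1)) (fun j => monomial (al' j.2) (e' j.1)) ?_
  intro h
  ext γ
  rw [map_sum, Fintype.sum_prod_type_right]
  -- the residue of the exponent
  let α0 : Fin d → Fin (p ^ s) := fun i => ⟨γ i % p ^ s, Nat.mod_lt _ hq⟩
  let β0 : Fin d →₀ ℕ := Finsupp.equivFunOnFinite.symm fun i => γ i / p ^ s
  have hβ0 : ∀ i, β0 i = γ i / p ^ s := fun i => by simp [β0]
  have hγ : ∀ i, γ i = p ^ s * β0 i + al α0 i := by
    intro i
    rw [hβ0, hal]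
    exact (Nat.div_add_mod (γ i) (p ^ s)).symm
  rw [Finset.sum_eq_single α0]
  · have h1 : ∀ i : Fin n, coeff γ (phiPS (p ^ s) Φ (h * monomial (al' α0) (e' i)) ^ p ^ s *
        monomial (al α0) (e i)) = Φ (coeff γ h * e' i) ^ p ^ s * e i := by
      intro i
      have hγ2 : γ = p ^ s • β0 + al α0 := by
        ext j
        rw [hγ j]
        simp
      rw [coeff_mul_monomial, if_pos (by rw [hγ2]; exact le_add_self)]
      congr 1
      have h2 : γ - al α0 = p ^ s • β0 := by
        rw [hγ2, add_tsub_cancel_right]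
      rw [h2, coeff_pow_smul, coeff_phiPS]
      congr 2
      have h3 : sh (p ^ s) β0 = γ + al' α0 := by
        ext j
        rw [sh_apply, Finsupp.add_apply, hγ j, hal, hal']
        have := (α0 j).2
        omega
      rw [h3, coeff_mul_monomial, if_pos le_add_self, add_tsub_cancel_right]
    simp only [h1]
    exact hdual _
  · intro α _ hα
    refine Finset.sum_eq_zero fun i _ => ?_
    rw [coeff_mul_monomial]
    split_ifs with hle
    · -- some exponent is not divisible by `q`
      have hex : ∃ j, ¬ p ^ s ∣ (γ - al α) j := by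
        by_contra hcon
        push Not at hcon
        apply hα
        funext j
        apply Fin.ext
        have h1 := hcon j
        rw [Finsupp.tsub_apply, hal] at h1
        have h2 : al α j ≤ γ j := hle j
        rw [hal] at h2
        change (α j : ℕ) = γ j % p ^ s
        obtain ⟨t, ht⟩ := h1
        have h3 : γ j = p ^ s * t + α j := by omega
        rw [h3, Nat.mul_add_mod, Nat.mod_eq_of_lt (α j).2]
      obtain ⟨j, hj⟩ := hex
      rw [coeff_pow_of_not_dvd _ hj, zero_mul]
    · rfl
  · intro h0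
    exact absurd (Finset.mem_univ _) h0

end ps

section order

variable {k : Type*} [Field k] {d : ℕ}

lemma coeff_eq_zero_of_mem_pow {n : ℕ} {x : MvPowerSeries (Fin d) k}
    (hx : x ∈ IsLocalRing.maximalIdeal (MvPowerSeries (Fin d) k) ^ n) :
    (n : ℕ∞) ≤ x.order := by
  have h1 : ∀ x ∈ IsLocalRing.maximalIdeal (MvPowerSeries (Fin d) k), (1 : ℕ∞) ≤ x.order := by
    intro x hx
    rw [one_le_order_iff_constCoeff_eq_zero]
    by_contra hne
    rw [IsLocalRing.mem_maximalIdeal, mem_nonunits_iff] at hx
    exact hx (isUnit_iff_constantCoeff.2 (isUnit_iff_ne_zero.2 hne))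
  induction n generalizing x with
  | zero => simp
  | succ n ih =>
    rw [pow_succ] at hx
    refine Submodule.mul_induction_on hx ?_ ?_
    · intro a ha b hb
      have := add_le_add (ih ha) (h1 b hb)
      push_cast
      exact this.trans le_order_mul
    · intro a b ha hb
      exact (le_min ha hb).trans min_order_le_add

lemma phiPS_mem {q : ℕ} {Φ : k →+ k} {x : MvPowerSeries (Fin d) k}
    (hx : x ∈ IsLocalRing.maximalIdeal (MvPowerSeries (Fin d) k) ^ (d * (q - 1) + 1)) :
    phiPS q Φ x ∈ IsLocalRing.maximalIdeal (MvPowerSeries (Fin d) k) := by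
  rw [IsLocalRing.mem_maximalIdeal, mem_nonunits_iff, isUnit_iff_constantCoeff,
    isUnit_iff_ne_zero, not_not, ← coeff_zero_eq_constantCoeff_apply, coeff_phiPS]
  have h1 := coeff_eq_zero_of_mem_pow hx
  rw [coeff_of_lt_order, map_zero]
  refine lt_of_lt_of_le ?_ h1
  have h2 : (sh q (0 : Fin d →₀ ℕ)).degree = d * (q - 1) := by
    rw [Finsupp.degree_eq_sum]
    simp [sh_apply]
  rw [h2]
  exact_mod_cast Nat.lt_succ_self _

end order

end Pool.Agent.Cub
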