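import Pool.Agent.Lib_helper84.Cub.DF
import Pool.Agent.Lib_helper84.Cub.MvFrob

/-!
# Cubic algebras over a power series ring: the order bound
-/

set_option autoImplicit false
set_option linter.unusedSectionVars false

open Polynomial Module

namespace Pool.Agent.Cub

section

variable {A R L : Type*} [CommRing A] [IsDomain A] [CommRing R] [Algebra A R] [Field L]
  [Algebra A L] [Algebra R L] [IsScalarTower A R L] {a b c e : A} {B : Basis (Fin 3) A R}

/-- `r θ ^ i ∈ R` for `i ≤ q - 1` from the recurrent sequence -/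
lemma mul_th_pow_mem (hB : Cubic a b c e B) (hinj : Function.Injective (algebraMap R L))
    (ha : a ≠ 0) {q : ℕ} (hq : 2 ≤ q) {h : ℕ → A}
    (hrec : ∀ j, 1 ≤ j → j ≤ q - 2 →
        e * h j + c * h (j + 1) + b * h (j + 2) + a * h (j + 3) = 0) {P : A[X]}
    (hP : P = C (h 1) * (C a * X ^ 2 + C b * X + C c) + C (h 2) * (C a * X + C b) +
        C (h 3) * C a) :
    ∀ i ≤ q - 1, aeval (th L a B) P * th L a B ^ i ∈ (algebraMap R L).range := by
  have h1 := a_th (L := L) hB hinj ha
  have h2 := Y_eq (L := L) hB hinj ha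
  have h3 := th_Y (L := L) hB hinj ha
  have key : ∀ i ≤ q - 2, aeval (th L a B) P * th L a B ^ i =
      algebraMap R L (algebraMap A R (h (i + 1)) * B 2 +
        algebraMap A R (h (i + 2)) * (B 1 + algebraMap A R b) + algebraMap A R (h (i + 3) * a)) := by
    intro i
    induction i with
    | zero =>
      intro _
      rw [hP]
      simp only [map_add, map_mul, map_pow, aeval_C, aeval_X, ← algMap_eq (R := R) (L := L)]
      rw [h2, ← h1]
      ring
    | succ i ih =>
      intro hi
      have h4 := ih (by omega)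
      have h5 := congrArg (algebraMap A L) (hrec (i + 1) (by omega) (by omega))
      simp only [map_add, map_mul, map_zero, ← algMap_eq (R := R) (L := L)] at h4 h5 ⊢
      rw [pow_succ, ← mul_assoc, h4]
      have e1 : i + 1 + 1 = i + 2 := by ring
      have e2 : i + 1 + 2 = i + 3 := by ring
      have e3 : i + 1 + 3 = i + 4 := by ring
      rw [e1, e2, e3] at h5 ⊢
      linear_combination (algebraMap A L (h (i + 1))) * h3 - (algebraMap A L (h (i + 2))) * h2 +
        (-algebraMap A L (h (i + 2)) * th L a B + algebraMap A L (h (i + 3))) * h1 - h5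
  intro i hi
  rcases Nat.lt_or_ge i (q - 1) with hlt | hge
  · rw [key i (by omega)]
    exact ⟨_, rfl⟩
  · obtain rfl : i = q - 1 := by omega
    obtain ⟨j, hj⟩ : ∃ j, q - 1 = j + 1 := ⟨q - 2, by omega⟩
    rw [hj]
    have h4 := key j (by omega)
    refine ⟨algebraMap A R (-(e * h (j + 1))) +
      algebraMap A R (h (j + 2)) * (B 2 - algebraMap A R c) +
      algebraMap A R (h (j + 3)) * B 1, ?_⟩
    simp only [map_add, map_sub, map_mul, map_neg, ← algMap_eq (R := R) (L := L)] at h4 ⊢
    rw [pow_succ, ← mul_assoc, h4]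
    linear_combination -(algebraMap A L (h (j + 1))) * h3 + (algebraMap A L (h (j + 2))) * h2 +
      (algebraMap A L (h (j + 2)) * th L a B - algebraMap A L (h (j + 3))) * h1

/-- **The order bound, abstract form.** -/
theorem cubic_bound_aux (hB : Cubic a b c e B) (hinj : Function.Injective (algebraMap R L))
    (ha : a ≠ 0) {p : ℕ} [hp : Fact p.Prime] [CharP A p] {k q : ℕ} (hq : q = p ^ k)
    {Φ : A →+ A} (hΦ : FrobDual A q Φ) {φ : R →+ R} (hφ : ∀ x y, φ (x ^ q * y) = x * φ y)
    (hF : ∀ P : A[X], aeval (th L a B) P = 0 → FF a b c e ∣ P)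
    {I : Ideal A} (hI1 : (1 : A) ∉ I) (hIa : a ∈ I) (hIb : b ∈ I) (hIc : c ∈ I) (hIe : e ∈ I)
    {D : ℕ} (hI : ∀ x ∈ I ^ (D * (q - 1) + 1), Φ x ∈ I) {N : ℕ} {f₀ : R}
    (hf₀ : f₀ ∈ (I.map (algebraMap A R) ⊔ Ideal.span {B 1, B 2}) ^ N) (h1 : φ f₀ = 1) :
    ∃ r : L, r ≠ 0 ∧ (∀ i ≤ q - 1, r * th L a B ^ i ∈ (algebraMap R L).range) ∧
      ∀ j n : ℕ, (∀ i, (FF a b c e).coeff i ∈ I ^ j) →
        (∃ u g : A[X], (∃ i, u.coeff i ∉ I) ∧ (∀ i, g.coeff i ∈ I ^ n) ∧
          aeval (th L a B) u * r = aeval (th L a B) g) →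
        j * (q - 1) + n + N ≤ D * (q - 1) := by
  rcases Nat.lt_or_ge q 2 with hlt | hge
  · -- `q = 1`
    have hq1 : q = 1 := by
      have : 0 < q := by rw [hq]; exact pow_pos hp.1.pos _
      omega
    subst hq1
    have hunit : IsUnit f₀ := by
      have h2 := hφ f₀ 1
      rw [pow_one, mul_one, h1] at h2
      exact IsUnit.of_mul_eq_one _ h2.symm
    have hN : N = 0 := by
      by_contra hne
      have h2 : f₀ ∈ I.map (algebraMap A R) ⊔ Ideal.span {B 1, B 2} :=
        Ideal.pow_le_self hne hf₀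
      have h3 := Ideal.eq_top_of_isUnit_mem _ h2 hunit
      obtain ⟨P, hP, hPz⟩ := exists_lift_pow (L := L) (N := 1) (z := 1) hB hinj ha hIa hIb hIc
        (by rw [h3]; simp)
      have h4 : aeval (th L a B) (1 - P) = 0 := by
        rw [map_sub, hPz, map_one, map_one, sub_self]
      obtain ⟨H, hH⟩ := hF _ h4
      apply hI1
      have h5 : (1 : A[X]) ∈ I.map C := by
        have : (1 : A[X]) = P + FF a b c e * H := by rw [← hH]; ring
        rw [this]
        rw [pow_one] at hP
        exact add_mem hP (Ideal.mul_mem_right _ _ (FF_mem hIa hIb hIc hIe))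
      have := (Ideal.mem_map_C_iff.1 h5) 0
      simpa using this
    subst hN
    refine ⟨1, one_ne_zero, ?_, ?_⟩
    · intro i hi
      obtain rfl : i = 0 := by omega
      exact ⟨1, by simp⟩
    · rintro j n - ⟨u, g, hu, hg, hug⟩
      rw [mul_one] at hug
      have hn : n = 0 := by
        by_contra hne
        have h4 : aeval (th L a B) (u - g) = 0 := by rw [map_sub, hug, sub_self]
        obtain ⟨H, hH⟩ := hF _ h4
        obtain ⟨i, hi⟩ := hu
        apply hi
        have hg' : g ∈ I.map C := Ideal.mem_map_C_iff.2 fun i => Ideal.pow_le_self hne (hg i)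
        have h5 : u ∈ I.map C := by
          have : u = g + FF a b c e * H := by rw [← hH]; ring
          rw [this]
          exact add_mem hg' (Ideal.mul_mem_right _ _ (FF_mem hIa hIb hIc hIe))
        exact (Ideal.mem_map_C_iff.1 h5) i
      simp [hn]
  · -- `q ≥ 2`
    obtain ⟨G, hG⟩ := hΦ.exists_rep B ((B.coord 2).toAddMonoidHom.comp φ) (by
      intro x z
      change B.repr (φ (x ^ q • z)) 2 = x * B.repr (φ z) 2
      rw [Algebra.smul_def, map_pow, hφ, ← Algebra.smul_def, map_smul, Finsupp.smul_apply,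
        smul_eq_mul])
    obtain ⟨G', hG'⟩ := hΦ.exists_rep B ((B.coord 1).toAddMonoidHom.comp φ) (by
      intro x z
      change B.repr (φ (x ^ q • z)) 1 = x * B.repr (φ z) 1
      rw [Algebra.smul_def, map_pow, hφ, ← Algebra.smul_def, map_smul, Finsupp.smul_apply,
        smul_eq_mul])
    change ∀ z, B.repr (φ z) 2 = Φ (G z) at hG
    change ∀ z, B.repr (φ z) 1 = Φ (G' z) at hG'
    have hdvd := dvd_rt (L := L) hB hinj ha hq hΦ hφ hG hF hG'
    obtain ⟨h, hrec, hP⟩ := exists_seq ha hge hdvd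
    refine ⟨aeval (th L a B) (rt a b B G), ?_, mul_th_pow_mem hB hinj ha hge hrec hP, ?_⟩
    · intro h0
      have h2 := eq_zero_of_deg_two hB hinj ha (rt_natDegree G) h0
      have h3 := rep (L := L) hB hinj ha hq hΦ hφ hG hF f₀
      rw [h2, h1, mul_zero, zero_mul, phiPoly_zero (by omega), map_zero, map_one] at h3
      exact zero_ne_one h3
    · rintro j n hj ⟨u, g, ⟨i, hi⟩, hg, hug⟩
      have hu : u ∉ I.map C := fun hu => hi ((Ideal.mem_map_C_iff.1 hu) i)
      have h4 : aeval (th L a B) (u * rt a b B G - g) = 0 := by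
        rw [map_sub, map_mul, hug, sub_self]
      obtain ⟨H, hH⟩ := hF _ h4
      have h5 : u * rt a b B G ∈ (I.map C) ^ n ⊔ Ideal.span {FF a b c e} := by
        have : u * rt a b B G = g + FF a b c e * H := by rw [← hH]; ring
        rw [this]
        exact add_mem (Ideal.mem_sup_left ((mem_map_pow_iff I n g).2 hg))
          (Ideal.mem_sup_right (Ideal.mul_mem_right _ _ (Ideal.mem_span_singleton_self _)))
      have h6 := order_bound (L := L) hB hinj ha hq hΦ hφ hG hF hIa hIb hIc hIe hI hf₀ h1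
        ((mem_map_pow_iff I j _).2 hj) hu h5
      omega

end

/-- finiteness of the iterated Frobenius -/
lemma iterateFrobenius_finite {k : Type*} [CommRing k] (p : ℕ) [ExpChar k p]
    (hk : (frobenius k p).Finite) (s : ℕ) : (iterateFrobenius k p s).Finite := by
  induction s with
  | zero =>
    have : iterateFrobenius k p 0 = RingHom.id k := by
      ext x; simp [iterateFrobenius_def]
    rw [this]
    exact RingHom.Finite.id k
  | succ s ih =>
    have : iterateFrobenius k p (s + 1) = (frobenius k p).comp (iterateFrobenius k p s) := by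
      ext x
      simp [iterateFrobenius_def, frobenius_def, pow_succ, pow_mul]
    rw [this]
    exact hk.comp ih

/-- existence of the generator on a power series ring -/
theorem exists_frobDual {k : Type*} [Field k] (p : ℕ) [hp : Fact p.Prime] [CharP k p]
    (hk : (frobenius k p).Finite) (s d : ℕ) :
    ∃ Φ : MvPowerSeries (Fin d) k →+ MvPowerSeries (Fin d) k,
      FrobDual (MvPowerSeries (Fin d) k) (p ^ s) Φ ∧
      ∀ x ∈ IsLocalRing.maximalIdeal (MvPowerSeries (Fin d) k) ^ (d * (p ^ s - 1) + 1),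
        Φ x ∈ IsLocalRing.maximalIdeal (MvPowerSeries (Fin d) k) := by
  obtain ⟨Φ, hΦ⟩ := exists_frobDual_field k p s (iterateFrobenius_finite p hk s)
  exact ⟨phiPS (p ^ s) Φ, phiPS_dual hΦ, fun x hx => phiPS_mem hx⟩

/-- **The order bound for a cubic algebra over a power series ring.** -/
theorem cubic_bound {p : ℕ} [hp : Fact p.Prime] {d : ℕ} {k R L : Type*} [Field k] [CharP k p]
    [CommRing R] [IsDomain R] [IsLocalRing R] [IsIntegrallyClosed R]
    [Algebra (MvPowerSeries (Fin d) k) R] [Field L] [Algebra R L] [IsFractionRing R L]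
    [Algebra (MvPowerSeries (Fin d) k) L] [IsScalarTower (MvPowerSeries (Fin d) k) R L]
    (hk : (frobenius k p).Finite) {a b c e : MvPowerSeries (Fin d) k}
    {B : Basis (Fin 3) (MvPowerSeries (Fin d) k) R} (hB : Cubic a b c e B) (ha : a ≠ 0)
    (ma : a ∈ IsLocalRing.maximalIdeal (MvPowerSeries (Fin d) k))
    (mb : b ∈ IsLocalRing.maximalIdeal (MvPowerSeries (Fin d) k))
    (mc : c ∈ IsLocalRing.maximalIdeal (MvPowerSeries (Fin d) k))
    (me : e ∈ IsLocalRing.maximalIdeal (MvPowerSeries (Fin d) k))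
    (hm : IsLocalRing.maximalIdeal R ≤ (IsLocalRing.maximalIdeal (MvPowerSeries (Fin d) k)).map
      (algebraMap (MvPowerSeries (Fin d) k) R) ⊔ Ideal.span {B 1, B 2})
    {s N : ℕ} {φ : R →+ R} (hφ : ∀ x y, φ (x ^ p ^ s * y) = x * φ y) {f₀ : R}
    (hf₀ : f₀ ∈ IsLocalRing.maximalIdeal R ^ N) (h1 : φ f₀ = 1) :
    ∃ r : L, r ≠ 0 ∧ (∀ i ≤ p ^ s - 1, r * th L a B ^ i ∈ (algebraMap R L).range) ∧
      ∀ j n : ℕ, (∀ i, (FF a b c e).coeff i ∈
          IsLocalRing.maximalIdeal (MvPowerSeries (Fin d) k) ^ j) →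
        (∃ u g : (MvPowerSeries (Fin d) k)[X],
          (∃ i, u.coeff i ∉ IsLocalRing.maximalIdeal (MvPowerSeries (Fin d) k)) ∧
          (∀ i, g.coeff i ∈ IsLocalRing.maximalIdeal (MvPowerSeries (Fin d) k) ^ n) ∧
          aeval (th L a B) u * r = aeval (th L a B) g) →
        j * (p ^ s - 1) + n + N ≤ d * (p ^ s - 1) := by
  have : IsDomain (MvPowerSeries (Fin d) k) := NoZeroDivisors.to_isDomain _
  obtain ⟨Φ, hΦ, hI⟩ := exists_frobDual (k := k) p hk s d
  have hinj : Function.Injective (algebraMap R L) := IsFractionRing.injective R L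
  have hchar : CharP (MvPowerSeries (Fin d) k) p :=
    (charP_of_injective_ringHom (MvPowerSeries.C_injective (σ := Fin d) (R := k)) p)
  exact cubic_bound_aux (L := L) hB hinj ha rfl hΦ hφ (fun P hP => ker_of_closed (L := L) hB ha P hP)
    (fun h => (IsLocalRing.mem_maximalIdeal _).1 h isUnit_one) ma mb mc me hI
    (Ideal.pow_right_mono hm N hf₀) h1

end Pool.Agent.Cub
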