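import Pool.Agent.Lib_helper84.Cub.Pairs

/-!
# Pairs of cubic twists with four prime factors
-/

namespace Pool.Agent.Lib_helper84.Cub

open Pool.Agent.Lib_helper18 Pool.Agent.Lib_helper18.Eis

def FourC (s0 s1 s2 s3 t0 t1 t2 t3 : ZMod 3) : Prop :=
    (s0 ≠ t0 ∧ s1 ≠ t1 ∧ s2 = t2 ∧ s3 = t3 ∧ s0 + s1 = 0 ∧ s2 + s3 = 0) ∨
    (s0 ≠ t0 ∧ s2 ≠ t2 ∧ s1 = t1 ∧ s3 = t3 ∧ s0 + s2 = 0 ∧ s1 + s3 = 0) ∨
    (s0 ≠ t0 ∧ s3 ≠ t3 ∧ s1 = t1 ∧ s2 = t2 ∧ s0 + s3 = 0 ∧ s1 + s2 = 0) ∨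
    (s1 ≠ t1 ∧ s2 ≠ t2 ∧ s0 = t0 ∧ s3 = t3 ∧ s1 + s2 = 0 ∧ s0 + s3 = 0) ∨
    (s1 ≠ t1 ∧ s3 ≠ t3 ∧ s0 = t0 ∧ s2 = t2 ∧ s1 + s3 = 0 ∧ s0 + s2 = 0) ∨
    (s2 ≠ t2 ∧ s3 ≠ t3 ∧ s0 = t0 ∧ s1 = t1 ∧ s2 + s3 = 0 ∧ s0 + s1 = 0)

instance (s0 s1 s2 s3 t0 t1 t2 t3 : ZMod 3) : Decidable (FourC s0 s1 s2 s3 t0 t1 t2 t3) := by
  unfold FourC; infer_instance

def FourI (s0 s1 s2 s3 : ZMod 3) : Prop := ∀ t0 t1 t2 t3 : ZMod 3, t0 ≠ 0 → t1 ≠ 0 → t2 ≠ 0 →
    t3 ≠ 0 → t0 + t1 + t2 + t3 = 0 → ¬ (s0 = t0 ∧ s1 = t1 ∧ s2 = t2 ∧ s3 = t3) →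
    ¬ (s0 ≠ t0 ∧ s1 ≠ t1 ∧ s2 ≠ t2 ∧ s3 ≠ t3) → FourC s0 s1 s2 s3 t0 t1 t2 t3

instance (s0 s1 s2 s3 : ZMod 3) : Decidable (FourI s0 s1 s2 s3) := by
  unfold FourI; infer_instance

set_option maxRecDepth 100000 in
theorem four_sum_aux : ∀ s0 s1 s2 s3 : ZMod 3, s0 ≠ 0 → s1 ≠ 0 → s2 ≠ 0 → s3 ≠ 0 →
    s0 + s1 + s2 + s3 = 0 → FourI s0 s1 s2 s3 := by
  decide

/-- **Theorem on four primes**: pairs -/
theorem four_pair {p e e' : Fin 4 → ℕ} (hp : ∀ i, (p i).Prime)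
    (h9 : ∀ i, p i % 9 = 2 ∨ p i % 9 = 5)
    (hinj : Function.Injective p) (he : ∀ i, e i = 1 ∨ e i = 2) (he' : ∀ i, e' i = 1 ∨ e' i = 2)
    (hne : e ≠ e') (hne' : ∃ i, e i = e' i) (hw : wq (∏ i, (p i : ℤ) ^ e i) = 0)
    (hw' : wq (∏ i, (p i : ℤ) ^ e' i) = 0) :
    ¬ (IsSum (∏ i, (p i : ℚ) ^ e i) ∧ IsSum (∏ i, (p i : ℚ) ^ e' i)) := by
  rw [wq_all h9, Fin.sum_univ_four] at hw hw'
  have hz : ∀ i, (e i : ZMod 3) * wq (p i : ℤ) ≠ 0 := fun i =>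
    mul_ne_zero (zmod_ne (he i)) (wq_ne (h9 i))
  have hz' : ∀ i, (e' i : ZMod 3) * wq (p i : ℤ) ≠ 0 := fun i =>
    mul_ne_zero (zmod_ne (he' i)) (wq_ne (h9 i))
  have hiff : ∀ i, ((e i : ZMod 3) * wq (p i : ℤ) = (e' i : ZMod 3) * wq (p i : ℤ) ↔ e i = e' i) :=
    fun i => zmod_exp (he i) (he' i) (wq_ne (h9 i))
  have h0 := hiff 0
  have h1 := hiff 1
  have h2 := hiff 2
  have h3 := hiff 3
  rcases four_sum_aux _ _ _ _ (hz 0) (hz 1) (hz 2) (hz 3) hw _ _ _ _ (hz' 0) (hz' 1) (hz' 2)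
    (hz' 3) hw' (by
    rintro ⟨a, b, c, d⟩
    apply hne
    funext i
    fin_cases i
    · exact h0.mp a
    · exact h1.mp b
    · exact h2.mp c
    · exact h3.mp d) (by
    rintro ⟨a, b, c, d⟩
    obtain ⟨i, hi⟩ := hne'
    fin_cases i
    · exact a (h0.mpr hi)
    · exact b (h1.mpr hi)
    · exact c (h2.mpr hi)
    · exact d (h3.mpr hi)) with
    ⟨ha, hb, hc, hd, k1, k2⟩ | ⟨ha, hb, hc, hd, k1, k2⟩ | ⟨ha, hb, hc, hd, k1, k2⟩ | ⟨ha, hb, hc, hd, k1, k2⟩ | ⟨ha, hb, hc, hd, k1, k2⟩ | ⟨ha, hb, hc, hd, k1, k2⟩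
  · rw [Ne, h0] at ha; rw [Ne, h1] at hb; rw [h2] at hc; rw [h3] at hd
    exact four_fixed (i0 := 0) (i1 := 1) (i2 := 2) (i3 := 3) hp h9 hinj he he' (by decide)
      (by decide) (by decide) (by decide) (by decide) (by decide) k1 k2
      (rel_of he he' ha hb (fun j g1 g2 => by
        fin_cases j
        · exact absurd rfl g1
        · exact absurd rfl g2
        · exact hc
        · exact hd))
  · rw [Ne, h0] at ha; rw [Ne, h2] at hb; rw [h1] at hc; rw [h3] at hd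
    exact four_fixed (i0 := 0) (i1 := 2) (i2 := 1) (i3 := 3) hp h9 hinj he he' (by decide)
      (by decide) (by decide) (by decide) (by decide) (by decide) k1 k2
      (rel_of he he' ha hb (fun j g1 g2 => by
        fin_cases j
        · exact absurd rfl g1
        · exact hc
        · exact absurd rfl g2
        · exact hd))
  · rw [Ne, h0] at ha; rw [Ne, h3] at hb; rw [h1] at hc; rw [h2] at hd
    exact four_fixed (i0 := 0) (i1 := 3) (i2 := 1) (i3 := 2) hp h9 hinj he he' (by decide)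
      (by decide) (by decide) (by decide) (by decide) (by decide) k1 k2
      (rel_of he he' ha hb (fun j g1 g2 => by
        fin_cases j
        · exact absurd rfl g1
        · exact hc
        · exact hd
        · exact absurd rfl g2))
  · rw [Ne, h1] at ha; rw [Ne, h2] at hb; rw [h0] at hc; rw [h3] at hd
    exact four_fixed (i0 := 1) (i1 := 2) (i2 := 0) (i3 := 3) hp h9 hinj he he' (by decide)
      (by decide) (by decide) (by decide) (by decide) (by decide) k1 k2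
      (rel_of he he' ha hb (fun j g1 g2 => by
        fin_cases j
        · exact hc
        · exact absurd rfl g1
        · exact absurd rfl g2
        · exact hd))
  · rw [Ne, h1] at ha; rw [Ne, h3] at hb; rw [h0] at hc; rw [h2] at hd
    exact four_fixed (i0 := 1) (i1 := 3) (i2 := 0) (i3 := 2) hp h9 hinj he he' (by decide)
      (by decide) (by decide) (by decide) (by decide) (by decide) k1 k2
      (rel_of he he' ha hb (fun j g1 g2 => by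
        fin_cases j
        · exact hc
        · exact absurd rfl g1
        · exact hd
        · exact absurd rfl g2))
  · rw [Ne, h2] at ha; rw [Ne, h3] at hb; rw [h0] at hc; rw [h1] at hd
    exact four_fixed (i0 := 2) (i1 := 3) (i2 := 0) (i3 := 1) hp h9 hinj he he' (by decide)
      (by decide) (by decide) (by decide) (by decide) (by decide) k1 k2
      (rel_of he he' ha hb (fun j g1 g2 => by
        fin_cases j
        · exact hc
        · exact hd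
        · exact absurd rfl g1
        · exact absurd rfl g2))

end Pool.Agent.Lib_helper84.Cub
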