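import Pool.Agent.Lib_helper84.Cub.Eval

/-!
# Cubic algebras: representation of a `p^{-e}`-linear map by a polynomial
-/

set_option autoImplicit false
set_option linter.unusedSectionVars false

open Polynomial Module

namespace Pool.Agent.Cub

section

variable {A R L : Type*} [CommRing A] [IsDomain A] [CommRing R] [Algebra A R] [Field L]
  [Algebra A L] [Algebra R L] [IsScalarTower A R L] {a b c e : A} {B : Basis (Fin 3) A R}

/-- the polynomial of a linear form -/
noncomputable def rt (a b : A) (B : Basis (Fin 3) A R) (G : R →ₗ[A] A) : A[X] :=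
  C (G (B 0)) * (C a * X ^ 2 + C b * X) + C (G (B 1)) * X + C (G (B 2))

/-- lift of an element of `R` to a polynomial -/
noncomputable def lift (a b c : A) (B : Basis (Fin 3) A R) (z : R) : A[X] :=
  C (B.repr z 0) + C (B.repr z 1) * (C a * X) +
    C (B.repr z 2) * (C a * X ^ 2 + C b * X + C c)

variable (hB : Cubic a b c e B) (hinj : Function.Injective (algebraMap R L)) (ha : a ≠ 0)

include hB hinj ha

lemma aeval_rt (G : R →ₗ[A] A) :
    algebraMap A L a * aeval (th L a B) (rt a b B G) = algebraMap R L (gh a c B G) := by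
  have h1 := a_th (L := L) hB hinj ha
  have h2 := Y_eq (L := L) hB hinj ha
  unfold rt gh
  simp only [map_add, map_sub, map_mul, map_pow, aeval_C, aeval_X, ← algMap_eq (R := R) (L := L)]
  rw [h2, ← h1]
  ring

lemma aeval_lift (z : R) : aeval (th L a B) (lift a b c B z) = algebraMap R L z := by
  have h1 := a_th (L := L) hB hinj ha
  have h2 := Y_eq (L := L) hB hinj ha
  conv_rhs => rw [hB.expand z]
  unfold lift
  simp only [map_add, map_mul, map_pow, aeval_C, aeval_X, ← algMap_eq (R := R) (L := L)]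
  rw [h2, ← h1]

variable {p : ℕ} [hp : Fact p.Prime] [CharP A p] {s q : ℕ} (hq : q = p ^ s) {Φ : A →+ A}
  (hΦ : FrobDual A q Φ) {φ : R →+ R} (hφ : ∀ x y, φ (x ^ q * y) = x * φ y)
  {G G' : R →ₗ[A] A} (hG : ∀ z, B.repr (φ z) 2 = Φ (G z)) (hG' : ∀ z, B.repr (φ z) 1 = Φ (G' z))

include hq hΦ hφ hG

lemma G_rel (hG' : ∀ z, B.repr (φ z) 1 = Φ (G' z)) (z : R) :
    G (B 1 ^ q * z) = a ^ q * G' z := by
  have hq0 : 0 < q := by rw [hq]; exact pow_pos hp.1.pos _
  rw [← sub_eq_zero]
  apply hΦ.eq_zero hq0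
  intro x
  have h1 : (G (B 1 ^ q * z) - a ^ q * G' z) * x = G (B 1 ^ q * (x • z)) - a ^ q * G' (x • z) := by
    rw [mul_smul_comm, map_smul, map_smul, smul_eq_mul, smul_eq_mul]
    ring
  rw [h1, map_sub, ← hG, hΦ.lin, ← hG', hφ, hB.lam_X, sub_self]

lemma dvd_rt (hF : ∀ P : A[X], aeval (th L a B) P = 0 → FF a b c e ∣ P) (hG' : ∀ z, B.repr (φ z) 1 = Φ (G' z)) :
    FF a b c e ∣ X ^ q * rt a b B G - rt a b B G' := by
  apply hF
  have h1 := a_ne (L := L) hB hinj ha
  have h2 := a_th (L := L) hB hinj ha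
  have h3 : B 1 ^ q * gh a c B G = algebraMap A R (a ^ q) * gh a c B G' := by
    rw [← sub_eq_zero]
    apply hB.nondeg (mem_nonZeroDivisors_of_ne_zero ha)
    intro z
    have e1 : (B 1 ^ q * gh a c B G - algebraMap A R (a ^ q) * gh a c B G') * z =
        gh a c B G * (B 1 ^ q * z) - (a ^ q) • (gh a c B G' * z) := by
      rw [Algebra.smul_def]; ring
    rw [e1, map_sub, Finsupp.sub_apply, hB.lam_gh, map_smul, Finsupp.smul_apply, hB.lam_gh,
      G_rel (L := L) hB hinj ha hq hΦ hφ hG hG', smul_eq_mul]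
    ring
  have h4 := congrArg (algebraMap R L) h3
  simp only [map_mul, map_pow, ← aeval_rt (L := L) hB hinj ha, ← h2,
    ← algMap_eq (R := R) (L := L)] at h4
  simp only [map_sub, map_mul, map_pow, aeval_X]
  rw [sub_eq_zero]
  apply mul_left_cancel₀ (pow_ne_zero q h1)
  apply mul_left_cancel₀ h1
  rw [mul_pow] at h4
  linear_combination h4

omit hq hΦ hφ hG in
/-- an element of `R` from a polynomial of degree two -/
lemma exists_of_deg_two {P : A[X]} (hP : P.natDegree ≤ 2) {t : A} (ht : P.coeff 2 = a * t) :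
    ∃ w : R, algebraMap R L w = algebraMap A L a * aeval (th L a B) P ∧ B.repr w 2 = a * t := by
  have h1 := a_th (L := L) hB hinj ha
  have h2 := Y_eq (L := L) hB hinj ha
  have hP' : P = C (P.coeff 0) + C (P.coeff 1) * X + C (P.coeff 2) * X ^ 2 := by
    conv_lhs => rw [P.as_sum_range_C_mul_X_pow' (by omega : P.natDegree < 3)]
    simp [Finset.sum_range_succ]
  rw [ht] at hP'
  refine ⟨algebraMap A R (a * P.coeff 0 - a * t * c) + algebraMap A R (P.coeff 1 - t * b) * B 1 +
    algebraMap A R (a * t) * B 2, ?_, hB.lam_eq _ _ _⟩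
  conv_rhs => rw [hP']
  simp only [map_add, map_sub, map_mul, map_pow, aeval_C, aeval_X,
    ← algMap_eq (R := R) (L := L)]
  rw [h2, ← h1]
  ring

omit hB hinj ha hq hΦ hφ hG [IsDomain A] in
lemma natDegree_lift_le (z : R) : (lift a b c B z).natDegree ≤ 2 := by
  unfold lift
  compute_degree

omit hB hinj ha hq hΦ hφ hG [IsDomain A] in
lemma coeff_lift (z : R) : (lift a b c B z).coeff 2 = a * B.repr z 2 := by
  unfold lift
  simp only [coeff_add, coeff_C_mul, coeff_X_pow, coeff_C]
  simp [coeff_X, mul_comm]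

omit hB hinj ha hq hΦ hφ hG in
lemma phi_lift (hq0 : 0 < q) (hΦ : FrobDual A q Φ) (v : R) :
    (phiPoly q Φ (FF a b c e ^ (q - 1) * lift a b c B v)).natDegree ≤ 2 ∧
    (phiPoly q Φ (FF a b c e ^ (q - 1) * lift a b c B v)).coeff 2 = a * Φ (B.repr v 2) := by
  have hFF : (FF a b c e).natDegree ≤ 3 := by
    unfold FF
    compute_degree
  have hd1 : (FF a b c e ^ (q - 1)).natDegree ≤ (q - 1) * 3 := natDegree_pow_le_of_le _ hFF
  have hd2 := natDegree_lift_le (a := a) (b := b) (c := c) (B := B) v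
  have hd : (FF a b c e ^ (q - 1) * lift a b c B v).natDegree ≤ (q - 1) * 3 + 2 :=
    natDegree_mul_le_of_le hd1 hd2
  constructor
  · rw [natDegree_le_iff_coeff_eq_zero]
    intro N hN
    rw [phiPoly_coeff hq0, coeff_eq_zero_of_natDegree_lt, map_zero]
    refine lt_of_le_of_lt hd ?_
    have : q * 3 ≤ q * N := Nat.mul_le_mul_left q hN
    omega
  · rw [phiPoly_coeff hq0]
    have h1 : q * 2 + (q - 1) = (q - 1) * 3 + 2 := by omega
    rw [h1, coeff_mul_add_eq_of_natDegree_le hd1 hd2, coeff_pow_of_natDegree_le hFF, coeff_lift]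
    have h2 : (FF a b c e).coeff 3 = a := by
      unfold FF
      simp
    rw [h2, ← hΦ.lin]
    congr 1
    have h3 : a ^ q = a ^ (q - 1) * a := by
      rw [← pow_succ]; congr 1; omega
    rw [h3]; ring

/-- **the representation** `φ(z) = Φ(F^{q-1} r z)(θ)` -/
theorem rep (hF : ∀ P : A[X], aeval (th L a B) P = 0 → FF a b c e ∣ P) (z : R) :
    aeval (th L a B) (phiPoly q Φ (FF a b c e ^ (q - 1) * rt a b B G * lift a b c B z)) =
      algebraMap R L (φ z) := by
  have hq0 : 0 < q := by rw [hq]; exact pow_pos hp.1.pos _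
  have hane := a_ne (L := L) hB hinj ha
  have hlin : ∀ Q P : A[X], phiPoly q Φ (Q ^ q * P) = Q * phiPoly q Φ P :=
    phiPoly_lin hq hΦ.lin
  have hF0 := aeval_FF (L := L) hB hinj ha
  have hsplit : FF a b c e ^ q = FF a b c e ^ (q - 1) * FF a b c e := by
    rw [← pow_succ]; congr 1; omega
  set E : R → L := fun z =>
    aeval (th L a B) (phiPoly q Φ (FF a b c e ^ (q - 1) * rt a b B G * lift a b c B z)) with hE
  -- step 1 : `a² E(z)` comes from `R`
  have step1 : ∀ z, ∃ w : R, algebraMap R L w = algebraMap A L a ^ 2 * E z ∧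
      B.repr w 2 = a * (a * B.repr (φ z) 2) := by
    intro z
    set v : R := (a ^ (q - 1)) • (gh a c B G * z) with hv
    have hdvd : FF a b c e ∣ lift a b c B v - C a ^ q * (rt a b B G * lift a b c B z) := by
      apply hF
      simp only [map_sub, map_mul, map_pow, aeval_C, aeval_lift hB hinj ha]
      rw [hv, Algebra.smul_def, map_mul, map_mul, ← algMap_eq (R := R) (L := L),
        ← aeval_rt (L := L) hB hinj ha, map_pow]
      have h3 : algebraMap A L a ^ q = algebraMap A L a ^ (q - 1) * algebraMap A L a := by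
        rw [← pow_succ]; congr 1; omega
      rw [h3]; ring
    obtain ⟨H, hH⟩ := hdvd
    have h4 : FF a b c e ^ (q - 1) * lift a b c B v =
        C a ^ q * (FF a b c e ^ (q - 1) * rt a b B G * lift a b c B z) +
          FF a b c e ^ q * H := by
      rw [hsplit]
      linear_combination (FF a b c e ^ (q - 1)) * hH
    have h5 : phiPoly q Φ (FF a b c e ^ (q - 1) * lift a b c B v) =
        C a * phiPoly q Φ (FF a b c e ^ (q - 1) * rt a b B G * lift a b c B z) +
          FF a b c e * phiPoly q Φ H := by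
      rw [h4, phiPoly_add hq0, hlin, hlin]
    obtain ⟨h6, h7⟩ := phi_lift (a := a) (b := b) (c := c) (e := e) (B := B) hq0 hΦ v
    obtain ⟨w, hw1, hw2⟩ := exists_of_deg_two (L := L) hB hinj ha h6 h7
    refine ⟨w, ?_, ?_⟩
    · rw [hw1, h5]
      simp only [map_add, map_mul, aeval_C, hF0, zero_mul, add_zero, hE]
      ring
    · rw [hw2, hv, map_smul, Finsupp.smul_apply, hB.lam_gh, smul_eq_mul]
      congr 1
      have h3 : a ^ (q - 1) * (a * G z) = a ^ q * G z := by
        have : a ^ q = a ^ (q - 1) * a := by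
          rw [← pow_succ]; congr 1; omega
        rw [this]; ring
      rw [h3, hΦ.lin, hG]
  -- step 2 : `E` is `q^{-1}`-linear
  have step2 : ∀ y z, E (y ^ q * z) = algebraMap R L y * E z := by
    intro y z
    have hdvd : FF a b c e ∣
        lift a b c B (y ^ q * z) - lift a b c B y ^ q * lift a b c B z := by
      apply hF
      simp only [map_sub, map_mul, map_pow, aeval_lift hB hinj ha]
      ring
    obtain ⟨H, hH⟩ := hdvd
    have h4 : FF a b c e ^ (q - 1) * rt a b B G * lift a b c B (y ^ q * z) =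
        lift a b c B y ^ q * (FF a b c e ^ (q - 1) * rt a b B G * lift a b c B z) +
          FF a b c e ^ q * (rt a b B G * H) := by
      rw [hsplit]
      linear_combination (FF a b c e ^ (q - 1) * rt a b B G) * hH
    simp only [hE]
    rw [h4, phiPoly_add hq0, hlin, hlin]
    simp only [map_add, map_mul, hF0, zero_mul, add_zero, aeval_lift hB hinj ha]
  -- conclusion
  obtain ⟨w, hw1, hw2⟩ := step1 z
  have h8 : w = algebraMap A R (a ^ 2) * φ z := by
    rw [← sub_eq_zero]
    apply hB.nondeg (mem_nonZeroDivisors_of_ne_zero ha)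
    intro y
    obtain ⟨w', hw1', hw2'⟩ := step1 (y ^ q * z)
    have e1 : w' = y * w := by
      apply hinj
      rw [hw1', step2, map_mul, hw1]
      ring
    have e2 : (w - algebraMap A R (a ^ 2) * φ z) * y = w' - (a ^ 2) • φ (y ^ q * z) := by
      rw [e1, hφ, Algebra.smul_def]; ring
    rw [e2, map_sub, Finsupp.sub_apply, hw2', map_smul, Finsupp.smul_apply, smul_eq_mul]
    ring
  have h9 := congrArg (algebraMap R L) h8
  rw [hw1, map_mul, ← algMap_eq (R := R) (L := L), map_pow] at h9
  exact mul_left_cancel₀ (pow_ne_zero 2 hane) h9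

end

end Pool.Agent.Cub
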