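import Pool.Agent.Lib_helper84.Cub.WFT
import Pool.Agent.WFT.Tab

/-!
# MP_7dd379_ag: FEDDER, KER and OMEGA3 for a table `Tab A T a b c e X Y`, `θ = X / a`
-/

set_option autoImplicit false
set_option linter.unusedSectionVars false

open Polynomial Module IsLocalRing

namespace Pool.Agent.Cub

open Pool.Agent.WFT (PS FFin MM InT OrdGe HasSplit Tab IsDual)

section

variable {A T : Type*} [CommRing A] [CommRing T] [Algebra A T] {a b c e : A} {X Y : T}

/-- the basis of a table -/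
theorem exists_basis_of_tab (h : Tab A T a b c e X Y) :
    ∃ B : Basis (Fin 3) A T, Cubic a b c e B ∧ B 1 = X ∧ B 2 = Y := by
  let v : Fin 3 → T := ![1, X, Y]
  have hli : LinearIndependent A v := by
    rw [Fintype.linearIndependent_iff]
    intro g hg
    rw [Fin.sum_univ_three] at hg
    obtain ⟨h0, h1, h2⟩ := h.indep (g 0) (g 1) (g 2) (by
      rw [← hg, Algebra.algebraMap_eq_smul_one]
      rfl)
    intro i
    fin_cases i
    · exact h0
    · exact h1
    · exact h2
  have hsp : ⊤ ≤ Submodule.span A (Set.range v) := by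
    intro t _
    obtain ⟨u, w, z, rfl⟩ := h.span t
    have m0 : (1 : T) ∈ Submodule.span A (Set.range v) := Submodule.subset_span ⟨0, rfl⟩
    have m1 : X ∈ Submodule.span A (Set.range v) := Submodule.subset_span ⟨1, rfl⟩
    have m2 : Y ∈ Submodule.span A (Set.range v) := Submodule.subset_span ⟨2, rfl⟩
    rw [Algebra.algebraMap_eq_smul_one]
    exact add_mem (add_mem (Submodule.smul_mem _ _ m0) (Submodule.smul_mem _ _ m1))
      (Submodule.smul_mem _ _ m2)
  let B : Basis (Fin 3) A T := Basis.mk hli hsp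
  have b0 : B 0 = 1 := by rw [Basis.mk_apply]; rfl
  have b1 : B 1 = X := by rw [Basis.mk_apply]; rfl
  have b2 : B 2 = Y := by rw [Basis.mk_apply]; rfl
  refine ⟨B, ⟨b0, ?_, ?_, ?_⟩, b1, b2⟩
  · rw [b1, b2, map_neg, h.XY]
  · rw [b1, b2, map_neg, h.XX]
  · rw [b1, b2, map_neg, h.YY]

/-- the table of a basis -/
theorem Cubic.tab {B : Basis (Fin 3) A T} (hB : Cubic a b c e B) : Tab A T a b c e (B 1) (B 2) where
  span t := ⟨B.repr t 0, B.repr t 1, B.repr t 2, by
    rw [Algebra.smul_def, Algebra.smul_def]; exact hB.expand t⟩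
  indep u v w h := by
    rw [Algebra.smul_def, Algebra.smul_def] at h
    refine ⟨?_, ?_, ?_⟩
    · rw [← hB.nu_eq u v w, h]; simp
    · rw [← hB.mu_eq u v w, h]; simp
    · rw [← hB.lam_eq u v w, h]; simp
  XX := by rw [hB.xx, map_neg]
  XY := by rw [hB.xy, map_neg]
  YY := by rw [hB.yy, map_neg]

variable {L : Type*} [IsDomain A] [IsDomain T] [Field L] [Algebra T L] [Algebra A L]
  [IsScalarTower A T L] [IsFractionRing T L]

lemma th_of_tab (h : Tab A T a b c e X Y) {θ : L}
    (hθ : algebraMap A L a * θ = algebraMap T L X) {B : Basis (Fin 3) A T}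
    (hB : Cubic a b c e B) (b1 : B 1 = X) : θ = th L a B := by
  have hinjL : Function.Injective (algebraMap T L) := IsFractionRing.injective T L
  have hane := a_ne (L := L) hB hinjL h.a_ne
  apply mul_left_cancel₀ hane
  rw [hθ, a_th hB hinjL h.a_ne, b1]

/-- **OMEGA3** for a table -/
theorem isDual_of_tab (h : Tab A T a b c e X Y) {θ : L}
    (hθ : algebraMap A L a * θ = algebraMap T L X) :
    IsDual A T (Submodule.span T {1, θ} : Submodule T L) := by
  obtain ⟨B, hB, b1, b2⟩ := exists_basis_of_tab h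
  rw [th_of_tab h hθ hB b1]
  exact isDual_span hB h.a_ne

/-- **KER** for a table -/
theorem ker_of_tab [IsIntegrallyClosed T] (h : Tab A T a b c e X Y) {θ : L}
    (hθ : algebraMap A L a * θ = algebraMap T L X) (g : A[X]) (hg : aeval θ g = 0) :
    FF a b c e ∣ g := by
  obtain ⟨B, hB, b1, b2⟩ := exists_basis_of_tab h
  rw [th_of_tab h hθ hB b1] at hg
  exact ker_of_closed (L := L) hB h.a_ne g hg

end

/-- **FEDDER** for a table -/
theorem fedder_tab {p : ℕ} [hp : Fact p.Prime] {d : ℕ} {k T L : Type*} [Field k] [CharP k p]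
    [CommRing T] [IsDomain T] [IsLocalRing T] [IsIntegrallyClosed T]
    [Algebra (PS d k) T] [Field L]
    [Algebra T L] [IsFractionRing T L] [Algebra (PS d k) L] [IsScalarTower (PS d k) T L]
    (hk : FFin k p) (hM : MM d k T) {a b c e : PS d k} {X Y : T}
    (hT : Tab (PS d k) T a b c e X Y) {θ : L}
    (hθ : algebraMap (PS d k) L a * θ = algebraMap T L X) {s N : ℕ}
    (hS : HasSplit T (p ^ s) N) :
    ∃ r : L, r ≠ 0 ∧ (∀ i ≤ p ^ s - 1, InT T (r * θ ^ i)) ∧
    ∀ j n : ℕ, a ∈ maximalIdeal (PS d k) ^ j → b ∈ maximalIdeal (PS d k) ^ j →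
      c ∈ maximalIdeal (PS d k) ^ j → e ∈ maximalIdeal (PS d k) ^ j →
      OrdGe (A := PS d k) θ r n → j * (p ^ s - 1) + n + N ≤ d * (p ^ s - 1) := by
  have : IsDomain (PS d k) := NoZeroDivisors.to_isDomain _
  obtain ⟨B, hB, b1, b2⟩ := exists_basis_of_tab hT
  obtain ⟨⟨ma, mb, mc, me⟩, ha, he, hm⟩ := hB.mem_maximalIdeal hM.loc
    (fun r => by obtain ⟨x, hx⟩ := hM.res r; exact ⟨_, hx⟩)
    (hM.sq.trans Ideal.mul_le_left)
  obtain ⟨f₀, hf₀, φ, hφ, h1⟩ := hS
  have hθ' := th_of_tab hT hθ hB b1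
  obtain ⟨r, hr0, hr1, hr2⟩ := cubic_bound (L := L) hk hB ha ma mb mc me hm.le hφ hf₀ h1
  rw [← hθ'] at hr2 hr1
  refine ⟨r, hr0, hr1, fun j n ja jb jc je hn => hr2 j n ?_ hn⟩
  exact fun i => Ideal.mem_map_C_iff.1 (FF_mem ja jb jc je) i

end Pool.Agent.Cub
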