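import Pool.Agent.Lib_helper84.Cub.PairsB
import Pool.Agent.Lib_helper84.Cub.CountB

/-!
# Three primes: all six numbers
-/

namespace Pool.Agent.Lib_helper84.Cub

open Pool.Agent.Lib_helper18 Pool.Agent.Lib_helper18.Eis

/-- one exchanged prime, either sign -/
theorem single_fixed' {p e e' : Fin 3 → ℕ} {i0 i1 i2 : Fin 3} (hp : ∀ i, (p i).Prime)
    (h9 : ∀ i, p i % 9 = 2 ∨ p i % 9 = 5)
    (hinj : Function.Injective p) (he : ∀ i, e i = 1 ∨ e i = 2) (he' : ∀ i, e' i = 1 ∨ e' i = 2)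
    (h01 : i0 ≠ i1) (h02 : i0 ≠ i2) (h12 : i1 ≠ i2)
    (h12w : (e i1 : ZMod 3) * wq (p i1 : ℤ) + (e i2 : ZMod 3) * wq (p i2 : ℤ) = 0)
    (rel : Rel i0 i0 e e') :
    ¬ (IsSum (∏ i, (p i : ℚ) ^ e i) ∧ IsSum (∏ i, (p i : ℚ) ^ e' i)) := by
  rintro ⟨h1, h2⟩
  have hz : (e i0 : ZMod 3) * wq (p i0 : ℤ) ≠ 0 := mul_ne_zero (zmod_ne (he i0)) (wq_ne (h9 i0))
  have hz' : (e i0 : ZMod 3) * wq (p i0 : ℤ) = 2 ∨ (e i0 : ZMod 3) * wq (p i0 : ℤ) = 1 := by
    revert hz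
    generalize (e i0 : ZMod 3) * wq (p i0 : ℤ) = z
    revert z; decide
  rcases hz' with h | h
  · exact single_fixed hp h9 hinj he he' h01 h02 h12 h12w h rel ⟨h1, h2⟩
  · have nS : ∀ {j : Fin 3}, i0 ≠ j → ¬ Sp i0 i0 j := by
      rintro j h (h' | h') <;> exact h h'.symm
    have r0 := rel i0
    have r1 := rel i1
    have r2 := rel i2
    rw [if_pos (Or.inl rfl)] at r0
    rw [if_neg (nS h01)] at r1
    rw [if_neg (nS h02)] at r2
    have z0 : (e' i0 : ZMod 3) = -(e i0 : ZMod 3) := by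
      have := congrArg (fun n : ℕ => (n : ZMod 3)) r0
      push_cast at this
      linear_combination this + three_zmod
    refine single_fixed hp h9 hinj he' he h01 h02 h12 (by rw [← r1, ← r2]; exact h12w) ?_
      rel.symm ⟨h2, h1⟩
    rw [z0]
    have : (2 : ZMod 3) = -1 := by decide
    rw [this]
    linear_combination -h

def SixD (s0 s1 s2 t0 t1 t2 : ZMod 3) : Prop :=
    (s0 = t0 ∧ s1 ≠ t1 ∧ s2 ≠ t2 ∧ s1 + s2 = 0) ∨ (s1 = t1 ∧ s0 ≠ t0 ∧ s2 ≠ t2 ∧ s0 + s2 = 0) ∨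
    (s2 = t2 ∧ s0 ≠ t0 ∧ s1 ≠ t1 ∧ s0 + s1 = 0) ∨
    (s0 ≠ t0 ∧ s1 = t1 ∧ s2 = t2 ∧ s1 + s2 = 0) ∨ (s1 ≠ t1 ∧ s0 = t0 ∧ s2 = t2 ∧ s0 + s2 = 0) ∨
    (s2 ≠ t2 ∧ s0 = t0 ∧ s1 = t1 ∧ s0 + s1 = 0)

instance (s0 s1 s2 t0 t1 t2 : ZMod 3) : Decidable (SixD s0 s1 s2 t0 t1 t2) := by
  unfold SixD; infer_instance

def NZ6 (s0 s1 s2 t0 t1 t2 : ZMod 3) : Prop :=
  (s0 ≠ 0 ∧ s1 ≠ 0 ∧ s2 ≠ 0) ∧ t0 ≠ 0 ∧ t1 ≠ 0 ∧ t2 ≠ 0

def SN6 (s0 s1 s2 t0 t1 t2 : ZMod 3) : Prop :=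
  (s0 + s1 + s2 ≠ 0 ∧ t0 + t1 + t2 ≠ 0) ∧ ¬ (s0 = t0 ∧ s1 = t1 ∧ s2 = t2) ∧
    (s0 = t0 ∨ s1 = t1 ∨ s2 = t2)

instance (s0 s1 s2 t0 t1 t2 : ZMod 3) : Decidable (NZ6 s0 s1 s2 t0 t1 t2) := by
  unfold NZ6; infer_instance

instance (s0 s1 s2 t0 t1 t2 : ZMod 3) : Decidable (SN6 s0 s1 s2 t0 t1 t2) := by
  unfold SN6; infer_instance

theorem three_sum_aux' : ∀ s0 s1 s2 t0 t1 t2 : ZMod 3, NZ6 s0 s1 s2 t0 t1 t2 →
    SN6 s0 s1 s2 t0 t1 t2 → SixD s0 s1 s2 t0 t1 t2 := by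
  decide +kernel

/-- **three primes**: two different sums of two cubes have no exponent in common -/
theorem three_pair' {p e e' : Fin 3 → ℕ} (hp : ∀ i, (p i).Prime)
    (h9 : ∀ i, p i % 9 = 2 ∨ p i % 9 = 5)
    (hinj : Function.Injective p) (he : ∀ i, e i = 1 ∨ e i = 2) (he' : ∀ i, e' i = 1 ∨ e' i = 2)
    (hne : e ≠ e') (hcom : ∃ i, e i = e' i) (hw : wq (∏ i, (p i : ℤ) ^ e i) ≠ 0)
    (hw' : wq (∏ i, (p i : ℤ) ^ e' i) ≠ 0) :
    ¬ (IsSum (∏ i, (p i : ℚ) ^ e i) ∧ IsSum (∏ i, (p i : ℚ) ^ e' i)) := by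
  rw [wq_all h9, Fin.sum_univ_three] at hw hw'
  have hz : ∀ i, (e i : ZMod 3) * wq (p i : ℤ) ≠ 0 := fun i =>
    mul_ne_zero (zmod_ne (he i)) (wq_ne (h9 i))
  have hz' : ∀ i, (e' i : ZMod 3) * wq (p i : ℤ) ≠ 0 := fun i =>
    mul_ne_zero (zmod_ne (he' i)) (wq_ne (h9 i))
  have hiff : ∀ i, ((e i : ZMod 3) * wq (p i : ℤ) = (e' i : ZMod 3) * wq (p i : ℤ) ↔ e i = e' i) :=
    fun i => zmod_exp (he i) (he' i) (wq_ne (h9 i))
  have h0 := hiff 0
  have h1 := hiff 1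
  have h2 := hiff 2
  have hsg : ∀ i0 : Fin 3, e i0 ≠ e' i0 → (∀ j, j ≠ i0 → e j = e' j) → Rel i0 i0 e e' :=
    fun i0 g1 g2 => rel_of he he' g1 g1 (fun j h _ => g2 j h)
  rcases three_sum_aux' _ _ _ _ _ _ ⟨⟨hz 0, hz 1, hz 2⟩, hz' 0, hz' 1, hz' 2⟩ (And.intro ⟨hw, hw'⟩ (And.intro (by
    rintro ⟨a, b, c⟩
    apply hne
    funext i
    fin_cases i
    · exact h0.mp a
    · exact h1.mp b
    · exact h2.mp c) (by
    obtain ⟨i, hi⟩ := hcom
    fin_cases i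
    · exact Or.inl (h0.mpr hi)
    · exact Or.inr (Or.inl (h1.mpr hi))
    · exact Or.inr (Or.inr (h2.mpr hi))))) with
    ⟨a, b, c, d⟩ | ⟨a, b, c, d⟩ | ⟨a, b, c, d⟩ | ⟨a, b, c, d⟩ | ⟨a, b, c, d⟩ | ⟨a, b, c, d⟩
  · rw [h0] at a; rw [Ne, h1] at b; rw [Ne, h2] at c
    exact three_fixed (i0 := 1) (i1 := 2) (i2 := 0) hp h9 hinj he he' (by decide) (by decide)
      (by decide) d (rel_of he he' b c (fun j g1 g2 => by
        fin_cases j
        · exact a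
        · exact absurd rfl g1
        · exact absurd rfl g2))
  · rw [h1] at a; rw [Ne, h0] at b; rw [Ne, h2] at c
    exact three_fixed (i0 := 0) (i1 := 2) (i2 := 1) hp h9 hinj he he' (by decide) (by decide)
      (by decide) d (rel_of he he' b c (fun j g1 g2 => by
        fin_cases j
        · exact absurd rfl g1
        · exact a
        · exact absurd rfl g2))
  · rw [h2] at a; rw [Ne, h0] at b; rw [Ne, h1] at c
    exact three_fixed (i0 := 0) (i1 := 1) (i2 := 2) hp h9 hinj he he' (by decide) (by decide)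
      (by decide) d (rel_of he he' b c (fun j g1 g2 => by
        fin_cases j
        · exact absurd rfl g1
        · exact absurd rfl g2
        · exact a))
  · rw [Ne, h0] at a; rw [h1] at b; rw [h2] at c
    exact single_fixed' (i0 := 0) (i1 := 1) (i2 := 2) hp h9 hinj he he' (by decide) (by decide)
      (by decide) d (hsg 0 a (fun j g => by
        fin_cases j
        · exact absurd rfl g
        · exact b
        · exact c))
  · rw [Ne, h1] at a; rw [h0] at b; rw [h2] at c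
    exact single_fixed' (i0 := 1) (i1 := 0) (i2 := 2) hp h9 hinj he he' (by decide) (by decide)
      (by decide) d (hsg 1 a (fun j g => by
        fin_cases j
        · exact b
        · exact absurd rfl g
        · exact c))
  · rw [Ne, h2] at a; rw [h0] at b; rw [h1] at c
    exact single_fixed' (i0 := 2) (i1 := 0) (i2 := 1) hp h9 hinj he he' (by decide) (by decide)
      (by decide) d (hsg 2 a (fun j g => by
        fin_cases j
        · exact b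
        · exact c
        · exact absurd rfl g))

/-- three primes: of the six numbers not `±1 mod 9` two sums of two cubes are complementary -/
theorem class_six {q : Fin 3 → ℕ} (hq : ∀ i, (q i).Prime)
    (h9 : ∀ i, q i % 9 = 2 ∨ q i % 9 = 5) (hinj : Function.Injective q) :
    ∃ T : Finset ℕ, T.card = 6 ∧
      (∀ A, A ∈ T ↔ (∃ e : Fin 3 → Fin 2, A = num q e) ∧ A % 9 ≠ 1 ∧ A % 9 ≠ 8) ∧
      ∀ A ∈ T, ∀ A' ∈ T, IsSum (A : ℚ) → IsSum (A' : ℚ) →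
        A = A' ∨ A * A' = (q 0 * q 1 * q 2) ^ 3 := by
  obtain ⟨T, hT, hmem, -⟩ := count_three hq h9 hinj
  refine ⟨T, hT, hmem, ?_⟩
  intro A hA A' hA' hs hs'
  obtain ⟨⟨e, rfl⟩, h1⟩ := (hmem _).mp hA
  obtain ⟨⟨e', rfl⟩, h1'⟩ := (hmem _).mp hA'
  by_cases hee : e = e'
  · left; rw [hee]
  · right
    by_contra hne
    have hi : ∃ i, e i = e' i := by
      by_contra hno
      push Not at hno
      apply hne
      have hp : q 0 * q 1 * q 2 = ∏ i, q i := by rw [Fin.prod_univ_three]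
      rw [hp, num, num, ← Finset.prod_mul_distrib, ← Finset.prod_pow]
      refine Finset.prod_congr rfl (fun i _ => ?_)
      rw [← pow_add]
      congr 1
      have h5 := hno i
      have h6 := (e i).isLt
      have h7 := (e' i).isLt
      have h8 : (e i : ℕ) ≠ e' i := fun h => h5 (Fin.ext h)
      omega
    have w1 : wq (num q e : ℤ) ≠ 0 := by
      rw [Ne, wq_zero_iff (num_not_three h9 e)]; omega
    have w2 : wq (num q e' : ℤ) ≠ 0 := by
      rw [Ne, wq_zero_iff (num_not_three h9 e')]; omega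
    rw [num_cast_rat] at hs hs'
    rw [num_cast_int] at w1 w2
    obtain ⟨i, hi⟩ := hi
    refine three_pair' (e := fun i => (e i : ℕ) + 1) (e' := fun i => (e' i : ℕ) + 1) hq h9 hinj
      (exp_cases e) (exp_cases e') ?_ ⟨i, by simp only [hi]⟩ w1 w2 ⟨hs, hs'⟩
    intro h5
    apply hee
    funext i
    have := congrFun h5 i
    exact Fin.ext (by omega)

end Pool.Agent.Lib_helper84.Cub
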