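import Pool.Agent.Lib_helper84.Cub.InfoB

/-!
# Two inert primes and the prime 3
-/

namespace Pool.Agent.Lib_helper84.Cub

open Pool.Agent.Lib_helper18 Pool.Agent.Lib_helper18.Eis

variable {p e e' : Fin 3 → ℕ} {i0 i1 i2 : Fin 3} {pos pos' : Fin 3 → Fin 3} {x y : Fin 3 → ℤ}
  {s u : ZMod 3}

/-- the relation between the reduced terms -/
theorem rel3 (b : BaseG p e e' i0 i0) (t : Three p e i0 i1 i2 s u)
    (t' : Three p e' i0 i1 i2 (-s) u) (hpos : Exch i0 i0 pos pos') :
    (rdP p i0 i0 pos 1 * x 1 * y 0) ^ 3 * (nt p e i0 i1 pos x 0 * nt p e' i0 i1 pos' y 1) =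
      (rdP p i0 i0 pos 0 * x 0 * y 1) ^ 3 *
        (nt p e i0 i1 pos x 1 * nt p e' i0 i1 pos' y 0) := by
  have hS : ¬ Sp i0 i0 i2 := by rintro (h | h) <;> exact t.h02 h.symm
  have h2 := hpos i2
  rw [if_neg hS] at h2
  have h := exch_h1 b hpos
  rw [t.cell_eq3, t.cell_eq3, t'.cell_eq3, t'.cell_eq3, h2] at h
  set a0 : ℤ := if pos i2 = 0 then 3 else 1 with ha0
  set a1 : ℤ := if pos i2 = 1 then 3 else 1 with ha1
  have n0 : a0 ≠ 0 := by rw [ha0]; split_ifs <;> norm_num
  have n1 : a1 ≠ 0 := by rw [ha1]; split_ifs <;> norm_num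
  apply mul_left_cancel₀ (mul_ne_zero n0 n1)
  unfold nt
  linear_combination (x 0 * x 1 * y 0 * y 1) ^ 3 * h

theorem cls_tII3 (b : BaseG p e e' i0 i0) (t : Three p e i0 i1 i2 s u)
    (t' : Three p e' i0 i1 i2 (-s) u) (hs : s ≠ 0) (hpos : Exch i0 i0 pos pos')
    (hP : IsPt p e pos x) (hP' : IsPt p e' pos' y) :
    Cls (tII p i0 i0 pos x y) (cfun s u (pos i0) (pos i1) (pos i2)) := by
  have hS1 : ¬ Sp i0 i0 i1 := by rintro (h | h) <;> exact t.h01 h.symm
  have hS2 : ¬ Sp i0 i0 i2 := by rintro (h | h) <;> exact t.h02 h.symm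
  have g0 := hpos i0
  have g1 := hpos i1
  have g2 := hpos i2
  rw [if_pos (Or.inl rfl)] at g0
  rw [if_neg hS1] at g1
  rw [if_neg hS2] at g2
  have rel := rel3 (x := x) (y := y) b t t' hpos
  rw [tII_eq]
  have hc : pos i2 = 0 ∨ pos i2 = 1 ∨ pos i2 = 2 := by
    generalize pos i2 = k; revert k; decide
  rcases hc with hc | hc | hc
  · -- 3 in the first cell
    rw [hc] at g2
    have u1 := t.unit hP (k := 1) (by rw [hc]; decide)
    have u2 := t.unit hP (k := 2) (by rw [hc]; decide)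
    have u1' := t'.unit hP' (k := 1) (by rw [g2]; decide)
    have u2' := t'.unit hP' (k := 2) (by rw [g2]; decide)
    have d := t.dvd_iff hP (i := 1) (j := 2) (by rw [hc]; decide) (by rw [hc]; decide) (by decide)
    have d' := t'.dvd_iff hP' (i := 1) (j := 2) (by rw [g2]; decide) (by rw [g2]; decide)
      (by decide)
    rw [hc] at d
    rw [g2, g0, g1] at d'
    unfold cfun
    rw [if_pos hc]
    split_ifs with h1 h2
    · -- 3 | x 0
      have d1 := d.mpr h1
      have d2 : ¬ (3 : ℤ) ∣ y 0 := fun h => tau_c0' s u hs _ _ h1 (d'.mp h)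
      exact clsTwo_one (Dvd.dvd.mul_right (Dvd.dvd.mul_left d1 _) _)
        (ndvd_mul (ndvd_mul (b.rd3 1) u1) d2)
    · have d2 := d'.mpr h2
      have d1 : ¬ (3 : ℤ) ∣ x 0 := fun h => h1 (d.mp h)
      exact clsTwo_zero (Dvd.dvd.mul_left d2 _) (ndvd_mul (ndvd_mul (b.rd3 0) d1) u1')
    · have d1 : ¬ (3 : ℤ) ∣ x 0 := fun h => h1 (d.mp h)
      have d2 : ¬ (3 : ℤ) ∣ y 0 := fun h => h2 (d'.mp h)
      have hsum := t.nt_sum hP (i := 1) (j := 2) (by rw [hc]; decide) (by rw [hc]; decide)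
        (by decide)
      have hsum' := t'.nt_sum hP' (i := 1) (j := 2) (by rw [g2]; decide) (by rw [g2]; decide)
        (by decide)
      rw [hc] at hsum
      rw [g2] at hsum'
      have w1 := t.wq_nt hP (k := 1) (by rw [hc]; decide)
      have w2 := t.wq_nt hP (k := 2) (by rw [hc]; decide)
      have w1' := t'.wq_nt hP' (k := 1) (by rw [g2]; decide)
      have w2' := t'.wq_nt hP' (k := 2) (by rw [g2]; decide)
      rw [g0, g1] at w1' w2'
      refine clsII_0 (t.nt_ndvd hP (by rw [hc]; decide)) (t.nt_ndvd hP (k := 2) (by rw [hc]; decide))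
        (t'.nt_ndvd hP' (by rw [g2]; decide)) (t'.nt_ndvd hP' (k := 2) (by rw [g2]; decide))
        (by linear_combination hsum) (by linear_combination hsum') rel
        (ndvd_mul (ndvd_mul (b.rd3 1) u1) d2) ?_ ?_
      · rw [w1, w2]; exact sub_ne_zero.mpr h1
      · rw [w1, w2, w1', w2']
        exact tau_c0 s u hs _ _ (sub_ne_zero.mpr h1) (sub_ne_zero.mpr h2)
  · -- 3 in the middle cell
    rw [hc] at g2
    have u0 := t.unit hP (k := 0) (by rw [hc]; decide)
    have u0' := t'.unit hP' (k := 0) (by rw [g2]; decide)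
    have d := t.dvd_iff hP (i := 0) (j := 2) (by rw [hc]; decide) (by rw [hc]; decide) (by decide)
    have d' := t'.dvd_iff hP' (i := 0) (j := 2) (by rw [g2]; decide) (by rw [g2]; decide)
      (by decide)
    rw [hc] at d
    rw [g2, g0, g1] at d'
    unfold cfun
    rw [if_neg (by rw [hc]; decide), if_pos hc]
    split_ifs with h1 h2
    · -- 3 | x 1
      have d1 := d.mpr h1
      have d2 : ¬ (3 : ℤ) ∣ y 1 := fun h => tau_c1' s u hs _ _ h1 (d'.mp h)
      exact clsTwo_zero (Dvd.dvd.mul_right (Dvd.dvd.mul_left d1 _) _)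
        (ndvd_mul (ndvd_mul (b.rd3 0) u0) d2)
    · have d2 := d'.mpr h2
      have d1 : ¬ (3 : ℤ) ∣ x 1 := fun h => h1 (d.mp h)
      exact clsTwo_one (Dvd.dvd.mul_left d2 _) (ndvd_mul (ndvd_mul (b.rd3 1) d1) u0')
    · have d1 : ¬ (3 : ℤ) ∣ x 1 := fun h => h1 (d.mp h)
      have hsum := t.nt_sum hP (i := 0) (j := 2) (by rw [hc]; decide) (by rw [hc]; decide)
        (by decide)
      have hsum' := t'.nt_sum hP' (i := 0) (j := 2) (by rw [g2]; decide) (by rw [g2]; decide)
        (by decide)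
      rw [hc] at hsum
      rw [g2] at hsum'
      have w1 := t.wq_nt hP (k := 0) (by rw [hc]; decide)
      have w2 := t.wq_nt hP (k := 2) (by rw [hc]; decide)
      have w1' := t'.wq_nt hP' (k := 0) (by rw [g2]; decide)
      have w2' := t'.wq_nt hP' (k := 2) (by rw [g2]; decide)
      rw [g0, g1] at w1' w2'
      refine clsII_1 (t.nt_ndvd hP (by rw [hc]; decide)) (t.nt_ndvd hP (k := 2) (by rw [hc]; decide))
        (t'.nt_ndvd hP' (by rw [g2]; decide)) (t'.nt_ndvd hP' (k := 2) (by rw [g2]; decide))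
        (by linear_combination hsum) (by linear_combination hsum') rel
        (ndvd_mul (ndvd_mul (b.rd3 1) d1) u0') ?_ ?_
      · rw [w1, w2]; exact sub_ne_zero.mpr h1
      · rw [w1, w2, w1', w2']
        exact tau_c1 s u hs _ _ (sub_ne_zero.mpr h1) (sub_ne_zero.mpr h2)
  · -- 3 in the last cell
    rw [hc] at g2
    have u0' := t'.unit hP' (k := 0) (by rw [g2]; decide)
    have u1 := t.unit hP (k := 1) (by rw [hc]; decide)
    have hsum := t.nt_sum hP (i := 0) (j := 1) (by rw [hc]; decide) (by rw [hc]; decide)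
      (by decide)
    have hsum' := t'.nt_sum hP' (i := 0) (j := 1) (by rw [g2]; decide) (by rw [g2]; decide)
      (by decide)
    rw [hc] at hsum
    rw [g2] at hsum'
    have w0 := t.wq_nt hP (k := 0) (by rw [hc]; decide)
    have w1 := t.wq_nt hP (k := 1) (by rw [hc]; decide)
    have w0' := t'.wq_nt hP' (k := 0) (by rw [g2]; decide)
    have w1' := t'.wq_nt hP' (k := 1) (by rw [g2]; decide)
    rw [g0, g1] at w0' w1'
    have d := t.dvd_iff hP (i := 0) (j := 1) (by rw [hc]; decide) (by rw [hc]; decide) (by decide)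
    have d' := t'.dvd_iff hP' (i := 0) (j := 1) (by rw [g2]; decide) (by rw [g2]; decide)
      (by decide)
    rw [hc] at d
    rw [g2, g0, g1] at d'
    obtain ⟨v, hv⟩ := ZMod.intCast_surjective (n := 3) (-(cw2 s u (pos i0) (pos i1) 0 -
      cw2 s u (pos i0) (pos i1) 1) * (cw2 s u (pos i0) (pos i1) 2 -
        cw2 (-s) u (tau (pos i0)) (pos i1) 2 + cw2 (-s) u (tau (pos i0)) (pos i1) 0 -
        cw2 s u (pos i0) (pos i1) 0))
    have hcls := clsII_2 (t.nt_ndvd hP (k := 0) (by rw [hc]; decide))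
      (t.nt_ndvd hP (k := 1) (by rw [hc]; decide)) (t'.nt_ndvd hP' (k := 0) (by rw [g2]; decide))
      (t'.nt_ndvd hP' (k := 1) (by rw [g2]; decide))
      (ndvd_mul (ndvd_mul (b.rd3 1) u1) u0')
      (fun h => nt9 (t.nt_dvd (k := 2) h)) (fun h => nt9 (t'.nt_dvd (k := 2) h)) hsum hsum'
      (by rw [w0, w1, w0', w1']; exact tau_c2 s u _ _) rel (s := v) (by
        rw [w0, w1, w0', hv]
        by_cases h : cw2 s u (pos i0) (pos i1) 0 = cw2 s u (pos i0) (pos i1) 1
        · rw [h, sub_self, neg_zero, zero_mul, zero_mul]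
        · have h' : cw2 (-s) u (tau (pos i0)) (pos i1) 0 ≠ cw2 (-s) u (tau (pos i0)) (pos i1) 1 := by
            intro h'
            have := tau_c2 s u (pos i0) (pos i1)
            rw [h', sub_self] at this
            exact h (sub_eq_zero.mp this)
          have n2 : ¬ (3 : ℤ) ∣ x 2 := fun h3 => h (d.mp h3)
          have n2' : ¬ (3 : ℤ) ∣ y 2 := fun h3 => h' (d'.mp h3)
          have w2 : wq (nt p e i0 i1 pos x 2) = cw2 s u (pos i0) (pos i1) 2 := by
            unfold nt
            rw [wq_mul_cube (t.dc_ndvd 2) n2, t.wq_dc]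
          have w2' : wq (nt p e' i0 i1 pos' y 2) = cw2 (-s) u (tau (pos i0)) (pos i1) 2 := by
            unfold nt
            rw [wq_mul_cube (t'.dc_ndvd 2) n2', t'.wq_dc, g0, g1]
          rw [w2, w2'])
    have e : -1 - (v : ZMod 3) = cfun s u (pos i0) (pos i1) (pos i2) := by
      unfold cfun
      rw [if_neg (by rw [hc]; decide), if_neg (by rw [hc]; decide), hv]
      ring
    rw [e] at hcls
    exact hcls

end Pool.Agent.Lib_helper84.Cub
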