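import Pool.Agent.Lib_helper84.Cub.TwoThree

/-!
# Two inert primes and the prime 3: cases I and III
-/

namespace Pool.Agent.Lib_helper84.Cub

open Pool.Agent.Lib_helper18 Pool.Agent.Lib_helper18.Eis

theorem key_w0 : ∀ X d Q R w0 : ZMod 3, X ≠ 0 → Q ≠ 0 → R ≠ 0 →
    X * (-d) * X * (-X) = Q * R * w0 → w0 = Q * R * X * d := by decide

theorem z3_sq : ∀ a : ZMod 3, a ≠ 0 → a ^ 2 = 1 := by decide

theorem caseI_key {X X' D w0 Q Q' R y0 y1 y2 d s : ZMod 3} (hX : X ≠ 0) (hs : s ≠ 0)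
    (hQ : Q ≠ 0) (hR : R ≠ 0) (h1 : R * y1 = -s * y0) (h2 : y0 + Q' * y2 = 0)
    (hQQ : Q * Q' = -1) (h4 : D = X * (-d)) (h5 : X + X' = 0) (h3 : D * X * X' = Q * R * w0) :
    w0 * (-1 * y2) = (d * s) * (X * y1) := by
  have hQ2 := z3_sq Q hQ
  have hR2 := z3_sq R hR
  have hs2 := z3_sq s hs
  have e1 : Q' = -Q := by linear_combination Q * hQQ - Q' * hQ2
  have e2 : y0 = Q * y2 := by linear_combination h2 - y2 * e1
  have e3 : y1 = -(R * s * Q * y2) := by
    linear_combination R * h1 - y1 * hR2 - R * s * e2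
  have e5 : X' = -X := by linear_combination h5
  rw [h4, e5] at h3
  have e4 := key_w0 X d Q R w0 hX hQ hR h3
  rw [e3, e4]
  linear_combination (X * d * R * Q * y2) * hs2

variable {p e e' : Fin 3 → ℕ} {i0 i1 i2 : Fin 3} {pos pos' : Fin 3 → Fin 3} {x y : Fin 3 → ℤ}
  {s u : ZMod 3}

theorem dc_prod (p e : Fin 3 → ℕ) (i0 i1 : Fin 3) (pos : Fin 3 → Fin 3) :
    dc p e i0 i1 pos 0 * dc p e i0 i1 pos 1 * dc p e i0 i1 pos 2 =
      (p i0 : ℤ) ^ e i0 * (p i1 : ℤ) ^ e i1 := by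
  unfold dc
  have h0 : pos i0 = 0 ∨ pos i0 = 1 ∨ pos i0 = 2 := by
    generalize pos i0 = k; revert k; decide
  have h1 : pos i1 = 0 ∨ pos i1 = 1 ∨ pos i1 = 2 := by
    generalize pos i1 = k; revert k; decide
  rcases h0 with h0 | h0 | h0 <;> rcases h1 with h1 | h1 | h1 <;> simp [h0, h1] <;> ring

theorem neg_one_of {n : ℕ} (h : n % 9 = 2 ∨ n % 9 = 5) : (n : ZMod 3) = -1 := by
  have h1 : ((n + 1 : ℕ) : ZMod 3) = 0 := by
    rw [ZMod.natCast_eq_zero_iff]; omega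
  push_cast at h1
  linear_combination h1

theorem neg_one_ne : ((-1 : ZMod 3)) ≠ 0 := by decide

/-- the arithmetic of case I -/
theorem caseI_mod (b : BaseG p e e' i0 i0) (t : Three p e i0 i1 i2 s u)
    (t' : Three p e' i0 i1 i2 (-s) u) (hs : s ≠ 0)
    (hP : IsPt p e pos x) (hP' : IsPt p e' (stdp i0 i0) y) {i j : Fin 3} (hi : i ≠ pos i2)
    (hj : j ≠ pos i2) (hij : i ≠ j) :
    ((x 0 * x 1 * x 2 * (qS p i0 i0 * y 2) : ℤ) : ZMod 3) =
      ((cw2 s u (pos i0) (pos i1) i - cw2 s u (pos i0) (pos i1) j) * s) *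
        ((nt p e i0 i1 pos x i * y 1 : ℤ) : ZMod 3) := by
  have hS1 : ¬ Sp i0 i0 i1 := by rintro (h | h) <;> exact t.h01 h.symm
  have hS2 : ¬ Sp i0 i0 i2 := by rintro (h | h) <;> exact t.h02 h.symm
  have st0 : stdp i0 i0 i0 = 2 := by rw [stdp, if_pos (Or.inl rfl)]
  have st1 : stdp i0 i0 i1 = 1 := by rw [stdp, if_neg hS1]
  have st2 : stdp i0 i0 i2 = 1 := by rw [stdp, if_neg hS2]
  have r0 := b.rel i0
  have r1 := b.rel i1
  rw [if_pos (Or.inl rfl)] at r0
  rw [if_neg hS1] at r1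
  have q1 := neg_one_of t.n0
  have q2 := neg_one_of t.n1
  have hsum' := t'.nt_sum hP' (i := 0) (j := 2) (by rw [st2]; decide) (by rw [st2]; decide)
    (by decide)
  have hmod' := t'.nt_mod hP' (i := 0) (j := 2) (by rw [st2]; decide) (by rw [st2]; decide)
    (by decide)
  rw [st2] at hsum' hmod'
  rw [st0, st1] at hmod'
  have m0 : nt p e' i0 i1 (stdp i0 i0) y 0 = y 0 ^ 3 := by
    unfold nt dc
    rw [st0, st1]; simp
  have m1 : nt p e' i0 i1 (stdp i0 i0) y 1 = (p i1 : ℤ) ^ e i1 * y 1 ^ 3 := by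
    unfold nt dc
    rw [st0, st1, ← r1]; simp
  have m2 : nt p e' i0 i1 (stdp i0 i0) y 2 = (p i0 : ℤ) ^ e' i0 * y 2 ^ 3 := by
    unfold nt dc
    rw [st0, st1]; simp
  rw [m0, m1] at hmod'
  rw [m0, m1, m2] at hsum'
  have hsumZ := congrArg (fun n : ℤ => (n : ZMod 3)) hsum'
  push_cast at hsumZ hmod'
  simp only [z3_cube, q1, q2, three_zmod, zero_mul, add_zero] at hsumZ hmod'
  have hw0 : cw2 (-s) u 2 1 0 = 0 := by unfold cw2; simp
  have hw2 : cw2 (-s) u 2 1 2 = -s := by unfold cw2; simp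
  rw [hw0, hw2] at hmod'
  -- the point `P`
  have hsum := t.nt_sum hP hi hj hij
  have hmod := t.nt_mod hP hi hj hij
  have hsZ := congrArg (fun n : ℤ => (n : ZMod 3)) hsum
  push_cast at hsZ
  rw [three_zmod, zero_mul, add_zero] at hsZ
  have hprod : nt p e i0 i1 pos x (pos i2) * nt p e i0 i1 pos x i * nt p e i0 i1 pos x j =
      (p i0 : ℤ) ^ e i0 * (p i1 : ℤ) ^ e i1 * (x 0 * x 1 * x 2) ^ 3 := by
    have h1 := three_prod (Ne.symm hi) (Ne.symm hj) hij (fun k => nt p e i0 i1 pos x k)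
    rw [← h1, Fin.prod_univ_three, ← dc_prod p e i0 i1 pos]
    unfold nt
    ring
  have hpZ := congrArg (fun n : ℤ => (n : ZMod 3)) hprod
  push_cast at hpZ
  simp only [q1, q2, z3_cube] at hpZ
  push_cast
  rw [qS_single]
  push_cast
  rw [q1]
  refine caseI_key (X := (nt p e i0 i1 pos x i : ZMod 3)) (X' := (nt p e i0 i1 pos x j : ZMod 3))
    (D := (nt p e i0 i1 pos x (pos i2) : ZMod 3)) (Q := (-1) ^ e i0) (Q' := (-1) ^ e' i0)
    (R := (-1) ^ e i1) (y0 := (y 0 : ZMod 3))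
    (z3_ne.mpr (t.nt_ndvd hP hi)) hs (pow_ne_zero _ neg_one_ne) (pow_ne_zero _ neg_one_ne)
    ?_ ?_ ?_ ?_ hsZ ?_
  · linear_combination hmod'
  · linear_combination hsumZ
  · rw [← pow_add, r0]; decide
  · rw [hmod]; ring
  · linear_combination hpZ

/-- the class in case I -/
theorem cls_tI3 (b : BaseG p e e' i0 i0) (t : Three p e i0 i1 i2 s u)
    (t' : Three p e' i0 i1 i2 (-s) u) (hs : s ≠ 0)
    (hP : IsPt p e pos x) (hP' : IsPt p e' (stdp i0 i0) y) :
    Cls (tI p e i0 i0 pos x y) (((pos i2 : ℕ) : ZMod 3) +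
      (cw2 s u (pos i0) (pos i1) (pos i2 + 1) - cw2 s u (pos i0) (pos i1) (pos i2 + 2)) * s) := by
  have hS1 : ¬ Sp i0 i0 i1 := by rintro (h | h) <;> exact t.h01 h.symm
  have hS2 : ¬ Sp i0 i0 i2 := by rintro (h | h) <;> exact t.h02 h.symm
  have st0 : stdp i0 i0 i0 = 2 := by rw [stdp, if_pos (Or.inl rfl)]
  have st1 : stdp i0 i0 i1 = 1 := by rw [stdp, if_neg hS1]
  have st2 : stdp i0 i0 i2 = 1 := by rw [stdp, if_neg hS2]
  have hy : ¬ (3 : ℤ) ∣ y 1 := by
    have h := t'.dvd_iff hP' (i := 0) (j := 2) (by rw [st2]; decide) (by rw [st2]; decide)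
      (by decide)
    rw [st2, st0, st1] at h
    intro h3
    have h4 := h.mp h3
    have hw0 : cw2 (-s) u 2 1 0 = 0 := by unfold cw2; simp
    have hw2 : cw2 (-s) u 2 1 2 = -s := by unfold cw2; simp
    rw [hw0, hw2] at h4
    exact hs (by linear_combination h4)
  have hsum : term p e pos x 0 + term p e pos x 1 + term p e pos x 2 = 0 := sum3 hP.sum
  have e3 : ∀ z : ℤ, ((3 * (x 0 * x 1 * x 2) * z : ℤ) : Eis) =
      ((3 * (x 0 * x 1 * x 2 * z) : ℤ) : Eis) := by intro z; push_cast; ring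
  have hc : pos i2 = 0 ∨ pos i2 = 1 ∨ pos i2 = 2 := by
    generalize pos i2 = k; revert k; decide
  unfold tI tOne
  rw [e3]
  rcases hc with hc | hc | hc
  · have hm := caseI_mod b t t' hs hP hP' (i := 1) (j := 2) (by rw [hc]; decide)
      (by rw [hc]; decide) (by decide)
    have t0 := t.term_eq (pos := pos) (x := x) 0
    have t1 := t.term_eq (pos := pos) (x := x) 1
    rw [if_pos hc] at t0
    rw [if_neg (by rw [hc]; decide), one_mul] at t1
    rw [← t1] at hm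
    have h := clsI_0 t0 (by rw [t1]; exact t.nt_ndvd hP (by rw [hc]; decide)) hy hsum hm
    rw [hc]
    exact h
  · have hm := caseI_mod b t t' hs hP hP' (i := 2) (j := 0) (by rw [hc]; decide)
      (by rw [hc]; decide) (by decide)
    have t0 := t.term_eq (pos := pos) (x := x) 1
    have t1 := t.term_eq (pos := pos) (x := x) 2
    rw [if_pos hc] at t0
    rw [if_neg (by rw [hc]; decide), one_mul] at t1
    rw [← t1] at hm
    have h := clsI_1 t0 (by rw [t1]; exact t.nt_ndvd hP (by rw [hc]; decide)) hy hsum hm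
    rw [hc]
    have e : ((((1 : Fin 3) : ℕ)) : ZMod 3) = 1 := by decide
    rw [e]
    exact h
  · have hm := caseI_mod b t t' hs hP hP' (i := 0) (j := 1) (by rw [hc]; decide)
      (by rw [hc]; decide) (by decide)
    have t0 := t.term_eq (pos := pos) (x := x) 2
    have t1 := t.term_eq (pos := pos) (x := x) 0
    rw [if_pos hc] at t0
    rw [if_neg (by rw [hc]; decide), one_mul] at t1
    rw [← t1] at hm
    have h := clsI_2 t0 (by rw [t1]; exact t.nt_ndvd hP (by rw [hc]; decide)) hy hsum hm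
    rw [hc]
    have e : ((((2 : Fin 3) : ℕ)) : ZMod 3) = 2 := by decide
    rw [e]
    exact h

theorem combI : ∀ s u : ZMod 3, s ≠ 0 → u ≠ 0 → ∀ a b c : Fin 3, b ≠ c →
    ((a : ℕ) : ZMod 3) ≠ ((c : ℕ) : ZMod 3) + (cw2 s u a b (c + 1) - cw2 s u a b (c + 2)) * s := by
  decide +kernel

/-- normal form when `i1` and `i2` lie in the same cell -/
theorem same_cell (h01 : i0 ≠ i1) (h02 : i0 ≠ i2) (h12 : i1 ≠ i2) (pos : Fin 3 → Fin 3)
    (hne : ∀ k, ∃ j, pos j ≠ k) (h : pos i1 = pos i2) : ∃ k, ∀ j, pf k (pos j) = stdp i0 i0 j := by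
  have hall := three_all h01 h02 h12
  have nS : ∀ {j : Fin 3}, i0 ≠ j → ¬ Sp i0 i0 j := by
    rintro j h (h' | h') <;> exact h h'.symm
  have h2 : pos i0 ≠ pos i1 := by
    intro h2
    obtain ⟨j, hj⟩ := hne (pos i0)
    rcases hall j with rfl | rfl | rfl
    · exact hj rfl
    · exact hj h2.symm
    · exact hj (h.symm.trans h2.symm)
  obtain ⟨k, hk1, hk2⟩ := std3 _ _ h2
  refine ⟨k, fun j => ?_⟩
  rcases hall j with rfl | rfl | rfl
  · rw [stdp, if_pos (Or.inl rfl)]; exact hk1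
  · rw [stdp, if_neg (nS h01)]; exact hk2
  · rw [stdp, if_neg (nS h02), ← h]; exact hk2

/-- **one exchanged prime**, 3 divides `A` once -/
theorem single_three (b : BaseG p e e' i0 i0) (t : Three p e i0 i1 i2 s u)
    (t' : Three p e' i0 i1 i2 (-s) u) (hs : s ≠ 0) (hu : u ≠ 0)
    (hne : ∀ k, ∃ j, pos j ≠ k) (hne' : ∀ k, ∃ j, pos' j ≠ k)
    (hP : IsPt p e pos x) (hP' : IsPt p e' pos' y) : False := by
  have nS : ∀ {j : Fin 3}, i0 ≠ j → ¬ Sp i0 i0 j := by
    rintro j h (h' | h') <;> exact h h'.symm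
  by_cases g : pos i1 = pos i2
  · obtain ⟨k, hk⟩ := same_cell t.h01 t.h02 t.h12 pos hne g
    obtain ⟨z, hz⟩ := hP.std hk
    by_cases g' : pos' i1 = pos' i2
    · obtain ⟨k', hk'⟩ := same_cell t.h01 t.h02 t.h12 pos' hne' g'
      obtain ⟨z', hz'⟩ := hP'.std hk'
      have n3 : p i1 ≠ 3 := by have := t.n1; omega
      exact caseIII_any b (nS t.h01) n3 hz hz'
    · have t2 : Three p e i0 i1 i2 (-(-s)) u := by rw [neg_neg]; exact t
      exact combI (-s) u (neg_ne_zero.mpr hs) hu _ _ _ g'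
        (caseI_sgl b.symm hP' hz (cls_tI3 b.symm t' t2 (neg_ne_zero.mpr hs) hP' hz))
  · by_cases g' : pos' i1 = pos' i2
    · obtain ⟨k', hk'⟩ := same_cell t.h01 t.h02 t.h12 pos' hne' g'
      obtain ⟨z', hz'⟩ := hP'.std hk'
      exact combI s u hs hu _ _ _ g (caseI_sgl b hP hz' (cls_tI3 b t t' hs hP hz'))
    · obtain ⟨k, k', c0, c1, c2, hc⟩ := combC s u hs hu (pos i0) _ _ (pos' i0) _ _ g g'
      have hQ := hP.perm (pe k)
      have hQ' := hP'.perm (pe k')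
      have hexch : Exch i0 i0 (pe k ∘ pos) (pe k' ∘ pos') := by
        intro j
        rcases three_all t.h01 t.h02 t.h12 j with rfl | rfl | rfl
        · rw [if_pos (Or.inl rfl)]; exact c0
        · rw [if_neg (nS t.h01)]; exact c1
        · rw [if_neg (nS t.h02)]; exact c2
      exact hc (caseII_sgl b hQ hQ' hexch (cls_tII3 b t t' hs hexch hQ hQ')).symm

end Pool.Agent.Lib_helper84.Cub
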