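import Pool.Agent.Lib_helper84.Cub.TwoThreeB

/-!
# Two inert primes and the prime 3: both primes exchanged
-/

namespace Pool.Agent.Lib_helper84.Cub

open Pool.Agent.Lib_helper18 Pool.Agent.Lib_helper18.Eis

theorem cube_congr81 {X Y : ℤ} (hX : ¬ (3 : ℤ) ∣ X) (h : (81 : ℤ) ∣ X ^ 3 - Y ^ 3) :
    (27 : ℤ) ∣ X - Y := by
  obtain ⟨k, hk⟩ := cube_congr hX ((by norm_num : (27 : ℤ) ∣ 81).trans h)
  obtain ⟨c, hc⟩ := h
  have hY : Y = X - 9 * k := by linarith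
  have h9 : (3 : ℤ) ∣ k * X ^ 2 := by
    refine ⟨c + 3 * k ^ 2 * X - 9 * k ^ 3, ?_⟩
    rw [hY] at hc
    have : (27 : ℤ) * (k * X ^ 2) = 27 * (3 * (c + 3 * k ^ 2 * X - 9 * k ^ 3)) := by linarith
    linarith
  have hk3 : (3 : ℤ) ∣ k := (Int.prime_three.dvd_or_dvd h9).resolve_right
    (fun h => hX (Int.prime_three.dvd_of_dvd_pow h))
  obtain ⟨u, hu⟩ := hk3
  exact ⟨u, by rw [hk, hu]; ring⟩

theorem y_div {B x y z : ℤ} (hx : ¬ (3 : ℤ) ∣ x) (hB : ¬ (3 : ℤ) ∣ B) (hz : ¬ (3 : ℤ) ∣ z)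
    (hw : wq B = 0) (h : x ^ 3 + 3 * y ^ 3 + B * z ^ 3 = 0) : (3 : ℤ) ∣ y := by
  have h1 := wq_diff (U := x ^ 3) (V := B * z ^ 3) (D := y ^ 3) (ndvd_pow hx 3)
    (ndvd_mul hB (ndvd_pow hz 3)) (by linarith)
  rw [wq_mul_cube hB hz, wq_cube hx, hw, sub_zero, mul_zero, z3_eq] at h1
  exact Int.prime_three.dvd_of_dvd_pow h1

/-- the class of the main element of case III when `C = 3` -/
theorem cls_Xi {B B' Q x y z x' y' z' : ℤ} (hBB : B * B' = Q ^ 3)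
    (h : x ^ 3 + 3 * y ^ 3 + B * z ^ 3 = 0) (h' : x' ^ 3 + 3 * y' ^ 3 + B' * z' ^ 3 = 0)
    (hx : ¬ (3 : ℤ) ∣ x) (hx' : ¬ (3 : ℤ) ∣ x') (hy : (3 : ℤ) ∣ y) (hy' : (3 : ℤ) ∣ y') :
    Cls (XiZ 3 Q x y z x' y' z') 0 := by
  obtain ⟨v, rfl⟩ := hy
  obtain ⟨v', rfl⟩ := hy'
  have h81 : (81 : ℤ) ∣ (x * x') ^ 3 - (Q * z * z') ^ 3 := by
    refine ⟨-(v ^ 3 * x' ^ 3) + B * z ^ 3 * v' ^ 3, ?_⟩
    linear_combination x' ^ 3 * h - B * z ^ 3 * h' + (z * z') ^ 3 * hBB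
  obtain ⟨k, hk⟩ := cube_congr81 (ndvd_mul hx hx') h81
  have hn : (Q : Eis) * z * z' = x * x' - 27 * k := by
    have e : Q * z * z' = x * x' - 27 * k := by linarith
    exact_mod_cast congrArg (fun n : ℤ => (n : Eis)) e
  have h9 : (9 : Eis) = lam ^ 4 * w := by decide
  have := cls_mk (t := XiZ 3 Q x (3 * v) z x' (3 * v') z') (n := (x * x') ^ 3)
    (r := 3 * (-(5 * (x * x') ^ 2 * k) + 81 * (x * x') * k ^ 2 - 486 * k ^ 3 +
      w ^ 2 * (x * v' + x' * v) ^ 3 + w * 81 * (v * v') ^ 3 -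
        3 * (x * v' + x' * v) * (v * v') * (x * x' - 27 * k))) 4 1
    (by
      rw [XiZ, Xi, hn, pow_one, ← mul_assoc (lam ^ 4) w, ← h9]
      push_cast
      ring) (ndvd_pow (ndvd_mul hx hx') 3)
  have e : ((1 : ℕ) : ZMod 3) - ((4 : ℕ) : ZMod 3) = 0 := by decide
  rwa [e] at this

/-- **Case III**, `C = 3` -/
theorem caseIII_C3 {q : ℕ} (hq : q.Prime) (hq3 : q % 3 = 2)
    {B B' Q x y z x' y' z' : ℤ} (hBB : B * B' = Q ^ 3)
    (hqQ : (q : ℤ) ∣ Q) (hqB : (q : ℤ) ∣ B) (hqB' : (q : ℤ) ∣ B') (hQi : InertD Q)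
    (h : x ^ 3 + 3 * y ^ 3 + B * z ^ 3 = 0)
    (h' : x' ^ 3 + 3 * y' ^ 3 + B' * z' ^ 3 = 0)
    (cxy : IsCoprime x (3 * y)) (cyz : IsCoprime (3 * y) (B * z))
    (cxy' : IsCoprime x' (3 * y')) (cyz' : IsCoprime (3 * y') (B' * z'))
    (hz : z ≠ 0) (hz' : z' ≠ 0) (hwB : wq B = 0) (hwB' : wq B' = 0)
    (hwq : sym (q : Eis) w ≠ 0) : False := by
  have hQ := prime_inert hq hq3
  obtain ⟨qnd, symq⟩ := caseIII_q hq hq3 hqQ hqB hqB' h h' cyz cyz'
  have hΞ0 : XiZ 3 Q x y z x' y' z' ≠ 0 := by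
    intro h0; rw [h0] at qnd; exact qnd (dvd_zero _)
  have nd : ∀ {a c : ℤ}, IsCoprime a (3 * c) → ¬ (3 : ℤ) ∣ a := by
    intro a c hc ha
    exact Int.prime_three.not_isUnit (hc.isUnit_of_dvd' ha (dvd_mul_right _ _))
  have hBz := nd cyz.symm
  have hBz' := nd cyz'.symm
  have hB : ¬ (3 : ℤ) ∣ B := fun h => hBz (Dvd.dvd.mul_right h _)
  have hB' : ¬ (3 : ℤ) ∣ B' := fun h => hBz' (Dvd.dvd.mul_right h _)
  have hz3 : ¬ (3 : ℤ) ∣ z := fun h => hBz (Dvd.dvd.mul_left h _)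
  have hz3' : ¬ (3 : ℤ) ∣ z' := fun h => hBz' (Dvd.dvd.mul_left h _)
  have hC : InertD 3 := fun l hl hl3 h => absurd (by exact_mod_cast h) hl3
  have h1 := lemmaB1 hq hq3 qnd (cls_Xi hBB h h' (nd cxy) (nd cxy')
    (y_div (nd cxy) hB hz3 hwB h) (y_div (nd cxy') hB' hz3' hwB' h')) (fun l hl hl3 hlΞ =>
    caseIII_loc hq hq3 hBB hC hQi h h' cxy cxy' hz hz' hΞ0 hl hl3
      (fun h => qnd ((hl.associated_of_dvd hQ h).symm.dvd.trans hlΞ)))
  rw [symq] at h1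
  have key : ∀ u : ZMod 3, 2 * u = 0 * u → u ≠ 0 → False := by decide
  exact key _ h1 hwq

variable {p e e' : Fin 3 → ℕ} {i0 i1 i2 : Fin 3} {pos pos' : Fin 3 → Fin 3} {x y : Fin 3 → ℤ}
  {s u : ZMod 3}

theorem wq_bS (t : Three p e i0 i1 i2 s u) : wq (bS p e i0 i1) = s + u := by
  rw [bS_double p e t.h01, wq_mul (ndvd_pow t.m0 _) (ndvd_pow t.m1 _), wq_pow' t.m0, wq_pow' t.m1,
    t.hs, t.hu]

/-- **two exchanged primes**, 3 divides `A` once -/
theorem double_three (b : BaseG p e e' i0 i1) (t : Three p e i0 i1 i2 s u)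
    (t' : Three p e' i0 i1 i2 (-s) (-u)) (hsu : s + u = 0)
    (hne : ∀ k, ∃ j, pos j ≠ k) (hne' : ∀ k, ∃ j, pos' j ≠ k)
    (hP : IsPt p e pos x) (hP' : IsPt p e' pos' y) : False := by
  have hall := three_all t.h01 t.h02 t.h12
  have hi2 : ¬ Sp i0 i1 i2 := by
    rintro (h | h)
    · exact t.h02 h.symm
    · exact t.h12 h.symm
  have hsw0 : sym (p i0 : Eis) w = -wq (p i0 : ℤ) :=
    FData.sym_w_r (b.hp i0) (by have := t.n0; omega)
  have hsw1 : sym (p i1 : Eis) w = -wq (p i1 : ℤ) :=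
    FData.sym_w_r (b.hp i1) (by have := t.n1; omega)
  have hab : (e i0 : ZMod 3) * sym (p i0 : Eis) w + (e i1 : ZMod 3) * sym (p i1 : Eis) w = 0 := by
    rw [hsw0, hsw1]
    linear_combination -hsu - t.hs - t.hu
  have hab' : (e' i0 : ZMod 3) * sym (p i0 : Eis) w + (e' i1 : ZMod 3) * sym (p i1 : Eis) w = 0 := by
    rw [hsw0, hsw1]
    linear_combination hsu - t'.hs - t'.hu
  have same : ∀ pos : Fin 3 → Fin 3, (∀ k, ∃ j, pos j ≠ k) → pos i0 = pos i1 →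
      ∃ k, ∀ j, pf k (pos j) = stdp i0 i1 j := by
    intro pos hne h
    have h2 : pos i0 ≠ pos i2 := by
      intro h2
      obtain ⟨j, hj⟩ := hne (pos i0)
      rcases hall j with rfl | rfl | rfl
      · exact hj rfl
      · exact hj h.symm
      · exact hj h2.symm
    obtain ⟨k, hk1, hk2⟩ := std3 _ _ h2
    refine ⟨k, fun j => ?_⟩
    rcases hall j with rfl | rfl | rfl
    · rw [stdp, if_pos (Or.inl rfl)]; exact hk1
    · rw [stdp, if_pos (Or.inr rfl), ← h]; exact hk1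
    · rw [stdp, if_neg hi2]; exact hk2
  by_cases g : pos i0 = pos i1
  · obtain ⟨k, hk⟩ := same pos hne g
    obtain ⟨z, hz⟩ := hP.std hk
    by_cases g' : pos' i0 = pos' i1
    · obtain ⟨k', hk'⟩ := same pos' hne' g'
      obtain ⟨z', hz'⟩ := hP'.std hk'
      -- case III
      have hx := sum3 hz.sum
      have hy := sum3 hz'.sum
      have he0 : e i0 ≠ 0 := by have := b.he i0; omega
      have he0' : e' i0 ≠ 0 := by have := b.he' i0; omega
      have c0 := cell_std0 p e i0 i1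
      have c0' := cell_std0 p e' i0 i1
      have c1 : cell p e (stdp i0 i1) 1 = 3 := by
        rw [t.cell_eq3]
        unfold dc
        simp only [stdp, if_neg hi2, if_pos (Or.inl rfl : Sp i0 i1 i0),
          if_pos (Or.inr rfl : Sp i0 i1 i1)]
        simp
      have c1' : cell p e' (stdp i0 i1) 1 = 3 := by
        rw [← cell_std1_eq b.rel]; exact c1
      have k01 := hz.cop 0 1 (by decide)
      have k12 := hz.cop 1 2 (by decide)
      have k01' := hz'.cop 0 1 (by decide)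
      have k12' := hz'.cop 1 2 (by decide)
      rw [c0, c1, cell_std2'] at hx
      rw [c0', c1', cell_std2'] at hy
      rw [c0, c1, one_mul] at k01
      rw [c1, cell_std2'] at k12
      rw [c0', c1', one_mul] at k01'
      rw [c1', cell_std2'] at k12'
      exact caseIII_C3 (b.hp i0) (b.sp3 (Or.inl rfl)) b.bb
        (dvd_prod_if (fun j => Sp i0 i1 j) (Or.inl rfl) one_ne_zero)
        (dvd_prod_if (fun j => Sp i0 i1 j) (Or.inl rfl) he0)
        (dvd_prod_if (fun j => Sp i0 i1 j) (Or.inl rfl) he0')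
        (inertD_prod b (fun j => Sp i0 i1 j) (fun _ => 1))
        (by linear_combination hx) (by linear_combination hy) k01 k12 k01' k12' (hz.ne 2)
        (hz'.ne 2) (by rw [wq_bS t]; exact hsu) (by rw [wq_bS t']; linear_combination -hsu)
        (b.hw i0 b.n0)
    · exact g' (caseI_dbl b.symm t.h01 hab' hP' hz)
  · by_cases g' : pos' i0 = pos' i1
    · obtain ⟨k', hk'⟩ := same pos' hne' g'
      obtain ⟨z', hz'⟩ := hP'.std hk'
      exact g (caseI_dbl b t.h01 hab hP hz')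
    · obtain ⟨k, k', c0, c1, c2⟩ := comb3 _ _ (pos i2) _ _ (pos' i2) g g'
      have hexch : Exch i0 i1 (pe k ∘ pos) (pe k' ∘ pos') := by
        intro j
        rcases hall j with rfl | rfl | rfl
        · rw [if_pos (Or.inl rfl)]; exact c0
        · rw [if_pos (Or.inr rfl)]; exact c1
        · rw [if_neg hi2]; exact c2
      have h5 := caseII_dbl b t.h01 hab (hP.perm (pe k)) (hP'.perm (pe k')) hexch
      exact g ((pe k).injective h5)

end Pool.Agent.Lib_helper84.Cub
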