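import Pool.Agent.Lib_helper84.Cub.TwoThreeC
import Pool.Agent.Lib_helper84.Cub.Pairs

/-!
# Two inert primes and the prime 3: the theorem
-/

namespace Pool.Agent.Lib_helper84.Cub

open Pool.Agent.Lib_helper18 Pool.Agent.Lib_helper18.Eis

section

variable {q r a b a' b' : ℕ}

theorem prod_vec (q r a b : ℕ) : ∏ i, ((![q, r, 3] : Fin 3 → ℕ) i : ℚ) ^ (![a, b, 1] : Fin 3 → ℕ) i =
    ((3 * q ^ a * r ^ b : ℕ) : ℚ) := by
  rw [Fin.prod_univ_three]
  push_cast
  show (q : ℚ) ^ a * (r : ℚ) ^ b * ((3 : ℕ) : ℚ) ^ 1 = _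
  push_cast
  ring

theorem fin3_cases (P : Fin 3 → Prop) (h0 : P 0) (h1 : P 1) (h2 : P 2) : ∀ i, P i := by
  intro i; fin_cases i
  · exact h0
  · exact h1
  · exact h2

theorem baseG_vec (hq : q.Prime) (hr : r.Prime) (hq9 : q % 9 = 2 ∨ q % 9 = 5)
    (hr9 : r % 9 = 2 ∨ r % 9 = 5) (hne : q ≠ r) (ha : a = 1 ∨ a = 2) (hb : b = 1 ∨ b = 2)
    (ha' : a' = 1 ∨ a' = 2) (hb' : b' = 1 ∨ b' = 2) {i0 i1 : Fin 3} (h0 : i0 ≠ 2) (h1 : i1 ≠ 2)
    (rel : Rel i0 i1 ![a, b, 1] ![a', b', 1]) :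
    BaseG ![q, r, 3] ![a, b, 1] ![a', b', 1] i0 i1 where
  hp := fin3_cases _ hq hr Nat.prime_three
  h3 := fin3_cases _ (Or.inl (show q % 3 = 2 by omega)) (Or.inl (show r % 3 = 2 by omega))
    (Or.inr rfl)
  inj := by
    intro i j hij
    revert i j
    have q3 : q ≠ 3 := by omega
    have r3 : r ≠ 3 := by omega
    refine fin3_cases _ (fin3_cases _ (fun _ => rfl) (fun h => absurd h hne) (fun h => absurd h q3))
      (fin3_cases _ (fun h => absurd h.symm hne) (fun _ => rfl) (fun h => absurd h r3))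
      (fin3_cases _ (fun h => absurd h.symm q3) (fun h => absurd h.symm r3) (fun _ => rfl))
  he := fin3_cases _ ha hb (Or.inl rfl)
  he' := fin3_cases _ ha' hb' (Or.inl rfl)
  n0 := by
    have q3 : q ≠ 3 := by omega
    have r3 : r ≠ 3 := by omega
    have key : ∀ i : Fin 3, i ≠ 2 → (![q, r, 3] : Fin 3 → ℕ) i ≠ 3 :=
      fin3_cases _ (fun _ => q3) (fun _ => r3) (fun h => absurd rfl h)
    exact key i0 h0
  n1 := by
    have q3 : q ≠ 3 := by omega
    have r3 : r ≠ 3 := by omega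
    have key : ∀ i : Fin 3, i ≠ 2 → (![q, r, 3] : Fin 3 → ℕ) i ≠ 3 :=
      fin3_cases _ (fun _ => q3) (fun _ => r3) (fun h => absurd rfl h)
    exact key i1 h1
  hw := by
    refine fin3_cases _ (fun _ => ?_) (fun _ => ?_) (fun h => absurd rfl h)
    · show sym (q : Eis) w ≠ 0
      rw [FData.sym_w_r hq (by omega)]
      exact neg_ne_zero.mpr (wq_ne hq9)
    · show sym (r : Eis) w ≠ 0
      rw [FData.sym_w_r hr (by omega)]
      exact neg_ne_zero.mpr (wq_ne hr9)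
  rel := rel

theorem neg_exp (ha : a = 1 ∨ a = 2) (ha' : a' = 1 ∨ a' = 2) (h : a ≠ a') (v : ZMod 3) :
    (a' : ZMod 3) * v = -((a : ZMod 3) * v) := by
  have h3 : a + a' = 3 := by omega
  have := congrArg (fun n : ℕ => (n : ZMod 3)) h3
  push_cast at this
  linear_combination v * this + v * three_zmod

theorem step3_vec (hq : q.Prime) (hr : r.Prime) (hq9 : q % 9 = 2 ∨ q % 9 = 5)
    (hr9 : r % 9 = 2 ∨ r % 9 = 5) (hne : q ≠ r) (ha : a = 1 ∨ a = 2) (hb : b = 1 ∨ b = 2)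
    (h : IsSum ((3 * q ^ a * r ^ b : ℕ) : ℚ)) : Concl3 ![q, r, 3] ![a, b, 1] := by
  refine step0_three (i3 := 2) (by norm_num) (fin3_cases _ hq hr Nat.prime_three)
    (fin3_cases _ ?_ ?_ (Or.inr (Or.inr rfl))) rfl ?_ (fin3_cases _ ha hb (Or.inl rfl)) ?_
  · rcases hq9 with h | h
    · exact Or.inl h
    · exact Or.inr (Or.inl h)
  · rcases hr9 with h | h
    · exact Or.inl h
    · exact Or.inr (Or.inl h)
  · intro i j hij
    revert i j
    have q3 : q ≠ 3 := by omega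
    have r3 : r ≠ 3 := by omega
    refine fin3_cases _ (fin3_cases _ (fun _ => rfl) (fun h => absurd h hne) (fun h => absurd h q3))
      (fin3_cases _ (fun h => absurd h.symm hne) (fun _ => rfl) (fun h => absurd h r3))
      (fin3_cases _ (fun h => absurd h.symm q3) (fun h => absurd h.symm r3) (fun _ => rfl))
  · rw [prod_vec]; exact h

/-- **two inert primes and 3** -/
theorem two_and_three (hq : q.Prime) (hr : r.Prime) (hq9 : q % 9 = 2 ∨ q % 9 = 5)
    (hr9 : r % 9 = 2 ∨ r % 9 = 5) (hne : q ≠ r) (ha : a = 1 ∨ a = 2) (hb : b = 1 ∨ b = 2)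
    (ha' : a' = 1 ∨ a' = 2) (hb' : b' = 1 ∨ b' = 2)
    (h : IsSum ((3 * q ^ a * r ^ b : ℕ) : ℚ)) (h' : IsSum ((3 * q ^ a' * r ^ b' : ℕ) : ℚ)) :
    (a = a' ∧ b = b') ∨ (a ≠ a' ∧ b ≠ b' ∧ (a : ZMod 3) * wq (q : ℤ) + (b : ZMod 3) * wq (r : ℤ) ≠ 0) := by
  obtain ⟨pos, x, hpos, hP⟩ := step3_vec hq hr hq9 hr9 hne ha hb h
  obtain ⟨pos', y, hpos', hP'⟩ := step3_vec hq hr hq9 hr9 hne ha' hb' h'
  have s0 : (a : ZMod 3) * wq (q : ℤ) ≠ 0 := mul_ne_zero (zmod_ne ha) (wq_ne hq9)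
  have u0 : (b : ZMod 3) * wq (r : ℤ) ≠ 0 := mul_ne_zero (zmod_ne hb) (wq_ne hr9)
  by_cases haa : a = a'
  · by_cases hbb : b = b'
    · exact Or.inl ⟨haa, hbb⟩
    · exfalso
      refine single_three (i0 := 1) (i1 := 0) (i2 := 2) (s := (b : ZMod 3) * wq (r : ℤ))
        (u := (a : ZMod 3) * wq (q : ℤ)) (baseG_vec hq hr hq9 hr9 hne ha hb ha' hb' (by decide)
          (by decide) ?_) ⟨by decide, by decide, by decide, hr9, hq9, rfl, rfl, rfl, rfl⟩
          ⟨by decide, by decide, by decide, hr9, hq9, rfl, rfl, neg_exp hb hb' hbb _, by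
            rw [haa]; rfl⟩ u0 s0 hpos hpos' hP hP'
      refine rel_of (fin3_cases _ ha hb (Or.inl rfl)) (fin3_cases _ ha' hb' (Or.inl rfl)) hbb hbb ?_
      exact fin3_cases _ (fun _ _ => haa) (fun h => absurd rfl h) (fun _ _ => rfl)
  · by_cases hbb : b = b'
    · exfalso
      refine single_three (i0 := 0) (i1 := 1) (i2 := 2) (s := (a : ZMod 3) * wq (q : ℤ))
        (u := (b : ZMod 3) * wq (r : ℤ)) (baseG_vec hq hr hq9 hr9 hne ha hb ha' hb' (by decide)
          (by decide) ?_) ⟨by decide, by decide, by decide, hq9, hr9, rfl, rfl, rfl, rfl⟩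
          ⟨by decide, by decide, by decide, hq9, hr9, rfl, rfl, neg_exp ha ha' haa _, by
            rw [hbb]; rfl⟩ s0 u0 hpos hpos' hP hP'
      refine rel_of (fin3_cases _ ha hb (Or.inl rfl)) (fin3_cases _ ha' hb' (Or.inl rfl)) haa haa ?_
      exact fin3_cases _ (fun h => absurd rfl h) (fun _ _ => hbb) (fun _ _ => rfl)
    · refine Or.inr ⟨haa, hbb, ?_⟩
      intro hsu
      refine double_three (i0 := 0) (i1 := 1) (i2 := 2) (s := (a : ZMod 3) * wq (q : ℤ))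
        (u := (b : ZMod 3) * wq (r : ℤ)) (baseG_vec hq hr hq9 hr9 hne ha hb ha' hb' (by decide)
          (by decide) ?_) ⟨by decide, by decide, by decide, hq9, hr9, rfl, rfl, rfl, rfl⟩
          ⟨by decide, by decide, by decide, hq9, hr9, rfl, rfl, neg_exp ha ha' haa _,
            neg_exp hb hb' hbb _⟩ hsu hpos hpos' hP hP'
      refine rel_of (fin3_cases _ ha hb (Or.inl rfl)) (fin3_cases _ ha' hb' (Or.inl rfl)) haa hbb ?_
      exact fin3_cases _ (fun h => absurd rfl h) (fun _ h => absurd rfl h) (fun _ _ => rfl)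

end

end Pool.Agent.Lib_helper84.Cub
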