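import Pool.Agent.Lib_helper84.Cub.TwoThreeD
import Pool.Agent.Lib_helper84.Cub.CountB

/-!
# Two inert primes and the prime 3: final form
-/

namespace Pool.Agent.Lib_helper84.Cub

open Pool.Agent.Lib_helper18 Pool.Agent.Lib_helper18.Eis

/-- the final form -/
theorem two_and_three_final {q r : ℕ} (hq : q.Prime) (hr : r.Prime)
    (hq9 : q % 9 = 2 ∨ q % 9 = 5) (hr9 : r % 9 = 2 ∨ r % 9 = 5) (hne : q ≠ r) {A A' : ℕ}
    (hA : ∃ a b : ℕ, (a = 1 ∨ a = 2) ∧ (b = 1 ∨ b = 2) ∧ A = 3 * q ^ a * r ^ b)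
    (hA' : ∃ a b : ℕ, (a = 1 ∨ a = 2) ∧ (b = 1 ∨ b = 2) ∧ A' = 3 * q ^ a * r ^ b)
    (hAA : A ≠ A') (h : IsSum (A : ℚ)) (h' : IsSum (A' : ℚ)) :
    A * A' = 9 * (q * r) ^ 3 ∧ A % 27 ≠ 3 ∧ A % 27 ≠ 24 := by
  obtain ⟨a, b, ha, hb, rfl⟩ := hA
  obtain ⟨a', b', ha', hb', rfl⟩ := hA'
  rcases two_and_three hq hr hq9 hr9 hne ha hb ha' hb' h h' with ⟨rfl, rfl⟩ | ⟨h1, h2, h3⟩
  · exact absurd rfl hAA
  · have e1 : a + a' = 3 := by omega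
    have e2 : b + b' = 3 := by omega
    have n1 : ¬ (3 : ℤ) ∣ (q : ℤ) := not_three_dvd hq9
    have n2 : ¬ (3 : ℤ) ∣ (r : ℤ) := not_three_dvd hr9
    have hw : wq (((q : ℤ) ^ a * (r : ℤ) ^ b)) ≠ 0 := by
      rw [wq_mul (ndvd_pow n1 _) (ndvd_pow n2 _), wq_pow' n1, wq_pow' n2]; exact h3
    have hn3 : ¬ (3 : ℤ) ∣ ((q : ℤ) ^ a * (r : ℤ) ^ b) := ndvd_mul (ndvd_pow n1 _) (ndvd_pow n2 _)
    rw [Ne, wq_zero_iff hn3] at hw
    have hD : (((q ^ a * r ^ b : ℕ)) : ℤ) = (q : ℤ) ^ a * (r : ℤ) ^ b := by push_cast; rfl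
    rw [← hD] at hw
    refine ⟨?_, ?_, ?_⟩
    · calc 3 * q ^ a * r ^ b * (3 * q ^ a' * r ^ b') = 9 * (q ^ (a + a') * r ^ (b + b')) := by ring
        _ = 9 * (q * r) ^ 3 := by rw [e1, e2, mul_pow]
    · intro h5
      apply hw
      left
      have : 3 * q ^ a * r ^ b = 3 * (q ^ a * r ^ b) := by ring
      omega
    · intro h5
      apply hw
      right
      have : 3 * q ^ a * r ^ b = 3 * (q ^ a * r ^ b) := by ring
      omega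

end Pool.Agent.Lib_helper84.Cub
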