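import Pool.Agent.Lib_helper84.Cub.LemB

/-!
# Valuations on `Z[ω]` and the product formula
-/

namespace Pool.Agent.Lib_helper84.Cub

open Pool.Agent.Lib_helper18 Pool.Agent.Lib_helper18.Eis

/-- the valuation at a prime (for nonzero elements) -/
noncomputable abbrev V (l x : Eis) : ℕ := multiplicity l x

section

variable {l x y : Eis}

theorem fin (hl : Prime l) (hx : x ≠ 0) : FiniteMultiplicity l x :=
  FiniteMultiplicity.of_prime_left hl hx

theorem V_mul (hl : Prime l) (hx : x ≠ 0) (hy : y ≠ 0) : V l (x * y) = V l x + V l y :=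
  multiplicity_mul hl (fin hl (mul_ne_zero hx hy))

theorem V_eq_zero (h : ¬ l ∣ x) : V l x = 0 := multiplicity_eq_zero.mpr h

theorem V_eq_zero_iff : V l x = 0 ↔ ¬ l ∣ x := multiplicity_eq_zero

theorem V_pow (hl : Prime l) (hx : x ≠ 0) (n : ℕ) : V l (x ^ n) = n * V l x :=
  (fin hl hx).multiplicity_pow hl

theorem V_neg : V l (-x) = V l x := multiplicity_neg l x

theorem V_self : V l l = 1 := multiplicity_self

theorem V_split (hl : Prime l) (hx : x ≠ 0) : ∃ c, x = l ^ (V l x) * c ∧ ¬ l ∣ c :=
  (fin hl hx).exists_eq_pow_mul_and_not_dvd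

theorem V_mul_not_dvd (hl : Prime l) (hx : ¬ l ∣ x) (hy : y ≠ 0) : V l (x * y) = V l y := by
  have hx0 : x ≠ 0 := by rintro rfl; exact hx (dvd_zero _)
  rw [V_mul hl hx0 hy, V_eq_zero hx, zero_add]

theorem V_pow_mul (hl : Prime l) (n : ℕ) (hy : ¬ l ∣ y) : V l (l ^ n * y) = n := by
  have hy0 : y ≠ 0 := by rintro rfl; exact hy (dvd_zero _)
  rw [V_mul hl (pow_ne_zero _ hl.ne_zero) hy0, V_pow hl hl.ne_zero, V_self, V_eq_zero hy]
  ring

end

theorem N_pos {x : Eis} (hx : x ≠ 0) : 0 < N x := by
  have h1 := norm_pos hx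
  have h2 := N_cast x
  omega

theorem N_prime {l : Eis} (hl : Prime l) : 1 < N l := by
  have h1 := N_pos hl.ne_zero
  have h2 := N_cast l
  have h3 : N l ≠ 1 := by
    intro h
    apply hl.not_isUnit
    rw [isUnit_iff_norm, ← h2, h]; rfl
  omega

/-- if `x ^ 3 + B y ^ 3` has no nontrivial zero mod `l` then its valuations are divisible by 3 -/
theorem three_dvd_V {l B : Eis} (hl : Prime l)
    (hB : ∀ u v : Eis, l ∣ u ^ 3 + B * v ^ 3 → l ∣ u ∧ l ∣ v) :
    ∀ (n : ℕ) (x y : Eis), N x + N y = n → ¬ (x = 0 ∧ y = 0) →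
      x ^ 3 + B * y ^ 3 ≠ 0 ∧ 3 ∣ V l (x ^ 3 + B * y ^ 3) := by
  intro n
  induction n using Nat.strong_induction_on with
  | _ n ih =>
    intro x y hn hxy
    by_cases h : l ∣ x ^ 3 + B * y ^ 3
    · obtain ⟨⟨u, rfl⟩, ⟨v, rfl⟩⟩ := hB x y h
      have huv : ¬ (u = 0 ∧ v = 0) := by
        rintro ⟨rfl, rfl⟩; exact hxy (by simp)
      have hlt : N u + N v < n := by
        rw [← hn, N_mul, N_mul]
        have h1 := N_prime hl
        have h2 : 0 < N u + N v := by
          by_contra h0
          apply huv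
          constructor
          · by_contra h3; have := N_pos h3; omega
          · by_contra h3; have := N_pos h3; omega
        nlinarith
      obtain ⟨h1, h2⟩ := ih _ hlt u v rfl huv
      have e : (l * u) ^ 3 + B * (l * v) ^ 3 = l ^ 3 * (u ^ 3 + B * v ^ 3) := by ring
      rw [e]
      refine ⟨mul_ne_zero (pow_ne_zero _ hl.ne_zero) h1, ?_⟩
      rw [V_mul hl (pow_ne_zero _ hl.ne_zero) h1, V_pow hl hl.ne_zero, V_self]
      omega
    · refine ⟨?_, by rw [V_eq_zero h]; exact dvd_zero _⟩
      intro h0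
      rw [h0] at h
      exact h (dvd_zero _)

/-- one factor of `X ^ 3 + Y ^ 3` -/
theorem three_dvd_V_add {l X Y : Eis} (hl : Prime l) (h3 : ¬ l ∣ 3)
    (hXY : ¬ (l ∣ X ∧ l ∣ Y)) (h0 : X ^ 3 + Y ^ 3 ≠ 0) (hV : 3 ∣ V l (X ^ 3 + Y ^ 3)) :
    3 ∣ V l (X + Y) := by
  by_cases h : l ∣ X + Y
  · have e : X ^ 3 + Y ^ 3 = (X + Y) * ((X + w * Y) * (X + w ^ 2 * Y)) := by
      have h1 := w_rel
      have h2 := w_cube
      linear_combination (-X * Y * (X + Y)) * h1 - (Y ^ 2 * (X + Y)) * h2
    have key : ∀ c : Eis, ¬ l ∣ 1 - c → ¬ l ∣ X + c * Y := by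
      intro c hc h'
      have h4 := dvd_sub h h'
      have e4 : X + Y - (X + c * Y) = (1 - c) * Y := by ring
      rw [e4] at h4
      have h5 := (hl.dvd_or_dvd h4).resolve_left hc
      exact hXY ⟨(dvd_add_left h5).mp h, h5⟩
    have k1 : ¬ l ∣ X + w * Y := key w (by rw [← lam_eq]; exact not_dvd_lam h3)
    have k2 : ¬ l ∣ X + w ^ 2 * Y := key (w ^ 2) (by
      intro h'
      apply h3
      exact h'.trans ⟨1 - w, by decide⟩)
    have k3 : ¬ l ∣ (X + w * Y) * (X + w ^ 2 * Y) := fun h' => (hl.dvd_or_dvd h').elim k1 k2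
    rw [e] at hV h0
    have hne := (mul_ne_zero_iff.mp h0)
    rwa [V_mul hl hne.1 hne.2, V_eq_zero k3, add_zero] at hV
  · rw [V_eq_zero h]; exact dvd_zero _

/-- **Lemma B**: a product formula -/
theorem lemmaB {q r : ℕ} (hq : q.Prime) (hq3 : q % 3 = 2) (hr : r.Prime) (hr3 : r % 3 = 2)
    (a b : ZMod 3) (hw : a * sym (q : Eis) w + b * sym (r : Eis) w = 0) :
    ∀ (n : ℕ) (t : Eis), N t = n → t ≠ 0 → ¬ (q : Eis) ∣ t → ¬ (r : Eis) ∣ t →
    (∀ l : Eis, Prime l → ¬ l ∣ 3 → l ∣ t →
      a * sym l (q : Eis) + b * sym l (r : Eis) = 0 ∨ 3 ∣ V l t) →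
    a * sym (q : Eis) t + b * sym (r : Eis) t = 0 := by
  have hQ := prime_inert hq hq3
  have hR := prime_inert hr hr3
  have hQ3 := n3 hq hq3
  have hR3 := n3 hr hr3
  intro n
  induction n using Nat.strong_induction_on with
  | _ n ih =>
    intro t hn ht hqt hrt H
    by_cases hu : IsUnit t
    · obtain ⟨i, hi, hu | hu⟩ := unit_cases hu
      · rw [hu, sym_pow hQ hQ3 (not_dvd_w hQ), sym_pow hR hR3 (not_dvd_w hR)]
        linear_combination (i : ZMod 3) * hw
      · have h1 : ¬ (q : Eis) ∣ w ^ i := fun h => not_dvd_w hQ (hQ.dvd_of_dvd_pow h)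
        have h2 : ¬ (r : Eis) ∣ w ^ i := fun h => not_dvd_w hR (hR.dvd_of_dvd_pow h)
        rw [hu, sym_neg hQ hQ3 h1, sym_neg hR hR3 h2, sym_pow hQ hQ3 (not_dvd_w hQ),
          sym_pow hR hR3 (not_dvd_w hR)]
        linear_combination (i : ZMod 3) * hw
    · obtain ⟨l, hlirr, hlt⟩ := WfDvdMonoid.exists_irreducible_factor hu ht
      have hl : Prime l := hlirr.prime
      by_cases hl3 : l ∣ 3
      · -- the prime above 3
        have hlam : lam ∣ t := ((dvd_three_iff hl).mp hl3).symm.dvd.trans hlt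
        obtain ⟨t', rfl⟩ := hlam
        have ht' : t' ≠ 0 := right_ne_zero_of_mul ht
        have hqt' : ¬ (q : Eis) ∣ t' := fun h => hqt (Dvd.dvd.mul_left h _)
        have hrt' : ¬ (r : Eis) ∣ t' := fun h => hrt (Dvd.dvd.mul_left h _)
        have hlt' : N t' < n := by
          rw [← hn, N_mul]
          have h1 := N_prime prime_lam
          have h2 := N_pos ht'
          nlinarith
        have h1 := ih _ hlt' t' rfl ht' hqt' hrt' (by
          intro m hm hm3 hmt
          rcases H m hm hm3 (Dvd.dvd.mul_left hmt _) with h | h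
          · exact Or.inl h
          · right
            rwa [V_mul_not_dvd hm (not_dvd_lam hm3) ht'] at h)
        rw [sym_mul hQ hQ3 (not_dvd_lam hQ3) hqt', sym_mul hR hR3 (not_dvd_lam hR3) hrt',
          sym_inert_lam hq hq3, sym_inert_lam hr hr3]
        linear_combination h1 - hw
      · rcases H l hl hl3 hlt with hgood | hval
        · -- a good prime
          obtain ⟨t', rfl⟩ := hlt
          have ht' : t' ≠ 0 := right_ne_zero_of_mul ht
          have hqt' : ¬ (q : Eis) ∣ t' := fun h => hqt (Dvd.dvd.mul_left h _)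
          have hrt' : ¬ (r : Eis) ∣ t' := fun h => hrt (Dvd.dvd.mul_left h _)
          have hql : ¬ (q : Eis) ∣ l := fun h => hqt (Dvd.dvd.mul_right h _)
          have hrl : ¬ (r : Eis) ∣ l := fun h => hrt (Dvd.dvd.mul_right h _)
          have hlt' : N t' < n := by
            rw [← hn, N_mul]
            have h1 := N_prime hl
            have h2 := N_pos ht'
            nlinarith
          have h1 := ih _ hlt' t' rfl ht' hqt' hrt' (by
            intro m hm hm3 hmt
            by_cases hass : Associated m l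
            · left
              rw [sym_associated hass, sym_associated hass]; exact hgood
            · rcases H m hm hm3 (Dvd.dvd.mul_left hmt _) with h | h
              · exact Or.inl h
              · right
                have hml : ¬ m ∣ l := fun h' => hass (hm.associated_of_dvd hl h')
                rwa [V_mul_not_dvd hm hml ht'] at h)
          obtain ⟨i, hi⟩ := exists_prim (not_lam_dvd_of_prime hl hl3)
          have hass : Associated (l * w ^ i) l := ⟨(isUnit_w.pow i).unit⁻¹, by
            rw [mul_assoc]; simp⟩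
          have hl' : Prime (l * w ^ i) := (hass.symm.prime hl)
          have hl3' : ¬ (l * w ^ i) ∣ 3 := fun h => hl3 (hass.symm.dvd.trans h)
          have hwq : ¬ (q : Eis) ∣ w ^ i := fun h => not_dvd_w hQ (hQ.dvd_of_dvd_pow h)
          have hwr : ¬ (r : Eis) ∣ w ^ i := fun h => not_dvd_w hR (hR.dvd_of_dvd_pow h)
          have r1 := recip_inert hq hq3 hl' hl3' hi (fun h => (hQ.dvd_or_dvd h).elim hql hwq)
          have r2 := recip_inert hr hr3 hl' hl3' hi (fun h => (hR.dvd_or_dvd h).elim hrl hwr)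
          rw [sym_associated hass, sym_mul hQ hQ3 hql hwq, sym_pow hQ hQ3 (not_dvd_w hQ)] at r1
          rw [sym_associated hass, sym_mul hR hR3 hrl hwr, sym_pow hR hR3 (not_dvd_w hR)] at r2
          rw [sym_mul hQ hQ3 hql hqt', sym_mul hR hR3 hrl hrt']
          linear_combination h1 + a * r1 + b * r2 + hgood - (i : ZMod 3) * hw
        · -- valuation divisible by 3
          obtain ⟨c, hc, hlc⟩ := V_split hl ht
          obtain ⟨k, hk⟩ := hval
          have hk0 : k ≠ 0 := by
            rintro rfl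
            exact V_eq_zero_iff.mp (by rw [hk]) hlt
          rw [hk] at hc
          have hc0 : c ≠ 0 := by rintro rfl; exact hlc (dvd_zero _)
          have hpk : l ^ (3 * k) ≠ 0 := pow_ne_zero _ hl.ne_zero
          have hlk : l ∣ l ^ (3 * k) := dvd_pow_self _ (by omega)
          have hqc : ¬ (q : Eis) ∣ c := fun h => hqt (by rw [hc]; exact Dvd.dvd.mul_left h _)
          have hrc : ¬ (r : Eis) ∣ c := fun h => hrt (by rw [hc]; exact Dvd.dvd.mul_left h _)
          have hqk : ¬ (q : Eis) ∣ l ^ (3 * k) := fun h => hqt (by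
            rw [hc]; exact Dvd.dvd.mul_right h _)
          have hrk : ¬ (r : Eis) ∣ l ^ (3 * k) := fun h => hrt (by
            rw [hc]; exact Dvd.dvd.mul_right h _)
          have hql : ¬ (q : Eis) ∣ l := fun h => hqk (h.trans hlk)
          have hrl : ¬ (r : Eis) ∣ l := fun h => hrk (h.trans hlk)
          have hlt' : N c < n := by
            rw [← hn, hc, N_mul]
            have h1 : 1 < N (l ^ (3 * k)) := by
              have : N (l ^ (3 * k)) = (N l) ^ (3 * k) := by
                have h5 : ((N (l ^ (3 * k)) : ℕ) : ℤ) = ((N l) ^ (3 * k) : ℕ) := by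
                  rw [N_cast, norm_pow]; push_cast; rw [N_cast]
                exact_mod_cast h5
              rw [this]
              exact Nat.one_lt_pow (by omega) (N_prime hl)
            have h2 := N_pos hc0
            nlinarith
          have h1 := ih _ hlt' c rfl hc0 hqc hrc (by
            intro m hm hm3 hmt
            have hml : ¬ m ∣ l ^ (3 * k) := by
              intro h'
              have h6 := hm.dvd_of_dvd_pow h'
              have := hm.associated_of_dvd hl h6
              exact hlc (this.symm.dvd.trans hmt)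
            rcases H m hm hm3 (by rw [hc]; exact Dvd.dvd.mul_left hmt _) with h | h
            · exact Or.inl h
            · right
              rwa [hc, V_mul_not_dvd hm hml hc0] at h)
          rw [hc, sym_mul hQ hQ3 hqk hqc, sym_mul hR hR3 hrk hrc, sym_pow hQ hQ3 hql,
            sym_pow hR hR3 hrl]
          push_cast
          linear_combination h1 + (a * k * sym (q : Eis) l + b * k * sym (r : Eis) l) * three_zmod

end Pool.Agent.Lib_helper84.Cub
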