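import Pool.Agent.Lib_helper84.Cub.Main
import Pool.Agent.Lib_helper22.CN.PSIdeal
import Pool.Agent.WFT.Defs

/-!
# MP_7dd379_ag: PHI, CUBIC, KER, OMEGA3, FEDDER in the notation of `WFT/Defs.lean`
-/

set_option autoImplicit false
set_option linter.unusedSectionVars false

open Polynomial Module IsLocalRing

namespace Pool.Agent.Cub

open Pool.Agent.WFT (PS FFin CartierGen GoodGen IsCartier MM IsTheta IsDual InT OrdGe HasSplit)

/-- powers of the maximal ideal of the power series ring -/
lemma mem_maximalIdeal_pow_iff {k : Type*} [Field k] {d n : ℕ} (x : PS d k) :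
    x ∈ maximalIdeal (PS d k) ^ n ↔ ∀ β : Fin d →₀ ℕ, β.degree < n → MvPowerSeries.coeff β x = 0 := by
  rw [← Pool.Agent.CN.mem_varIdeal_pow_iff]
  have h : maximalIdeal (PS d k) = Pool.Agent.CN.varIdeal (Fin d) k := by
    ext y
    rw [IsLocalRing.mem_maximalIdeal, mem_nonunits_iff, MvPowerSeries.isUnit_iff_constantCoeff,
      isUnit_iff_ne_zero, not_not, ← pow_one (Pool.Agent.CN.varIdeal (Fin d) k),
      Pool.Agent.CN.mem_varIdeal_pow_iff]
    constructor
    · intro hy β hβ
      have : β = 0 := by rw [← Finsupp.degree_eq_zero_iff]; omega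
      rw [this]
      exact hy
    · intro hy
      have := hy 0 (by simp)
      exact this
  rw [h]

/-- **PHI** -/
theorem exists_cartierGen {p : ℕ} [hp : Fact p.Prime] (d : ℕ) {k : Type*} [Field k] [CharP k p]
    (hk : FFin k p) (e : ℕ) : ∃ G : CartierGen (PS d k) (p ^ e), GoodGen G := by
  classical
  obtain ⟨Φ, hΦ⟩ := exists_frobDual_field k p e (iterateFrobenius_finite p hk e)
  have hΨ := phiPS_dual (d := d) hΦ
  obtain ⟨n, b, b', hdual⟩ := hΨ.dual
  refine ⟨⟨phiPS (p ^ e) Φ, hΨ.lin, Fin n, inferInstance, b, b', hdual, ?_⟩, ?_⟩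
  · intro h0
    have h1 := hdual 1
    rw [h0] at h1
    simp only [AddMonoidHom.zero_apply] at h1
    rw [zero_pow (pow_pos hp.1.pos e).ne'] at h1
    simp at h1
  · intro i j hij z hz
    change phiPS (p ^ e) Φ z ∈ _
    rw [mem_maximalIdeal_pow_iff] at hz ⊢
    intro β hβ
    rw [coeff_phiPS, hz, map_zero]
    have h2 : (sh (p ^ e) β).degree = p ^ e * β.degree + d * (p ^ e - 1) := by
      rw [Finsupp.degree_eq_sum, Finsupp.degree_eq_sum, Finset.mul_sum]
      simp only [sh_apply, Finset.sum_add_distrib]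
      simp
    rw [h2]
    have h3 : p ^ e * β.degree ≤ p ^ e * i := Nat.mul_le_mul_left _ (by omega)
    omega

section cubic

variable {A T : Type*} [CommRing A] [CommRing T] [Algebra A T]

/-- the basis `1, -β, -α` of a cubic algebra, and its table -/
theorem exists_basis_of_cubic (S : Pool.Agent.WFT.Cubic A T) :
    ∃ B : Basis (Fin 3) A T, Cubic S.d S.c S.b S.a B ∧ B 1 = -S.β ∧ B 2 = -S.α := by
  let v : Fin 3 → T := ![1, -S.β, -S.α]
  have hli : LinearIndependent A v := by
    rw [Fintype.linearIndependent_iff]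
    intro g hg
    rw [Fin.sum_univ_three] at hg
    have h := S.indep ![g 0, -g 2, -g 1] (by
      simp only [Matrix.cons_val_zero, Matrix.cons_val_one, Matrix.cons_val_two,
        Matrix.head_cons, Matrix.tail_cons, v] at hg ⊢
      rw [← hg, Algebra.smul_def (g 0)]
      simp only [neg_smul, smul_neg, mul_one]
      abel)
    have h0 := congrFun h 0
    have h1 := congrFun h 1
    have h2 := congrFun h 2
    simp at h0 h1 h2
    intro i
    fin_cases i
    · exact h0
    · exact h2
    · exact h1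
  have hsp : ⊤ ≤ Submodule.span A (Set.range v) := by
    intro t _
    obtain ⟨x, hx⟩ := S.repr t
    have m0 : (1 : T) ∈ Submodule.span A (Set.range v) := Submodule.subset_span ⟨0, rfl⟩
    have m1 : -S.β ∈ Submodule.span A (Set.range v) := Submodule.subset_span ⟨1, rfl⟩
    have m2 : -S.α ∈ Submodule.span A (Set.range v) := Submodule.subset_span ⟨2, rfl⟩
    have : t = x 0 • (1 : T) + (-x 1) • (-S.α) + (-x 2) • (-S.β) := by
      rw [hx, Algebra.smul_def (x 0), mul_one, neg_smul_neg, neg_smul_neg]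
    rw [this]
    exact add_mem (add_mem (Submodule.smul_mem _ _ m0) (Submodule.smul_mem _ _ m2))
      (Submodule.smul_mem _ _ m1)
  let B : Basis (Fin 3) A T := Basis.mk hli hsp
  have b0 : B 0 = 1 := by rw [Basis.mk_apply]; rfl
  have b1 : B 1 = -S.β := by rw [Basis.mk_apply]; rfl
  have b2 : B 2 = -S.α := by rw [Basis.mk_apply]; rfl
  refine ⟨B, ⟨b0, ?_, ?_, ?_⟩, b1, b2⟩
  · rw [b1, b2, map_neg, mul_comm S.d S.a]
    linear_combination S.αβ
  · rw [b1, b2, map_neg, smul_neg, smul_neg, mul_comm S.d S.b]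
    linear_combination S.ββ
  · rw [b1, b2, map_neg, smul_neg, smul_neg, mul_comm S.c S.a]
    linear_combination S.αα

lemma FF_eq_F (S : Pool.Agent.WFT.Cubic A T) : FF S.d S.c S.b S.a = S.F := by
  unfold FF Pool.Agent.WFT.Cubic.F
  ring

variable {L : Type*} [IsDomain A] [IsDomain T] [Field L] [Algebra T L] [Algebra A L]
  [IsScalarTower A T L] [IsFractionRing T L]

lemma cubic_ne_zero (S : Pool.Agent.WFT.Cubic A T) : S.a ≠ 0 ∧ S.d ≠ 0 := by
  obtain ⟨B, hB, b1, b2⟩ := exists_basis_of_cubic S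
  have hinj := hB.inj
  have h : S.a * S.d ≠ 0 := by
    intro h0
    have h2 := S.αβ
    rw [h0, map_zero, neg_zero, mul_eq_zero] at h2
    rcases h2 with h2 | h2
    · exact B.ne_zero 2 (by rw [b2, h2, neg_zero])
    · exact B.ne_zero 1 (by rw [b1, h2, neg_zero])
  exact ⟨left_ne_zero_of_mul h, right_ne_zero_of_mul h⟩

/-- the two descriptions of `θ` agree -/
lemma theta_eq (S : Pool.Agent.WFT.Cubic A T) {θ : L} (hθ : IsTheta S θ) {B : Basis (Fin 3) A T}
    (hB : Cubic S.d S.c S.b S.a B) (b1 : B 1 = -S.β) : θ = th L S.d B := by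
  obtain ⟨ha, hd⟩ := cubic_ne_zero S
  have hinjL : Function.Injective (algebraMap T L) := IsFractionRing.injective T L
  have h1 := a_th (L := L) hB hinjL hd
  have hdne := a_ne (L := L) hB hinjL hd
  have hane : algebraMap A L S.a ≠ 0 := by
    rw [algMap_eq (R := T)]
    intro h
    rw [← map_zero (algebraMap T L)] at h
    have := hinjL h
    rw [← map_zero (algebraMap A T)] at this
    exact ha (hB.inj this)
  unfold IsTheta at hθ
  rw [← algMap_eq (R := T) (L := L)] at hθ
  have h2 := congrArg (algebraMap T L) S.αβ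
  rw [map_mul, map_neg, ← algMap_eq (R := T) (L := L), map_mul] at h2
  apply mul_left_cancel₀ hdne
  rw [h1, b1, map_neg]
  apply mul_left_cancel₀ hane
  linear_combination (-(algebraMap T L S.β)) * hθ + θ * h2

/-- **KER** -/
theorem ker_cubic [IsIntegrallyClosed T] (S : Pool.Agent.WFT.Cubic A T) {θ : L}
    (hθ : IsTheta S θ) : Prime S.F ∧ ∀ g : A[X], aeval θ g = 0 → S.F ∣ g := by
  obtain ⟨B, hB, b1, b2⟩ := exists_basis_of_cubic S
  obtain ⟨ha, hd⟩ := cubic_ne_zero S
  have hinjL : Function.Injective (algebraMap T L) := IsFractionRing.injective T L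
  have hθ' := theta_eq S hθ hB b1
  have hker : ∀ g : A[X], aeval θ g = 0 → S.F ∣ g := by
    intro g hg
    rw [hθ'] at hg
    rw [← FF_eq_F]
    exact ker_of_closed (L := L) hB hd g hg
  have hF0 : aeval θ S.F = 0 := by
    rw [hθ', ← FF_eq_F]
    exact aeval_FF hB hinjL hd
  refine ⟨⟨?_, ?_, ?_⟩, hker⟩
  · intro h0
    have := natDegree_FF (b := S.c) (c := S.b) (e := S.a) hd
    rw [FF_eq_F, h0] at this
    simp at this
  · intro hu
    exact (hu.map (aeval θ)).ne_zero hF0
  · intro f g hfg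
    obtain ⟨H, hH⟩ := hfg
    have h1 : aeval θ f * aeval θ g = 0 := by rw [← map_mul, hH, map_mul, hF0, zero_mul]
    rcases mul_eq_zero.1 h1 with h | h
    · exact Or.inl (hker f h)
    · exact Or.inr (hker g h)

end cubic

section omega

variable {A T L : Type*} [CommRing A] [IsDomain A] [CommRing T] [IsDomain T] [Algebra A T]
  [Field L] [Algebra T L] [Algebra A L] [IsScalarTower A T L] [IsFractionRing T L]
  {a b c e : A} {B : Basis (Fin 3) A T}

lemma gh_add (G G' : T →ₗ[A] A) : gh a c B (G + G') = gh a c B G + gh a c B G' := by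
  unfold gh
  simp only [LinearMap.add_apply, map_add, map_sub, map_mul]
  ring

/-- `g_{G(t ·)} = t g_G` -/
lemma Cubic.gh_mul (hB : Cubic a b c e B) (ha : a ≠ 0) (G : T →ₗ[A] A) (t : T) :
    gh a c B (G ∘ₗ LinearMap.mulLeft A t) = t * gh a c B G := by
  rw [← sub_eq_zero]
  apply hB.nondeg (mem_nonZeroDivisors_of_ne_zero ha)
  intro z
  have h : (gh a c B (G ∘ₗ LinearMap.mulLeft A t) - t * gh a c B G) * z =
      gh a c B (G ∘ₗ LinearMap.mulLeft A t) * z - gh a c B G * (t * z) := by ring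
  rw [h, map_sub, Finsupp.sub_apply, hB.lam_gh, hB.lam_gh]
  simp

lemma rt_eval_mem (hB : Cubic a b c e B) (ha : a ≠ 0) (G : T →ₗ[A] A) :
    aeval (th L a B) (rt a b B G) ∈ (Submodule.span T {1, th L a B} : Submodule T L) := by
  have hinjL : Function.Injective (algebraMap T L) := IsFractionRing.injective T L
  have h1 := a_th (L := L) hB hinjL ha
  have h2 := Y_eq (L := L) hB hinjL ha
  have h3 : aeval (th L a B) (rt a b B G) =
      (algebraMap A T (G (B 2)) + algebraMap A T (G (B 0)) * (B 2 - algebraMap A T c)) • (1 : L) +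
      (algebraMap A T (G (B 1))) • th L a B := by
    rw [Algebra.smul_def, Algebra.smul_def]
    unfold rt
    simp only [map_add, map_sub, map_mul, map_pow, aeval_C, aeval_X, ← algMap_eq (R := T) (L := L)]
    rw [h2]
    ring
  rw [h3]
  exact add_mem (Submodule.smul_mem _ _ (Submodule.subset_span (by simp)))
    (Submodule.smul_mem _ _ (Submodule.subset_span (by simp)))

/-- **the dual module of a cubic algebra is `(1, θ)`** -/
theorem isDual_span (hB : Cubic a b c e B) (ha : a ≠ 0) :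
    IsDual A T (Submodule.span T {1, th L a B} : Submodule T L) := by
  have hinjL : Function.Injective (algebraMap T L) := IsFractionRing.injective T L
  have hane := a_ne (L := L) hB hinjL ha
  have h1 := a_th (L := L) hB hinjL ha
  let W : Submodule T L := Submodule.span T {1, th L a B}
  let ρ : (T →ₗ[A] A) →+ W :=
    { toFun := fun G => ⟨aeval (th L a B) (rt a b B G), rt_eval_mem hB ha G⟩
      map_zero' := by
        apply Subtype.ext
        simp [rt]
      map_add' := by
        intro G G'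
        apply Subtype.ext
        change aeval (th L a B) (rt a b B (G + G')) = aeval (th L a B) (rt a b B G) +
          aeval (th L a B) (rt a b B G')
        apply mul_left_cancel₀ hane
        rw [mul_add, aeval_rt hB hinjL ha, aeval_rt hB hinjL ha, aeval_rt hB hinjL ha, gh_add,
          map_add] }
  have hρ : ∀ G, algebraMap A L a * (ρ G : L) = algebraMap T L (gh a c B G) :=
    fun G => aeval_rt hB hinjL ha G
  have hsmul : ∀ (t : T) (G : T →ₗ[A] A), ρ (G ∘ₗ LinearMap.mulLeft A t) = t • ρ G := by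
    intro t G
    apply Subtype.ext
    apply mul_left_cancel₀ hane
    rw [hρ, hB.gh_mul ha, map_mul, ← hρ]
    change _ = algebraMap A L a * (t • (ρ G : L))
    rw [Algebra.smul_def]
    ring
  have hinj : Function.Injective ρ := by
    rw [injective_iff_map_eq_zero]
    intro G hG
    have h2 := hρ G
    rw [hG] at h2
    have h3 : gh a c B G = 0 := by
      apply hinjL
      rw [← h2, map_zero]
      simp
    ext z
    have h4 := hB.lam_gh G z
    rw [h3, zero_mul, map_zero, Finsupp.zero_apply] at h4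
    simpa using (mul_eq_zero.1 h4.symm).resolve_left ha
  have e2 : (ρ (B.coord 2) : L) = 1 := by
    change aeval (th L a B) (rt a b B (B.coord 2)) = 1
    unfold rt
    simp
  have e1 : (ρ (B.coord 1) : L) = th L a B := by
    change aeval (th L a B) (rt a b B (B.coord 1)) = _
    unfold rt
    simp
  have hsurj : Function.Surjective ρ := by
    rintro ⟨w, hw⟩
    obtain ⟨s, t, hst⟩ := Submodule.mem_span_pair.1 hw
    refine ⟨B.coord 2 ∘ₗ LinearMap.mulLeft A s + B.coord 1 ∘ₗ LinearMap.mulLeft A t, ?_⟩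
    apply Subtype.ext
    rw [map_add, hsmul, hsmul]
    change s • (ρ (B.coord 2) : L) + t • (ρ (B.coord 1) : L) = w
    rw [e1, e2, hst]
  let E : (T →ₗ[A] A) ≃+ W := AddEquiv.ofBijective ρ ⟨hinj, hsurj⟩
  have hE : ∀ G, E G = ρ G := fun _ => rfl
  refine ⟨E.symm, ?_⟩
  intro t w x
  obtain ⟨G, rfl⟩ := E.surjective w
  rw [hE, ← hsmul, ← hE, ← hE, AddEquiv.symm_apply_apply, AddEquiv.symm_apply_apply]
  rfl

/-- **OMEGA3** -/
theorem isDual_theta (S : Pool.Agent.WFT.Cubic A T) {θ : L} (hθ : IsTheta S θ) :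
    IsDual A T (Submodule.span T {1, θ} : Submodule T L) := by
  obtain ⟨B, hB, b1, b2⟩ := exists_basis_of_cubic S
  obtain ⟨ha, hd⟩ := cubic_ne_zero S
  rw [theta_eq S hθ hB b1]
  exact isDual_span hB hd

end omega

section final

/-- **CUBIC** -/
theorem exists_wftCubic {d : ℕ} {k T : Type*} [Field k] [CommRing T] [IsDomain T] [IsLocalRing T]
    [Algebra (PS d k) T] [Module.Finite (PS d k) T] [Module.Free (PS d k) T]
    (hM : MM d k T) (hrk : Module.finrank (PS d k) T = 3) :
    ∃ S : Pool.Agent.WFT.Cubic (PS d k) T,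
    S.α ∈ maximalIdeal T ∧ S.β ∈ maximalIdeal T ∧ S.a ∈ maximalIdeal (PS d k) ∧
    S.b ∈ maximalIdeal (PS d k) ∧ S.c ∈ maximalIdeal (PS d k) ∧ S.d ∈ maximalIdeal (PS d k) := by
  have : IsDomain (PS d k) := NoZeroDivisors.to_isDomain _
  let b0 := Module.finBasisOfFinrankEq (PS d k) T hrk
  have h1 : (1 : T) ∉ (maximalIdeal (PS d k)).map (algebraMap (PS d k) T) := fun h =>
    (IsLocalRing.mem_maximalIdeal _).1 (hM.loc h) isUnit_one
  obtain ⟨a, b, c, e, B, hB⟩ := exists_cubic b0 h1
  obtain ⟨⟨ma, mb, mc, me⟩, ha, he, hm⟩ := hB.mem_maximalIdeal hM.loc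
    (fun r => by obtain ⟨x, hx⟩ := hM.res r; exact ⟨_, hx⟩)
    (hM.sq.trans Ideal.mul_le_left)
  refine ⟨⟨B 1, B 2, a, b, c, e, ?_, ?_, ?_, ?_, ?_⟩, ?_, ?_, ma, mb, mc, me⟩
  · intro t
    refine ⟨fun i => B.repr t i, ?_⟩
    rw [Algebra.smul_def, Algebra.smul_def]
    exact hB.expand t
  · intro x hx
    rw [Algebra.smul_def, Algebra.smul_def] at hx
    funext i
    fin_cases i
    · have := hB.nu_eq (x 0) (x 1) (x 2)
      rw [hx] at this
      simpa using this.symm
    · have := hB.mu_eq (x 0) (x 1) (x 2)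
      rw [hx] at this
      simpa using this.symm
    · have := hB.lam_eq (x 0) (x 1) (x 2)
      rw [hx] at this
      simpa using this.symm
  · rw [hB.xx, map_neg]
  · rw [hB.xy, map_neg]
  · rw [hB.yy, map_neg]
  · rw [hm]
    exact Ideal.mem_sup_right (Ideal.subset_span (by simp))
  · rw [hm]
    exact Ideal.mem_sup_right (Ideal.subset_span (by simp))

/-- **FEDDER** -/
theorem fedder {p : ℕ} [hp : Fact p.Prime] {d : ℕ} {k T L : Type*} [Field k] [CharP k p]
    [CommRing T] [IsDomain T] [IsLocalRing T] [IsIntegrallyClosed T]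
    [Algebra (PS d k) T] [Field L]
    [Algebra T L] [IsFractionRing T L] [Algebra (PS d k) L] [IsScalarTower (PS d k) T L]
    (hk : FFin k p) (hM : MM d k T) (S : Pool.Agent.WFT.Cubic (PS d k) T) {θ : L}
    (hθ : IsTheta S θ) {e N : ℕ} (hS : HasSplit T (p ^ e) N) :
    ∃ r : L, r ≠ 0 ∧ (∀ i ≤ p ^ e - 1, InT T (r * θ ^ i)) ∧
    ∀ j n : ℕ, (∀ i, S.F.coeff i ∈ maximalIdeal (PS d k) ^ j) → OrdGe (A := PS d k) θ r n →
      j * (p ^ e - 1) + n + N ≤ d * (p ^ e - 1) := by
  have : IsDomain (PS d k) := NoZeroDivisors.to_isDomain _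
  obtain ⟨B, hB, b1, b2⟩ := exists_basis_of_cubic S
  obtain ⟨⟨ma, mb, mc, me⟩, ha, he, hm⟩ := hB.mem_maximalIdeal hM.loc
    (fun r => by obtain ⟨x, hx⟩ := hM.res r; exact ⟨_, hx⟩)
    (hM.sq.trans Ideal.mul_le_left)
  obtain ⟨f₀, hf₀, φ, hφ, h1⟩ := hS
  have hθ' := theta_eq S hθ hB b1
  obtain ⟨r, hr0, hr1, hr2⟩ := cubic_bound (L := L) hk hB ha ma mb mc me hm.le hφ hf₀ h1
  rw [← hθ', FF_eq_F] at hr2
  rw [← hθ'] at hr1
  exact ⟨r, hr0, hr1, hr2⟩

end final

end Pool.Agent.Cub
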